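import Pool.Agent.Helper7.OT.Defs

set_option linter.all false

open MeasureTheory ProbabilityTheory Matrix Filter Topology
open scoped ENNReal NNReal

namespace Pool.Agent.Helper7.Simplex.OT

namespace J26897

/-- one dimensional monotone transport to the Gaussian -/
theorem transport_one (hQ : ∃ Q : ℝ → ℝ, ∀ s : ℝ, -(1 / 2) < s → s < 1 / 2 →
      HasDerivAt Q (gpdf (Q s))⁻¹ s)
    (f : ℝ → ℝ) (hf : Continuous f) (hpos : ∀ t, 0 < f t) (hint : Integrable f) :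
    0 < ∫ t, f t ∧
      ∃ T : ℝ → ℝ, ∀ t, HasDerivAt T (f t / ((∫ s, f s) * gpdf (T t))) t := by
  have hpos_set : ∀ s : Set ℝ, MeasurableSet s → 0 < volume s → 0 < ∫ t in s, f t := by
    intro s hs hvs
    rw [integral_pos_iff_support_of_nonneg (fun t => (hpos t).le) hint.integrableOn]
    have : Function.support f = Set.univ := by
      ext t
      simp [(hpos t).ne']
    rw [this, Measure.restrict_apply_univ]
    exact hvs
  have hI : 0 < ∫ t, f t := by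
    have h := hpos_set Set.univ MeasurableSet.univ (by simp)
    rwa [Measure.restrict_univ] at h
  refine ⟨hI, ?_⟩
  obtain ⟨Q, hQ⟩ := hQ
  set I : ℝ := ∫ s, f s with hIdef
  set F : ℝ → ℝ := fun t => ∫ x in Set.Iic t, f x with hF
  have hFd : ∀ t, HasDerivAt F (f t) t := by
    intro t
    have h1 : HasDerivAt (fun u => ∫ x in (0:ℝ)..u, f x) (f t) t :=
      intervalIntegral.integral_hasDerivAt_right (hf.intervalIntegrable _ _)
        (hf.stronglyMeasurableAtFilter _ _) hf.continuousAt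
    have h2 : F = fun u => (∫ x in Set.Iic (0:ℝ), f x) + ∫ x in (0:ℝ)..u, f x := by
      funext u
      have h3 := intervalIntegral.integral_Iic_sub_Iic (μ := volume) (f := f) (a := 0) (b := u)
        hint.integrableOn hint.integrableOn
      rw [← h3]
      simp only [hF]
      ring
    rw [h2]
    exact h1.const_add _
  have hF0 : ∀ t, 0 < F t := fun t => hpos_set _ measurableSet_Iic (by simp)
  have hF1 : ∀ t, F t < I := by
    intro t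
    have h1 : 0 < ∫ x in Set.Ioi t, f x := hpos_set _ measurableSet_Ioi (by simp)
    have h2 := intervalIntegral.integral_Iic_add_Ioi (μ := volume) (f := f) (b := t)
      hint.integrableOn hint.integrableOn
    have h3 : F t + ∫ x in Set.Ioi t, f x = I := h2
    linarith
  refine ⟨fun t => Q (F t / I - 1 / 2), fun t => ?_⟩
  have hs1 : -(1 / 2) < F t / I - 1 / 2 := by
    have := div_pos (hF0 t) hI
    linarith
  have hs2 : F t / I - 1 / 2 < 1 / 2 := by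
    have : F t / I < 1 := (div_lt_one hI).2 (hF1 t)
    linarith
  have h1 := hQ _ hs1 hs2
  have h2 : HasDerivAt (fun t => F t / I - 1 / 2) (f t / I) t := ((hFd t).div_const I).sub_const _
  have h3 := h1.comp t h2
  have h4 : (gpdf (Q (F t / I - 1 / 2)))⁻¹ * (f t / I) =
      f t / (I * gpdf (Q (F t / I - 1 / 2))) := by
    generalize gpdf (Q (F t / I - 1 / 2)) = c
    rw [div_eq_mul_inv, div_eq_mul_inv, mul_inv]
    ring
  rw [h4] at h3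
  exact h3

end J26897

namespace J26898

private theorem BL_gpdf_pos (u : ℝ) : 0 < gpdf u := by
  unfold gpdf; positivity

private theorem BL_gpdf_eq (u : ℝ) : gpdf u = gaussianPDFReal 0 1 u := by
  unfold gpdf gaussianPDFReal; simp

private theorem BL_gauss (d : ℕ) :
    ∫⁻ y : Fin d → ℝ, ENNReal.ofReal (∏ j, gpdf (y j)) = 1 := by
  have h1 : (∫ t : ℝ, gpdf t) = 1 := by
    simp_rw [BL_gpdf_eq]
    exact integral_gaussianPDFReal_eq_one 0 one_ne_zero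
  have h2 : Integrable gpdf := by
    have : gpdf = gaussianPDFReal 0 1 := funext BL_gpdf_eq
    rw [this]
    exact integrable_gaussianPDFReal 0 1
  have h3 : Integrable (fun y : Fin d → ℝ => ∏ j, gpdf (y j)) :=
    Integrable.fintype_prod (fun _ => h2)
  rw [← ofReal_integral_eq_lintegral_ofReal h3
    (Filter.Eventually.of_forall fun y => Finset.prod_nonneg fun j _ => (BL_gpdf_pos _).le)]
  rw [integral_fintype_prod_volume_eq_pow, h1, one_pow, ENNReal.ofReal_one]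

private theorem BL_gprod (d : ℕ) (y : Fin d → ℝ) :
    ∏ j, gpdf (y j) = (Real.sqrt (2 * Real.pi))⁻¹ ^ (d : ℝ) * Real.exp (-(y ⬝ᵥ y) / 2) := by
  unfold gpdf
  rw [Finset.prod_mul_distrib, Finset.prod_const, ← Real.exp_sum, Finset.card_univ,
    Fintype.card_fin, Real.rpow_natCast]
  congr 2
  rw [← Finset.sum_div, Finset.sum_neg_distrib]
  simp only [dotProduct, pow_two]

section
variable {d : ℕ} {ι : Type*} [Fintype ι] (w : ι → Fin d → ℝ)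

private theorem BL_ent (hI : ∑ i, vecMulVec (w i) (w i) = 1) (a b : Fin d) :
    ∑ i, w i a * w i b = if a = b then 1 else 0 := by
  have := congrFun (congrFun hI a) b
  rw [Matrix.sum_apply] at this
  simpa only [vecMulVec_apply, Matrix.one_apply] using this

private theorem BL_rec (hI : ∑ i, vecMulVec (w i) (w i) = 1) (y : Fin d → ℝ) :
    ∑ i, (w i ⬝ᵥ y) • w i = y := by
  ext a
  rw [Finset.sum_apply]
  simp only [Pi.smul_apply, smul_eq_mul, dotProduct, Finset.sum_mul]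
  rw [Finset.sum_comm]
  have : ∀ b, ∑ i, w i b * y b * w i a = (if a = b then 1 else 0) * y b := by
    intro b
    rw [← BL_ent w hI a b, Finset.sum_mul]
    refine Finset.sum_congr rfl fun i _ => by ring
  rw [Finset.sum_congr rfl fun b _ => this b]
  simp

private theorem BL_trace (hI : ∑ i, vecMulVec (w i) (w i) = 1) :
    ∑ i, w i ⬝ᵥ w i = d := by
  simp only [dotProduct]
  rw [Finset.sum_comm]
  simp [BL_ent w hI]

private theorem BL_par (hI : ∑ i, vecMulVec (w i) (w i) = 1) (y : Fin d → ℝ) :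
    ∑ i, (w i ⬝ᵥ y) ^ 2 = y ⬝ᵥ y := by
  conv_rhs => rw [← BL_rec w hI y]
  rw [sum_dotProduct]
  refine Finset.sum_congr rfl fun i _ => ?_
  rw [smul_dotProduct, BL_rec w hI y, smul_eq_mul, pow_two]

private theorem BL_norm (hI : ∑ i, vecMulVec (w i) (w i) = 1) (a : ι → ℝ) :
    (∑ i, a i • w i) ⬝ᵥ (∑ i, a i • w i) ≤ ∑ i, a i ^ 2 := by
  set y := ∑ i, a i • w i with hy
  have h1 : ∑ i, a i * (w i ⬝ᵥ y) = y ⬝ᵥ y := by
    conv_rhs => rw [hy, sum_dotProduct]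
    refine Finset.sum_congr rfl fun i _ => ?_
    rw [smul_dotProduct, smul_eq_mul]
  have h2 := BL_par w hI y
  have h3 : 0 ≤ ∑ i, (a i - w i ⬝ᵥ y) ^ 2 := Finset.sum_nonneg fun i _ => sq_nonneg _
  have h4 : ∑ i, (a i - w i ⬝ᵥ y) ^ 2 =
      ∑ i, a i ^ 2 - 2 * ∑ i, a i * (w i ⬝ᵥ y) + ∑ i, (w i ⬝ᵥ y) ^ 2 := by
    rw [Finset.mul_sum, ← Finset.sum_sub_distrib, ← Finset.sum_add_distrib]
    refine Finset.sum_congr rfl fun i _ => by ring
  rw [h4, h1, h2] at h3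
  linarith

end

/-- geometric Brascamp-Lieb inequality of rank one, positive continuous functions -/
theorem BL_pos {d : ℕ} {ι : Type*} [Fintype ι] (w : ι → Fin d → ℝ)
    (hI : ∑ i, vecMulVec (w i) (w i) = 1) (hc0 : ∀ i, 0 < w i ⬝ᵥ w i)
    (hdet : ∀ a : ι → ℝ, (∀ i, 0 < a i) → 0 < (∑ i, a i • vecMulVec (w i) (w i)).det ∧
      ∏ i, a i ^ (w i ⬝ᵥ w i) ≤ (∑ i, a i • vecMulVec (w i) (w i)).det)
    (hfd : ∀ (φ : ι → ℝ → ℝ) (φ' : ι → ℝ) (y : Fin d → ℝ),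
      (∀ i, HasDerivAt (φ i) (φ' i) (w i ⬝ᵥ y)) →
      ∃ L : (Fin d → ℝ) →L[ℝ] (Fin d → ℝ),
      HasFDerivAt (fun y : Fin d → ℝ => ∑ i, φ i (w i ⬝ᵥ y) • w i) L y ∧
      L.det = (∑ i, φ' i • vecMulVec (w i) (w i)).det)
    (ht : ∀ (f : ℝ → ℝ), Continuous f → (∀ t, 0 < f t) → Integrable f →
      0 < ∫ t, f t ∧ ∃ T : ℝ → ℝ, ∀ t, HasDerivAt T (f t / ((∫ s, f s) * gpdf (T t))) t)
    (f : ι → ℝ → ℝ) (hf : ∀ i, Continuous (f i)) (hpos : ∀ i t, 0 < f i t)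
    (hint : ∀ i, Integrable (f i)) :
    ∫⁻ x : Fin d → ℝ, ENNReal.ofReal (∏ i, (f i ((w i ⬝ᵥ x) / √(w i ⬝ᵥ w i))) ^ (w i ⬝ᵥ w i)) ≤
      ENNReal.ofReal (∏ i, (∫ t, f i t) ^ (w i ⬝ᵥ w i)) := by
  classical
  choose hIpos T hT using fun i => ht (f i) (hf i) (hpos i) (hint i)
  have hTpos : ∀ i t, 0 < f i t / ((∫ s, f i s) * gpdf (T i t)) := fun i t =>
    div_pos (hpos i t) (mul_pos (hIpos i) (BL_gpdf_pos _))
  have hTmono : ∀ i, StrictMono (T i) := fun i => strictMono_of_hasDerivAt_pos (hT i) (hTpos i)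
  have hsq : ∀ i, 0 < √(w i ⬝ᵥ w i) := fun i => Real.sqrt_pos.2 (hc0 i)
  let φ : ι → ℝ → ℝ := fun i s => √(w i ⬝ᵥ w i) * T i (s / √(w i ⬝ᵥ w i))
  let τ : ι → ℝ → ℝ := fun i s =>
    f i (s / √(w i ⬝ᵥ w i)) / ((∫ s, f i s) * gpdf (T i (s / √(w i ⬝ᵥ w i))))
  have hτpos : ∀ i s, 0 < τ i s := fun i s => hTpos i _
  have hφ : ∀ i s, HasDerivAt (φ i) (τ i s) s := by
    intro i s
    have h1 : HasDerivAt (fun s : ℝ => s / √(w i ⬝ᵥ w i)) (1 / √(w i ⬝ᵥ w i)) s :=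
      (hasDerivAt_id s).div_const _
    have h2 := ((hT i (s / √(w i ⬝ᵥ w i))).comp s h1).const_mul (√(w i ⬝ᵥ w i))
    refine h2.congr_deriv ?_
    have := (hsq i).ne'
    show _ = f i (s / √(w i ⬝ᵥ w i)) / ((∫ s, f i s) * gpdf (T i (s / √(w i ⬝ᵥ w i))))
    field_simp
  have hφmono : ∀ i, StrictMono (φ i) := fun i => strictMono_of_hasDerivAt_pos (hφ i) (hτpos i)
  let Y : (Fin d → ℝ) → (Fin d → ℝ) := fun y => ∑ i, φ i (w i ⬝ᵥ y) • w i
  have hL : ∀ y, ∃ L : (Fin d → ℝ) →L[ℝ] (Fin d → ℝ), HasFDerivAt Y L y ∧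
      L.det = (∑ i, τ i (w i ⬝ᵥ y) • vecMulVec (w i) (w i)).det := fun y =>
    hfd φ (fun i => τ i (w i ⬝ᵥ y)) y (fun i => hφ i _)
  choose L hLd hLdet using hL
  have hinj : Function.Injective Y := by
    intro x x' hxx
    have h0 : ∑ i, (φ i (w i ⬝ᵥ x) - φ i (w i ⬝ᵥ x')) * (w i ⬝ᵥ x - w i ⬝ᵥ x') = 0 := by
      have e1 : (Y x - Y x') ⬝ᵥ (x - x') = 0 := by rw [hxx, sub_self, zero_dotProduct]
      rw [← e1]
      show _ = (∑ i, φ i (w i ⬝ᵥ x) • w i - ∑ i, φ i (w i ⬝ᵥ x') • w i) ⬝ᵥ (x - x')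
      rw [← Finset.sum_sub_distrib, sum_dotProduct]
      refine Finset.sum_congr rfl fun i _ => ?_
      rw [← sub_smul, smul_dotProduct, dotProduct_sub, smul_eq_mul]
    have h1 : ∀ i ∈ (Finset.univ : Finset ι),
        0 ≤ (φ i (w i ⬝ᵥ x) - φ i (w i ⬝ᵥ x')) * (w i ⬝ᵥ x - w i ⬝ᵥ x') := by
      intro i _
      rcases le_total (w i ⬝ᵥ x) (w i ⬝ᵥ x') with h | h
      · exact mul_nonneg_of_nonpos_of_nonpos (sub_nonpos.2 ((hφmono i).monotone h))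
          (sub_nonpos.2 h)
      · exact mul_nonneg (sub_nonneg.2 ((hφmono i).monotone h)) (sub_nonneg.2 h)
    have h2 := (Finset.sum_eq_zero_iff_of_nonneg h1).1 h0
    have h3 : ∀ i, w i ⬝ᵥ x = w i ⬝ᵥ x' := by
      intro i
      rcases mul_eq_zero.1 (h2 i (Finset.mem_univ i)) with h | h
      · exact (hφmono i).injective (sub_eq_zero.1 h)
      · exact sub_eq_zero.1 h
    rw [← BL_rec w hI x, ← BL_rec w hI x']
    simp only [h3]
  let g : (Fin d → ℝ) → ℝ≥0∞ := fun y =>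
    ENNReal.ofReal (∏ i, (∫ t, f i t) ^ (w i ⬝ᵥ w i)) * ENNReal.ofReal (∏ j, gpdf (y j))
  have hC0 : 0 ≤ ∏ i, (∫ t, f i t) ^ (w i ⬝ᵥ w i) :=
    Finset.prod_nonneg fun i _ => Real.rpow_nonneg (hIpos i).le _
  have hpt : ∀ x : Fin d → ℝ,
      ENNReal.ofReal (∏ i, (f i ((w i ⬝ᵥ x) / √(w i ⬝ᵥ w i))) ^ (w i ⬝ᵥ w i)) ≤
      ENNReal.ofReal |(L x).det| * g (Y x) := by
    intro x
    have hD := hdet (fun i => τ i (w i ⬝ᵥ x)) (fun i => hτpos i _)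
    rw [← hLdet x] at hD
    have e1 : ∀ i, (f i ((w i ⬝ᵥ x) / √(w i ⬝ᵥ w i))) =
        (∫ t, f i t) * (gpdf (T i ((w i ⬝ᵥ x) / √(w i ⬝ᵥ w i))) * τ i (w i ⬝ᵥ x)) := by
      intro i
      have h1 := (hIpos i).ne'
      have h2 := (BL_gpdf_pos (T i ((w i ⬝ᵥ x) / √(w i ⬝ᵥ w i)))).ne'
      show _ = (∫ t, f i t) * (gpdf (T i ((w i ⬝ᵥ x) / √(w i ⬝ᵥ w i))) *
        (f i ((w i ⬝ᵥ x) / √(w i ⬝ᵥ w i)) /
          ((∫ s, f i s) * gpdf (T i ((w i ⬝ᵥ x) / √(w i ⬝ᵥ w i))))))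
      field_simp
    have e2 : ∏ i, (f i ((w i ⬝ᵥ x) / √(w i ⬝ᵥ w i))) ^ (w i ⬝ᵥ w i) =
        (∏ i, (∫ t, f i t) ^ (w i ⬝ᵥ w i)) *
        ((∏ i, (gpdf (T i ((w i ⬝ᵥ x) / √(w i ⬝ᵥ w i)))) ^ (w i ⬝ᵥ w i)) *
          ∏ i, (τ i (w i ⬝ᵥ x)) ^ (w i ⬝ᵥ w i)) := by
      rw [← Finset.prod_mul_distrib, ← Finset.prod_mul_distrib]
      refine Finset.prod_congr rfl fun i _ => ?_
      rw [← Real.mul_rpow (BL_gpdf_pos _).le (hτpos i _).le,
        ← Real.mul_rpow (hIpos i).le (mul_pos (BL_gpdf_pos _) (hτpos i _)).le, ← e1 i]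
    have e3 : ∏ i, (gpdf (T i ((w i ⬝ᵥ x) / √(w i ⬝ᵥ w i)))) ^ (w i ⬝ᵥ w i) ≤
        ∏ j, gpdf (Y x j) := by
      rw [BL_gprod]
      have a1 : ∀ i, (gpdf (T i ((w i ⬝ᵥ x) / √(w i ⬝ᵥ w i)))) ^ (w i ⬝ᵥ w i) =
          (Real.sqrt (2 * Real.pi))⁻¹ ^ (w i ⬝ᵥ w i) *
          Real.exp (-(φ i (w i ⬝ᵥ x)) ^ 2 / 2) := by
        intro i
        unfold gpdf
        rw [Real.mul_rpow (by positivity) (Real.exp_pos _).le, ← Real.exp_mul]
        congr 2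
        show _ = -(√(w i ⬝ᵥ w i) * T i ((w i ⬝ᵥ x) / √(w i ⬝ᵥ w i))) ^ 2 / 2
        rw [mul_pow, Real.sq_sqrt (hc0 i).le]
        ring
      rw [Finset.prod_congr rfl fun i _ => a1 i, Finset.prod_mul_distrib, ← Real.exp_sum,
        ← Real.rpow_sum_of_pos (by positivity), BL_trace w hI]
      refine mul_le_mul_of_nonneg_left (Real.exp_le_exp.2 ?_) (by positivity)
      have a2 := BL_norm w hI (fun i => φ i (w i ⬝ᵥ x))
      have a3 : ∑ i, -(φ i (w i ⬝ᵥ x)) ^ 2 / 2 = -(∑ i, (φ i (w i ⬝ᵥ x)) ^ 2) / 2 := by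
        rw [← Finset.sum_div, Finset.sum_neg_distrib]
      rw [a3]
      have a4 : Y x ⬝ᵥ Y x ≤ ∑ i, (φ i (w i ⬝ᵥ x)) ^ 2 := a2
      linarith
    rw [e2, abs_of_pos hD.1]
    show _ ≤ ENNReal.ofReal (L x).det *
      (ENNReal.ofReal (∏ i, (∫ t, f i t) ^ (w i ⬝ᵥ w i)) * ENNReal.ofReal (∏ j, gpdf (Y x j)))
    have hG0 : 0 ≤ ∏ j, gpdf (Y x j) := Finset.prod_nonneg fun j _ => (BL_gpdf_pos _).le
    rw [← ENNReal.ofReal_mul hC0, ← ENNReal.ofReal_mul hD.1.le]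
    refine ENNReal.ofReal_le_ofReal ?_
    have hP0 : 0 ≤ ∏ i, (τ i (w i ⬝ᵥ x)) ^ (w i ⬝ᵥ w i) :=
      Finset.prod_nonneg fun i _ => Real.rpow_nonneg (hτpos i _).le _
    have b1 := mul_le_mul e3 hD.2 hP0 hG0
    have b2 := mul_le_mul_of_nonneg_left b1 hC0
    refine b2.trans (le_of_eq ?_)
    ring
  calc ∫⁻ x : Fin d → ℝ, ENNReal.ofReal (∏ i, (f i ((w i ⬝ᵥ x) / √(w i ⬝ᵥ w i))) ^ (w i ⬝ᵥ w i))
      ≤ ∫⁻ x : Fin d → ℝ, ENNReal.ofReal |(L x).det| * g (Y x) := lintegral_mono hpt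
    _ = ∫⁻ x in Set.univ, ENNReal.ofReal |(L x).det| * g (Y x) := by
        rw [Measure.restrict_univ]
    _ = ∫⁻ y in Y '' Set.univ, g y :=
        (lintegral_image_eq_lintegral_abs_det_fderiv_mul volume MeasurableSet.univ
          (fun x _ => (hLd x).hasFDerivWithinAt) hinj.injOn g).symm
    _ ≤ ∫⁻ y, g y := setLIntegral_le_lintegral _ _
    _ = ENNReal.ofReal (∏ i, (∫ t, f i t) ^ (w i ⬝ᵥ w i)) := by
        simp only [g]
        rw [lintegral_const_mul' _ _ ENNReal.ofReal_ne_top, BL_gauss, mul_one]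

end J26898

namespace J26899

/-- geometric Brascamp-Lieb inequality of rank one, nonnegative continuous functions -/
theorem BL_nonneg {d : ℕ} {ι : Type*} [Fintype ι] (w : ι → Fin d → ℝ)
    (hc0 : ∀ i, 0 < w i ⬝ᵥ w i)
    (hBL : ∀ (f : ι → ℝ → ℝ), (∀ i, Continuous (f i)) → (∀ i t, 0 < f i t) →
      (∀ i, Integrable (f i)) →
      ∫⁻ x : Fin d → ℝ, ENNReal.ofReal (∏ i, (f i ((w i ⬝ᵥ x) / √(w i ⬝ᵥ w i))) ^ (w i ⬝ᵥ w i)) ≤
        ENNReal.ofReal (∏ i, (∫ t, f i t) ^ (w i ⬝ᵥ w i)))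
    (f : ι → ℝ → ℝ) (hf : ∀ i, Continuous (f i)) (hpos : ∀ i t, 0 ≤ f i t)
    (hint : ∀ i, Integrable (f i)) :
    ∫⁻ x : Fin d → ℝ, ENNReal.ofReal (∏ i, (f i ((w i ⬝ᵥ x) / √(w i ⬝ᵥ w i))) ^ (w i ⬝ᵥ w i)) ≤
      ENNReal.ofReal (∏ i, (∫ t, f i t) ^ (w i ⬝ᵥ w i)) := by
  set K : ℝ := ∫ t : ℝ, Real.exp (-(1 : ℝ) * t ^ 2) with hK
  have hgi : Integrable (fun t : ℝ => Real.exp (-(1 : ℝ) * t ^ 2)) :=
    integrable_exp_neg_mul_sq one_pos
  have hε : ∀ n : ℕ, (0:ℝ) < 1 / ((n : ℝ) + 1) := fun n => by positivity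
  have hmain : ∀ n : ℕ,
      ∫⁻ x : Fin d → ℝ, ENNReal.ofReal (∏ i, (f i ((w i ⬝ᵥ x) / √(w i ⬝ᵥ w i))) ^ (w i ⬝ᵥ w i)) ≤
        ENNReal.ofReal (∏ i, ((∫ t, f i t) + 1 / ((n : ℝ) + 1) * K) ^ (w i ⬝ᵥ w i)) := by
    intro n
    have h1 := hBL (fun i t => f i t + 1 / ((n : ℝ) + 1) * Real.exp (-(1 : ℝ) * t ^ 2))
      (fun i => (hf i).add (by fun_prop))
      (fun i t => add_pos_of_nonneg_of_pos (hpos i t) (mul_pos (hε n) (Real.exp_pos _)))
      (fun i => (hint i).add (hgi.const_mul _))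
    have h2 : ∀ i, ∫ t, (f i t + 1 / ((n : ℝ) + 1) * Real.exp (-(1 : ℝ) * t ^ 2)) =
        (∫ t, f i t) + 1 / ((n : ℝ) + 1) * K := by
      intro i
      rw [integral_add (hint i) (hgi.const_mul _), integral_const_mul]
    simp only [h2] at h1
    refine le_trans (lintegral_mono fun x => ENNReal.ofReal_le_ofReal ?_) h1
    refine Finset.prod_le_prod (fun i _ => Real.rpow_nonneg (hpos i _) _) (fun i _ => ?_)
    refine Real.rpow_le_rpow (hpos i _) ?_ (hc0 i).le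
    have := mul_pos (hε n) (Real.exp_pos (-(1 : ℝ) * ((w i ⬝ᵥ x) / √(w i ⬝ᵥ w i)) ^ 2))
    linarith
  have hlim : Tendsto (fun n : ℕ =>
      ENNReal.ofReal (∏ i, ((∫ t, f i t) + 1 / ((n : ℝ) + 1) * K) ^ (w i ⬝ᵥ w i))) atTop
      (𝓝 (ENNReal.ofReal (∏ i, (∫ t, f i t) ^ (w i ⬝ᵥ w i)))) := by
    apply ENNReal.tendsto_ofReal
    apply tendsto_finsetProd
    intro i _
    apply Tendsto.rpow_const _ (Or.inr (hc0 i).le)
    have h3 : Tendsto (fun n : ℕ => 1 / ((n : ℝ) + 1) * K) atTop (𝓝 (0 * K)) :=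
      tendsto_one_div_add_atTop_nhds_zero_nat.mul_const K
    have h4 := h3.const_add (∫ t, f i t)
    rwa [zero_mul, add_zero] at h4
  exact ge_of_tendsto' hlim hmain

end J26899

end Pool.Agent.Helper7.Simplex.OT
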