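import Pool.Agent.Helper7.OT.Defs

set_option linter.all false

open MeasureTheory ProbabilityTheory Matrix Filter Topology
open scoped ENNReal NNReal

namespace Pool.Agent.Helper7.Simplex.OT

namespace J24696

theorem aux_trace {d : ℕ} {ι : Type*} [Fintype ι] (w : ι → Fin d → ℝ)
    (hI : ∑ i, vecMulVec (w i) (w i) = 1) : ∑ i, w i ⬝ᵥ w i = d := by
  have h := congrArg Matrix.trace hI
  rw [Matrix.trace_sum, Matrix.trace_one, Fintype.card_fin] at h
  rw [← h]
  refine Finset.sum_congr rfl fun i _ => ?_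
  rw [Matrix.trace_vecMulVec]

/-- second difference quotient -/
noncomputable def auxD {d : ℕ} (Φ : EuclideanSpace ℝ (Fin d) → ℝ) (v : EuclideanSpace ℝ (Fin d))
    (τ : ℝ) (g : EuclideanSpace ℝ (Fin d)) : ℝ :=
  (Φ (g + τ • v) + Φ (g - τ • v) - 2 * Φ g) / τ ^ 2

theorem auxD_nonneg {d : ℕ} {Φ : EuclideanSpace ℝ (Fin d) → ℝ} (hconv : ConvexOn ℝ Set.univ Φ)
    (v : EuclideanSpace ℝ (Fin d)) (τ : ℝ) (g : EuclideanSpace ℝ (Fin d)) : 0 ≤ auxD Φ v τ g := by
  unfold auxD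
  apply div_nonneg _ (sq_nonneg _)
  have h := hconv.2 (Set.mem_univ (g + τ • v)) (Set.mem_univ (g - τ • v))
    (by norm_num : (0:ℝ) ≤ 1 / 2) (by norm_num : (0:ℝ) ≤ 1 / 2) (by norm_num)
  have e : (1 / 2 : ℝ) • (g + τ • v) + (1 / 2 : ℝ) • (g - τ • v) = g := by module
  rw [e] at h
  simp only [smul_eq_mul] at h
  linarith

theorem auxD_scale {d : ℕ} (Φ : EuclideanSpace ℝ (Fin d) → ℝ) (v : EuclideanSpace ℝ (Fin d))
    (τ : ℝ) (g : EuclideanSpace ℝ (Fin d)) (a : ℝ) (ha : a ≠ 0) :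
    auxD Φ v τ g = a ^ 2 * auxD Φ (a⁻¹ • v) (τ * a) g := by
  unfold auxD
  have h : (τ * a) • a⁻¹ • v = τ • v := by
    rw [smul_smul, mul_assoc, mul_inv_cancel₀ ha, mul_one]
  rw [h]
  by_cases hτ : τ = 0
  · subst hτ; simp
  · field_simp

theorem aux_inner {d : ℕ} (w : Fin d → ℝ) (g : EuclideanSpace ℝ (Fin d)) :
    inner ℝ (WithLp.toLp 2 w : EuclideanSpace ℝ (Fin d)) g = w ⬝ᵥ WithLp.ofLp g := by
  rw [PiLp.inner_apply]
  unfold dotProduct
  refine Finset.sum_congr rfl fun j _ => ?_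
  simp [mul_comm]

theorem aux_gd_pos {d : ℕ} (g : EuclideanSpace ℝ (Fin d)) : 0 < gdE g := by
  unfold gdE
  positivity

theorem aux_gd_cont {d : ℕ} : Continuous (gdE (d := d)) := by
  unfold gdE
  fun_prop

theorem aux_dot_cont {d : ℕ} (w : Fin d → ℝ) :
    Continuous (fun g : EuclideanSpace ℝ (Fin d) => w ⬝ᵥ WithLp.ofLp g) := by
  have h : (fun g : EuclideanSpace ℝ (Fin d) => w ⬝ᵥ WithLp.ofLp g)
      = fun g => inner ℝ (WithLp.toLp 2 w : EuclideanSpace ℝ (Fin d)) g := by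
    funext g
    rw [aux_inner]
  rw [h]
  exact continuous_const.inner continuous_id

theorem aux_tt_cont {d : ℕ} {ι : Type*} (w : ι → Fin d → ℝ) (i : ι) :
    Continuous (fun g : EuclideanSpace ℝ (Fin d) => tt w i (WithLp.ofLp g)) := by
  unfold tt
  exact continuous_const.add (((aux_dot_cont (w i)).pow 2).div_const _)

theorem aux_LL_cont {d : ℕ} {ι : Type*} [Fintype ι] (w : ι → Fin d → ℝ) :
    Continuous (fun g : EuclideanSpace ℝ (Fin d) => LL w (WithLp.ofLp g)) := by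
  unfold LL
  refine Continuous.add ?_ (continuous_const.mul ?_)
  · exact continuous_finsetSum _ fun i _ => continuous_const.mul (aux_tt_cont w i)
  · refine continuous_finsetSum _ fun i _ => continuous_finsetSum _ fun j _ =>
      continuous_const.mul ?_
    have h1 : Continuous (fun g : EuclideanSpace ℝ (Fin d) =>
        tt w i (WithLp.ofLp g) - tt w j (WithLp.ofLp g)) := (aux_tt_cont w i).sub (aux_tt_cont w j)
    have h2 : Continuous KK := by
      unfold KK
      fun_prop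
    exact h2.comp h1

theorem aux_flux {d : ℕ} {ι : Type*} [Fintype ι] (w : ι → Fin d → ℝ)
    (hc0 : ∀ i, 0 < w i ⬝ᵥ w i)
    (K : Set (EuclideanSpace ℝ (Fin d)))
    (hK : K = {x | ∀ i, |w i ⬝ᵥ WithLp.ofLp x| ≤ 1 / 2})
    (Φ : EuclideanSpace ℝ (Fin d) → ℝ) (hconv : ConvexOn ℝ Set.univ Φ)
    (hinc : ∀ g v c, (∀ x ∈ K, inner ℝ v x ≤ c) → Φ (g + v) ≤ Φ g + c)
    (hflux : ∀ (e : EuclideanSpace ℝ (Fin d)), ‖e‖ = 1 → ∀ (h : ℝ),
      (∀ g (t : ℝ), Φ (g + t • e) ≤ Φ g + h * |t|) → ∀ τ : ℝ, 0 < τ →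
      ∫⁻ g, ENNReal.ofReal ((Φ (g + τ • e) + Φ (g - τ • e) - 2 * Φ g) / τ ^ 2) *
      ENNReal.ofReal (gdE g * (√(2 * Real.pi) * Real.exp ((inner ℝ e g) ^ 2 / 2))) ≤
      ENNReal.ofReal (2 * h)) (i : ι) (τ : ℝ) (hτ : 0 < τ) :
    ∫⁻ g, ENNReal.ofReal (Real.exp (tt w i (WithLp.ofLp g)) * auxD Φ (WithLp.toLp 2 (w i)) τ g) *
      ENNReal.ofReal (gdE g) ≤ ENNReal.ofReal (w i ⬝ᵥ w i) := by
  set c := w i ⬝ᵥ w i with hc
  have hcpos : 0 < c := hc0 i
  set s := √c with hs
  have hspos : 0 < s := Real.sqrt_pos.2 hcpos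
  have hs2 : s ^ 2 = c := Real.sq_sqrt hcpos.le
  set W : EuclideanSpace ℝ (Fin d) := WithLp.toLp 2 (w i) with hW
  have hWn : ‖W‖ = s := by
    have h1 : ‖W‖ ^ 2 = c := by
      rw [← real_inner_self_eq_norm_sq, hW, aux_inner]
    rw [hs, ← h1, Real.sqrt_sq (norm_nonneg _)]
  set e : EuclideanSpace ℝ (Fin d) := s⁻¹ • W with he
  have hen : ‖e‖ = 1 := by
    rw [he, norm_smul, hWn, Real.norm_eq_abs, abs_of_pos (by positivity), inv_mul_cancel₀ hspos.ne']
  have hine : ∀ g, inner ℝ e g = s⁻¹ * (w i ⬝ᵥ WithLp.ofLp g) := by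
    intro g
    rw [he, inner_smul_left, hW, aux_inner]
    simp
  have hbound : ∀ g (t : ℝ), Φ (g + t • e) ≤ Φ g + 1 / (2 * s) * |t| := by
    intro g t
    apply hinc
    intro x hx
    rw [inner_smul_left, hine]
    rw [hK] at hx
    have h1 : |w i ⬝ᵥ WithLp.ofLp x| ≤ 1 / 2 := hx i
    have h2 : (starRingEnd ℝ) t = t := rfl
    rw [h2]
    calc t * (s⁻¹ * (w i ⬝ᵥ WithLp.ofLp x)) ≤ |t * (s⁻¹ * (w i ⬝ᵥ WithLp.ofLp x))| := le_abs_self _
      _ = |t| * (s⁻¹ * |w i ⬝ᵥ WithLp.ofLp x|) := by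
          rw [abs_mul, abs_mul, abs_of_pos (inv_pos.2 hspos)]
      _ ≤ |t| * (s⁻¹ * (1 / 2)) := by
          apply mul_le_mul_of_nonneg_left _ (abs_nonneg _)
          exact mul_le_mul_of_nonneg_left h1 (inv_pos.2 hspos).le
      _ = 1 / (2 * s) * |t| := by field_simp
  have hfl := hflux e hen (1 / (2 * s)) hbound (τ * s) (by positivity)
  have hexp : ∀ g : EuclideanSpace ℝ (Fin d), Real.exp (tt w i (WithLp.ofLp g))
      = s * (√(2 * Real.pi) * Real.exp ((inner ℝ e g) ^ 2 / 2)) := by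
    intro g
    unfold tt
    have e1 : (inner ℝ e g) ^ 2 / 2 = (w i ⬝ᵥ WithLp.ofLp g) ^ 2 / (2 * (w i ⬝ᵥ w i)) := by
      rw [hine, ← hc, ← hs2]
      field_simp
    rw [e1, Real.exp_add, Real.exp_add, ← hc]
    have e2 : Real.exp (1 / 2 * Real.log c) = s := by
      rw [hs, Real.sqrt_eq_rpow, Real.rpow_def_of_pos hcpos, mul_comm]
    have e3 : Real.exp (1 / 2 * Real.log (2 * Real.pi)) = √(2 * Real.pi) := by
      rw [Real.sqrt_eq_rpow, Real.rpow_def_of_pos (by positivity), mul_comm]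
    rw [e2, e3]
    ring
  have hint : ∀ g : EuclideanSpace ℝ (Fin d),
      ENNReal.ofReal (Real.exp (tt w i (WithLp.ofLp g)) * auxD Φ W τ g) * ENNReal.ofReal (gdE g)
      = ENNReal.ofReal (c * s) * (ENNReal.ofReal ((Φ (g + (τ * s) • e) + Φ (g - (τ * s) • e)
        - 2 * Φ g) / (τ * s) ^ 2) * ENNReal.ofReal (gdE g * (√(2 * Real.pi) *
          Real.exp ((inner ℝ e g) ^ 2 / 2)))) := by
    intro g
    have hD : auxD Φ W τ g = s ^ 2 * auxD Φ e (τ * s) g := auxD_scale Φ W τ g s hspos.ne'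
    have hDn : 0 ≤ auxD Φ e (τ * s) g := auxD_nonneg hconv _ _ _
    have hgp := (aux_gd_pos g).le
    change _ = ENNReal.ofReal (c * s) * (ENNReal.ofReal (auxD Φ e (τ * s) g) * _)
    rw [hexp, hD, ← ENNReal.ofReal_mul (by positivity), ← ENNReal.ofReal_mul hDn,
      ← ENNReal.ofReal_mul (by positivity), hs2]
    congr 1
    ring
  have hcongr : ∫⁻ g, ENNReal.ofReal (Real.exp (tt w i (WithLp.ofLp g)) * auxD Φ W τ g) *
      ENNReal.ofReal (gdE g) = ∫⁻ g, ENNReal.ofReal (c * s) *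
      (ENNReal.ofReal ((Φ (g + (τ * s) • e) + Φ (g - (τ * s) • e)
        - 2 * Φ g) / (τ * s) ^ 2) * ENNReal.ofReal (gdE g * (√(2 * Real.pi) *
          Real.exp ((inner ℝ e g) ^ 2 / 2)))) := lintegral_congr hint
  rw [hcongr, lintegral_const_mul' _ _ ENNReal.ofReal_ne_top]
  calc ENNReal.ofReal (c * s) * _ ≤ ENNReal.ofReal (c * s) * ENNReal.ofReal (2 * (1 / (2 * s))) :=
        mul_le_mul_right hfl _
    _ = ENNReal.ofReal c := by
        rw [← ENNReal.ofReal_mul (by positivity)]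
        congr 1
        field_simp

theorem aux_int_le {α : Type*} [MeasurableSpace α] (μ : Measure α) (f : α → ℝ) (b : ℝ)
    (hb : 0 ≤ b) (h : ∫⁻ x, ENNReal.ofReal (f x) ∂μ ≤ ENNReal.ofReal b) : ∫ x, f x ∂μ ≤ b := by
  by_cases hf : Integrable f μ
  · rw [integral_eq_lintegral_pos_part_sub_lintegral_neg_part hf]
    have h1 : (∫⁻ x, ENNReal.ofReal (f x) ∂μ).toReal ≤ b := ENNReal.toReal_le_of_le_ofReal hb h
    have h2 : 0 ≤ (∫⁻ x, ENNReal.ofReal (-f x) ∂μ).toReal := ENNReal.toReal_nonneg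
    linarith
  · rw [integral_undef hf]
    exact hb

/-- integrated inequality on a ball -/
theorem ball_ineq {d : ℕ} {ι : Type*} [Fintype ι] (w : ι → Fin d → ℝ)
    (hI : ∑ i, vecMulVec (w i) (w i) = 1) (hc0 : ∀ i, 0 < w i ⬝ᵥ w i)
    (K : Set (EuclideanSpace ℝ (Fin d)))
    (hK : K = {x | ∀ i, |w i ⬝ᵥ WithLp.ofLp x| ≤ 1 / 2}) (hKc : IsCompact K)
    (hKv : 0 < (volume K).toReal)
    (Ω : Set (EuclideanSpace ℝ (Fin d))) (hΩ : IsCompact Ω)
    (G : ℝ) (hG : G = ∫ g in Ω, gdE g) (hG0 : 0 < G)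
    (p μ : Measure (EuclideanSpace ℝ (Fin d))) [IsProbabilityMeasure p] [IsProbabilityMeasure μ]
    (hp : p = volume.withDensity (Ω.indicator fun g => ENNReal.ofReal (gdE g / G)))
    (Φ : EuclideanSpace ℝ (Fin d) → ℝ) (hconv : ConvexOn ℝ Set.univ Φ) (C : ℝ≥0)
    (hLip : LipschitzWith C Φ)
    (hinc : ∀ g v c, (∀ x ∈ K, inner ℝ v x ≤ c) → Φ (g + v) ≤ Φ g + c)
    (T : EuclideanSpace ℝ (Fin d) → EuclideanSpace ℝ (Fin d)) (hT : Measurable T)
    (hmap : μ.map T = p)
    (hpt : ∀ᵐ x ∂μ, T x ∈ Ω ∧ 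
      ∃ h : ι → ℝ, (∀ i, Tendsto (fun τ : ℝ => (Φ (T x + τ • WithLp.toLp 2 (w i)) +
        Φ (T x - τ • WithLp.toLp 2 (w i)) - 2 * Φ (T x)) / τ ^ 2) (𝓝[>] 0) (𝓝 (h i))) ∧
      Real.log (volume K).toReal + Real.log (gdE (T x) / G) + d + LL w (WithLp.ofLp (T x)) ≤
        ∑ i, Real.exp (tt w i (WithLp.ofLp (T x))) * h i)
    (hflux : ∀ (e : EuclideanSpace ℝ (Fin d)), ‖e‖ = 1 → ∀ (h : ℝ),
      (∀ g (t : ℝ), Φ (g + t • e) ≤ Φ g + h * |t|) → ∀ τ : ℝ, 0 < τ →
      ∫⁻ g, ENNReal.ofReal ((Φ (g + τ • e) + Φ (g - τ • e) - 2 * Φ g) / τ ^ 2) *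
      ENNReal.ofReal (gdE g * (√(2 * Real.pi) * Real.exp ((inner ℝ e g) ^ 2 / 2))) ≤
      ENNReal.ofReal (2 * h)) :
    G * (Real.log (volume K).toReal - Real.log G + d) +
      ∫ g in Ω, (Real.log (gdE g) + LL w (WithLp.ofLp g)) * gdE g ≤ d := by
  have hΦc : Continuous Φ := hLip.continuous
  have htr := aux_trace w hI
  set V := Real.log (volume K).toReal with hV
  let F : EuclideanSpace ℝ (Fin d) → ℝ := fun g =>
    V + Real.log (gdE g / G) + d + LL w (WithLp.ofLp g)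
  have hlogc : Continuous (fun g : EuclideanSpace ℝ (Fin d) => Real.log (gdE g)) :=
    Real.continuousOn_log.comp_continuous aux_gd_cont (fun g => (aux_gd_pos g).ne')
  have hlogc' : Continuous (fun g : EuclideanSpace ℝ (Fin d) => Real.log (gdE g / G)) :=
    Real.continuousOn_log.comp_continuous (aux_gd_cont.div_const _)
      (fun g => (div_pos (aux_gd_pos g) hG0).ne')
  have hFc : Continuous F :=
    ((continuous_const.add hlogc').add continuous_const).add (aux_LL_cont w)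
  let P : ℕ → EuclideanSpace ℝ (Fin d) → ℝ := fun n g =>
    ∑ i, Real.exp (tt w i (WithLp.ofLp g)) *
      auxD Φ (WithLp.toLp 2 (w i)) (1 / ((n : ℝ) + 1)) g
  have hPc : ∀ n, Continuous (P n) := by
    intro n
    refine continuous_finsetSum _ fun i _ => ?_
    refine (Real.continuous_exp.comp (aux_tt_cont w i)).mul ?_
    unfold auxD
    fun_prop
  have hPm : ∀ n, Measurable (fun g => ENNReal.ofReal (P n g)) := fun n =>
    ENNReal.measurable_ofReal.comp (hPc n).measurable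
  -- the bound for every n
  have hbn : ∀ n, ∫⁻ x, ENNReal.ofReal (P n (T x)) ∂μ ≤ ENNReal.ofReal (d / G) := by
    intro n
    have hτ : (0:ℝ) < 1 / ((n : ℝ) + 1) := by positivity
    have h1 : ∫⁻ x, ENNReal.ofReal (P n (T x)) ∂μ = ∫⁻ g, ENNReal.ofReal (P n g) ∂p := by
      rw [← hmap, lintegral_map (hPm n) hT]
    have hmd : Measurable (Ω.indicator fun g : EuclideanSpace ℝ (Fin d) =>
        ENNReal.ofReal (gdE g / G)) :=
      (ENNReal.measurable_ofReal.comp (aux_gd_cont.div_const _).measurable).indicator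
        hΩ.isClosed.measurableSet
    rw [h1, hp, lintegral_withDensity_eq_lintegral_mul _ hmd (hPm n)]
    have h2 : ∀ g, ((Ω.indicator fun g : EuclideanSpace ℝ (Fin d) =>
        ENNReal.ofReal (gdE g / G)) * fun g => ENNReal.ofReal (P n g)) g
        ≤ ENNReal.ofReal (1 / G) * ∑ i, ENNReal.ofReal (Real.exp (tt w i (WithLp.ofLp g)) *
          auxD Φ (WithLp.toLp 2 (w i)) (1 / ((n : ℝ) + 1)) g) * ENNReal.ofReal (gdE g) := by
      intro g
      rw [Pi.mul_apply, ← Finset.sum_mul, ← ENNReal.ofReal_sum_of_nonneg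
        (fun i _ => mul_nonneg (Real.exp_pos _).le (auxD_nonneg hconv _ _ _))]
      have h3 : (Ω.indicator fun g : EuclideanSpace ℝ (Fin d) => ENNReal.ofReal (gdE g / G)) g
          ≤ ENNReal.ofReal (1 / G) * ENNReal.ofReal (gdE g) := by
        refine (Set.indicator_le_self _ _ g).trans ?_
        rw [← ENNReal.ofReal_mul (by positivity)]
        apply ENNReal.ofReal_le_ofReal
        apply le_of_eq
        ring
      calc _ ≤ (ENNReal.ofReal (1 / G) * ENNReal.ofReal (gdE g)) * ENNReal.ofReal (P n g) :=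
            mul_le_mul_left h3 _
        _ = ENNReal.ofReal (1 / G) * (ENNReal.ofReal (P n g) * ENNReal.ofReal (gdE g)) := by
            rw [mul_assoc, mul_comm (ENNReal.ofReal (gdE g))]
    refine (lintegral_mono h2).trans ?_
    rw [lintegral_const_mul' _ _ ENNReal.ofReal_ne_top, lintegral_finsetSum]
    · calc ENNReal.ofReal (1 / G) * ∑ i, ∫⁻ g, ENNReal.ofReal (Real.exp (tt w i (WithLp.ofLp g)) *
            auxD Φ (WithLp.toLp 2 (w i)) (1 / ((n : ℝ) + 1)) g) * ENNReal.ofReal (gdE g)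
          ≤ ENNReal.ofReal (1 / G) * ∑ i, ENNReal.ofReal (w i ⬝ᵥ w i) := by
            apply mul_le_mul_right
            exact Finset.sum_le_sum fun i _ => aux_flux w hc0 K hK Φ hconv hinc hflux i _ hτ
        _ = ENNReal.ofReal (d / G) := by
            rw [← ENNReal.ofReal_sum_of_nonneg (fun i _ => (hc0 i).le), htr,
              ← ENNReal.ofReal_mul (by positivity)]
            congr 1
            ring
    · intro i _
      refine Measurable.mul ?_ (ENNReal.measurable_ofReal.comp aux_gd_cont.measurable)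
      refine ENNReal.measurable_ofReal.comp (Continuous.measurable ?_)
      refine (Real.continuous_exp.comp (aux_tt_cont w i)).mul ?_
      unfold auxD
      fun_prop
  -- Fatou
  have hfat : ∫⁻ x, ENNReal.ofReal (F (T x)) ∂μ ≤ ENNReal.ofReal (d / G) := by
    have h1 : ∫⁻ x, ENNReal.ofReal (F (T x)) ∂μ
        ≤ ∫⁻ x, liminf (fun n => ENNReal.ofReal (P n (T x))) atTop ∂μ := by
      apply lintegral_mono_ae
      filter_upwards [hpt] with x hx
      obtain ⟨_, h, hh, hle⟩ := hx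
      have hτ : Tendsto (fun n : ℕ => 1 / ((n : ℝ) + 1)) atTop (𝓝[>] 0) := by
        rw [tendsto_nhdsWithin_iff]
        refine ⟨tendsto_one_div_add_atTop_nhds_zero_nat, ?_⟩
        filter_upwards with n
        exact (by positivity : (0:ℝ) < 1 / ((n : ℝ) + 1))
      have hlim : Tendsto (fun n => P n (T x)) atTop
          (𝓝 (∑ i, Real.exp (tt w i (WithLp.ofLp (T x))) * h i)) := by
        refine tendsto_finsetSum _ fun i _ => ?_
        exact ((hh i).comp hτ).const_mul _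
      have hlim2 := (ENNReal.continuous_ofReal.tendsto _).comp hlim
      have h3 : liminf (fun n => ENNReal.ofReal (P n (T x))) atTop
          = ENNReal.ofReal (∑ i, Real.exp (tt w i (WithLp.ofLp (T x))) * h i) := hlim2.liminf_eq
      rw [h3]
      exact ENNReal.ofReal_le_ofReal hle
    refine h1.trans ?_
    refine (lintegral_liminf_le fun n => (hPm n).comp hT).trans ?_
    apply liminf_le_of_frequently_le'
    exact Frequently.of_forall hbn
  have hFT : ∫ x, F (T x) ∂μ ≤ d / G := aux_int_le μ _ _ (by positivity) hfat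
  have hFp : ∫ x, F (T x) ∂μ = ∫ g, F g ∂p := by
    rw [← hmap, integral_map hT.aemeasurable hFc.aestronglyMeasurable]
  have hFv : ∫ g, F g ∂p = (1 / G) * ∫ g in Ω, F g * gdE g := by
    have hmΩ := hΩ.isClosed.measurableSet
    have hp' : p = (volume.restrict Ω).withDensity (fun g => ENNReal.ofReal (gdE g / G)) := by
      rw [hp, withDensity_indicator hmΩ]
    have hmd2 : Measurable (fun g : EuclideanSpace ℝ (Fin d) => ENNReal.ofReal (gdE g / G)) :=
      ENNReal.measurable_ofReal.comp (aux_gd_cont.div_const _).measurable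
    rw [hp', integral_withDensity_eq_integral_toReal_smul hmd2
      (by filter_upwards with g using ENNReal.ofReal_lt_top)]
    rw [← integral_const_mul]
    refine integral_congr_ae ?_
    filter_upwards with g
    rw [ENNReal.toReal_ofReal (div_pos (aux_gd_pos g) hG0).le, smul_eq_mul]
    ring
  have hsplit : ∫ g in Ω, F g * gdE g = G * (V - Real.log G + d) +
      ∫ g in Ω, (Real.log (gdE g) + LL w (WithLp.ofLp g)) * gdE g := by
    have e1 : ∀ g, F g * gdE g = (V - Real.log G + d) * gdE g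
        + (Real.log (gdE g) + LL w (WithLp.ofLp g)) * gdE g := by
      intro g
      have : Real.log (gdE g / G) = Real.log (gdE g) - Real.log G :=
        Real.log_div (aux_gd_pos g).ne' hG0.ne'
      simp only [F]
      rw [this]
      ring
    simp only [e1]
    rw [integral_add, integral_const_mul, ← hG]
    · ring
    · exact (continuous_const.mul aux_gd_cont).continuousOn.integrableOn_compact hΩ
    · exact ((hlogc.add (aux_LL_cont w)).mul aux_gd_cont).continuousOn.integrableOn_compact hΩ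
  rw [← hsplit]
  rw [hFp, hFv] at hFT
  have h4 : ∫ g in Ω, F g * gdE g = G * (1 / G * ∫ g in Ω, F g * gdE g) := by
    field_simp
  rw [h4]
  calc G * (1 / G * ∫ g in Ω, F g * gdE g) ≤ G * (d / G) := mul_le_mul_of_nonneg_left hFT hG0.le
    _ = d := by field_simp

end J24696

end Pool.Agent.Helper7.Simplex.OT
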