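import Pool.Agent.Helper7.OT.Defs

set_option linter.all false

open MeasureTheory ProbabilityTheory Matrix Filter Topology
open scoped ENNReal NNReal

namespace Pool.Agent.Helper7.Simplex.OT

namespace J26900

theorem naimark_key {m : ℕ} (x y : EuclideanSpace ℝ (Fin m)) : inner ℝ x y = ∑ i, x i * y i := by
  rw [PiLp.inner_apply]
  exact Finset.sum_congr rfl (fun i _ => mul_comm _ _)

theorem naimark_orth {d m : ℕ} (c : Fin d → EuclideanSpace ℝ (Fin m)) (hc : Orthonormal ℝ c) :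
    ∃ (r : ℕ) (b : Fin r → EuclideanSpace ℝ (Fin m)), d + r = m ∧ Orthonormal ℝ b ∧
      ∀ a j, inner ℝ (c a) (b j) = 0 := by
  classical
  let W : Submodule ℝ (EuclideanSpace ℝ (Fin m)) := Submodule.span ℝ (Set.range c)
  have hWd : Module.finrank ℝ W = d := by
    have := finrank_span_eq_card hc.linearIndependent
    simpa using this
  have hsum : Module.finrank ℝ W + Module.finrank ℝ Wᗮ = m := by
    rw [Submodule.finrank_add_finrank_orthogonal]
    simp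
  let b := stdOrthonormalBasis ℝ Wᗮ
  refine ⟨Module.finrank ℝ Wᗮ, fun j => ((b j : Wᗮ) : EuclideanSpace ℝ (Fin m)), by omega, ?_, ?_⟩
  · exact b.orthonormal.comp_linearIsometry Wᗮ.subtypeₗᵢ
  · intro a j
    exact (Submodule.mem_orthogonal W _).1 (b j).2 (c a) (Submodule.subset_span ⟨a, rfl⟩)

/-- complementary frame -/
theorem naimark {d m : ℕ} (u : Fin m → Fin d → ℝ) (hI : ∑ i, vecMulVec (u i) (u i) = 1) :
    ∃ (r : ℕ) (v : Fin m → Fin r → ℝ), d + r = m ∧ ∑ i, vecMulVec (v i) (v i) = 1 ∧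
      (∀ i j, u i ⬝ᵥ u j + v i ⬝ᵥ v j = if i = j then 1 else 0) ∧
      (∀ a b, ∑ i, u i a * v i b = 0) := by
  classical
  have hI' : ∀ a a', ∑ i, u i a * u i a' = if a = a' then 1 else 0 := by
    intro a a'
    have h := congrFun (congrFun hI a) a'
    simpa [Matrix.sum_apply, vecMulVec_apply, Matrix.one_apply] using h
  obtain ⟨r, b, hr, hb, hcb⟩ := naimark_orth (fun a => WithLp.toLp 2 (fun i => u i a) :
    Fin d → EuclideanSpace ℝ (Fin m)) (by
      rw [orthonormal_iff_ite]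
      intro a a'
      rw [naimark_key]
      exact hI' a a')
  have hvv : ∀ j j', ∑ i, b j i * b j' i = if j = j' then 1 else 0 := by
    intro j j'
    rw [← (orthonormal_iff_ite.1 hb) j j', naimark_key]
  have huv : ∀ a j, ∑ i, u i a * b j i = 0 := by
    intro a j
    have h1 := hcb a j
    rw [naimark_key] at h1
    exact h1
  clear hcb hb
  refine ⟨r, fun i j => b j i, hr, ?_, ?_, huv⟩
  · ext j j'
    simp only [Matrix.sum_apply, vecMulVec_apply, Matrix.one_apply]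
    exact hvv j j'
  · let M : Matrix (Fin m) (Fin d ⊕ Fin r) ℝ :=
      Matrix.of (fun i => Sum.elim (u i) (fun j => b j i))
    have hM : Mᵀ * M = 1 := by
      ext x y
      rw [Matrix.mul_apply]
      rcases x with a | j <;> rcases y with a' | j'
      · simp only [M, Matrix.transpose_apply, Matrix.of_apply, Sum.elim_inl, Matrix.one_apply,
          Sum.inl.injEq]
        exact hI' a a'
      · simp only [M, Matrix.transpose_apply, Matrix.of_apply, Sum.elim_inl, Sum.elim_inr,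
          Matrix.one_apply]
        rw [huv a j', if_neg (by simp)]
      · simp only [M, Matrix.transpose_apply, Matrix.of_apply, Sum.elim_inl, Sum.elim_inr,
          Matrix.one_apply]
        rw [if_neg (by simp), ← huv a' j]
        exact Finset.sum_congr rfl (fun i _ => mul_comm _ _)
      · simp only [M, Matrix.transpose_apply, Matrix.of_apply, Sum.elim_inr, Matrix.one_apply,
          Sum.inr.injEq]
        exact hvv j j'
    have hM2 : M * Mᵀ = 1 := by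
      rw [← Matrix.mul_eq_one_comm_of_card_eq]
      · exact hM
      · simp only [Fintype.card_sum, Fintype.card_fin]
        omega
    intro i j
    have h := congrFun (congrFun hM2 i) j
    rw [Matrix.mul_apply, Matrix.one_apply, Fintype.sum_sum_type] at h
    simpa [M, dotProduct] using h

end J26900

namespace J26901

theorem section_fourier_mp {d r m : ℕ} (hm : d + r = m) (u : Fin m → Fin d → ℝ)
    (v : Fin m → Fin r → ℝ)
    (hG : ∀ i j, u i ⬝ᵥ u j + v i ⬝ᵥ v j = if i = j then 1 else 0) :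
    MeasurePreserving (fun z : Fin m → ℝ =>
      (((fun a => ∑ i, z i * u i a), (fun b => ∑ i, z i * v i b)) :
        (Fin d → ℝ) × (Fin r → ℝ))) volume volume := by
  let e : Fin d ⊕ Fin r ≃ Fin m := finSumFinEquiv.trans (finCongr hm)
  let M : Matrix (Fin d ⊕ Fin r) (Fin d ⊕ Fin r) ℝ := fun p q => Sum.elim (u (e p)) (v (e p)) q
  have hMM : M * Mᵀ = 1 := by
    ext p q
    rw [Matrix.mul_apply, Fintype.sum_sum_type]
    have h1 := hG (e p) (e q)
    simp only [dotProduct] at h1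
    simp only [Matrix.transpose_apply, M, Sum.elim_inl, Sum.elim_inr]
    rw [h1, Matrix.one_apply]
    simp
  have hdet : (Mᵀ).det * (Mᵀ).det = 1 := by
    have := congrArg Matrix.det hMM
    rwa [Matrix.det_mul, Matrix.det_one, ← Matrix.det_transpose M] at this
  have hdet0 : (Mᵀ).det ≠ 0 := by
    intro h; rw [h] at hdet; simp at hdet
  have habs : |((Mᵀ).det)⁻¹| = 1 := by
    rcases mul_self_eq_one_iff.1 hdet with h | h <;> simp [h]
  have h2 : MeasurePreserving (Matrix.toLin' Mᵀ) (volume : Measure (Fin d ⊕ Fin r → ℝ)) volume := by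
    refine ⟨(Matrix.toLin' Mᵀ).continuous_of_finiteDimensional.measurable, ?_⟩
    rw [Real.map_matrix_volume_pi_eq_smul_volume_pi hdet0, habs]
    simp
  have h1 : MeasurePreserving (fun z : Fin m → ℝ => fun q : Fin d ⊕ Fin r => z (e q))
      volume volume :=
    (volume_measurePreserving_piCongrLeft (fun _ : Fin m => ℝ) e).symm
  have h3 : MeasurePreserving (MeasurableEquiv.sumPiEquivProdPi (fun _ : Fin d ⊕ Fin r => ℝ))
      volume volume := measurePreserving_sumPiEquivProdPi (fun _ => volume)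
  have h4 := h3.comp (h2.comp h1)
  convert h4 using 1
  funext z
  have hsum : ∀ q : Fin d ⊕ Fin r, (Matrix.toLin' Mᵀ) (fun q => z (e q)) q =
      ∑ i, z i * Sum.elim (u i) (v i) q := by
    intro q
    rw [Matrix.toLin'_apply, Matrix.mulVec, dotProduct, ← Equiv.sum_comp e]
    exact Finset.sum_congr rfl fun p _ => mul_comm _ _
  refine Prod.ext ?_ ?_
  · funext a
    exact (hsum (Sum.inl a)).symm
  · funext b
    exact (hsum (Sum.inr b)).symm

theorem section_fourier_sinc (a : ℝ) :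
    ∫ t in Set.Ioo (-(1 / 2) : ℝ) (1 / 2), Complex.exp ((2 * Real.pi * a * t : ℝ) * Complex.I) =
      (Real.sinc (Real.pi * a) : ℂ) := by
  rw [← integral_Ioc_eq_integral_Ioo, ← intervalIntegral.integral_of_le (by norm_num)]
  by_cases ha : a = 0
  · subst ha
    simp
    norm_num
  · have h1 := intervalIntegral.integral_comp_mul_left
      (f := fun t : ℝ => Complex.exp ((t : ℂ) * Complex.I)) (a := -(1 / 2)) (b := 1 / 2)
      (c := 2 * Real.pi * a) (by positivity)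
    have h2 : 2 * Real.pi * a * -(1 / 2) = -(Real.pi * a) := by ring
    have h3 : 2 * Real.pi * a * (1 / 2) = Real.pi * a := by ring
    rw [h2, h3, integral_exp_mul_I_eq_sinc] at h1
    have hpi : (Real.pi : ℂ) ≠ 0 := by exact_mod_cast Real.pi_ne_zero
    have ha' : (a : ℂ) ≠ 0 := by exact_mod_cast ha
    rw [h1, Complex.real_smul]
    push_cast
    field_simp

theorem section_fourier_E {r m : ℕ} (v : Fin m → Fin r → ℝ) (β : ℝ) (hβ : 0 < β) :
    ∫⁻ z in Set.pi Set.univ (fun _ : Fin m => Set.Ioo (-(1 / 2) : ℝ) (1 / 2)),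
      ENNReal.ofReal ((Real.pi / β) ^ ((r : ℝ) / 2) *
        Real.exp (-(Real.pi ^ 2 * ∑ b, (∑ i, z i * v i b) ^ 2 / β))) ≤
      ∫⁻ s : Fin r → ℝ, ENNReal.ofReal (∏ i, |Real.sinc (Real.pi * (v i ⬝ᵥ s))|) := by
  set μ : Measure (Fin m → ℝ) :=
    volume.restrict (Set.pi Set.univ (fun _ : Fin m => Set.Ioo (-(1 / 2) : ℝ) (1 / 2))) with hμ
  have hμpi : μ = Measure.pi (fun _ : Fin m => volume.restrict (Set.Ioo (-(1 / 2) : ℝ) (1 / 2))) := by
    rw [hμ, volume_pi, Measure.restrict_pi_pi]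
  have : IsFiniteMeasure μ := by rw [hμpi]; infer_instance
  have hK0 : (0 : ℝ) ≤ (Real.pi / β) ^ ((r : ℝ) / 2) := by positivity
  have hsq : ∀ z : Fin m → ℝ, 0 ≤ Real.pi ^ 2 * ∑ b : Fin r, (∑ i, z i * v i b) ^ 2 / β := by
    intro z
    have : 0 ≤ ∑ b : Fin r, (∑ i, z i * v i b) ^ 2 / β :=
      Finset.sum_nonneg fun b _ => by positivity
    positivity
  -- the function `f`
  let f : (Fin m → ℝ) → (Fin r → ℝ) → ℂ := fun z s =>
    Complex.exp (-(β : ℂ) * ∑ b, (s b : ℂ) ^ 2 +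
      ∑ b, (((2 * Real.pi * ∑ i, z i * v i b : ℝ) : ℂ) * Complex.I) * s b)
  have hfs : ∀ z, ∫ s, f z s = (((Real.pi / β) ^ ((r : ℝ) / 2) *
        Real.exp (-(Real.pi ^ 2 * ∑ b, (∑ i, z i * v i b) ^ 2 / β)) : ℝ) : ℂ) := by
    intro z
    have h1 := GaussianFourier.integral_cexp_neg_mul_sum_add (b := (β : ℂ)) (by simpa using hβ)
      (fun b : Fin r => (((2 * Real.pi * ∑ i, z i * v i b : ℝ) : ℂ) * Complex.I))
    have h2 : ∫ s, f z s = ∫ s : Fin r → ℝ, Complex.exp (-(β : ℂ) * ∑ b, (s b : ℂ) ^ 2 +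
      ∑ b, (((2 * Real.pi * ∑ i, z i * v i b : ℝ) : ℂ) * Complex.I) * s b) := rfl
    rw [h2, h1, Complex.ofReal_mul, Complex.ofReal_cpow (by positivity), Complex.ofReal_exp]
    have hβ' : (β : ℂ) ≠ 0 := by exact_mod_cast hβ.ne'
    congr 1
    · simp
    · congr 1
      push_cast
      rw [Finset.mul_sum, ← Finset.sum_neg_distrib, Finset.sum_div]
      refine Finset.sum_congr rfl fun b _ => ?_
      rw [mul_pow, Complex.I_sq]
      field_simp
      ring
  have hfn : ∀ z s, ‖f z s‖ = Real.exp (-β * ∑ b, (s b) ^ 2) := by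
    intro z s
    rw [Complex.norm_exp]
    congr 1
    have h1 : (∑ b, (((2 * Real.pi * ∑ i, z i * v i b : ℝ) : ℂ) * Complex.I) * (s b : ℂ)).re = 0 := by
      rw [Complex.re_sum]
      refine Finset.sum_eq_zero fun b _ => ?_
      rw [mul_assoc, Complex.re_ofReal_mul, Complex.re_mul_ofReal, Complex.I_re]
      simp
    rw [Complex.add_re, h1, add_zero]
    have h2 : (-(β : ℂ) * ∑ b, (s b : ℂ) ^ 2) = ((-β * ∑ b, (s b) ^ 2 : ℝ) : ℂ) := by push_cast; rfl
    rw [h2, Complex.ofReal_re]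
  have hgauss : Integrable (fun s : Fin r → ℝ => Real.exp (-β * ∑ b, (s b) ^ 2)) := by
    have h1 := GaussianFourier.integrable_cexp_neg_mul_sum_add (b := (β : ℂ)) (by simpa using hβ)
      (fun b : Fin r => (0 : ℂ))
    have h2 := h1.norm
    refine h2.congr (Eventually.of_forall fun s => ?_)
    show ‖Complex.exp _‖ = _
    rw [Complex.norm_exp]
    congr 1
    have h3 : (-(β : ℂ) * ∑ b, (s b : ℂ) ^ 2 + ∑ b : Fin r, (0 : ℂ) * (s b : ℂ)) =
      ((-β * ∑ b, (s b) ^ 2 : ℝ) : ℂ) := by push_cast; simp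
    rw [h3, Complex.ofReal_re]
  have hcont : Continuous (Function.uncurry f) := by
    show Continuous fun p : (Fin m → ℝ) × (Fin r → ℝ) => Complex.exp (-(β : ℂ) * ∑ b, (p.2 b : ℂ) ^ 2 +
      ∑ b, (((2 * Real.pi * ∑ i, p.1 i * v i b : ℝ) : ℂ) * Complex.I) * p.2 b)
    fun_prop
  have hint : Integrable (Function.uncurry f) (μ.prod volume) := by
    have h1 : Integrable (fun p : (Fin m → ℝ) × (Fin r → ℝ) =>
        (1 : ℝ) * Real.exp (-β * ∑ b, (p.2 b) ^ 2)) (μ.prod volume) :=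
      (integrable_const (1 : ℝ)).mul_prod hgauss
    refine h1.mono' hcont.aestronglyMeasurable (Eventually.of_forall fun p => ?_)
    rw [one_mul]
    exact (hfn p.1 p.2).le
  -- inner integral
  have hinner : ∀ s, ‖∫ z, f z s ∂μ‖ ≤ ∏ i, |Real.sinc (Real.pi * (v i ⬝ᵥ s))| := by
    intro s
    have h1 : ∀ z, f z s = Complex.exp (-(β : ℂ) * ∑ b, (s b : ℂ) ^ 2) *
        ∏ i, Complex.exp ((2 * Real.pi * (v i ⬝ᵥ s) * z i : ℝ) * Complex.I) := by
      intro z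
      show Complex.exp _ = _
      rw [Complex.exp_add, ← Complex.exp_sum]
      congr 2
      rw [← Finset.sum_mul]
      have h3 : ∀ b : Fin r, (((2 * Real.pi * ∑ i, z i * v i b : ℝ) : ℂ) * Complex.I) * (s b : ℂ) =
        ((2 * Real.pi * (∑ i, z i * v i b) * s b : ℝ) : ℂ) * Complex.I := by
        intro b; push_cast; ring
      rw [Finset.sum_congr rfl fun b _ => h3 b, ← Finset.sum_mul]
      congr 1
      rw [← Complex.ofReal_sum, ← Complex.ofReal_sum]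
      congr 1
      simp only [dotProduct, Finset.mul_sum, Finset.sum_mul]
      rw [Finset.sum_comm]
      refine Finset.sum_congr rfl fun i _ => Finset.sum_congr rfl fun b _ => ?_
      ring
    simp_rw [h1]
    rw [integral_const_mul, hμpi,
      integral_fintype_prod_eq_prod (fun i (t : ℝ) =>
        Complex.exp ((2 * Real.pi * (v i ⬝ᵥ s) * t : ℝ) * Complex.I))]
    simp_rw [section_fourier_sinc]
    rw [norm_mul, norm_prod]
    have h4 : ‖Complex.exp (-(β : ℂ) * ∑ b, (s b : ℂ) ^ 2)‖ ≤ 1 := by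
      rw [Complex.norm_exp]
      have h2 : (-(β : ℂ) * ∑ b, (s b : ℂ) ^ 2) = ((-β * ∑ b, (s b) ^ 2 : ℝ) : ℂ) := by
        push_cast; rfl
      rw [h2, Complex.ofReal_re]
      apply Real.exp_le_one_iff.2
      have : 0 ≤ ∑ b, (s b) ^ 2 := Finset.sum_nonneg fun b _ => sq_nonneg _
      nlinarith
    have h5 : ∏ i, ‖((Real.sinc (Real.pi * (v i ⬝ᵥ s)) : ℝ) : ℂ)‖ =
        ∏ i, |Real.sinc (Real.pi * (v i ⬝ᵥ s))| := by
      refine Finset.prod_congr rfl fun i _ => ?_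
      rw [Complex.norm_real, Real.norm_eq_abs]
    rw [h5]
    exact mul_le_of_le_one_left (Finset.prod_nonneg fun i _ => abs_nonneg _) h4
  -- integrability of the weight
  have hW : Integrable (fun z : Fin m → ℝ => (Real.pi / β) ^ ((r : ℝ) / 2) *
        Real.exp (-(Real.pi ^ 2 * ∑ b, (∑ i, z i * v i b) ^ 2 / β))) μ := by
    refine Integrable.mono' (integrable_const ((Real.pi / β) ^ ((r : ℝ) / 2))) ?_ ?_
    · apply Continuous.aestronglyMeasurable
      fun_prop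
    · refine Eventually.of_forall fun z => ?_
      rw [Real.norm_eq_abs, abs_of_nonneg (by positivity)]
      refine mul_le_of_le_one_right hK0 (Real.exp_le_one_iff.2 ?_)
      have := hsq z
      linarith
  have hW0 : ∀ z : Fin m → ℝ, 0 ≤ (Real.pi / β) ^ ((r : ℝ) / 2) *
        Real.exp (-(Real.pi ^ 2 * ∑ b, (∑ i, z i * v i b) ^ 2 / β)) := fun z => by positivity
  rw [← ofReal_integral_eq_lintegral_ofReal hW (Eventually.of_forall hW0)]
  have hnn : 0 ≤ ∫ z, (Real.pi / β) ^ ((r : ℝ) / 2) *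
        Real.exp (-(Real.pi ^ 2 * ∑ b, (∑ i, z i * v i b) ^ 2 / β)) ∂μ := integral_nonneg hW0
  have h6 : ENNReal.ofReal (∫ z, (Real.pi / β) ^ ((r : ℝ) / 2) *
        Real.exp (-(Real.pi ^ 2 * ∑ b, (∑ i, z i * v i b) ^ 2 / β)) ∂μ) =
      ‖∫ s, ∫ z, f z s ∂μ‖ₑ := by
    rw [← integral_integral_swap hint]
    simp_rw [hfs]
    rw [integral_complex_ofReal, ← ofReal_norm, Complex.norm_real, Real.norm_eq_abs,
      abs_of_nonneg hnn]
  rw [h6]
  refine le_trans (enorm_integral_le_lintegral_enorm _) (lintegral_mono fun s => ?_)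
  rw [← ofReal_norm]
  exact ENNReal.ofReal_le_ofReal (hinner s)

/-- scaled version -/
theorem section_fourier_F {d r m : ℕ} (hm : d + r = m) (u : Fin m → Fin d → ℝ)
    (v : Fin m → Fin r → ℝ)
    (hG : ∀ i j, u i ⬝ᵥ u j + v i ⬝ᵥ v j = if i = j then 1 else 0) (ε : ℝ) (hε : 0 < ε) :
    ∫⁻ p : (Fin d → ℝ) × (Fin r → ℝ),
      (Set.indicator {p : (Fin d → ℝ) × (Fin r → ℝ) |
        ∀ i, |u i ⬝ᵥ p.1 + v i ⬝ᵥ (ε • p.2)| < 1 / 2} 1 p : ℝ≥0∞) *
        ENNReal.ofReal (Real.exp (-(Real.pi * ∑ b, (p.2 b) ^ 2))) ≤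
      ∫⁻ s : Fin r → ℝ, ENNReal.ofReal (∏ i, |Real.sinc (Real.pi * (v i ⬝ᵥ s))|) := by
  have hβ : 0 < Real.pi * ε ^ 2 := by positivity
  refine le_trans (le_of_eq ?_) (section_fourier_E v (Real.pi * ε ^ 2) hβ)
  -- the function on the product space
  let H : (Fin d → ℝ) × (Fin r → ℝ) → ℝ≥0∞ := fun p =>
    (Set.indicator {p : (Fin d → ℝ) × (Fin r → ℝ) |
        ∀ i, |u i ⬝ᵥ p.1 + v i ⬝ᵥ p.2| < 1 / 2} 1 p : ℝ≥0∞) *
      ENNReal.ofReal (Real.exp (-(Real.pi * ∑ b, ((ε⁻¹ • p.2) b) ^ 2)))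
  have hopen : IsOpen {p : (Fin d → ℝ) × (Fin r → ℝ) | ∀ i, |u i ⬝ᵥ p.1 + v i ⬝ᵥ p.2| < 1 / 2} := by
    simp only [Set.ofPred_forall]
    refine isOpen_iInter_of_finite fun i => ?_
    apply isOpen_lt _ continuous_const
    simp only [dotProduct]
    fun_prop
  have hHm : Measurable H := by
    refine Measurable.mul (measurable_one.indicator hopen.measurableSet) ?_
    apply Measurable.ennreal_ofReal
    apply Continuous.measurable
    fun_prop
  have h1 : ∫⁻ p : (Fin d → ℝ) × (Fin r → ℝ),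
      (Set.indicator {p : (Fin d → ℝ) × (Fin r → ℝ) |
        ∀ i, |u i ⬝ᵥ p.1 + v i ⬝ᵥ (ε • p.2)| < 1 / 2} 1 p : ℝ≥0∞) *
        ENNReal.ofReal (Real.exp (-(Real.pi * ∑ b, (p.2 b) ^ 2))) =
      ENNReal.ofReal ((ε ^ r)⁻¹) * ∫⁻ p, H p := by
    have h2 : ∀ p : (Fin d → ℝ) × (Fin r → ℝ),
        (Set.indicator {p : (Fin d → ℝ) × (Fin r → ℝ) |
        ∀ i, |u i ⬝ᵥ p.1 + v i ⬝ᵥ (ε • p.2)| < 1 / 2} 1 p : ℝ≥0∞) *
        ENNReal.ofReal (Real.exp (-(Real.pi * ∑ b, (p.2 b) ^ 2))) = H (p.1, ε • p.2) := by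
      intro p
      show _ = (Set.indicator {p : (Fin d → ℝ) × (Fin r → ℝ) |
        ∀ i, |u i ⬝ᵥ p.1 + v i ⬝ᵥ p.2| < 1 / 2} 1 (p.1, ε • p.2) : ℝ≥0∞) *
      ENNReal.ofReal (Real.exp (-(Real.pi * ∑ b, ((ε⁻¹ • (ε • p.2)) b) ^ 2)))
      rw [inv_smul_smul₀ hε.ne']
      rfl
    simp_rw [h2]
    rw [Measure.volume_eq_prod, lintegral_prod_symm' (fun p : (Fin d → ℝ) × (Fin r → ℝ) => H (p.1, ε • p.2))
        (hHm.comp (by fun_prop)),
      lintegral_prod_symm' _ hHm]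
    have h3 : Measurable fun y : Fin r → ℝ => ∫⁻ x : Fin d → ℝ, H (x, y) :=
      hHm.lintegral_prod_left'
    have h4 := Measure.map_addHaar_smul (volume : Measure (Fin r → ℝ)) hε.ne'
    have h5 : ∫⁻ y : Fin r → ℝ, ∫⁻ x : Fin d → ℝ, H (x, ε • y) =
        ∫⁻ y, ∫⁻ x : Fin d → ℝ, H (x, y) ∂volume ∂(Measure.map (ε • ·) (volume : Measure (Fin r → ℝ))) := by
      rw [lintegral_map h3 (by fun_prop)]
    rw [h5, h4, lintegral_smul_measure, smul_eq_mul]
    congr 2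
    rw [abs_of_pos (by positivity)]
    simp
  have h6 : ∫⁻ p, H p = ∫⁻ z : Fin m → ℝ,
      H ((fun a => ∑ i, z i * u i a), (fun b => ∑ i, z i * v i b)) :=
    ((section_fourier_mp hm u v hG).lintegral_comp hHm).symm
  have hC : MeasurableSet (Set.pi Set.univ (fun _ : Fin m => Set.Ioo (-(1 / 2) : ℝ) (1 / 2))) :=
    MeasurableSet.univ_pi fun _ => measurableSet_Ioo
  have hrec : ∀ (z : Fin m → ℝ) (i : Fin m),
      (u i ⬝ᵥ fun a => ∑ j, z j * u j a) + (v i ⬝ᵥ fun b => ∑ j, z j * v j b) = z i := by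
    intro z i
    have h7 : (u i ⬝ᵥ fun a => ∑ j, z j * u j a) = ∑ j, z j * (u i ⬝ᵥ u j) := by
      simp only [dotProduct, Finset.mul_sum]
      rw [Finset.sum_comm]
      exact Finset.sum_congr rfl fun j _ => Finset.sum_congr rfl fun a _ => by ring
    have h8 : (v i ⬝ᵥ fun b => ∑ j, z j * v j b) = ∑ j, z j * (v i ⬝ᵥ v j) := by
      simp only [dotProduct, Finset.mul_sum]
      rw [Finset.sum_comm]
      exact Finset.sum_congr rfl fun j _ => Finset.sum_congr rfl fun a _ => by ring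
    rw [h7, h8, ← Finset.sum_add_distrib]
    simp_rw [← mul_add, hG]
    simp
  rw [h1, h6, ← lintegral_const_mul' _ _ ENNReal.ofReal_ne_top, ← lintegral_indicator hC]
  refine lintegral_congr fun z => ?_
  have hmem : ((fun a => ∑ i, z i * u i a), (fun b => ∑ i, z i * v i b)) ∈
      {p : (Fin d → ℝ) × (Fin r → ℝ) | ∀ i, |u i ⬝ᵥ p.1 + v i ⬝ᵥ p.2| < 1 / 2} ↔
      z ∈ Set.pi Set.univ (fun _ : Fin m => Set.Ioo (-(1 / 2) : ℝ) (1 / 2)) := by
    rw [Set.mem_univ_pi]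
    show (∀ i, |(u i ⬝ᵥ fun a => ∑ j, z j * u j a) + (v i ⬝ᵥ fun b => ∑ j, z j * v j b)| < 1 / 2) ↔ _
    simp_rw [hrec, abs_lt]
    rfl
  have hpow : (Real.pi / (Real.pi * ε ^ 2)) ^ ((r : ℝ) / 2) = (ε ^ r)⁻¹ := by
    have h9 : Real.pi / (Real.pi * ε ^ 2) = (ε⁻¹) ^ (2 : ℝ) := by
      rw [Real.rpow_two]
      field_simp
    rw [h9, ← Real.rpow_mul (by positivity)]
    rw [show (2 : ℝ) * ((r : ℝ) / 2) = (r : ℝ) by ring, Real.rpow_natCast, inv_pow]
  by_cases hz : z ∈ Set.pi Set.univ (fun _ : Fin m => Set.Ioo (-(1 / 2) : ℝ) (1 / 2))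
  · rw [Set.indicator_of_mem hz]
    show _ * ((Set.indicator {p : (Fin d → ℝ) × (Fin r → ℝ) |
        ∀ i, |u i ⬝ᵥ p.1 + v i ⬝ᵥ p.2| < 1 / 2} 1 _ : ℝ≥0∞) * _) = _
    rw [Set.indicator_of_mem (hmem.2 hz), Pi.one_apply, one_mul, hpow, ENNReal.ofReal_mul (by positivity)]
    congr 3
    rw [neg_inj, Finset.mul_sum, Finset.mul_sum]
    refine Finset.sum_congr rfl fun b _ => ?_
    show Real.pi * (ε⁻¹ * ∑ i, z i * v i b) ^ 2 = _
    field_simp
  · rw [Set.indicator_of_notMem hz]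
    show _ * ((Set.indicator {p : (Fin d → ℝ) × (Fin r → ℝ) |
        ∀ i, |u i ⬝ᵥ p.1 + v i ⬝ᵥ p.2| < 1 / 2} 1 _ : ℝ≥0∞) * _) = _
    rw [Set.indicator_of_notMem (fun h => hz (hmem.1 h))]
    simp

/-- the volume of a central section of the cube is at most the integral of the modulus of the
characteristic function of the complementary marginal -/
theorem section_fourier {d r m : ℕ} (hm : d + r = m) (u : Fin m → Fin d → ℝ)
    (v : Fin m → Fin r → ℝ) (hu : ∑ i, vecMulVec (u i) (u i) = 1)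
    (hv : ∑ i, vecMulVec (v i) (v i) = 1)
    (hG : ∀ i j, u i ⬝ᵥ u j + v i ⬝ᵥ v j = if i = j then 1 else 0)
    (hO : ∀ a b, ∑ i, u i a * v i b = 0) :
    volume {x : Fin d → ℝ | ∀ i, |u i ⬝ᵥ x| < 1 / 2} ≤
      ∫⁻ s : Fin r → ℝ, ENNReal.ofReal (∏ i, |Real.sinc (Real.pi * (v i ⬝ᵥ s))|) := by
  have hgauss : ∫⁻ y : Fin r → ℝ, ENNReal.ofReal (Real.exp (-(Real.pi * ∑ b, (y b) ^ 2))) = 1 := by
    have h1 := GaussianFourier.integral_cexp_neg_mul_sum_add (b := (Real.pi : ℂ))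
      (by simpa using Real.pi_pos) (fun b : Fin r => (0 : ℂ))
    have h1' := GaussianFourier.integrable_cexp_neg_mul_sum_add (b := (Real.pi : ℂ))
      (by simpa using Real.pi_pos) (fun b : Fin r => (0 : ℂ))
    have h3 : ∀ s : Fin r → ℝ, Complex.exp (-(Real.pi : ℂ) * ∑ b, (s b : ℂ) ^ 2 +
        ∑ b : Fin r, (0 : ℂ) * (s b : ℂ)) =
        ((Real.exp (-(Real.pi * ∑ b, (s b) ^ 2)) : ℝ) : ℂ) := by
      intro s
      push_cast
      congr 1
      simp
    simp_rw [h3] at h1 h1'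
    have h5 : Integrable (fun s : Fin r → ℝ => Real.exp (-(Real.pi * ∑ b, (s b) ^ 2))) :=
      by simpa only [RCLike.re_to_complex, Complex.ofReal_re] using h1'.re
    rw [← ofReal_integral_eq_lintegral_ofReal h5 (Eventually.of_forall fun s => (Real.exp_pos _).le)]
    have hpi : (Real.pi : ℂ) ≠ 0 := by exact_mod_cast Real.pi_ne_zero
    rw [integral_complex_ofReal] at h1
    have h6 : ((∫ s : Fin r → ℝ, Real.exp (-(Real.pi * ∑ b, (s b) ^ 2)) : ℝ) : ℂ) = ((1 : ℝ) : ℂ) := by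
      rw [h1]
      simp
    rw [Complex.ofReal_injective h6, ENNReal.ofReal_one]
  have hopen : IsOpen {x : Fin d → ℝ | ∀ i, |u i ⬝ᵥ x| < 1 / 2} := by
    simp only [Set.ofPred_forall]
    refine isOpen_iInter_of_finite fun i => ?_
    apply isOpen_lt _ continuous_const
    simp only [dotProduct]
    fun_prop
  have hLHS : volume {x : Fin d → ℝ | ∀ i, |u i ⬝ᵥ x| < 1 / 2} =
      ∫⁻ p : (Fin d → ℝ) × (Fin r → ℝ),
        (Set.indicator {x : Fin d → ℝ | ∀ i, |u i ⬝ᵥ x| < 1 / 2} 1 p.1 : ℝ≥0∞) *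
        ENNReal.ofReal (Real.exp (-(Real.pi * ∑ b, (p.2 b) ^ 2))) := by
    rw [Measure.volume_eq_prod,
      lintegral_prod_mul (f := Set.indicator {x : Fin d → ℝ | ∀ i, |u i ⬝ᵥ x| < 1 / 2} 1)
        (g := fun y : Fin r → ℝ => ENNReal.ofReal (Real.exp (-(Real.pi * ∑ b, (y b) ^ 2))))
        (measurable_one.indicator hopen.measurableSet).aemeasurable
        (by apply Measurable.aemeasurable; apply Measurable.ennreal_ofReal; fun_prop),
      hgauss, mul_one, lintegral_indicator_one hopen.measurableSet]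
  -- Fatou
  let ε : ℕ → ℝ := fun n => 1 / ((n : ℝ) + 1)
  have hε : ∀ n, 0 < ε n := fun n => Nat.one_div_pos_of_nat
  have hεlim : Tendsto ε atTop (𝓝 0) := tendsto_one_div_add_atTop_nhds_zero_nat
  let G : ℕ → (Fin d → ℝ) × (Fin r → ℝ) → ℝ≥0∞ := fun n p =>
    (Set.indicator {p : (Fin d → ℝ) × (Fin r → ℝ) |
        ∀ i, |u i ⬝ᵥ p.1 + v i ⬝ᵥ (ε n • p.2)| < 1 / 2} 1 p : ℝ≥0∞) *
        ENNReal.ofReal (Real.exp (-(Real.pi * ∑ b, (p.2 b) ^ 2)))
  have hGm : ∀ n, Measurable (G n) := by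
    intro n
    have hopen' : IsOpen {p : (Fin d → ℝ) × (Fin r → ℝ) |
        ∀ i, |u i ⬝ᵥ p.1 + v i ⬝ᵥ (ε n • p.2)| < 1 / 2} := by
      simp only [Set.ofPred_forall]
      refine isOpen_iInter_of_finite fun i => ?_
      apply isOpen_lt _ continuous_const
      simp only [dotProduct]
      fun_prop
    refine Measurable.mul (measurable_one.indicator hopen'.measurableSet) ?_
    apply Measurable.ennreal_ofReal
    fun_prop
  have hpt : ∀ p : (Fin d → ℝ) × (Fin r → ℝ),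
      (Set.indicator {x : Fin d → ℝ | ∀ i, |u i ⬝ᵥ x| < 1 / 2} 1 p.1 : ℝ≥0∞) *
        ENNReal.ofReal (Real.exp (-(Real.pi * ∑ b, (p.2 b) ^ 2))) ≤
      liminf (fun n => G n p) atTop := by
    intro p
    by_cases hp : p.1 ∈ {x : Fin d → ℝ | ∀ i, |u i ⬝ᵥ x| < 1 / 2}
    · rw [Set.indicator_of_mem hp, Pi.one_apply, one_mul]
      refine le_liminf_of_le (by isBoundedDefault) ?_
      have hev : ∀ᶠ n in atTop, ∀ i, |u i ⬝ᵥ p.1 + v i ⬝ᵥ (ε n • p.2)| < 1 / 2 := by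
        rw [eventually_all]
        intro i
        have hlim : Tendsto (fun n => |u i ⬝ᵥ p.1 + v i ⬝ᵥ (ε n • p.2)|) atTop
            (𝓝 |u i ⬝ᵥ p.1 + 0|) := by
          refine ((tendsto_const_nhds).add ?_).abs
          have h1 : ∀ n, v i ⬝ᵥ (ε n • p.2) = ε n * (v i ⬝ᵥ p.2) := fun n => by
            rw [dotProduct_smul, smul_eq_mul]
          simp_rw [h1]
          simpa using hεlim.mul_const (v i ⬝ᵥ p.2)
        rw [add_zero] at hlim
        exact hlim.eventually_lt_const (hp i)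
      filter_upwards [hev] with n hn
      show _ ≤ (Set.indicator {p : (Fin d → ℝ) × (Fin r → ℝ) |
        ∀ i, |u i ⬝ᵥ p.1 + v i ⬝ᵥ (ε n • p.2)| < 1 / 2} 1 p : ℝ≥0∞) * _
      rw [Set.indicator_of_mem (show p ∈ {p : (Fin d → ℝ) × (Fin r → ℝ) |
        ∀ i, |u i ⬝ᵥ p.1 + v i ⬝ᵥ (ε n • p.2)| < 1 / 2} from hn), Pi.one_apply, one_mul]
    · rw [Set.indicator_of_notMem hp, zero_mul]
      exact bot_le
  rw [hLHS]
  refine le_trans (lintegral_mono hpt) ?_
  refine le_trans (lintegral_liminf_le hGm) ?_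
  refine liminf_le_of_le (by isBoundedDefault) fun b hb => ?_
  obtain ⟨n, hn⟩ := hb.exists
  exact hn.trans (section_fourier_F hm u v hG (ε n) (hε n))

end J26901

namespace J26902

theorem ball_bound_aux (c : ℝ) (hc0 : 0 < c) (hc : c ≤ 1 / 2)
    (hBall : ∀ s : ℝ, 2 ≤ s → Integrable (fun t : ℝ => |Real.sinc (Real.pi * t)| ^ s) ∧
      ∫ t : ℝ, |Real.sinc (Real.pi * t)| ^ s ≤ √(2 / s)) :
    Integrable (fun t : ℝ => |Real.sinc (Real.pi * (√c * t))| ^ (1 / c)) ∧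
      ∫ t : ℝ, |Real.sinc (Real.pi * (√c * t))| ^ (1 / c) ≤ √2 := by
  have hs : 2 ≤ 1 / c := by
    rw [le_div_iff₀ hc0]; linarith
  obtain ⟨h1, h2⟩ := hBall (1 / c) hs
  have hsq : 0 < √c := Real.sqrt_pos.2 hc0
  refine ⟨h1.comp_mul_left' hsq.ne', ?_⟩
  rw [Measure.integral_comp_mul_left (fun t : ℝ => |Real.sinc (Real.pi * t)| ^ (1 / c)) √c,
    abs_of_pos (inv_pos.2 hsq), smul_eq_mul]
  have h3 : √(2 / (1 / c)) = √2 * √c := by
    rw [← Real.sqrt_mul (by norm_num : (0 : ℝ) ≤ 2)]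
    congr 1
    field_simp
  rw [h3] at h2
  calc (√c)⁻¹ * ∫ t : ℝ, |Real.sinc (Real.pi * t)| ^ (1 / c) ≤ (√c)⁻¹ * (√2 * √c) :=
        mul_le_mul_of_nonneg_left h2 (inv_pos.2 hsq).le
    _ = √2 := by field_simp

/-- Ball's bound for frames whose vectors are long -/
theorem ball_bound {r m : ℕ} (v : Fin m → Fin r → ℝ) (hv : ∑ i, vecMulVec (v i) (v i) = 1)
    (hc : ∀ i, v i ⬝ᵥ v i ≤ 1 / 2)
    (hBall : ∀ s : ℝ, 2 ≤ s → Integrable (fun t : ℝ => |Real.sinc (Real.pi * t)| ^ s) ∧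
      ∫ t : ℝ, |Real.sinc (Real.pi * t)| ^ s ≤ √(2 / s))
    (hBL : ∀ {ι : Type} [Fintype ι] (w : ι → Fin r → ℝ), ∑ i, vecMulVec (w i) (w i) = 1 →
      (∀ i, 0 < w i ⬝ᵥ w i) →
      ∀ (f : ι → ℝ → ℝ), (∀ i, Continuous (f i)) → (∀ i t, 0 ≤ f i t) →
      (∀ i, Integrable (f i)) →
      ∫⁻ x : Fin r → ℝ, ENNReal.ofReal (∏ i, (f i ((w i ⬝ᵥ x) / √(w i ⬝ᵥ w i))) ^ (w i ⬝ᵥ w i)) ≤
        ENNReal.ofReal (∏ i, (∫ t, f i t) ^ (w i ⬝ᵥ w i))) :
    ∫⁻ s : Fin r → ℝ, ENNReal.ofReal (∏ i, |Real.sinc (Real.pi * (v i ⬝ᵥ s))|) ≤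
      ENNReal.ofReal (√2 ^ r) := by
  classical
  have hsum : ∑ i : {i // v i ≠ 0}, vecMulVec (v i.1) (v i.1) = 1 := by
    rw [← hv, ← Finset.sum_subtype (Finset.univ.filter fun i => v i ≠ 0) (by simp)
      (fun i => vecMulVec (v i) (v i))]
    refine Finset.sum_filter_of_ne fun i _ hi h0 => hi ?_
    rw [h0]
    ext a b
    simp [vecMulVec_apply]
  have hpos : ∀ i : {i // v i ≠ 0}, 0 < v i.1 ⬝ᵥ v i.1 := by
    intro i
    refine lt_of_le_of_ne (Finset.sum_nonneg fun j _ => mul_self_nonneg _) fun h0 => i.2 ?_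
    exact dotProduct_self_eq_zero.1 h0.symm
  have hprod : ∀ s : Fin r → ℝ, ∏ i : {i // v i ≠ 0}, |Real.sinc (Real.pi * (v i.1 ⬝ᵥ s))| =
      ∏ i, |Real.sinc (Real.pi * (v i ⬝ᵥ s))| := by
    intro s
    rw [← Finset.prod_subtype (Finset.univ.filter fun i => v i ≠ 0) (by simp)
      (fun i => |Real.sinc (Real.pi * (v i ⬝ᵥ s))|)]
    refine Finset.prod_filter_of_ne fun i _ hi h0 => hi ?_
    rw [h0, zero_dotProduct, mul_zero, Real.sinc_zero, abs_one]
  have hcpos : ∀ i : {i // v i ≠ 0}, 0 < √(v i.1 ⬝ᵥ v i.1) := fun i => Real.sqrt_pos.2 (hpos i)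
  have h := hBL (fun i : {i // v i ≠ 0} => v i.1) hsum hpos
    (fun i t => |Real.sinc (Real.pi * (√(v i.1 ⬝ᵥ v i.1) * t))| ^ (1 / (v i.1 ⬝ᵥ v i.1)))
    (fun i => by
      refine Continuous.rpow_const ?_ fun x => Or.inr (one_div_pos.2 (hpos i)).le
      have h1 : Continuous fun t : ℝ => Real.pi * (√(v i.1 ⬝ᵥ v i.1) * t) := by fun_prop
      exact (Real.continuous_sinc.comp h1).abs)
    (fun i t => Real.rpow_nonneg (abs_nonneg _) _)
    (fun i => (ball_bound_aux _ (hpos i) (hc i.1) hBall).1)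
  have hL : ∀ x : Fin r → ℝ, ∏ i : {i // v i ≠ 0},
      (|Real.sinc (Real.pi * (√(v i.1 ⬝ᵥ v i.1) * ((v i.1 ⬝ᵥ x) / √(v i.1 ⬝ᵥ v i.1))))| ^
        (1 / (v i.1 ⬝ᵥ v i.1))) ^ (v i.1 ⬝ᵥ v i.1) =
      ∏ i, |Real.sinc (Real.pi * (v i ⬝ᵥ x))| := by
    intro x
    rw [← hprod x]
    refine Finset.prod_congr rfl fun i _ => ?_
    rw [← Real.rpow_mul (abs_nonneg _), one_div_mul_cancel (hpos i).ne', Real.rpow_one,
      mul_div_cancel₀ _ (hcpos i).ne']
  have hR : ∏ i : {i // v i ≠ 0}, (∫ t : ℝ, |Real.sinc (Real.pi * (√(v i.1 ⬝ᵥ v i.1) * t))| ^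
      (1 / (v i.1 ⬝ᵥ v i.1))) ^ (v i.1 ⬝ᵥ v i.1) ≤ √2 ^ r := by
    have htr : ∑ i : {i // v i ≠ 0}, v i.1 ⬝ᵥ v i.1 = r := by
      have h1 := congrArg Matrix.trace hsum
      rw [Matrix.trace_sum, Matrix.trace_one, Fintype.card_fin] at h1
      rw [← h1]
      exact Finset.sum_congr rfl fun i _ => (Matrix.trace_vecMulVec _ _).symm
    calc _ ≤ ∏ i : {i // v i ≠ 0}, (√2) ^ (v i.1 ⬝ᵥ v i.1) := by
          refine Finset.prod_le_prod (fun i _ => Real.rpow_nonneg (integral_nonneg fun t =>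
            Real.rpow_nonneg (abs_nonneg _) _) _) fun i _ => ?_
          exact Real.rpow_le_rpow (integral_nonneg fun t => Real.rpow_nonneg (abs_nonneg _) _)
            (ball_bound_aux _ (hpos i) (hc i.1) hBall).2 (hpos i).le
      _ = √2 ^ r := by
          rw [← Real.rpow_sum_of_pos (Real.sqrt_pos.2 (by norm_num : (0 : ℝ) < 2)), htr,
            Real.rpow_natCast]
  calc ∫⁻ s : Fin r → ℝ, ENNReal.ofReal (∏ i, |Real.sinc (Real.pi * (v i ⬝ᵥ s))|)
      = ∫⁻ x : Fin r → ℝ, ENNReal.ofReal (∏ i : {i // v i ≠ 0},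
      (|Real.sinc (Real.pi * (√(v i.1 ⬝ᵥ v i.1) * ((v i.1 ⬝ᵥ x) / √(v i.1 ⬝ᵥ v i.1))))| ^
        (1 / (v i.1 ⬝ᵥ v i.1))) ^ (v i.1 ⬝ᵥ v i.1)) := by
        refine lintegral_congr fun x => ?_
        rw [hL x]
    _ ≤ _ := h
    _ ≤ ENNReal.ofReal (√2 ^ r) := ENNReal.ofReal_le_ofReal hR

end J26902

end Pool.Agent.Helper7.Simplex.OT
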