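import Pool.Agent.Helper7.OT.Defs

set_option linter.all false

open MeasureTheory Filter Topology Set
open scoped ENNReal NNReal

namespace Pool.Agent.Helper7.Simplex.OT

namespace J24540

variable {V : Type*} [NormedAddCommGroup V] [InnerProductSpace ℝ V] [FiniteDimensional ℝ V]
  [MeasurableSpace V] [BorelSpace V]

omit [MeasurableSpace V] [BorelSpace V] in
/-- existence of a subgradient -/
theorem expand_subgrad (Φ : V → ℝ) (hconv : ConvexOn ℝ Set.univ Φ) (hcont : Continuous Φ) (y : V) :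
    ∃ s : V, ∀ g', Φ y + inner ℝ s (g' - y) ≤ Φ g' := by
  haveI : CompleteSpace V := FiniteDimensional.complete ℝ V
  have hopen : IsOpen {p : V × ℝ | Φ p.1 < p.2} :=
    isOpen_lt (hcont.comp continuous_fst) continuous_snd
  have hcv : Convex ℝ {p : V × ℝ | p.1 ∈ Set.univ ∧ Φ p.1 < p.2} := hconv.convex_strict_epigraph
  have hcv' : Convex ℝ {p : V × ℝ | Φ p.1 < p.2} := by
    have e : {p : V × ℝ | Φ p.1 < p.2} = {p : V × ℝ | p.1 ∈ Set.univ ∧ Φ p.1 < p.2} := by
      ext p; simp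
    rw [e]; exact hcv
  have hnot : (y, Φ y) ∉ {p : V × ℝ | Φ p.1 < p.2} := by simp
  obtain ⟨f, hf⟩ := geometric_hahn_banach_open_point hcv' hopen hnot
  have hsplit : ∀ (u : V) (r : ℝ), f (y + u, Φ y + r) = f (y, Φ y) + f (u, 0) + r * f (0, 1) := by
    intro u r
    have e : ((y + u, Φ y + r) : V × ℝ) = (y, Φ y) + (u, 0) + r • (0, 1) := by
      simp
    rw [e, map_add, map_add, map_smul, smul_eq_mul]
  have h1 : f (0, 1) < 0 := by
    have h := hf (y + 0, Φ y + 1) (by simp)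
    have e0 : f ((0 : V), (0 : ℝ)) = 0 := by
      have : ((0 : V), (0 : ℝ)) = 0 := rfl
      rw [this, map_zero]
    rw [hsplit, e0] at h
    linarith
  have h2 : ∀ g', f (g' - y, 0) + (Φ g' - Φ y) * f (0, 1) ≤ 0 := by
    intro g'
    by_contra hcon
    push Not at hcon
    set X := f (g' - y, 0) + (Φ g' - Φ y) * f (0, 1) with hX
    have hδ : 0 < X / (-f (0, 1)) := div_pos hcon (by linarith)
    have h := hf (y + (g' - y), Φ y + (Φ g' - Φ y + X / (-f (0, 1)))) (by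
      show Φ (y + (g' - y)) < Φ y + (Φ g' - Φ y + X / (-f (0, 1)))
      rw [add_sub_cancel]
      linarith)
    rw [hsplit] at h
    have h3 : X / (-f (0, 1)) * f (0, 1) = -X := by
      have : f (0, 1) ≠ 0 := h1.ne
      field_simp
    have h4 : (Φ g' - Φ y + X / (-f (0, 1))) * f (0, 1) = (Φ g' - Φ y) * f (0, 1) - X := by
      rw [add_mul, h3]; ring
    rw [h4] at h
    linarith
  refine ⟨(InnerProductSpace.toDual ℝ V).symm
    ((-f (0, 1))⁻¹ • (f.comp (ContinuousLinearMap.inl ℝ V ℝ))), fun g' => ?_⟩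
  rw [InnerProductSpace.toDual_symm_apply]
  have e : ((-f (0, 1))⁻¹ • (f.comp (ContinuousLinearMap.inl ℝ V ℝ))) (g' - y) =
      f (g' - y, 0) / (-f (0, 1)) := by
    simp [div_eq_inv_mul]
  rw [e]
  have h3 := h2 g'
  have h4 : f (g' - y, 0) / (-f (0, 1)) ≤ Φ g' - Φ y := by
    rw [div_le_iff₀ (by linarith)]
    linarith
  linarith

omit [MeasurableSpace V] [BorelSpace V] [FiniteDimensional ℝ V] in
theorem expand_bound (Φ : V → ℝ) (C : ℝ≥0) (hLip : LipschitzWith C Φ) (y s : V)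
    (hs : ∀ g', Φ y + inner ℝ s (g' - y) ≤ Φ g') : ‖s‖ ≤ C := by
  have h1 := hs (y + s)
  rw [add_sub_cancel_left, real_inner_self_eq_norm_sq] at h1
  have h2 := hLip.dist_le_mul (y + s) y
  rw [Real.dist_eq, dist_eq_norm, add_sub_cancel_left] at h2
  have h3 := le_abs_self (Φ (y + s) - Φ y)
  have h4 : ‖s‖ * ‖s‖ ≤ C * ‖s‖ := by nlinarith
  rcases (norm_nonneg s).eq_or_lt with h | h
  · rw [← h]; exact C.2
  · exact le_of_mul_le_mul_right h4 h

omit [MeasurableSpace V] [BorelSpace V] in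
/-- continuity of subgradients at a point of differentiability -/
theorem expand_cont (Φ : V → ℝ) (C : ℝ≥0) (hLip : LipschitzWith C Φ) (g x : V)
    (hsub : ∀ g', Φ g + inner ℝ x (g' - g) ≤ Φ g') (hdiff : DifferentiableAt ℝ Φ g)
    (ε : ℝ) (hε : 0 < ε) : ∃ δ > 0, ∀ y s : V, ‖y - g‖ ≤ δ →
      (∀ g', Φ y + inner ℝ s (g' - y) ≤ Φ g') → ‖s - x‖ ≤ ε := by
  have hD : HasFDerivAt Φ (innerSL ℝ x) g := by
    have h1 := hdiff.hasFDerivAt
    have h2 : HasFDerivAt (fun y => Φ y - innerSL ℝ x y) (fderiv ℝ Φ g - innerSL ℝ x) g :=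
      h1.sub (innerSL ℝ x).hasFDerivAt
    have h3 : IsLocalMin (fun y => Φ y - innerSL ℝ x y) g := by
      apply Filter.Eventually.of_forall
      intro y
      have := hsub y
      rw [inner_sub_right] at this
      show Φ g - inner ℝ x g ≤ Φ y - inner ℝ x y
      linarith
    have h4 := h3.hasFDerivAt_eq_zero h2
    rw [sub_eq_zero] at h4
    rw [← h4]
    exact h1
  have hO := (hasFDerivAt_iff_isLittleO.1 hD).def (show (0:ℝ) < ε / 2 by positivity)
  obtain ⟨ρ0, hρ0, hball⟩ := Metric.eventually_nhds_iff.1 hO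
  set ρ := ρ0 / 2 with hρ
  have hρpos : 0 < ρ := by positivity
  have hup : ∀ w : V, ‖w‖ ≤ ρ → Φ (g + w) - Φ g - inner ℝ x w ≤ ε / 2 * ‖w‖ := by
    intro w hw
    have h := hball (y := g + w) (by
      rw [dist_eq_norm, add_sub_cancel_left]
      linarith)
    rw [add_sub_cancel_left] at h
    exact (le_abs_self _).trans h
  have hC0 : (0:ℝ) ≤ C := C.2
  refine ⟨ε / 2 * ρ / (2 * C + 1), by positivity, fun y s hy hs => ?_⟩
  by_contra hcon
  push Not at hcon
  have hn : 0 < ‖s - x‖ := hε.trans hcon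
  set w : V := (ρ / ‖s - x‖) • (s - x) with hw
  have hwn : ‖w‖ = ρ := by
    rw [hw, norm_smul, Real.norm_eq_abs, abs_of_pos (by positivity)]
    field_simp
  have hin : inner ℝ (s - x) w = ρ * ‖s - x‖ := by
    rw [hw, inner_smul_right, real_inner_self_eq_norm_sq]
    field_simp
  have h1 := hup w hwn.le
  have h2 := hs (g + w)
  have h3 : inner ℝ s (g + w - y) = inner ℝ s w - inner ℝ s (y - g) := by
    rw [← inner_sub_right]
    congr 1
    abel
  rw [h3] at h2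
  have h4 : inner ℝ s (y - g) ≤ C * ‖y - g‖ := by
    refine (real_inner_le_norm _ _).trans ?_
    exact mul_le_mul_of_nonneg_right (expand_bound Φ C hLip y s hs) (norm_nonneg _)
  have h5 : Φ g - Φ y ≤ C * ‖y - g‖ := by
    have := hLip.dist_le_mul g y
    rw [Real.dist_eq, dist_comm, dist_eq_norm] at this
    exact (le_abs_self _).trans this
  rw [inner_sub_left] at hin
  rw [hwn] at h1
  have h6 : ρ * ‖s - x‖ ≤ ε / 2 * ρ + 2 * C * ‖y - g‖ := by linarith
  have h7 : 2 * C * ‖y - g‖ ≤ ε / 2 * ρ := by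
    rw [le_div_iff₀ (by positivity)] at hy
    have := norm_nonneg (y - g)
    nlinarith
  have h8 : ρ * ‖s - x‖ ≤ ρ * ε := by linarith
  have h9 := le_of_mul_le_mul_left h8 hρpos
  linarith

omit [MeasurableSpace V] [BorelSpace V] in
/-- first order expansion of the subgradients -/
theorem expand_key (Φ : V → ℝ) (C : ℝ≥0) (hLip : LipschitzWith C Φ)
    (J : V → V)
    (hJ : ∀ g x, (∀ g', Φ g + inner ℝ x (g' - g) ≤ Φ g') → J (g + x) = g)
    (g x : V) (hsub : ∀ g', Φ g + inner ℝ x (g' - g) ≤ Φ g') (hdiff : DifferentiableAt ℝ Φ g)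
    (L M : V →L[ℝ] V) (hL : HasFDerivAt J L (g + x)) (hML : ∀ v, M (L v) = v)
    (ε : ℝ) (hε : 0 < ε) : ∃ δ > 0, ∀ y s : V, ‖y - g‖ ≤ δ →
      (∀ g', Φ y + inner ℝ s (g' - y) ≤ Φ g') →
      ‖s - x - (M (y - g) - (y - g))‖ ≤ ε * ‖y - g‖ := by
  have hM0 : 0 ≤ ‖M‖ := norm_nonneg _
  set η := min (1 / (2 * (‖M‖ + 1))) (ε / (2 * (‖M‖ + 1) ^ 2)) with hη
  have hηpos : 0 < η := lt_min (by positivity) (by positivity)
  have hO := (hasFDerivAt_iff_isLittleO.1 hL).def hηpos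
  obtain ⟨r0, hr0, hball⟩ := Metric.eventually_nhds_iff.1 hO
  obtain ⟨δ1, hδ1, hc⟩ := expand_cont Φ C hLip g x hsub hdiff (r0 / 4) (by positivity)
  refine ⟨min δ1 (r0 / 4), lt_min hδ1 (by positivity), fun y s hy hs => ?_⟩
  have hy1 : ‖y - g‖ ≤ δ1 := hy.trans (min_le_left _ _)
  have hy2 : ‖y - g‖ ≤ r0 / 4 := hy.trans (min_le_right _ _)
  have hs1 := hc y s hy1 hs
  have hz : y + s - (g + x) = (y - g) + (s - x) := by abel
  have hzn : ‖y + s - (g + x)‖ ≤ r0 / 2 := by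
    rw [hz]
    refine (norm_add_le _ _).trans ?_
    linarith
  have h := hball (y := y + s) (by rw [dist_eq_norm]; linarith)
  rw [hJ y s hs, hJ g x hsub] at h
  set d := y + s - (g + x) with hd
  set R := y - g - L d with hR
  have hMR : M R = M (y - g) - d := by
    rw [hR, map_sub, hML]
  have hMRn : ‖M (y - g) - d‖ ≤ ‖M‖ * (η * ‖d‖) := by
    rw [← hMR]
    exact (M.le_opNorm _).trans (mul_le_mul_of_nonneg_left h hM0)
  have hη1 : ‖M‖ * η ≤ 1 / 2 := by
    have h1 : η ≤ 1 / (2 * (‖M‖ + 1)) := min_le_left _ _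
    rw [le_div_iff₀ (by positivity)] at h1
    nlinarith
  have hη2 : ‖M‖ * η * (2 * ‖M‖) ≤ ε := by
    have h1 : η ≤ ε / (2 * (‖M‖ + 1) ^ 2) := min_le_right _ _
    rw [le_div_iff₀ (by positivity)] at h1
    nlinarith
  have hdn : ‖d‖ ≤ 2 * ‖M‖ * ‖y - g‖ := by
    have h1 : ‖d‖ ≤ ‖M (y - g)‖ + ‖M (y - g) - d‖ := by
      have := norm_sub_le (M (y - g)) (M (y - g) - d)
      rwa [sub_sub_cancel] at this
    have h2 := M.le_opNorm (y - g)
    have h3 := norm_nonneg d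
    nlinarith
  have hfin : s - x - (M (y - g) - (y - g)) = -(M (y - g) - d) := by
    rw [hd]
    abel
  rw [hfin, norm_neg]
  refine hMRn.trans ?_
  have h3 := norm_nonneg (y - g)
  calc ‖M‖ * (η * ‖d‖) = (‖M‖ * η) * ‖d‖ := by ring
    _ ≤ (‖M‖ * η) * (2 * ‖M‖ * ‖y - g‖) :=
        mul_le_mul_of_nonneg_left hdn (mul_nonneg hM0 hηpos.le)
    _ = (‖M‖ * η * (2 * ‖M‖)) * ‖y - g‖ := by ring
    _ ≤ ε * ‖y - g‖ := mul_le_mul_of_nonneg_right hη2 h3

/-- telescoping -/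
theorem expand_tele (F : ℝ → ℝ) (τ c η : ℝ) (hτ : 0 ≤ τ) (hc : 0 ≤ c)
    (h : ∀ a b, 0 ≤ a → a ≤ b → b ≤ τ → |F b - F a| ≤ (b - a) * (c * (b - a) + η)) :
    |F τ - F 0| ≤ η * τ := by
  have hn : ∀ n : ℕ, 0 < n → |F τ - F 0| ≤ τ * (c * (τ / n) + η) := by
    intro n hn
    have hnR : (0:ℝ) < n := by exact_mod_cast hn
    have hj : ∀ j : ℕ, j ≤ n → |F (j * (τ / n)) - F 0| ≤ j * ((τ / n) * (c * (τ / n) + η)) := by
      intro j
      induction j with
      | zero => intro _; simp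
      | succ j ih =>
        intro hj
        have h1 := ih (by omega)
        have hjR : ((j:ℝ) + 1) ≤ n := by exact_mod_cast hj
        have h2 := h (j * (τ / n)) ((j + 1 : ℕ) * (τ / n)) (by positivity) (by
          apply mul_le_mul_of_nonneg_right _ (by positivity)
          push_cast; linarith) (by
          push_cast
          calc ((j:ℝ) + 1) * (τ / n) ≤ n * (τ / n) :=
                mul_le_mul_of_nonneg_right hjR (by positivity)
            _ = τ := by field_simp)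
        have e1 : ((j + 1 : ℕ) : ℝ) * (τ / n) - j * (τ / n) = τ / n := by push_cast; ring
        rw [e1] at h2
        have h3 := abs_add_le (F ((j + 1 : ℕ) * (τ / n)) - F (j * (τ / n)))
          (F (j * (τ / n)) - F 0)
        rw [sub_add_sub_cancel] at h3
        push_cast at h2 h3 ⊢
        linarith
    have h4 := hj n le_rfl
    have e : (n:ℝ) * (τ / n) = τ := by field_simp
    rw [← mul_assoc, e] at h4
    exact h4
  apply le_of_forall_pos_le_add
  intro e he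
  obtain ⟨n, hn1⟩ := exists_nat_gt (τ * c * τ / e)
  have hnpos : 0 < n + 1 := Nat.succ_pos n
  have h5 := hn (n + 1) hnpos
  have hnR : (0:ℝ) < ((n + 1 : ℕ) : ℝ) := by positivity
  have h6 : τ * (c * (τ / ((n + 1 : ℕ) : ℝ))) ≤ e := by
    have : τ * (c * (τ / ((n + 1 : ℕ) : ℝ))) = τ * c * τ / ((n + 1 : ℕ) : ℝ) := by ring
    rw [this, div_le_iff₀ hnR]
    rw [div_lt_iff₀ he] at hn1
    push_cast
    nlinarith
  rw [mul_add] at h5
  linarith

omit [MeasurableSpace V] [BorelSpace V] in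
theorem expand_one (Φ : V → ℝ) (hconv : ConvexOn ℝ Set.univ Φ) (C : ℝ≥0) (hLip : LipschitzWith C Φ)
    (J : V → V)
    (hJ : ∀ g x, (∀ g', Φ g + inner ℝ x (g' - g) ≤ Φ g') → J (g + x) = g)
    (g x : V) (hsub : ∀ g', Φ g + inner ℝ x (g' - g) ≤ Φ g') (hdiff : DifferentiableAt ℝ Φ g)
    (L M : V →L[ℝ] V) (hL : HasFDerivAt J L (g + x)) (hML : ∀ v, M (L v) = v) (v : V)
    (ε : ℝ) (hε : 0 < ε) : ∃ δ > 0, ∀ τ : ℝ, 0 ≤ τ → τ ≤ δ →
      |Φ (g + τ • v) - Φ g - τ * inner ℝ x v - τ ^ 2 / 2 * inner ℝ (M v - v) v| ≤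
        ε * τ ^ 2 := by
  set e := ε / (‖v‖ ^ 2 + 1) with he
  have hepos : 0 < e := by positivity
  obtain ⟨δ, hδ, hkey⟩ := expand_key Φ C hLip J hJ g x hsub hdiff L M hL hML e hepos
  refine ⟨δ / (‖v‖ + 1), by positivity, fun τ hτ0 hτ => ?_⟩
  set H := inner ℝ (M v - v) v with hH
  choose s hs using expand_subgrad Φ hconv hLip.continuous
  have hest : ∀ a : ℝ, 0 ≤ a → a ≤ τ →
      |inner ℝ (s (g + a • v)) v - inner ℝ x v - a * H| ≤ e * τ * ‖v‖ ^ 2 := by
    intro a ha0 haτ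
    have h1 : ‖g + a • v - g‖ = a * ‖v‖ := by
      rw [add_sub_cancel_left, norm_smul, Real.norm_eq_abs, abs_of_nonneg ha0]
    have h2 := hkey (g + a • v) (s (g + a • v)) (by
      rw [h1]
      rw [le_div_iff₀ (by positivity)] at hτ
      have := norm_nonneg v
      nlinarith) (hs _)
    rw [h1, add_sub_cancel_left] at h2
    have h3 : inner ℝ (s (g + a • v)) v - inner ℝ x v - a * H =
        inner ℝ (s (g + a • v) - x - (M (a • v) - a • v)) v := by
      rw [inner_sub_left, inner_sub_left, map_smul, ← smul_sub, inner_smul_left]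
      simp [hH]
    rw [h3]
    refine (abs_real_inner_le_norm _ _).trans ?_
    have := norm_nonneg v
    calc ‖s (g + a • v) - x - (M (a • v) - a • v)‖ * ‖v‖ ≤ (e * (a * ‖v‖)) * ‖v‖ :=
          mul_le_mul_of_nonneg_right h2 this
      _ = (e * ‖v‖ ^ 2) * a := by ring
      _ ≤ (e * ‖v‖ ^ 2) * τ := mul_le_mul_of_nonneg_left haτ (by positivity)
      _ = e * τ * ‖v‖ ^ 2 := by ring
  have htele := expand_tele (fun a => Φ (g + a • v) - a * inner ℝ x v - a ^ 2 / 2 * H) τ (|H| / 2)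
    (e * τ * ‖v‖ ^ 2) hτ0 (by positivity) (by
      intro a b ha hab hb
      have hE1 := abs_le.1 (hest a ha (hab.trans hb))
      have hE2 := abs_le.1 (hest b (ha.trans hab) hb)
      have h1 := hs (g + a • v) (g + b • v)
      have h2 := hs (g + b • v) (g + a • v)
      have e1 : g + b • v - (g + a • v) = (b - a) • v := by
        rw [sub_smul]; abel
      have e2 : g + a • v - (g + b • v) = (a - b) • v := by
        rw [sub_smul]; abel
      rw [e1, inner_smul_right] at h1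
      rw [e2, inner_smul_right] at h2
      have hba : 0 ≤ b - a := by linarith
      have hH1 := le_abs_self H
      have hH2 := neg_abs_le H
      have k1 := mul_le_mul_of_nonneg_left hE1.1 hba
      have k2 := mul_le_mul_of_nonneg_left hE2.2 hba
      have k3 : (b - a) ^ 2 * H ≤ (b - a) ^ 2 * |H| :=
        mul_le_mul_of_nonneg_left hH1 (sq_nonneg _)
      have k4 : (b - a) ^ 2 * (-|H|) ≤ (b - a) ^ 2 * H :=
        mul_le_mul_of_nonneg_left hH2 (sq_nonneg _)
      rw [abs_le]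
      constructor
      · nlinarith
      · nlinarith)
  simp only [zero_smul, add_zero, zero_mul, sub_zero] at htele
  have e0 : Φ (g + τ • v) - τ * inner ℝ x v - τ ^ 2 / 2 * H - (Φ g - 0 ^ 2 / 2 * H) =
      Φ (g + τ • v) - Φ g - τ * inner ℝ x v - τ ^ 2 / 2 * H := by ring
  rw [e0] at htele
  refine htele.trans ?_
  have h9 : e * ‖v‖ ^ 2 ≤ ε := by
    rw [he, div_mul_eq_mul_div, div_le_iff₀ (by positivity)]
    nlinarith [sq_nonneg ‖v‖]
  calc e * τ * ‖v‖ ^ 2 * τ = (e * ‖v‖ ^ 2) * τ ^ 2 := by ring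
    _ ≤ ε * τ ^ 2 := mul_le_mul_of_nonneg_right h9 (sq_nonneg _)

omit [MeasurableSpace V] [BorelSpace V] in
/-- second order expansion of a convex function from differentiability of its proximal map -/
theorem expand (Φ : V → ℝ) (hconv : ConvexOn ℝ Set.univ Φ) (C : ℝ≥0) (hLip : LipschitzWith C Φ)
    (J : V → V)
    (hJ0 : ∀ z g', Φ (J z) + inner ℝ (z - J z) (g' - J z) ≤ Φ g')
    (hJ : ∀ g x, (∀ g', Φ g + inner ℝ x (g' - g) ≤ Φ g') → J (g + x) = g)
    (g x : V) (hsub : ∀ g', Φ g + inner ℝ x (g' - g) ≤ Φ g') (hdiff : DifferentiableAt ℝ Φ g)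
    (L M : V →L[ℝ] V) (hL : HasFDerivAt J L (g + x)) (hML : ∀ v, M (L v) = v)
    (hLM : ∀ v, L (M v) = v) (v : V) :
    Tendsto (fun τ : ℝ => (Φ (g + τ • v) + Φ (g - τ • v) - 2 * Φ g) / τ ^ 2) (𝓝[>] 0)
      (𝓝 (inner ℝ (M v - v) v)) := by
  rw [Metric.tendsto_nhds]
  intro ε hε
  obtain ⟨δ1, hδ1, h1⟩ := expand_one Φ hconv C hLip J hJ g x hsub hdiff L M hL hML v (ε / 4)
    (by positivity)
  obtain ⟨δ2, hδ2, h2⟩ := expand_one Φ hconv C hLip J hJ g x hsub hdiff L M hL hML (-v) (ε / 4)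
    (by positivity)
  have hmem : Set.Ioo (0:ℝ) (min δ1 δ2) ∈ 𝓝[>] (0:ℝ) := Ioo_mem_nhdsGT (lt_min hδ1 hδ2)
  filter_upwards [hmem] with τ hτ
  have hτ0 : 0 < τ := hτ.1
  have a1 := abs_le.1 (h1 τ hτ0.le (hτ.2.le.trans (min_le_left _ _)))
  have a2 := abs_le.1 (h2 τ hτ0.le (hτ.2.le.trans (min_le_right _ _)))
  have e1 : g + τ • (-v) = g - τ • v := by rw [smul_neg]; abel
  have e2 : inner ℝ (M (-v) - -v) (-v) = inner ℝ (M v - v) v := by
    rw [map_neg, ← neg_sub', inner_neg_neg]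
  rw [e1, e2, inner_neg_right] at a2
  rw [Real.dist_eq]
  have hsq : 0 < τ ^ 2 := by positivity
  have e3 : (Φ (g + τ • v) + Φ (g - τ • v) - 2 * Φ g) / τ ^ 2 - inner ℝ (M v - v) v =
      (Φ (g + τ • v) + Φ (g - τ • v) - 2 * Φ g - τ ^ 2 * inner ℝ (M v - v) v) / τ ^ 2 := by
    field_simp
  rw [e3, abs_div, abs_of_pos hsq, div_lt_iff₀ hsq]
  have h5 : |Φ (g + τ • v) + Φ (g - τ • v) - 2 * Φ g - τ ^ 2 * inner ℝ (M v - v) v| ≤
      ε / 2 * τ ^ 2 := by
    rw [abs_le]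
    constructor <;> linarith
  nlinarith

end J24540

end Pool.Agent.Helper7.Simplex.OT
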