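import Pool.Agent.Helper7.OT.Defs

set_option linter.all false

open MeasureTheory Filter Topology Set
open scoped ENNReal NNReal

namespace Pool.Agent.Helper7.Simplex.OT

namespace J24541

variable {V : Type*} [NormedAddCommGroup V] [InnerProductSpace ℝ V] [FiniteDimensional ℝ V]
  [MeasurableSpace V] [BorelSpace V]

theorem h170_1d (f : ℝ → ℝ) (hc : Continuous f) (hconv : ConvexOn ℝ Set.univ f) (h : ℝ)
    (hh : ∀ s t, f (s + t) ≤ f s + h * |t|) (τ : ℝ) (hτ : 0 < τ) :
    ∫⁻ t : ℝ, ENNReal.ofReal ((f (t + τ) + f (t - τ) - 2 * f t) / τ ^ 2) ≤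
      ENNReal.ofReal (2 * h) := by
  obtain ⟨D, hD⟩ : ∃ D : ℝ → ℝ, ∀ t, D t = (f (t + τ) + f (t - τ) - 2 * f t) / τ ^ 2 :=
    ⟨fun t => (f (t + τ) + f (t - τ) - 2 * f t) / τ ^ 2, fun _ => rfl⟩
  obtain ⟨u, hu⟩ : ∃ u : ℝ → ℝ, ∀ t, u t = f (t + τ) - f t := ⟨fun t => f (t + τ) - f t, fun _ => rfl⟩
  have huc : Continuous u := by
    rw [show u = fun t => f (t + τ) - f t from funext hu]
    fun_prop
  have hDc : Continuous D := by
    rw [show D = fun t => (f (t + τ) + f (t - τ) - 2 * f t) / τ ^ 2 from funext hD]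
    fun_prop
  have hD0 : ∀ t, 0 ≤ D t := by
    intro t
    rw [hD]
    apply div_nonneg _ (by positivity)
    have h1 := hconv.2 (mem_univ (t + τ)) (mem_univ (t - τ)) (show (0 : ℝ) ≤ 1 / 2 by norm_num)
      (show (0 : ℝ) ≤ 1 / 2 by norm_num) (by norm_num)
    have h2 : (1 / 2 : ℝ) • (t + τ) + (1 / 2 : ℝ) • (t - τ) = t := by
      simp only [smul_eq_mul]; ring
    rw [h2] at h1
    simp only [smul_eq_mul] at h1
    linarith
  have hub : ∀ t, ‖u t‖ ≤ h * τ := by
    intro t
    rw [Real.norm_eq_abs, abs_le, hu]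
    have h1 := hh t τ
    have h2 := hh (t + τ) (-τ)
    rw [abs_neg, add_neg_cancel_right] at h2
    rw [abs_of_pos hτ] at h1 h2
    constructor <;> linarith
  have hint : ∀ n : ℕ, ∫ t in (-(n : ℝ))..n, D t ≤ 2 * h := by
    intro n
    have e1 : ∀ t, D t = (u t - u (t - τ)) / τ ^ 2 := by
      intro t
      rw [hD, hu, hu, sub_add_cancel]
      ring
    have e2 : ∫ t in (-(n : ℝ))..n, D t =
        ((∫ t in (-(n : ℝ))..n, u t) - ∫ t in (-(n : ℝ) - τ)..(n - τ), u t) / τ ^ 2 := by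
      rw [← intervalIntegral.integral_comp_sub_right, ← intervalIntegral.integral_sub,
        ← intervalIntegral.integral_div]
      · exact intervalIntegral.integral_congr (fun t _ => e1 t)
      · exact huc.intervalIntegrable _ _
      · exact (huc.comp (continuous_id.sub continuous_const)).intervalIntegrable _ _
    rw [e2, intervalIntegral.integral_interval_sub_interval_comm (huc.intervalIntegrable _ _)
      (huc.intervalIntegrable _ _) (huc.intervalIntegrable _ _)]
    have b1 := intervalIntegral.norm_integral_le_of_norm_le_const (a := -(n : ℝ)) (b := -(n : ℝ) - τ)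
      (f := u) (C := h * τ) (fun t _ => hub t)
    have b2 := intervalIntegral.norm_integral_le_of_norm_le_const (a := (n : ℝ)) (b := (n : ℝ) - τ)
      (f := u) (C := h * τ) (fun t _ => hub t)
    have c1 : |-(n : ℝ) - τ - -(n : ℝ)| = τ := by
      rw [show -(n : ℝ) - τ - -(n : ℝ) = -τ by ring, abs_neg, abs_of_pos hτ]
    have c2 : |(n : ℝ) - τ - (n : ℝ)| = τ := by
      rw [show (n : ℝ) - τ - (n : ℝ) = -τ by ring, abs_neg, abs_of_pos hτ]
    rw [c1, Real.norm_eq_abs] at b1
    rw [c2, Real.norm_eq_abs] at b2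
    rw [div_le_iff₀ (by positivity)]
    have d1 := (abs_le.1 b1).2
    have d2 := (abs_le.1 b2).1
    nlinarith
  have hset : ∀ n : ℕ, ∫⁻ t in Ioc (-(n : ℝ)) n, ENNReal.ofReal (D t) ≤ ENNReal.ofReal (2 * h) := by
    intro n
    have hi : IntegrableOn D (Ioc (-(n : ℝ)) n) :=
      (hDc.integrableOn_Icc).mono_set Ioc_subset_Icc_self
    rw [← ofReal_integral_eq_lintegral_ofReal hi (Eventually.of_forall hD0)]
    apply ENNReal.ofReal_le_ofReal
    rw [← intervalIntegral.integral_of_le (by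
      have : (0 : ℝ) ≤ n := Nat.cast_nonneg n
      linarith)]
    exact hint n
  have hcov : AECover (volume : Measure ℝ) atTop (fun n : ℕ => Ioc (-(n : ℝ)) n) :=
    aecover_Ioc (tendsto_neg_atTop_atBot.comp tendsto_natCast_atTop_atTop)
      tendsto_natCast_atTop_atTop
  have hlim := hcov.lintegral_tendsto_of_nat (f := fun t => ENNReal.ofReal (D t))
    (hDc.measurable.ennreal_ofReal.aemeasurable)
  simp only [← hD]
  exact le_of_tendsto' hlim hset

theorem h170_psi (a : ℝ) :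
    ∫⁻ s : ℝ, ENNReal.ofReal ((√(2 * Real.pi))⁻¹ * Real.exp (-(a + s) ^ 2 / 2)) = 1 := by
  have h1 := ProbabilityTheory.lintegral_gaussianPDF_eq_one (-a) (v := 1) one_ne_zero
  rw [← h1]
  refine lintegral_congr fun s => ?_
  unfold ProbabilityTheory.gaussianPDF ProbabilityTheory.gaussianPDFReal
  rw [NNReal.coe_one, mul_one, mul_one, sub_neg_eq_add, add_comm a s]

theorem h170_gd : ∫⁻ g : V, ENNReal.ofReal (gdens g) = 1 := by
  have h1 := GaussianFourier.integral_rexp_neg_mul_sq_norm (V := V) (b := 1 / 2) (by norm_num)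
  have h2 : (Real.pi / (1 / 2)) = 2 * Real.pi := by ring
  rw [h2] at h1
  have hpos : (0 : ℝ) < 2 * Real.pi := by positivity
  have h3 : ∫ g : V, gdens g = 1 := by
    unfold gdens
    rw [integral_const_mul]
    have h4 : (fun g : V => Real.exp (-‖g‖ ^ 2 / 2)) = fun g : V => Real.exp (-(1 / 2) * ‖g‖ ^ 2) := by
      funext g
      congr 1
      ring
    rw [h4, h1, ← Real.rpow_add hpos]
    rw [show -(Module.finrank ℝ V : ℝ) / 2 + (Module.finrank ℝ V : ℝ) / 2 = 0 by ring, Real.rpow_zero]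
  have h5 : Integrable (fun g : V => gdens g) := by
    by_contra h
    rw [integral_undef h] at h3
    exact zero_ne_one h3
  have h6 : ∀ g : V, 0 ≤ gdens g := by
    intro g
    unfold gdens
    positivity
  rw [← ofReal_integral_eq_lintegral_ofReal h5 (Eventually.of_forall h6), h3, ENNReal.ofReal_one]

/-- flux inequality along a unit direction -/
theorem flux (e : V) (he : ‖e‖ = 1) (Φ : V → ℝ) (hconv : ConvexOn ℝ Set.univ Φ) (C : ℝ≥0)
    (hLip : LipschitzWith C Φ) (h : ℝ) (hh : ∀ g t, Φ (g + t • e) ≤ Φ g + h * |t|)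
    (τ : ℝ) (hτ : 0 < τ) :
    ∫⁻ g, ENNReal.ofReal ((Φ (g + τ • e) + Φ (g - τ • e) - 2 * Φ g) / τ ^ 2) *
      ENNReal.ofReal (gdens g * (√(2 * Real.pi) * Real.exp ((inner ℝ e g) ^ 2 / 2))) ≤
      ENNReal.ofReal (2 * h) := by
  have hΦc : Continuous Φ := hLip.continuous
  obtain ⟨D, hD⟩ : ∃ D : V → ℝ, ∀ g, D g = (Φ (g + τ • e) + Φ (g - τ • e) - 2 * Φ g) / τ ^ 2 :=
    ⟨fun g => (Φ (g + τ • e) + Φ (g - τ • e) - 2 * Φ g) / τ ^ 2, fun _ => rfl⟩
  obtain ⟨w, hw⟩ : ∃ w : V → ℝ, ∀ g, w g =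
    gdens g * (√(2 * Real.pi) * Real.exp ((inner ℝ e g) ^ 2 / 2)) :=
    ⟨fun g => gdens g * (√(2 * Real.pi) * Real.exp ((inner ℝ e g) ^ 2 / 2)), fun _ => rfl⟩
  obtain ⟨ψ, hψ⟩ : ∃ ψ : ℝ → ℝ, ∀ t, ψ t = (√(2 * Real.pi))⁻¹ * Real.exp (-t ^ 2 / 2) :=
    ⟨fun t => (√(2 * Real.pi))⁻¹ * Real.exp (-t ^ 2 / 2), fun _ => rfl⟩
  simp only [← hD, ← hw]
  have hDc : Continuous D := by
    rw [show D = fun g => (Φ (g + τ • e) + Φ (g - τ • e) - 2 * Φ g) / τ ^ 2 from funext hD]
    fun_prop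
  have hgc : Continuous (fun g : V => gdens g) := by
    unfold gdens
    fun_prop
  have hwc : Continuous w := by
    rw [show w = fun g => gdens g * (√(2 * Real.pi) * Real.exp ((inner ℝ e g) ^ 2 / 2)) from funext hw]
    fun_prop
  have hψc : Continuous ψ := by
    rw [show ψ = fun t => (√(2 * Real.pi))⁻¹ * Real.exp (-t ^ 2 / 2) from funext hψ]
    fun_prop
  have hww : ∀ (g : V) (s : ℝ), w (g - s • e) = w g := by
    intro g s
    have i1 : inner ℝ e (g - s • e) = inner ℝ e g - s := by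
      rw [inner_sub_right, inner_smul_right, real_inner_self_eq_norm_sq, he]; ring
    have i2 : ‖g - s • e‖ ^ 2 = ‖g‖ ^ 2 - 2 * s * inner ℝ e g + s ^ 2 := by
      rw [norm_sub_sq_real, inner_smul_right, real_inner_comm, norm_smul, he, Real.norm_eq_abs,
        mul_one, sq_abs]
      ring
    have key : ∀ g : V, w g = (2 * Real.pi) ^ (-(Module.finrank ℝ V : ℝ) / 2) * √(2 * Real.pi) *
        Real.exp (-‖g‖ ^ 2 / 2 + (inner ℝ e g) ^ 2 / 2) := by
      intro g
      rw [hw, gdens, Real.exp_add]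
      ring
    rw [key, key, i1, i2]
    congr 2
    ring
  have hwψ : ∀ g : V, w g * ψ (inner ℝ e g) = gdens g := by
    intro g
    rw [hw, hψ]
    have h1 : √(2 * Real.pi) * (√(2 * Real.pi))⁻¹ = 1 := mul_inv_cancel₀ (by positivity)
    have h2 : Real.exp ((inner ℝ e g) ^ 2 / 2) * Real.exp (-(inner ℝ e g) ^ 2 / 2) = 1 := by
      rw [← Real.exp_add]
      rw [show (inner ℝ e g) ^ 2 / 2 + -(inner ℝ e g) ^ 2 / 2 = (0 : ℝ) by ring, Real.exp_zero]
    calc gdens g * (√(2 * Real.pi) * Real.exp ((inner ℝ e g) ^ 2 / 2)) *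
          ((√(2 * Real.pi))⁻¹ * Real.exp (-(inner ℝ e g) ^ 2 / 2))
        = gdens g * (√(2 * Real.pi) * (√(2 * Real.pi))⁻¹) *
          (Real.exp ((inner ℝ e g) ^ 2 / 2) * Real.exp (-(inner ℝ e g) ^ 2 / 2)) := by ring
      _ = gdens g := by rw [h1, h2]; ring
  have hw0 : ∀ g, 0 ≤ w g := by
    intro g
    rw [hw, gdens]
    positivity
  have hψ1 : ∀ a : ℝ, ∫⁻ s : ℝ, ENNReal.ofReal (ψ (a + s)) = 1 := by
    intro a
    simp only [hψ]
    exact h170_psi a
  have h1d : ∀ g : V, ∫⁻ s : ℝ, ENNReal.ofReal (D (g - s • e)) ≤ ENNReal.ofReal (2 * h) := by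
    intro g
    have hf : ConvexOn ℝ Set.univ (fun s : ℝ => Φ (g - s • e)) := by
      refine ⟨convex_univ, ?_⟩
      intro x _ y _ a b ha hb hab
      have h1 := hconv.2 (mem_univ (g - x • e)) (mem_univ (g - y • e)) ha hb hab
      have h2 : a • (g - x • e) + b • (g - y • e) = g - (a • x + b • y) • e := by
        rw [smul_sub, smul_sub, add_smul, smul_eq_mul, smul_eq_mul, mul_smul, mul_smul]
        have : g = (a + b) • g := by rw [hab, one_smul]
        conv_rhs => rw [this]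
        rw [add_smul]
        abel
      rw [h2] at h1
      exact h1
    have hfc : Continuous (fun s : ℝ => Φ (g - s • e)) := by fun_prop
    have := h170_1d (fun s : ℝ => Φ (g - s • e)) hfc hf h (by
      intro s t
      have h1 := hh (g - s • e) (-t)
      rw [abs_neg] at h1
      have h2 : g - s • e + (-t) • e = g - (s + t) • e := by
        rw [add_smul, neg_smul]; abel
      rw [h2] at h1
      exact h1) τ hτ
    refine le_trans (le_of_eq ?_) this
    refine lintegral_congr fun s => ?_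
    rw [hD]
    congr 3
    have h2 : g - s • e + τ • e = g - (s - τ) • e := by
      rw [sub_smul]; abel
    have h3 : g - s • e - τ • e = g - (s + τ) • e := by
      rw [add_smul]; abel
    rw [h2, h3]
    ring
  -- main computation
  have m1 : ∫⁻ g, ENNReal.ofReal (D g) * ENNReal.ofReal (w g) =
      ∫⁻ g, ∫⁻ s : ℝ, ENNReal.ofReal (D g) * ENNReal.ofReal (w g) *
        ENNReal.ofReal (ψ (inner ℝ e g + s)) := by
    refine lintegral_congr fun g => ?_
    rw [lintegral_const_mul _ (by fun_prop), hψ1, mul_one]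
  have m2 : ∫⁻ g, ∫⁻ s : ℝ, ENNReal.ofReal (D g) * ENNReal.ofReal (w g) *
        ENNReal.ofReal (ψ (inner ℝ e g + s)) =
      ∫⁻ s : ℝ, ∫⁻ g, ENNReal.ofReal (D g) * ENNReal.ofReal (w g) *
        ENNReal.ofReal (ψ (inner ℝ e g + s)) := by
    apply lintegral_lintegral_swap
    apply Measurable.aemeasurable
    unfold Function.uncurry
    fun_prop
  have m3 : ∀ s : ℝ, ∫⁻ g, ENNReal.ofReal (D g) * ENNReal.ofReal (w g) *
        ENNReal.ofReal (ψ (inner ℝ e g + s)) =
      ∫⁻ g, ENNReal.ofReal (D (g - s • e)) * ENNReal.ofReal (w g) *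
        ENNReal.ofReal (ψ (inner ℝ e g)) := by
    intro s
    rw [← lintegral_sub_right_eq_self _ (s • e)]
    refine lintegral_congr fun g => ?_
    have i1 : inner ℝ e (g - s • e) = inner ℝ e g - s := by
      rw [inner_sub_right, inner_smul_right, real_inner_self_eq_norm_sq, he]; ring
    rw [hww, i1, sub_add_cancel]
  have m4 : ∫⁻ s : ℝ, ∫⁻ g, ENNReal.ofReal (D (g - s • e)) * ENNReal.ofReal (w g) *
        ENNReal.ofReal (ψ (inner ℝ e g)) =
      ∫⁻ g, ∫⁻ s : ℝ, ENNReal.ofReal (D (g - s • e)) * ENNReal.ofReal (w g) *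
        ENNReal.ofReal (ψ (inner ℝ e g)) := by
    apply lintegral_lintegral_swap
    apply Measurable.aemeasurable
    unfold Function.uncurry
    fun_prop
  rw [m1, m2]
  simp only [m3]
  rw [m4]
  calc ∫⁻ g, ∫⁻ s : ℝ, ENNReal.ofReal (D (g - s • e)) * ENNReal.ofReal (w g) *
        ENNReal.ofReal (ψ (inner ℝ e g))
      = ∫⁻ g, (∫⁻ s : ℝ, ENNReal.ofReal (D (g - s • e))) * (ENNReal.ofReal (w g) *
        ENNReal.ofReal (ψ (inner ℝ e g))) := by
        refine lintegral_congr fun g => ?_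
        rw [← lintegral_mul_const _ (by fun_prop)]
        refine lintegral_congr fun s => ?_
        rw [mul_assoc]
    _ ≤ ∫⁻ g, ENNReal.ofReal (2 * h) * ENNReal.ofReal (gdens g) := by
        refine lintegral_mono fun g => ?_
        rw [← ENNReal.ofReal_mul (hw0 g), hwψ]
        exact mul_le_mul_left (h1d g) _
    _ = ENNReal.ofReal (2 * h) := by
        rw [lintegral_const_mul _ (by fun_prop), h170_gd, mul_one]

end J24541

end Pool.Agent.Helper7.Simplex.OT
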