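import Pool.Agent.Helper7.OT.Defs

set_option linter.all false

open MeasureTheory Filter Topology Set
open scoped ENNReal NNReal

namespace Pool.Agent.Helper7.Simplex.OT

namespace J24536

variable {V : Type*} [NormedAddCommGroup V] [InnerProductSpace ℝ V] [FiniteDimensional ℝ V]
  [MeasurableSpace V] [BorelSpace V]

/-- area formula for an injective Lipschitz map -/
theorem area_lip (X : V → V) (C : ℝ≥0) (hX : LipschitzWith C X) (S : Set V)
    (hS : MeasurableSet S) (hinj : InjOn X S) (h : V → ℝ≥0∞) :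
    ∫⁻ x in X '' S, h x = ∫⁻ z in S, ENNReal.ofReal |(fderiv ℝ X z).det| * h (X z) := by
  set D : Set V := {z | DifferentiableAt ℝ X z} with hD
  have hDm : MeasurableSet D := measurableSet_of_differentiableAt ℝ X
  have hDae : ∀ᵐ z : V, z ∈ D := hX.ae_differentiableAt
  have hnull : volume (X '' (S \ D)) = 0 := by
    have h1 : volume (S \ D) = 0 := by
      refine measure_mono_null ?_ hDae
      intro z hz
      exact hz.2
    have h2 : (Measure.hausdorffMeasure (Module.finrank ℝ V) : Measure V) (S \ D) = 0 :=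
      Measure.absolutelyContinuous_isAddHaarMeasure _ volume h1
    have h3 : (Measure.hausdorffMeasure (Module.finrank ℝ V) : Measure V) (X '' (S \ D)) = 0 := by
      have h4 := hX.hausdorffMeasure_image_le (d := Module.finrank ℝ V) (by positivity) (S \ D)
      rw [h2, mul_zero] at h4
      exact le_antisymm h4 (by simp)
    exact Measure.absolutelyContinuous_isAddHaarMeasure volume _ h3
  have himg : X '' S = X '' (S ∩ D) ∪ X '' (S \ D) := by
    rw [← image_union, inter_union_diff]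
  have hae1 : (X '' S : Set V) =ᵐ[volume] (X '' (S ∩ D) : Set V) := by
    rw [himg]
    exact union_ae_eq_left_of_ae_eq_empty (ae_eq_empty.mpr hnull)
  have hae2 : (S : Set V) =ᵐ[volume] (S ∩ D : Set V) := by
    filter_upwards [hDae] with z hz
    apply propext
    exact ⟨fun h => ⟨h, hz⟩, fun h => h.1⟩
  rw [setLIntegral_congr hae1, setLIntegral_congr hae2]
  exact lintegral_image_eq_lintegral_abs_det_fderiv_mul volume (hS.inter hDm)
    (fun z hz => (show DifferentiableAt ℝ X z from hz.2).hasFDerivAt.hasFDerivWithinAt)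
    (hinj.mono inter_subset_left) h

end J24536

namespace J24539

variable {V : Type*} [NormedAddCommGroup V] [InnerProductSpace ℝ V] [FiniteDimensional ℝ V]
  [MeasurableSpace V] [BorelSpace V]

theorem jac_eq_sub_unique {V : Type*} [NormedAddCommGroup V] [InnerProductSpace ℝ V]
    (Φ : V → ℝ) (g x x' : V) (hd : DifferentiableAt ℝ Φ g)
    (h : ∀ g', Φ g + inner ℝ x (g' - g) ≤ Φ g') (h' : ∀ g', Φ g + inner ℝ x' (g' - g) ≤ Φ g') :
    x = x' := by
  have key : ∀ y : V, (∀ g', Φ g + inner ℝ y (g' - g) ≤ Φ g') → fderiv ℝ Φ g = innerSL ℝ y := by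
    intro y hy
    have hmin : IsLocalMin (fun g' => Φ g' - innerSL ℝ y g') g := by
      refine Filter.Eventually.of_forall fun g' => ?_
      have := hy g'
      rw [inner_sub_right] at this
      simp only [innerSL_apply_apply]
      linarith
    have h0 := hmin.fderiv_eq_zero
    rw [fderiv_fun_sub hd (innerSL ℝ y).differentiableAt] at h0
    rw [ContinuousLinearMap.fderiv] at h0
    exact sub_eq_zero.1 h0
  have h1 := (key x h).symm.trans (key x' h')
  apply ext_inner_right ℝ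
  intro v
  have h2 := congrArg (fun L : V →L[ℝ] ℝ => L v) h1
  simpa using h2

/-- Jacobian equation in Minty coordinates -/
theorem jac_eq
    (harea : ∀ (X : V → V) (C : ℝ≥0), LipschitzWith C X → ∀ S : Set V, MeasurableSet S →
      InjOn X S → ∀ h : V → ℝ≥0∞,
      ∫⁻ x in X '' S, h x = ∫⁻ z in S, ENNReal.ofReal |(fderiv ℝ X z).det| * h (X z))
    (K : Set V) (hK : MeasurableSet K) (hK0 : volume K ≠ 0) (hK1 : volume K ≠ ⊤)
    (μ : Measure V) (hμ : μ = (volume K)⁻¹ • volume.restrict K)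
    (ρ : V → ℝ≥0∞) (hρ : Measurable ρ) (p : Measure V) (hp : p = volume.withDensity ρ)
    [IsProbabilityMeasure p]
    (Φ : V → ℝ) (hconv : ConvexOn ℝ Set.univ Φ) (C : ℝ≥0) (hLip : LipschitzWith C Φ)
    (T : V → V) (hT : Measurable T) (hmap : μ.map T = p)
    (hsub : ∀ᵐ x ∂μ, ∀ g', Φ (T x) + inner ℝ x (g' - T x) ≤ Φ g')
    (J : V → V) (hJ1 : LipschitzWith 1 J) (hJ2 : LipschitzWith 1 (fun z => z - J z))
    (hJ : ∀ g x, (∀ g', Φ g + inner ℝ x (g' - g) ≤ Φ g') → J (g + x) = g) :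
    ∀ᵐ x ∂μ, DifferentiableAt ℝ J (T x + x) ∧ DifferentiableAt ℝ Φ (T x) ∧
      volume K * ρ (T x) * ENNReal.ofReal |(fderiv ℝ J (T x + x)).det| =
        ENNReal.ofReal |(fderiv ℝ (fun z => z - J z) (T x + x)).det| ∧
      (fderiv ℝ J (T x + x)).det ≠ 0 ∧ (fderiv ℝ (fun z => z - J z) (T x + x)).det ≠ 0 ∧
      ρ (T x) ≠ 0 ∧ ρ (T x) ≠ ⊤ := by
  classical
  obtain ⟨X, hXdef⟩ : ∃ X : V → V, X = fun z => z - J z := ⟨_, rfl⟩
  obtain ⟨A, hAdef⟩ : ∃ A : V → V, A = fun x => T x + x := ⟨_, rfl⟩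
  have hA : Measurable A := by rw [hAdef]; exact hT.add measurable_id
  have hJc : Continuous J := hJ1.continuous
  have hX1 : LipschitzWith 1 X := by rw [hXdef]; exact hJ2
  have hXc : Continuous X := hX1.continuous
  have hXm : Measurable X := hXc.measurable
  have hG0 : ∀ᵐ x ∂μ, x ∈ K ∧ (∀ g', Φ (T x) + inner ℝ x (g' - T x) ≤ Φ g') ∧
      DifferentiableAt ℝ Φ (T x) := by
    have h1 : ∀ᵐ x ∂μ, x ∈ K := by
      rw [hμ]
      exact Measure.ae_smul_measure (ae_restrict_mem hK) _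
    have h2 : ∀ᵐ g ∂p, DifferentiableAt ℝ Φ g := by
      rw [hp]
      exact (withDensity_absolutelyContinuous _ _).ae_le hLip.ae_differentiableAt
    rw [← hmap] at h2
    have h3 := ae_of_ae_map hT.aemeasurable h2
    filter_upwards [h1, hsub, h3] with x a b c using ⟨a, b, c⟩
  obtain ⟨N, hN1, hN2, hN3⟩ := exists_measurable_superset_of_null (ae_iff.1 hG0)
  obtain ⟨G, hGdef⟩ : ∃ G : Set V, G = Nᶜ := ⟨_, rfl⟩
  have hGm : MeasurableSet G := by rw [hGdef]; exact hN2.compl
  have hGae : ∀ᵐ x ∂μ, x ∈ G := by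
    rw [hGdef, ae_iff]
    simpa using hN3
  have hG : ∀ x ∈ G, x ∈ K ∧ (∀ g', Φ (T x) + inner ℝ x (g' - T x) ≤ Φ g') ∧
      DifferentiableAt ℝ Φ (T x) := by
    intro x hx
    rw [hGdef] at hx
    by_contra hcon
    exact hx (hN1 hcon)
  have hJA : ∀ x ∈ G, J (A x) = T x := by
    intro x hx
    rw [hAdef]
    exact hJ _ _ (hG x hx).2.1
  have hXA : ∀ x ∈ G, X (A x) = x := by
    intro x hx
    have h1 : X (A x) = A x - J (A x) := by rw [hXdef]
    rw [h1, hJA x hx, hAdef]
    simp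
  obtain ⟨S, hSdef⟩ : ∃ S : Set V, S = {z | X z ∈ G ∧ A (X z) = z} := ⟨_, rfl⟩
  have hSm : MeasurableSet S := by
    rw [hSdef]
    exact (hXm hGm).inter (measurableSet_eq_fun (hA.comp hXm) measurable_id)
  have hAS : ∀ x ∈ G, A x ∈ S := by
    intro x hx
    rw [hSdef]
    exact ⟨by rw [hXA x hx]; exact hx, by rw [hXA x hx]⟩
  have hXinj : InjOn X S := by
    intro z hz z' hz' h
    rw [hSdef] at hz hz'
    rw [← hz.2, ← hz'.2, h]
  have hJS : ∀ z ∈ S, J z = T (X z) := by
    intro z hz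
    rw [hSdef] at hz
    have := hJA _ hz.1
    rwa [hz.2] at this
  have hJinj : InjOn J S := by
    intro z hz z' hz' h
    have e1 := hJS z hz
    have e2 := hJS z' hz'
    have hz0 := hz
    have hz0' := hz'
    rw [hSdef] at hz0 hz0'
    have h1 := hG _ hz0.1
    have h2 := hG _ hz0'.1
    have e3 : T (X z) = T (X z') := by rw [← e1, ← e2, h]
    have h3 : X z = X z' := by
      refine jac_eq_sub_unique Φ (T (X z)) _ _ h1.2.2 h1.2.1 ?_
      rw [e3]
      exact h2.2.1
    rw [← hz0.2, ← hz0'.2, h3]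
  -- images under X
  have hXim : ∀ B : Set V, B ⊆ S → X '' B = G ∩ A ⁻¹' B := by
    intro B hB
    ext x
    constructor
    · rintro ⟨z, hz, rfl⟩
      have hz' := hB hz
      rw [hSdef] at hz'
      refine ⟨hz'.1, ?_⟩
      rw [mem_preimage, hz'.2]
      exact hz
    · rintro ⟨hx1, hx2⟩
      exact ⟨A x, hx2, hXA x hx1⟩
  have hμB : ∀ B : Set V, MeasurableSet B → μ (A ⁻¹' B) = (volume K)⁻¹ * volume (G ∩ A ⁻¹' B) := by
    intro B hB
    have h1 : μ (A ⁻¹' B) = μ (G ∩ A ⁻¹' B) := by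
      refine measure_congr ?_
      filter_upwards [hGae] with x hx
      exact propext ⟨fun h => ⟨hx, h⟩, fun h => h.2⟩
    rw [h1, hμ, Measure.smul_apply, smul_eq_mul, Measure.restrict_apply (hGm.inter (hA hB))]
    congr 2
    ext x
    exact ⟨fun h => h.1, fun h => ⟨h, (hG x h.1).1⟩⟩
  have harX : ∀ B : Set V, MeasurableSet B → B ⊆ S →
      volume (G ∩ A ⁻¹' B) = ∫⁻ z in B, ENNReal.ofReal |(fderiv ℝ X z).det| := by
    intro B hB hBS
    have h1 := harea X 1 hX1 B hB (hXinj.mono hBS) (fun _ => 1)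
    rw [hXim B hBS] at h1
    simpa using h1
  have harJ : ∀ B : Set V, MeasurableSet B → B ⊆ S →
      μ (A ⁻¹' B) = ∫⁻ z in B, ENNReal.ofReal |(fderiv ℝ J z).det| * ρ (J z) := by
    intro B hB hBS
    have h1 := harea J 1 hJ1 B hB (hJinj.mono hBS) ρ
    rw [← h1, ← withDensity_apply' ρ (J '' B), ← hp, ← hmap]
    have hJB : MeasurableSet (J '' B) :=
      hB.image_of_continuousOn_injOn hJc.continuousOn (hJinj.mono hBS)
    rw [Measure.map_apply hT hJB]
    refine measure_congr ?_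
    filter_upwards [hGae] with x hx
    refine propext ⟨fun h => ?_, fun h => ?_⟩
    · exact ⟨A x, h, hJA x hx⟩
    · obtain ⟨z, hz, hz2⟩ := h
      have h2 : J (A x) = J z := by rw [hJA x hx, hz2]
      have h3 := hJinj (hAS x hx) (hBS hz) h2
      show A x ∈ B
      rw [h3]; exact hz
  have hmX : Measurable fun z => ENNReal.ofReal |(fderiv ℝ X z).det| := by
    refine ENNReal.measurable_ofReal.comp ?_
    exact (continuous_abs.comp ContinuousLinearMap.continuous_det).measurable.comp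
      (measurable_fderiv ℝ X)
  have hmJ : Measurable fun z => ENNReal.ofReal |(fderiv ℝ J z).det| := by
    refine ENNReal.measurable_ofReal.comp ?_
    exact (continuous_abs.comp ContinuousLinearMap.continuous_det).measurable.comp
      (measurable_fderiv ℝ J)
  have heq : ∀ᵐ z ∂(volume.restrict S), volume K * (ENNReal.ofReal |(fderiv ℝ J z).det| * ρ (J z)) =
      ENNReal.ofReal |(fderiv ℝ X z).det| := by
    refine ae_eq_of_forall_setLIntegral_eq_of_sigmaFinite ?_ hmX ?_
    · exact (hmJ.mul (hρ.comp hJc.measurable)).const_mul _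
    · intro B hB _
      rw [Measure.restrict_restrict hB]
      have hBS : MeasurableSet (B ∩ S) := hB.inter hSm
      have hmJρ : Measurable fun z => ENNReal.ofReal |(fderiv ℝ J z).det| * ρ (J z) :=
        hmJ.mul (hρ.comp hJc.measurable)
      rw [lintegral_const_mul _ hmJρ,
        ← harX (B ∩ S) hBS inter_subset_right, ← harJ (B ∩ S) hBS inter_subset_right,
        hμB (B ∩ S) hBS, ← mul_assoc, ENNReal.mul_inv_cancel hK0 hK1, one_mul]
  rw [ae_restrict_iff' hSm] at heq
  -- absolute continuity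
  have hac : μ.map A ≪ volume := by
    refine Measure.AbsolutelyContinuous.mk fun B hB hB0 => ?_
    rw [Measure.map_apply hA hB, hμB B hB]
    have h1 : G ∩ A ⁻¹' B = G ∩ A ⁻¹' (B ∩ S) := by
      ext x
      exact ⟨fun h => ⟨h.1, h.2, hAS x h.1⟩, fun h => ⟨h.1, h.2.1⟩⟩
    rw [h1, harX (B ∩ S) (hB.inter hSm) inter_subset_right]
    have h2 : volume (B ∩ S) = 0 := measure_mono_null inter_subset_left hB0
    rw [Measure.restrict_eq_zero.2 h2]
    simp
  have hae : ∀ P : V → Prop, (∀ᵐ z ∂volume, P z) → ∀ᵐ x ∂μ, P (A x) := by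
    intro P hP
    exact ae_of_ae_map hA.aemeasurable (hac.ae_le hP)
  have hdet : ∀ᵐ x ∂μ, (fderiv ℝ X (A x)).det ≠ 0 := by
    have hZ : MeasurableSet {z : V | ENNReal.ofReal |(fderiv ℝ X z).det| = 0} :=
      hmX (measurableSet_singleton 0)
    have hZS := hZ.inter hSm
    have h1 : μ (A ⁻¹' ({z : V | ENNReal.ofReal |(fderiv ℝ X z).det| = 0} ∩ S)) = 0 := by
      rw [hμB _ hZS, harX _ hZS inter_subset_right]
      have h2 : ∫⁻ z in ({z : V | ENNReal.ofReal |(fderiv ℝ X z).det| = 0} ∩ S),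
          ENNReal.ofReal |(fderiv ℝ X z).det| = 0 := by
        rw [setLIntegral_congr_fun hZS (g := fun _ => 0) (fun z hz => hz.1)]
        simp
      rw [h2, mul_zero]
    have h3 : ∀ᵐ x ∂μ, A x ∉ ({z : V | ENNReal.ofReal |(fderiv ℝ X z).det| = 0} ∩ S) := by
      rw [ae_iff]
      simp only [not_not]
      exact h1
    filter_upwards [h3, hGae] with x hx hxG h0
    refine hx ⟨?_, hAS x hxG⟩
    show ENNReal.ofReal |(fderiv ℝ X (A x)).det| = 0
    rw [h0]; simp
  filter_upwards [hGae, hdet, hae _ heq, hae _ hJ1.ae_differentiableAt] with x hxG hxd hxe hxJ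
  have hxe' := hxe (hAS x hxG)
  rw [hJA x hxG] at hxe'
  have hXpos : ENNReal.ofReal |(fderiv ℝ X (A x)).det| ≠ 0 := by
    rw [Ne, ENNReal.ofReal_eq_zero, not_le]
    exact abs_pos.2 hxd
  have hJne : ENNReal.ofReal |(fderiv ℝ J (A x)).det| ≠ 0 := by
    intro h
    rw [h, zero_mul, mul_zero] at hxe'
    exact hXpos hxe'.symm
  have hρne : ρ (T x) ≠ 0 := by
    intro h
    rw [h, mul_zero, mul_zero] at hxe'
    exact hXpos hxe'.symm
  have hρtop : ρ (T x) ≠ ⊤ := by
    intro h
    rw [h, ENNReal.mul_top hJne, ENNReal.mul_top hK0] at hxe'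
    exact ENNReal.ofReal_ne_top hxe'.symm
  have hAx : A x = T x + x := by rw [hAdef]
  rw [hAx] at hxJ hxe' hJne hxd
  rw [hXdef] at hxe' hxd
  refine ⟨hxJ, (hG x hxG).2.2, ?_, ?_, hxd, hρne, hρtop⟩
  · rw [← hxe']
    ring
  · intro h
    apply hJne
    rw [h]; simp

end J24539

end Pool.Agent.Helper7.Simplex.OT
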