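import Pool.Agent.Helper7.OT.Defs

set_option linter.all false

open MeasureTheory ProbabilityTheory Matrix Filter Topology
open scoped ENNReal NNReal

namespace Pool.Agent.Helper7.Simplex.OT

namespace J24697

section JL

theorem jl_gauss_pi {d : ℕ} : Measure.pi (fun _ : Fin d => gaussianReal 0 1) =
    (volume : Measure (Fin d → ℝ)).withDensity
      (fun y => ENNReal.ofReal (∏ i, gaussianPDFReal 0 1 (y i))) := by
  apply Measure.pi_eq
  intro s hs
  rw [withDensity_apply _ (MeasurableSet.univ_pi hs), volume_pi, Measure.restrict_pi_pi]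
  have hi : ∀ i : Fin d, Integrable (gaussianPDFReal 0 1) ((volume : Measure ℝ).restrict (s i)) :=
    fun i => (integrable_gaussianPDFReal 0 1).restrict
  have hint : Integrable (fun y : Fin d → ℝ => ∏ i, gaussianPDFReal 0 1 (y i))
      (Measure.pi (fun i : Fin d => (volume : Measure ℝ).restrict (s i))) :=
    Integrable.fintype_prod hi
  rw [← ofReal_integral_eq_lintegral_ofReal hint
    (Filter.Eventually.of_forall (fun y => Finset.prod_nonneg
      (fun i _ => gaussianPDFReal_nonneg _ _ _))),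
    integral_fintype_prod_eq_prod (fun _ : Fin d => gaussianPDFReal 0 1),
    ENNReal.ofReal_prod_of_nonneg]
  · refine Finset.prod_congr rfl (fun i _ => ?_)
    rw [gaussianReal_apply_eq_integral 0 one_ne_zero]
  · intro i _
    exact integral_nonneg (fun x => gaussianPDFReal_nonneg _ _ _)

theorem jl_prod_eq {d : ℕ} (y : EuclideanSpace ℝ (Fin d)) :
    ∏ i, gaussianPDFReal 0 1 (y i) = gdE y := by
  unfold gdE
  have h1 : ∀ x : ℝ, gaussianPDFReal 0 1 x = (2 * Real.pi) ^ (-(1:ℝ)/2) * Real.exp (-x ^ 2 / 2) := by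
    intro x
    have h0 : (0:ℝ) ≤ 2 * Real.pi := by positivity
    simp only [gaussianPDFReal, NNReal.coe_one, mul_one, sub_zero]
    congr 1
    rw [Real.sqrt_eq_rpow, ← Real.rpow_neg h0]
    congr 1
    norm_num
  simp_rw [h1]
  rw [Finset.prod_mul_distrib, ← Real.exp_sum, Finset.prod_const, Finset.card_univ,
    Fintype.card_fin]
  congr 1
  · have h0 : (0:ℝ) ≤ 2 * Real.pi := by positivity
    rw [← Real.rpow_natCast, ← Real.rpow_mul h0]
    congr 1
    ring
  · congr 1
    rw [EuclideanSpace.norm_sq_eq]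
    simp only [Real.norm_eq_abs, sq_abs]
    rw [← Finset.sum_div, Finset.sum_neg_distrib]

theorem jl_gdE_pos {d : ℕ} (y : EuclideanSpace ℝ (Fin d)) : 0 < gdE y := by
  unfold gdE
  have : 0 < Real.pi := Real.pi_pos
  positivity

theorem jl_change {d : ℕ} (F : (Fin d → ℝ) → ℝ) (s : Set (EuclideanSpace ℝ (Fin d)))
    (hs : MeasurableSet s) :
    ∫ g in s, F (WithLp.ofLp g) * gdE g =
      ∫ y in (WithLp.toLp 2 ⁻¹' s), F y ∂(Measure.pi (fun _ : Fin d => gaussianReal 0 1)) := by
  have hms : MeasurableSet ((WithLp.toLp 2 : (Fin d → ℝ) → EuclideanSpace ℝ (Fin d)) ⁻¹' s) :=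
    (PiLp.volume_preserving_toLp (Fin d)).measurable hs
  have hmeas : Measurable (fun y : Fin d → ℝ => ENNReal.ofReal (∏ i, gaussianPDFReal 0 1 (y i))) := by
    apply ENNReal.measurable_ofReal.comp
    apply Finset.measurable_prod
    intro i _
    exact (measurable_gaussianPDFReal 0 1).comp (measurable_pi_apply i)
  rw [jl_gauss_pi, setIntegral_withDensity_eq_setIntegral_toReal_smul hmeas
    (Filter.Eventually.of_forall fun x => ENNReal.ofReal_lt_top) F hms]
  rw [← (PiLp.volume_preserving_toLp (Fin d)).setIntegral_preimage_emb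
    (MeasurableEquiv.toLp 2 (Fin d → ℝ)).measurableEmbedding
    (fun g : EuclideanSpace ℝ (Fin d) => F (WithLp.ofLp g) * gdE g) s]
  refine setIntegral_congr_fun hms fun y _ => ?_
  simp only [smul_eq_mul]
  rw [ENNReal.toReal_ofReal (Finset.prod_nonneg (fun i _ => gaussianPDFReal_nonneg _ _ _)),
    ← jl_prod_eq (WithLp.toLp 2 y)]
  simp only [mul_comm]

theorem jl_limit {d : ℕ} (F : (Fin d → ℝ) → ℝ)
    (hF : Integrable F (Measure.pi (fun _ : Fin d => gaussianReal 0 1))) :
    Tendsto (fun n : ℕ => ∫ g in Metric.closedBall (0 : EuclideanSpace ℝ (Fin d)) (n:ℝ),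
      F (WithLp.ofLp g) * gdE g) atTop
      (𝓝 (∫ y, F y ∂(Measure.pi (fun _ : Fin d => gaussianReal 0 1)))) := by
  have h1 : ∀ n : ℕ, ∫ g in Metric.closedBall (0 : EuclideanSpace ℝ (Fin d)) (n:ℝ),
      F (WithLp.ofLp g) * gdE g = ∫ y in ((WithLp.toLp 2 : (Fin d → ℝ) → EuclideanSpace ℝ (Fin d)) ⁻¹'
        (Metric.closedBall (0 : EuclideanSpace ℝ (Fin d)) (n:ℝ))),
        F y ∂(Measure.pi (fun _ : Fin d => gaussianReal 0 1)) :=
    fun n => jl_change F _ Metric.isClosed_closedBall.measurableSet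
  simp_rw [h1]
  have hU : (⋃ n : ℕ, ((WithLp.toLp 2 : (Fin d → ℝ) → EuclideanSpace ℝ (Fin d)) ⁻¹'
        (Metric.closedBall (0 : EuclideanSpace ℝ (Fin d)) (n:ℝ)))) = Set.univ := by
    rw [← Set.preimage_iUnion, Metric.iUnion_closedBall_nat, Set.preimage_univ]
  have h2 := tendsto_setIntegral_of_monotone (f := F)
    (μ := Measure.pi (fun _ : Fin d => gaussianReal 0 1))
    (s := fun n : ℕ => ((WithLp.toLp 2 : (Fin d → ℝ) → EuclideanSpace ℝ (Fin d)) ⁻¹'
        (Metric.closedBall (0 : EuclideanSpace ℝ (Fin d)) (n:ℝ))))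
    (fun n => (PiLp.volume_preserving_toLp (Fin d)).measurable
      Metric.isClosed_closedBall.measurableSet)
    (fun m n hmn => Set.preimage_mono (Metric.closedBall_subset_closedBall (by exact_mod_cast hmn)))
    hF.integrableOn
  rw [hU, Measure.restrict_univ] at h2
  exact h2

theorem jl_memLp {d : ℕ} (i : Fin d) :
    MemLp (fun y : Fin d → ℝ => y i) 2 (Measure.pi (fun _ : Fin d => gaussianReal 0 1)) := by
  have := (memLp_id_gaussianReal' (μ := 0) (v := 1) 2 (by norm_num)).comp_measurePreserving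
    (measurePreserving_eval (fun _ : Fin d => gaussianReal 0 1) i)
  exact this

theorem jl_memLp_dot {d : ℕ} (u : Fin d → ℝ) :
    MemLp (fun y : Fin d → ℝ => u ⬝ᵥ y) 2 (Measure.pi (fun _ : Fin d => gaussianReal 0 1)) := by
  have h : (fun y : Fin d → ℝ => u ⬝ᵥ y) = fun y => ∑ i, u i * y i := rfl
  rw [h]
  exact memLp_finsetSum _ fun i _ => (jl_memLp i).const_mul (u i)

theorem jl_second {d : ℕ} (u : Fin d → ℝ) :
    ∫ y, (u ⬝ᵥ y) ^ 2 ∂(Measure.pi (fun _ : Fin d => gaussianReal 0 1)) = u ⬝ᵥ u := by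
  have h1 := variance_sum_pi (μ := fun _ : Fin d => gaussianReal 0 1)
    (X := fun i x => u i * x) (fun i => by
      exact (memLp_id_gaussianReal' (μ := 0) (v := 1) 2 (by norm_num)).const_mul (u i))
  have hfun : (∑ i, fun ω : Fin d → ℝ => u i * ω i) = fun y => u ⬝ᵥ y := by
    funext y
    simp [Finset.sum_apply, dotProduct]
  rw [hfun] at h1
  have h2 : ∀ i, Var[fun x : ℝ => u i * x; gaussianReal 0 1] = u i ^ 2 := by
    intro i
    rw [variance_const_mul, variance_fun_id_gaussianReal]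
    simp
  simp_rw [h2] at h1
  have hmean : ∫ y, u ⬝ᵥ y ∂(Measure.pi (fun _ : Fin d => gaussianReal 0 1)) = 0 := by
    have h : (fun y : Fin d → ℝ => u ⬝ᵥ y) = fun y => ∑ i, u i * y i := rfl
    rw [h, integral_finsetSum _ (fun i _ => ((jl_memLp i).const_mul (u i)).integrable (by norm_num))]
    refine Finset.sum_eq_zero fun i _ => ?_
    rw [integral_const_mul]
    have h4 : ∫ y, y i ∂(Measure.pi (fun _ : Fin d => gaussianReal 0 1)) =
        ∫ x, x ∂(gaussianReal 0 1) := by
      have h5 := integral_map (μ := Measure.pi (fun _ : Fin d => gaussianReal 0 1))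
        (φ := Function.eval i) (f := fun x : ℝ => x) (measurable_pi_apply i).aemeasurable
        (measurable_id).aestronglyMeasurable
      rw [(measurePreserving_eval (fun _ : Fin d => gaussianReal 0 1) i).map_eq] at h5
      exact h5.symm
    rw [h4, integral_id_gaussianReal, mul_zero]
  rw [variance_of_integral_eq_zero (jl_memLp_dot u).aemeasurable hmean] at h1
  rw [h1, dotProduct]
  exact Finset.sum_congr rfl fun i _ => by ring

theorem jl_KK_cont : Continuous KK := by
  unfold KK
  fun_prop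

theorem jl_KK_bd (x : ℝ) : abs (KK x) ≤ |x| := by
  unfold KK
  have h1 := Real.add_one_le_exp (-|x|)
  have h2 : Real.exp (-|x|) ≤ 1 := Real.exp_le_one_iff.2 (by simp)
  rw [abs_of_nonneg (by linarith)]
  linarith

end JL

/-- limit of the ball inequality, in coordinates -/
theorem lim_ineq {d : ℕ} {ι : Type*} [Fintype ι] (w : ι → Fin d → ℝ)
    (hI : ∑ i, vecMulVec (w i) (w i) = 1) (hc0 : ∀ i, 0 < w i ⬝ᵥ w i) (v : ℝ)
    (hball : ∀ R : ℝ, 1 ≤ R →
      (∫ g in Metric.closedBall (0 : EuclideanSpace ℝ (Fin d)) R, gdE g) *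
        (v - Real.log (∫ g in Metric.closedBall (0 : EuclideanSpace ℝ (Fin d)) R, gdE g) + d) +
      ∫ g in Metric.closedBall (0 : EuclideanSpace ℝ (Fin d)) R,
        (Real.log (gdE g) + LL w (WithLp.ofLp g)) * gdE g ≤ d) :
    v ≤ -((1 / 2) * ∑ i, (w i ⬝ᵥ w i) * Real.log (w i ⬝ᵥ w i)) -
      (1 / 2) * ∑ i, ∑ j, (w i ⬝ᵥ w j) ^ 2 *
        ∫ y, KK (tt w i y - tt w j y) ∂(Measure.pi (fun _ : Fin d => gaussianReal 0 1)) := by
  classical
  set γ : Measure (Fin d → ℝ) := Measure.pi (fun _ : Fin d => gaussianReal 0 1) with hγ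
  have hsq : ∀ u : Fin d → ℝ, Integrable (fun y : Fin d → ℝ => (u ⬝ᵥ y) ^ 2) γ :=
    fun u => (jl_memLp_dot u).integrable_sq
  have htt : ∀ i, Integrable (tt w i) γ := by
    intro i
    have : tt w i = fun g => ((1 / 2) * Real.log (w i ⬝ᵥ w i) + (1 / 2) * Real.log (2 * Real.pi)) +
      (w i ⬝ᵥ g) ^ 2 / (2 * (w i ⬝ᵥ w i)) := rfl
    rw [this]
    exact (integrable_const _).add ((hsq (w i)).div_const _)
  have hKK : ∀ i j, Integrable (fun y => KK (tt w i y - tt w j y)) γ := by
    intro i j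
    refine ((htt i).sub (htt j)).mono (jl_KK_cont.comp_aestronglyMeasurable
      ((htt i).sub (htt j)).aestronglyMeasurable) ?_
    refine Filter.Eventually.of_forall fun y => ?_
    simp only [Real.norm_eq_abs]
    exact jl_KK_bd _
  have hEtt : ∀ i, ∫ y, tt w i y ∂γ = (1 / 2) * Real.log (w i ⬝ᵥ w i) +
      (1 / 2) * Real.log (2 * Real.pi) + 1 / 2 := by
    intro i
    have : tt w i = fun g => ((1 / 2) * Real.log (w i ⬝ᵥ w i) + (1 / 2) * Real.log (2 * Real.pi)) +
      (w i ⬝ᵥ g) ^ 2 / (2 * (w i ⬝ᵥ w i)) := rfl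
    rw [this, integral_add (integrable_const _) ((hsq (w i)).div_const _), integral_const,
      integral_div, jl_second]
    have hc := (hc0 i).ne'
    simp only [probReal_univ, smul_eq_mul, one_mul]
    congr 1
    field_simp
  have hLLint : Integrable (LL w) γ := by
    unfold LL
    refine Integrable.add ?_ ?_
    · exact integrable_finsetSum _ fun i _ => (htt i).const_mul _
    · refine Integrable.const_mul ?_ _
      exact integrable_finsetSum _ fun i _ => integrable_finsetSum _ fun j _ =>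
        (hKK i j).const_mul _
  have hELL : ∫ y, LL w y ∂γ = ∑ i, (w i ⬝ᵥ w i) * ((1 / 2) * Real.log (w i ⬝ᵥ w i) +
      (1 / 2) * Real.log (2 * Real.pi) + 1 / 2) +
      (1 / 2) * ∑ i, ∑ j, (w i ⬝ᵥ w j) ^ 2 * ∫ y, KK (tt w i y - tt w j y) ∂γ := by
    unfold LL
    rw [integral_add (integrable_finsetSum _ fun i _ => (htt i).const_mul _)
      (Integrable.const_mul (integrable_finsetSum _ fun i _ => integrable_finsetSum _ fun j _ =>
        (hKK i j).const_mul _) _),
      integral_finsetSum _ (fun i _ => (htt i).const_mul _), integral_const_mul,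
      integral_finsetSum _ (fun i _ => integrable_finsetSum _ fun j _ => (hKK i j).const_mul _)]
    congr 1
    · refine Finset.sum_congr rfl fun i _ => ?_
      rw [integral_const_mul, hEtt]
    · congr 1
      refine Finset.sum_congr rfl fun i _ => ?_
      rw [integral_finsetSum _ (fun j _ => (hKK i j).const_mul _)]
      refine Finset.sum_congr rfl fun j _ => ?_
      rw [integral_const_mul]
  -- the log density
  have hlog : ∀ g : EuclideanSpace ℝ (Fin d), Real.log (gdE g) =
      -(d / 2) * Real.log (2 * Real.pi) - (∑ k, (WithLp.ofLp g k) ^ 2) / 2 := by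
    intro g
    unfold gdE
    have hp : (0:ℝ) < 2 * Real.pi := by positivity
    rw [Real.log_mul (Real.rpow_pos_of_pos hp _).ne' (Real.exp_pos _).ne', Real.log_rpow hp,
      Real.log_exp, EuclideanSpace.norm_sq_eq]
    simp only [Real.norm_eq_abs, sq_abs]
    ring
  have hcoord : ∀ k : Fin d, Integrable (fun y : Fin d → ℝ => (y k) ^ 2) γ :=
    fun k => (jl_memLp k).integrable_sq
  have hcoordE : ∀ k : Fin d, ∫ y, (y k) ^ 2 ∂γ = 1 := by
    intro k
    have := jl_second (Pi.single k (1:ℝ))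
    simpa using this
  set P : (Fin d → ℝ) → ℝ := fun y => -(d / 2) * Real.log (2 * Real.pi) - (∑ k, (y k) ^ 2) / 2
    with hP
  have hPint : Integrable P γ :=
    (integrable_const _).sub ((integrable_finsetSum _ fun k _ => hcoord k).div_const _)
  have hPE : ∫ y, P y ∂γ = -(d / 2) * Real.log (2 * Real.pi) - d / 2 := by
    rw [hP, integral_sub (integrable_const _)
      ((integrable_finsetSum _ fun k _ => hcoord k).div_const _), integral_const, integral_div,
      integral_finsetSum _ (fun k _ => hcoord k)]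
    simp [hcoordE]
  have hlim1 := jl_limit (d := d) (fun _ => (1:ℝ)) (integrable_const _)
  have hlim2 := jl_limit (d := d) (fun y => P y + LL w y) (hPint.add hLLint)
  simp only [one_mul, integral_const, probReal_univ, smul_eq_mul, mul_one] at hlim1
  have hcongr : ∀ n : ℕ, ∫ g in Metric.closedBall (0 : EuclideanSpace ℝ (Fin d)) (n:ℝ),
        (Real.log (gdE g) + LL w (WithLp.ofLp g)) * gdE g =
      ∫ g in Metric.closedBall (0 : EuclideanSpace ℝ (Fin d)) (n:ℝ),
        (P (WithLp.ofLp g) + LL w (WithLp.ofLp g)) * gdE g := by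
    intro n
    refine integral_congr_ae (Filter.Eventually.of_forall fun g => ?_)
    simp only
    rw [hlog g]
  have hlog1 : Tendsto (fun n : ℕ => Real.log (∫ g in Metric.closedBall
      (0 : EuclideanSpace ℝ (Fin d)) (n:ℝ), gdE g)) atTop (𝓝 (Real.log 1)) :=
    hlim1.log one_ne_zero
  have hlim3 := (hlim1.mul ((tendsto_const_nhds (x := v)).sub hlog1 |>.add
    (tendsto_const_nhds (x := (d:ℝ))))).add hlim2
  have hle := le_of_tendsto hlim3 (b := (d:ℝ)) (by
    filter_upwards [Filter.eventually_ge_atTop 1] with n hn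
    have := hball (n:ℝ) (by exact_mod_cast hn)
    rw [hcongr n] at this
    exact this)
  rw [integral_add hPint hLLint, hPE, hELL, Real.log_one] at hle
  have htr : ∑ i, (w i ⬝ᵥ w i) = d := by
    have h1 := congrArg Matrix.trace hI
    rw [Matrix.trace_sum, Matrix.trace_one, Fintype.card_fin] at h1
    rw [← h1]
    exact Finset.sum_congr rfl fun i _ => (Matrix.trace_vecMulVec _ _).symm
  have hsum : ∑ i, (w i ⬝ᵥ w i) * ((1 / 2) * Real.log (w i ⬝ᵥ w i) +
      (1 / 2) * Real.log (2 * Real.pi) + 1 / 2) =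
      (1 / 2) * ∑ i, (w i ⬝ᵥ w i) * Real.log (w i ⬝ᵥ w i) +
      d * ((1 / 2) * Real.log (2 * Real.pi) + 1 / 2) := by
    rw [← htr, Finset.sum_mul, Finset.mul_sum, ← Finset.sum_add_distrib]
    exact Finset.sum_congr rfl fun i _ => by ring
  rw [hsum] at hle
  have : ∀ i j, (w i ⬝ᵥ w j) ^ 2 * ∫ y, KK (tt w i y - tt w j y) ∂γ =
    (w i ⬝ᵥ w j) ^ 2 * ∫ y, KK (tt w i y - tt w j y) ∂γ := fun _ _ => rfl
  linarith

end J24697

end Pool.Agent.Helper7.Simplex.OT
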