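import Pool.Agent.Helper7.OT.Defs

set_option linter.all false

open MeasureTheory ProbabilityTheory Matrix Filter Topology
open scoped ENNReal NNReal

namespace Pool.Agent.Helper7.Simplex.OT

namespace J24597

theorem lin_alg_psd {E : Type*} [NormedAddCommGroup E] [InnerProductSpace ℝ E] (T : E →L[ℝ] E)
    (hs : ∀ v v', inner ℝ (T v) v' = inner ℝ v (T v')) (h0 : ∀ v, 0 ≤ inner ℝ (T v) v) (w : E)
    (hw : inner ℝ (T w) w = 0) : T w = 0 := by
  have key : ∀ t : ℝ, 0 ≤ 2 * t * ‖T w‖^2 + t^2 * inner ℝ (T (T w)) (T w) := by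
    intro t
    have := h0 (w + t • T w)
    rw [map_add, map_smul, inner_add_left, inner_add_right, inner_add_right, real_inner_smul_left,
      real_inner_smul_left, real_inner_smul_right, real_inner_smul_right, hw, hs (T w) w,
      real_inner_self_eq_norm_sq] at this
    linarith
  have hb := h0 (T w)
  set b := inner ℝ (T (T w)) (T w) with hbdef
  set a := ‖T w‖^2 with ha
  have ha0 : 0 ≤ a := by positivity
  have h1 := key (-a / (b + 1))
  have hb1 : 0 < b + 1 := by linarith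
  have h2 : 2 * (-a / (b + 1)) * a + (-a / (b + 1))^2 * b = - (a^2 * (b + 2) / (b+1)^2) := by
    field_simp
    ring
  rw [h2] at h1
  have h3 : a^2 * (b + 2) / (b+1)^2 ≤ 0 := by linarith
  have h4 : a^2 * (b + 2) ≤ 0 := by
    by_contra h
    have : 0 < a^2 * (b + 2) / (b+1)^2 := div_pos (not_le.1 h) (by positivity)
    linarith
  have h5 : a^2 = 0 := by
    have : 0 ≤ a^2 := by positivity
    nlinarith
  have h6 : a = 0 := by simpa using h5
  have h7 : ‖T w‖ = 0 := by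
    rw [ha] at h6
    simpa using h6
  exact norm_eq_zero.1 h7

theorem lin_alg {d : ℕ} (L : EuclideanSpace ℝ (Fin d) →L[ℝ] EuclideanSpace ℝ (Fin d))
    (hsym : ∀ v v', inner ℝ (L v) v' = inner ℝ v (L v'))
    (h0 : ∀ v, 0 ≤ inner ℝ (L v) v) (h1 : ∀ v, inner ℝ (L v) v ≤ inner ℝ v v)
    (hdet : L.det ≠ 0) (hdet1 : (ContinuousLinearMap.id ℝ (EuclideanSpace ℝ (Fin d)) - L).det ≠ 0) :
    ∃ (M : EuclideanSpace ℝ (Fin d) →L[ℝ] EuclideanSpace ℝ (Fin d)) (H : Matrix (Fin d) (Fin d) ℝ),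
      (∀ v, M (L v) = v) ∧ (∀ v, L (M v) = v) ∧ H.PosDef ∧
      H.det * |L.det| = |(ContinuousLinearMap.id ℝ (EuclideanSpace ℝ (Fin d)) - L).det| ∧
      ∀ v : Fin d → ℝ, inner ℝ (M (WithLp.toLp 2 v) - WithLp.toLp 2 v) (WithLp.toLp 2 v) =
        v ⬝ᵥ (H *ᵥ v) := by
  set E := EuclideanSpace ℝ (Fin d) with hE
  let Le : E ≃L[ℝ] E := L.toContinuousLinearEquivOfDetNeZero hdet
  have hLe : ∀ v, Le v = L v := fun v => rfl
  let M : E →L[ℝ] E := (Le.symm : E →L[ℝ] E)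
  have hML : ∀ v, M (L v) = v := fun v => by
    show Le.symm (L v) = v
    rw [← hLe]; exact Le.symm_apply_apply v
  have hLM : ∀ v, L (M v) = v := fun v => by
    show L (Le.symm v) = v
    rw [← hLe]; exact Le.apply_symm_apply v
  let G : E →L[ℝ] E := ContinuousLinearMap.id ℝ E - L
  have hGs : ∀ v v', inner ℝ (G v) v' = inner ℝ v (G v') := by
    intro v v'
    show inner ℝ (v - L v) v' = inner ℝ v (v' - L v')
    rw [inner_sub_left, inner_sub_right, hsym]
  have hG0 : ∀ v, 0 ≤ inner ℝ (G v) v := by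
    intro v
    show 0 ≤ inner ℝ (v - L v) v
    rw [inner_sub_left]
    linarith [h1 v]
  have hGinj : ∀ v, G v = 0 → v = 0 := by
    intro v hv
    let Ge : E ≃L[ℝ] E := G.toContinuousLinearEquivOfDetNeZero hdet1
    have : Ge v = 0 := hv
    exact (map_eq_zero_iff Ge Ge.injective).1 this
  -- positivity of L(1-L)
  have hpos : ∀ u : E, u ≠ 0 → 0 < inner ℝ (u - L u) (L u) := by
    intro u hu
    have hLu : L u ≠ 0 := by
      intro h
      apply hu
      rw [← hML u, h, map_zero]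
    have e1 : inner ℝ (u - L u) (L u) = inner ℝ (G (L u)) (L u) + inner ℝ (L (G u)) (G u) := by
      show inner ℝ (u - L u) (L u) = inner ℝ (L u - L (L u)) (L u) +
        inner ℝ (L (u - L u)) (u - L u)
      rw [map_sub]
      simp only [inner_sub_left, inner_sub_right]
      have a1 := hsym (L u) u
      have a2 : inner ℝ (L u) u = inner ℝ u (L u) := hsym u u
      rw [a1]
      linarith
    rw [e1]
    have e2 : 0 < inner ℝ (G (L u)) (L u) := by
      rcases (hG0 (L u)).eq_or_lt with h | h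
      · exfalso
        exact hLu (hGinj _ (lin_alg_psd G hGs hG0 (L u) h.symm))
      · exact h
    have e3 := h0 (G u)
    linarith
  let b := (EuclideanSpace.basisFun (Fin d) ℝ).toBasis
  let N : E →L[ℝ] E := M - ContinuousLinearMap.id ℝ E
  let H : Matrix (Fin d) (Fin d) ℝ := LinearMap.toMatrix b b (N : E →ₗ[ℝ] E)
  have hquad : ∀ v w : Fin d → ℝ, inner ℝ (N (WithLp.toLp 2 v)) (WithLp.toLp 2 w) =
      w ⬝ᵥ (H *ᵥ v) := by
    intro v w
    have e1 : H *ᵥ v = fun i => (N (WithLp.toLp 2 v)) i := by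
      have := LinearMap.toMatrix_mulVec_repr b b (N : E →ₗ[ℝ] E) (WithLp.toLp 2 v)
      have e2 : (b.repr (WithLp.toLp 2 v) : Fin d → ℝ) = v := by
        funext i
        simp [b]
      rw [e2] at this
      rw [show H *ᵥ v = _ from this]
      funext i
      simp [b]
    rw [e1]
    simp only [PiLp.inner_apply, dotProduct]
    apply Finset.sum_congr rfl
    intro i _
    simp
  have hNs : ∀ v w : E, inner ℝ (N v) w = inner ℝ (N w) v := by
    intro v w
    show inner ℝ (M v - v) w = inner ℝ (M w - w) v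
    rw [inner_sub_left, inner_sub_left, real_inner_comm w v]
    congr 1
    calc inner ℝ (M v) w = inner ℝ (M v) (L (M w)) := by rw [hLM]
      _ = inner ℝ (L (M v)) (M w) := (hsym _ _).symm
      _ = inner ℝ v (M w) := by rw [hLM]
      _ = inner ℝ (M w) v := real_inner_comm _ _
  have hNpos : ∀ v : E, v ≠ 0 → 0 < inner ℝ (N v) v := by
    intro v hv
    have hu : M v ≠ 0 := by
      intro h
      apply hv
      rw [← hLM v, h, map_zero]
    have := hpos (M v) hu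
    rw [hLM] at this
    exact this
  have hH : H.PosDef := by
    apply Matrix.PosDef.of_dotProduct_mulVec_pos
    · ext i j
      rw [Matrix.conjTranspose_apply]
      simp only [star_trivial]
      have e1 : ∀ i j, H i j = inner ℝ (N (WithLp.toLp 2 (Pi.single j 1))) (WithLp.toLp 2 (Pi.single i 1)) := by
        intro i j
        rw [hquad]
        simp
      rw [e1, e1]
      exact hNs _ _
    · intro x hx
      simp only [star_trivial]
      rw [← hquad]
      apply hNpos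
      intro h
      apply hx
      have := congrArg WithLp.ofLp h
      simpa using this
  refine ⟨M, H, hML, hLM, hH, ?_, ?_⟩
  · have e1 : H.det = LinearMap.det (N : E →ₗ[ℝ] E) := LinearMap.det_toMatrix b _
    have e2 : H.det * L.det = (ContinuousLinearMap.id ℝ E - L).det := by
      rw [e1]
      show LinearMap.det (N : E →ₗ[ℝ] E) * LinearMap.det (L : E →ₗ[ℝ] E) =
        LinearMap.det ((ContinuousLinearMap.id ℝ E - L : E →L[ℝ] E) : E →ₗ[ℝ] E)
      rw [← LinearMap.det_comp]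
      congr 1
      ext1 v
      show M (L v) - L v = v - L v
      rw [hML]
    rw [← e2, abs_mul, abs_of_pos hH.det_pos]
  · intro v
    exact hquad v v

end J24597

namespace J24598

theorem K_logdet598 {d : ℕ} (X Y : Matrix (Fin d) (Fin d) ℝ) (hX : X.PosDef) (hY : Y.PosDef) :
    Real.log Y.det ≤ Real.log X.det + (X⁻¹ * (Y - X)).trace := by
  have hXi : (X⁻¹).PosDef := hX.inv
  have hT : ∃ T : Matrix (Fin d) (Fin d) ℝ, T.IsHermitian ∧ T * T = X⁻¹ := by
    open scoped MatrixOrder in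
    exact ⟨CFC.sqrt X⁻¹, (CFC.sqrt_nonneg X⁻¹).posSemidef.isHermitian,
      CFC.sqrt_mul_sqrt_self X⁻¹ hXi.posSemidef.nonneg⟩
  obtain ⟨T, hTh, hTT⟩ := hT
  have hdX : 0 < X.det := hX.det_pos
  have hdY : 0 < Y.det := hY.det_pos
  have hdet2 : T.det * T.det = (X.det)⁻¹ := by
    rw [← Matrix.det_mul, hTT, Matrix.det_nonsing_inv, Ring.inverse_eq_inv']
  have hdT : T.det ≠ 0 := by
    intro h
    rw [h, zero_mul] at hdet2
    exact (inv_pos.mpr hdX).ne hdet2
  have hunit : IsUnit T := (Matrix.isUnit_iff_isUnit_det T).mpr (isUnit_iff_ne_zero.mpr hdT)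
  have hinj : Function.Injective T.mulVec := Matrix.mulVec_injective_of_isUnit hunit
  have hZ : (Tᴴ * Y * T).PosDef := hY.conjTranspose_mul_mul_same hinj
  rw [hTh.eq] at hZ
  have hdetZ : (T * Y * T).det = (X.det)⁻¹ * Y.det := by
    rw [Matrix.det_mul, Matrix.det_mul, ← hdet2]; ring
  have htrZ : (T * Y * T).trace = (X⁻¹ * Y).trace := by
    rw [Matrix.trace_mul_comm, ← Matrix.mul_assoc, hTT]
  have h1 : Real.log (T * Y * T).det ≤ (T * Y * T).trace - d := by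
    rw [hZ.isHermitian.det_eq_prod_eigenvalues, hZ.isHermitian.trace_eq_sum_eigenvalues]
    have hne : ∀ i ∈ Finset.univ, ((hZ.isHermitian.eigenvalues i : ℝ) : ℝ) ≠ 0 := fun i _ =>
      (hZ.eigenvalues_pos i).ne'
    have e1 : Real.log (∏ i, ((hZ.isHermitian.eigenvalues i : ℝ) : ℝ)) =
        ∑ i, Real.log (hZ.isHermitian.eigenvalues i) := Real.log_prod hne
    have e2 : ∑ i, Real.log (hZ.isHermitian.eigenvalues i) ≤
        ∑ i : Fin d, (hZ.isHermitian.eigenvalues i - 1) :=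
      Finset.sum_le_sum fun i _ => Real.log_le_sub_one_of_pos (hZ.eigenvalues_pos i)
    rw [Finset.sum_sub_distrib, Finset.sum_const, Finset.card_univ, Fintype.card_fin,
      nsmul_eq_mul, mul_one] at e2
    exact e1.le.trans e2
  have h2 : (X⁻¹ * (Y - X)).trace = (X⁻¹ * Y).trace - d := by
    have hu : IsUnit X.det := isUnit_iff_ne_zero.mpr hdX.ne'
    rw [Matrix.mul_sub, Matrix.trace_sub, Matrix.nonsing_inv_mul X hu, Matrix.trace_one,
      Fintype.card_fin]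
  rw [hdetZ, htrZ, Real.log_mul (inv_pos.mpr hdX).ne' hdY.ne', Real.log_inv] at h1
  rw [h2]
  linarith

theorem logdet_lin {d : ℕ} {ι : Type*} [Fintype ι] (w : ι → Fin d → ℝ) (a : ι → ℝ)
    (N : Matrix (Fin d) (Fin d) ℝ) (hN : N = ∑ i, a i • vecMulVec (w i) (w i)) (hNp : N.PosDef)
    (H : Matrix (Fin d) (Fin d) ℝ) (hH : H.PosDef) :
    Real.log H.det + d + Real.log N.det ≤ ∑ i, a i * (w i ⬝ᵥ (H *ᵥ w i)) := by
  have hNi : (N⁻¹).PosDef := hNp.inv
  have hdN : 0 < N.det := hNp.det_pos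
  have hu : IsUnit N.det := isUnit_iff_ne_zero.mpr hdN.ne'
  have h1 := K_logdet598 N⁻¹ H hNi hH
  rw [Matrix.nonsing_inv_nonsing_inv N hu, Matrix.mul_sub, Matrix.mul_nonsing_inv N hu,
    Matrix.trace_sub, Matrix.trace_one, Fintype.card_fin, Matrix.det_nonsing_inv,
    Ring.inverse_eq_inv', Real.log_inv] at h1
  have h2 : (N * H).trace = ∑ i, a i * (w i ⬝ᵥ (H *ᵥ w i)) := by
    rw [hN, Finset.sum_mul, Matrix.trace_sum]
    apply Finset.sum_congr rfl
    intro i _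
    rw [Matrix.smul_mul, Matrix.trace_smul, smul_eq_mul, Matrix.trace_mul_comm,
      Matrix.mul_vecMulVec, Matrix.trace_vecMulVec, dotProduct_comm]
  rw [h2] at h1
  linarith

end J24598

namespace J24599

/-- pointwise consequence of the Jacobian equation -/
theorem point {d : ℕ} {ι : Type*} [Fintype ι] (w : ι → Fin d → ℝ)
    (hK : ∀ t : ι → ℝ, (∑ i, Real.exp (t i) • vecMulVec (w i) (w i)).PosDef ∧
      ∑ i, (w i ⬝ᵥ w i) * t i + (1 / 2) * ∑ i, ∑ j, (w i ⬝ᵥ w j) ^ 2 * KK (t i - t j) ≤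
        Real.log (∑ i, Real.exp (t i) • vecMulVec (w i) (w i)).det)
    (hlin : ∀ (a : ι → ℝ) (N : Matrix (Fin d) (Fin d) ℝ),
      N = ∑ i, a i • vecMulVec (w i) (w i) → N.PosDef →
      ∀ (H : Matrix (Fin d) (Fin d) ℝ), H.PosDef →
      Real.log H.det + d + Real.log N.det ≤ ∑ i, a i * (w i ⬝ᵥ (H *ᵥ w i)))
    (hla : ∀ (L : EuclideanSpace ℝ (Fin d) →L[ℝ] EuclideanSpace ℝ (Fin d)),
      (∀ v v', inner ℝ (L v) v' = inner ℝ v (L v')) → (∀ v, 0 ≤ inner ℝ (L v) v) →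
      (∀ v, inner ℝ (L v) v ≤ inner ℝ v v) → L.det ≠ 0 →
      (ContinuousLinearMap.id ℝ (EuclideanSpace ℝ (Fin d)) - L).det ≠ 0 →
      ∃ (M : EuclideanSpace ℝ (Fin d) →L[ℝ] EuclideanSpace ℝ (Fin d))
        (H : Matrix (Fin d) (Fin d) ℝ),
      (∀ v, M (L v) = v) ∧ (∀ v, L (M v) = v) ∧ H.PosDef ∧
      H.det * |L.det| = |(ContinuousLinearMap.id ℝ (EuclideanSpace ℝ (Fin d)) - L).det| ∧
      ∀ v : Fin d → ℝ, inner ℝ (M (WithLp.toLp 2 v) - WithLp.toLp 2 v) (WithLp.toLp 2 v) =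
        v ⬝ᵥ (H *ᵥ v))
    (Φ : EuclideanSpace ℝ (Fin d) → ℝ) (J : EuclideanSpace ℝ (Fin d) → EuclideanSpace ℝ (Fin d))
    (q : EuclideanSpace ℝ (Fin d) → ℝ) (V₀ ρ₀ : ℝ) (hV₀ : 0 < V₀) (hρ₀ : 0 < ρ₀)
    (g x : EuclideanSpace ℝ (Fin d))
    (hder : ∀ (L : EuclideanSpace ℝ (Fin d) →L[ℝ] EuclideanSpace ℝ (Fin d)),
      HasFDerivAt J L (g + x) →
      (∀ v v', inner ℝ (L v) v' = inner ℝ v (L v')) ∧ (∀ v, 0 ≤ inner ℝ (L v) v) ∧
      (∀ v, inner ℝ (L v) v ≤ inner ℝ v v))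
    (hexp : ∀ (L M : EuclideanSpace ℝ (Fin d) →L[ℝ] EuclideanSpace ℝ (Fin d)),
      HasFDerivAt J L (g + x) → (∀ v, M (L v) = v) → (∀ v, L (M v) = v) →
      ∀ v, Tendsto (fun τ : ℝ => (Φ (g + τ • v) + Φ (g - τ • v) - 2 * Φ g) / τ ^ 2) (𝓝[>] 0)
        (𝓝 (inner ℝ (M v - v) v)))
    (hJd : DifferentiableAt ℝ J (g + x))
    (hjac : V₀ * ρ₀ * |(fderiv ℝ J (g + x)).det| = |(fderiv ℝ (fun z => z - J z) (g + x)).det|)
    (hd1 : (fderiv ℝ J (g + x)).det ≠ 0)
    (hd2 : (fderiv ℝ (fun z => z - J z) (g + x)).det ≠ 0) :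
    ∃ h : ι → ℝ, (∀ i, Tendsto (fun τ : ℝ => (Φ (g + τ • WithLp.toLp 2 (w i)) +
        Φ (g - τ • WithLp.toLp 2 (w i)) - 2 * Φ g) / τ ^ 2) (𝓝[>] 0) (𝓝 (h i))) ∧
      Real.log V₀ + Real.log ρ₀ + d + LL w (WithLp.ofLp g) ≤
        ∑ i, Real.exp (tt w i (WithLp.ofLp g)) * h i := by
  obtain ⟨L, hLdef⟩ : ∃ L, L = fderiv ℝ J (g + x) := ⟨_, rfl⟩
  have hL : HasFDerivAt J L (g + x) := by rw [hLdef]; exact hJd.hasFDerivAt
  have hid : fderiv ℝ (fun z => z - J z) (g + x) =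
      ContinuousLinearMap.id ℝ (EuclideanSpace ℝ (Fin d)) - L :=
    ((hasFDerivAt_id (g + x)).sub hL).fderiv
  rw [hid] at hjac hd2
  rw [← hLdef] at hjac hd1
  obtain ⟨hs, hp, hle⟩ := hder L hL
  obtain ⟨M, H, hM1, hM2, hH, hHd, hHq⟩ := hla L hs hp hle hd1 hd2
  have hdet : H.det = V₀ * ρ₀ := by
    have h1 : H.det * |L.det| = V₀ * ρ₀ * |L.det| := by rw [hHd, hjac]
    exact mul_right_cancel₀ (abs_ne_zero.2 hd1) h1
  have hlog : Real.log H.det = Real.log V₀ + Real.log ρ₀ := by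
    rw [hdet, Real.log_mul hV₀.ne' hρ₀.ne']
  refine ⟨fun i => w i ⬝ᵥ (H *ᵥ w i), ?_, ?_⟩
  · intro i
    have h1 := hexp L M hL hM1 hM2 (WithLp.toLp 2 (w i))
    rw [hHq (w i)] at h1
    exact h1
  · have h2 := hK (fun i => tt w i (WithLp.ofLp g))
    have h3 := hlin (fun i => Real.exp (tt w i (WithLp.ofLp g)))
      (∑ i, Real.exp (tt w i (WithLp.ofLp g)) • vecMulVec (w i) (w i)) rfl h2.1 H hH
    rw [hlog] at h3
    have h4 : LL w (WithLp.ofLp g) ≤
      Real.log (∑ i, Real.exp (tt w i (WithLp.ofLp g)) • vecMulVec (w i) (w i)).det := h2.2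
    calc Real.log V₀ + Real.log ρ₀ + d + LL w (WithLp.ofLp g)
        ≤ Real.log V₀ + Real.log ρ₀ + d +
          Real.log (∑ i, Real.exp (tt w i (WithLp.ofLp g)) • vecMulVec (w i) (w i)).det := by
          linarith
      _ ≤ ∑ i, Real.exp (tt w i (WithLp.ofLp g)) * (w i ⬝ᵥ (H *ᵥ w i)) := h3

end J24599

end Pool.Agent.Helper7.Simplex.OT
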