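import Pool.Agent.Helper7.OT.Defs

set_option linter.all false

open MeasureTheory Filter Topology Set
open scoped ENNReal NNReal

namespace Pool.Agent.Helper7.Simplex.OT

namespace J24530

variable {V : Type*} [NormedAddCommGroup V] [InnerProductSpace ℝ V] [FiniteDimensional ℝ V]
  [MeasurableSpace V] [BorelSpace V]

omit [MeasurableSpace V] [BorelSpace V] in
/-- proximal map of a convex Lipschitz function -/
theorem prox_exists (Φ : V → ℝ) (hconv : ConvexOn ℝ Set.univ Φ) (C : ℝ≥0)
    (hL : LipschitzWith C Φ) :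
    ∃ (J : V → V) (q : V → ℝ),
      (∀ z g', Φ (J z) + inner ℝ (z - J z) (g' - J z) ≤ Φ g') ∧
      (∀ g x, (∀ g', Φ g + inner ℝ x (g' - g) ≤ Φ g') → J (g + x) = g) ∧
      (∀ z z', ‖J z - J z'‖ ^ 2 ≤ inner ℝ (J z - J z') (z - z')) ∧
      (∀ z, HasGradientAt q (J z) z) := by
  classical
  haveI : ProperSpace V := FiniteDimensional.proper_real V
  have hex : ∀ z : V, ∃ j : V, ∀ g' : V, Φ j + inner ℝ (z - j) (g' - j) ≤ Φ g' := by
    intro z
    have hcont : Continuous fun g : V => (1 / 2 : ℝ) * ‖g - z‖ ^ 2 + Φ g := by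
      have := hL.continuous
      fun_prop
    obtain ⟨j, hj, hmin⟩ := (isCompact_closedBall z (2 * (C : ℝ))).exists_isMinOn
      ⟨z, Metric.mem_closedBall_self (by positivity)⟩ hcont.continuousOn
    have hmin' : ∀ g : V, (1 / 2 : ℝ) * ‖j - z‖ ^ 2 + Φ j ≤ (1 / 2 : ℝ) * ‖g - z‖ ^ 2 + Φ g := by
      intro g
      by_cases hg : g ∈ Metric.closedBall z (2 * (C : ℝ))
      · exact hmin hg
      · have h1 := hmin (Metric.mem_closedBall_self (by positivity : (0:ℝ) ≤ 2 * (C : ℝ)))
        simp only [Set.mem_ofPred_eq, sub_self, norm_zero] at h1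
        rw [Metric.mem_closedBall, not_le, dist_eq_norm] at hg
        have h2 := hL.dist_le_mul g z
        rw [Real.dist_eq, dist_eq_norm] at h2
        have h3 := (abs_le.mp h2).1
        have hC : (0:ℝ) ≤ C := C.2
        nlinarith [norm_nonneg (g - z)]
    refine ⟨j, fun g' => ?_⟩
    have key : ∀ t : ℝ, 0 < t → t ≤ 1 →
        Φ j + inner ℝ (z - j) (g' - j) - Φ g' ≤ t * ((1 / 2 : ℝ) * ‖g' - j‖ ^ 2) := by
      intro t ht ht1
      have h1 := hmin' (j + t • (g' - j))
      have h2 : Φ (j + t • (g' - j)) ≤ (1 - t) * Φ j + t * Φ g' := by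
        have h3 := hconv.2 (Set.mem_univ j) (Set.mem_univ g') (by linarith : (0:ℝ) ≤ 1 - t) ht.le
          (by ring)
        have h4 : (1 - t) • j + t • g' = j + t • (g' - j) := by
          rw [smul_sub, sub_smul, one_smul]; abel
        rw [h4, smul_eq_mul, smul_eq_mul] at h3
        exact h3
      have h5 : ‖j + t • (g' - j) - z‖ ^ 2 = ‖j - z‖ ^ 2 - 2 * (t * inner ℝ (z - j) (g' - j)) +
          t ^ 2 * ‖g' - j‖ ^ 2 := by
        have h6 : j + t • (g' - j) - z = (j - z) + t • (g' - j) := by abel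
        rw [h6, norm_add_sq_real, inner_smul_right, norm_smul, Real.norm_eq_abs, mul_pow, sq_abs]
        have h7 : j - z = -(z - j) := by abel
        conv_lhs => rw [h7, norm_neg, inner_neg_left]
        rw [norm_sub_rev z j]
        ring
      rw [h5] at h1
      have h8 : t * (Φ j + inner ℝ (z - j) (g' - j) - Φ g') ≤ t * (t * ((1 / 2 : ℝ) * ‖g' - j‖ ^ 2)) := by
        nlinarith
      exact le_of_mul_le_mul_left h8 ht
    by_contra hcon
    rw [not_le] at hcon
    have hA : 0 < Φ j + inner ℝ (z - j) (g' - j) - Φ g' := by linarith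
    set A := Φ j + inner ℝ (z - j) (g' - j) - Φ g' with hAdef
    set B := (1 / 2 : ℝ) * ‖g' - j‖ ^ 2 with hBdef
    have hB : 0 ≤ B := by positivity
    have h1 := key (A / (A + B + 1)) (by positivity) (by
      rw [div_le_one (by positivity)]; linarith)
    rw [div_mul_eq_mul_div, le_div_iff₀ (by positivity)] at h1
    nlinarith
  choose J hJ using hex
  have hC3 : ∀ z z', ‖J z - J z'‖ ^ 2 ≤ inner ℝ (J z - J z') (z - z') := by
    intro z z'
    have h1 := hJ z (J z')
    have h2 := hJ z' (J z)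
    have h3 : ‖J z - J z'‖ ^ 2 - inner ℝ (J z - J z') (z - z') =
        inner ℝ (z - J z) (J z' - J z) + inner ℝ (z' - J z') (J z - J z') := by
      rw [← real_inner_self_eq_norm_sq]
      simp only [inner_sub_left, inner_sub_right]
      rw [real_inner_comm z (J z), real_inner_comm z (J z'), real_inner_comm z' (J z),
        real_inner_comm z' (J z'), real_inner_comm (J z) (J z')]
      ring
    linarith
  have hnonexp : ∀ z z', ‖J z - J z'‖ ≤ ‖z - z'‖ := by
    intro z z'
    have h1 := hC3 z z'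
    have h2 := real_inner_le_norm (J z - J z') (z - z')
    by_contra h3
    rw [not_le] at h3
    have h4 : 0 < ‖J z - J z'‖ := lt_of_le_of_lt (norm_nonneg _) h3
    nlinarith
  refine ⟨J, fun z => inner ℝ z (J z) - (1 / 2 : ℝ) * ‖J z‖ ^ 2 - Φ (J z), hJ, ?_, hC3, ?_⟩
  · intro g x hx
    have h1 := hJ (g + x) g
    have h2 := hx (J (g + x))
    set j := J (g + x) with hj
    have h3 : inner ℝ (g + x - j) (g - j) + inner ℝ x (j - g) = ‖g - j‖ ^ 2 := by
      rw [← real_inner_self_eq_norm_sq]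
      have h4 : g + x - j = (g - j) + x := by abel
      have h5 : j - g = -(g - j) := by abel
      rw [h4, h5, inner_add_left, inner_neg_right]
      ring
    have h6 : ‖g - j‖ ^ 2 ≤ 0 := by linarith
    have h7 : ‖g - j‖ = 0 := by
      have := sq_nonneg ‖g - j‖
      exact pow_eq_zero_iff (two_ne_zero) |>.mp (le_antisymm h6 this)
    exact (sub_eq_zero.mp (norm_eq_zero.mp h7)).symm
  · intro z
    rw [hasGradientAt_iff_isLittleO]
    have hlow : ∀ z z' : V, inner ℝ (z' - z) (J z) ≤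
        (inner ℝ z' (J z') - (1 / 2 : ℝ) * ‖J z'‖ ^ 2 - Φ (J z')) -
          (inner ℝ z (J z) - (1 / 2 : ℝ) * ‖J z‖ ^ 2 - Φ (J z)) := by
      intro z z'
      have h1 := hJ z' (J z)
      have h2 : inner ℝ (z' - J z') (J z - J z') = inner ℝ z' (J z) - inner ℝ z' (J z') -
          inner ℝ (J z') (J z) + ‖J z'‖ ^ 2 := by
        rw [← real_inner_self_eq_norm_sq]
        simp only [inner_sub_left, inner_sub_right]
        ring
      have h3 : (0:ℝ) ≤ ‖J z' - J z‖ ^ 2 := sq_nonneg _
      rw [norm_sub_sq_real] at h3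
      rw [inner_sub_left]
      rw [h2] at h1
      linarith
    rw [Asymptotics.isLittleO_iff]
    intro c hc
    have hn : ∀ᶠ x' in 𝓝 z, dist x' z < c := Metric.ball_mem_nhds z hc
    filter_upwards [hn] with x' hx'
    rw [dist_eq_norm] at hx'
    have h1 := hlow z x'
    have h2 := hlow x' z
    have h3 : inner ℝ (x' - z) (J x' - J z) ≤ ‖x' - z‖ * ‖x' - z‖ :=
      (real_inner_le_norm _ _).trans (mul_le_mul_of_nonneg_left (hnonexp x' z) (norm_nonneg _))
    have h4 : inner ℝ (z - x') (J x') = - inner ℝ (x' - z) (J x') := by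
      rw [← inner_neg_left, neg_sub]
    rw [h4] at h2
    rw [inner_sub_right] at h3
    rw [real_inner_comm (x' - z) (J z), Real.norm_eq_abs, abs_le]
    constructor
    · nlinarith [norm_nonneg (x' - z)]
    · nlinarith [norm_nonneg (x' - z)]

end J24530

namespace J24533

variable {V : Type*} [NormedAddCommGroup V] [InnerProductSpace ℝ V] [FiniteDimensional ℝ V]
  [MeasurableSpace V] [BorelSpace V]

omit [MeasurableSpace V] [BorelSpace V] in
/-- derivative of a firmly nonexpansive gradient map -/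
theorem prox_deriv (J : V → V) (q : V → ℝ)
    (hfn : ∀ z z', ‖J z - J z'‖ ^ 2 ≤ inner ℝ (J z - J z') (z - z'))
    (hq : ∀ z, HasGradientAt q (J z) z) (z : V) (L : V →L[ℝ] V) (hL : HasFDerivAt J L z) :
    LipschitzWith 1 J ∧ LipschitzWith 1 (fun z => z - J z) ∧
    (∀ v v', inner ℝ (L v) v' = inner ℝ v (L v')) ∧ (∀ v, ‖L v‖ ^ 2 ≤ inner ℝ (L v) v) ∧
    (∀ v, 0 ≤ inner ℝ (L v) v) ∧ (∀ v, inner ℝ (L v) v ≤ inner ℝ v v) := by
  have key : ∀ v, ‖L v‖ ^ 2 ≤ inner ℝ (L v) v := by
    intro v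
    have h1 : HasDerivAt (fun t : ℝ => J (z + t • v)) (L v) 0 := hL.hasLineDerivAt v
    rw [hasDerivAt_iff_tendsto_slope_zero] at h1
    have h2 : Tendsto (fun t : ℝ => ‖t⁻¹ • (J (z + (0 + t) • v) - J (z + (0 : ℝ) • v))‖ ^ 2)
        (𝓝[≠] 0) (𝓝 (‖L v‖ ^ 2)) := (h1.norm).pow 2
    have h3 : Tendsto (fun t : ℝ => inner ℝ (t⁻¹ • (J (z + (0 + t) • v) - J (z + (0 : ℝ) • v))) v)
        (𝓝[≠] 0) (𝓝 (inner ℝ (L v) v)) := h1.inner tendsto_const_nhds
    refine le_of_tendsto_of_tendsto h2 h3 ?_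
    filter_upwards [self_mem_nhdsWithin] with t ht
    have ht0 : t ≠ 0 := ht
    have h4 := hfn (z + (0 + t) • v) (z + (0 : ℝ) • v)
    have h5 : z + (0 + t) • v - (z + (0 : ℝ) • v) = t • v := by
      rw [zero_add, zero_smul]
      abel
    rw [h5, inner_smul_right] at h4
    rw [norm_smul, mul_pow, inner_smul_left, norm_inv, Real.norm_eq_abs, inv_pow, sq_abs,
      conj_trivial]
    have h6 : (t ^ 2)⁻¹ * ‖J (z + (0 + t) • v) - J (z + (0 : ℝ) • v)‖ ^ 2 ≤
        (t ^ 2)⁻¹ * (t * inner ℝ (J (z + (0 + t) • v) - J (z + (0 : ℝ) • v)) v) :=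
      mul_le_mul_of_nonneg_left h4 (by positivity)
    refine h6.trans (le_of_eq ?_)
    field_simp
  have hnn : ∀ v, 0 ≤ inner ℝ (L v) v := fun v => (sq_nonneg _).trans (key v)
  refine ⟨?_, ?_, ?_, key, hnn, ?_⟩
  · refine LipschitzWith.of_dist_le_mul (fun x y => ?_)
    rw [dist_eq_norm, dist_eq_norm, NNReal.coe_one, one_mul]
    have h1 := hfn x y
    have h2 : inner ℝ (J x - J y) (x - y) ≤ ‖J x - J y‖ * ‖x - y‖ := real_inner_le_norm _ _
    by_contra hcon
    push Not at hcon
    have h3 : 0 < ‖J x - J y‖ := (norm_nonneg _).trans_lt hcon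
    nlinarith
  · refine LipschitzWith.of_dist_le_mul (fun x y => ?_)
    rw [dist_eq_norm, dist_eq_norm, NNReal.coe_one, one_mul]
    have h1 := hfn x y
    have h2 : x - J x - (y - J y) = (x - y) - (J x - J y) := by abel
    have h3 : ‖(x - y) - (J x - J y)‖ ^ 2 ≤ ‖x - y‖ ^ 2 := by
      rw [norm_sub_sq_real, real_inner_comm]
      nlinarith [sq_nonneg ‖J x - J y‖]
    show ‖x - J x - (y - J y)‖ ≤ ‖x - y‖
    rw [h2]
    exact (abs_le_of_sq_le_sq h3 (norm_nonneg _)) |> fun h => (le_abs_self _).trans h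
  · intro v w
    let B : V →L[ℝ] V →L[ℝ] ℝ := LinearMap.mkContinuous₂ (innerₗ V) 1 (fun x y => by
      rw [innerₗ_apply_apply, one_mul]
      exact norm_inner_le_norm x y)
    have hB : ∀ x y, B x y = inner ℝ x y := fun x y => rfl
    have hf : ∀ᶠ y in 𝓝 z, HasFDerivAt q (B (J y)) y := by
      refine Filter.Eventually.of_forall (fun y => ?_)
      have h1 := (hq y).hasFDerivAt
      have h2 : (InnerProductSpace.toDual ℝ V) (J y) = B (J y) := by
        ext w
        rw [InnerProductSpace.toDual_apply_apply, hB]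
      rwa [h2] at h1
    have hx : HasFDerivAt (fun y => B (J y)) (B.comp L) z := B.hasFDerivAt.comp z hL
    have h3 := second_derivative_symmetric_of_eventually hf hx v w
    change B (L v) w = B (L w) v at h3
    rw [hB, hB] at h3
    rw [h3, real_inner_comm]
  · intro v
    have h1 := key v
    have h2 : inner ℝ (L v) v ≤ ‖L v‖ * ‖v‖ := real_inner_le_norm _ _
    have h3 : ‖L v‖ ≤ ‖v‖ := by
      by_contra hcon
      push Not at hcon
      have h3 : 0 < ‖L v‖ := (norm_nonneg _).trans_lt hcon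
      nlinarith
    rw [real_inner_self_eq_norm_sq]
    nlinarith [norm_nonneg v]

end J24533

end Pool.Agent.Helper7.Simplex.OT
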