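import Pool.Agent.Helper7.OT.Defs

set_option linter.all false

open MeasureTheory ProbabilityTheory Matrix Filter Topology
open scoped ENNReal NNReal

namespace Pool.Agent.Helper7.Simplex.OT

namespace J24723

theorem kuv_m1 : ∫ x in Set.Ioi (0:ℝ), x * Real.exp (-(x ^ 2) / 2) = 1 := by
  have h := integral_rpow_mul_exp_neg_mul_rpow (p := 2) (q := 1) (b := 1 / 2) (by norm_num)
    (by norm_num) (by norm_num)
  have e : ∀ x : ℝ, x ^ (1:ℝ) * Real.exp (-(1 / 2) * x ^ (2:ℝ)) = x * Real.exp (-(x ^ 2) / 2) := by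
    intro x
    rw [Real.rpow_one, Real.rpow_two]
    congr 2
    ring
  simp only [e] at h
  rw [h]
  have h1 : (-(1 + 1) / 2 : ℝ) = -1 := by norm_num
  have h2 : ((1 + 1) / 2 : ℝ) = 1 := by norm_num
  rw [h1, h2, Real.Gamma_one, Real.rpow_neg_one]
  norm_num

theorem kuv_int1 : IntegrableOn (fun x : ℝ => x * Real.exp (-(x ^ 2) / 2)) (Set.Ioi 0) := by
  have h := integrable_mul_exp_neg_mul_sq (b := 1 / 2) (by norm_num)
  have e : (fun x : ℝ => x * Real.exp (-(1 / 2) * x ^ 2)) =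
      fun x : ℝ => x * Real.exp (-(x ^ 2) / 2) := by
    funext x
    congr 2
    ring
  rw [e] at h
  exact h.integrableOn

theorem kuv_A : ∫⁻ t in Set.Ioi (0:ℝ), ∫⁻ y in Set.Ioi (0:ℝ),
    ENNReal.ofReal (Real.exp (-((t + y) ^ 2) / 2)) = 1 := by
  obtain ⟨g, hg⟩ : ∃ g : ℝ → ENNReal, g = fun s => ENNReal.ofReal (Real.exp (-(s ^ 2) / 2)) :=
    ⟨_, rfl⟩
  have hgm : Measurable g := by rw [hg]; fun_prop
  have h1 : ∀ t : ℝ, ∫⁻ y in Set.Ioi (0:ℝ), ENNReal.ofReal (Real.exp (-((t + y) ^ 2) / 2)) =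
      ∫⁻ s, (if t < s then g s else 0) := by
    intro t
    rw [← lintegral_indicator measurableSet_Ioi,
      ← lintegral_add_left_eq_self (fun s => if t < s then g s else 0) t]
    refine lintegral_congr fun y => ?_
    by_cases hy : 0 < y
    · rw [Set.indicator_of_mem (Set.mem_Ioi.2 hy), if_pos (by linarith), hg]
    · rw [Set.indicator_of_notMem (by simpa using hy), if_neg (by linarith)]
  simp only [h1]
  rw [lintegral_lintegral_swap]
  · have h2 : ∀ s : ℝ, ∫⁻ t in Set.Ioi (0:ℝ), (if t < s then g s else 0) =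
        g s * ENNReal.ofReal s := by
      intro s
      have h3 : (fun t : ℝ => if t < s then g s else 0) = (Set.Iio s).indicator (fun _ => g s) := by
        funext t
        simp [Set.indicator]
      rw [h3, lintegral_indicator_const measurableSet_Iio, Measure.restrict_apply measurableSet_Iio]
      congr 1
      have h4 : Set.Iio s ∩ Set.Ioi 0 = Set.Ioo 0 s := by
        ext t
        simp [and_comm]
      rw [h4, Real.volume_Ioo, sub_zero]
    simp only [h2]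
    have h3 : ∫⁻ s, g s * ENNReal.ofReal s =
        ∫⁻ s in Set.Ioi (0:ℝ), ENNReal.ofReal (s * Real.exp (-(s ^ 2) / 2)) := by
      rw [← lintegral_indicator measurableSet_Ioi]
      refine lintegral_congr fun s => ?_
      by_cases hs : 0 < s
      · rw [Set.indicator_of_mem (Set.mem_Ioi.2 hs), hg, ← ENNReal.ofReal_mul (Real.exp_pos _).le,
          mul_comm]
      · rw [Set.indicator_of_notMem (by simpa using hs), ENNReal.ofReal_of_nonpos (by linarith),
          mul_zero]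
    rw [h3, ← ofReal_integral_eq_lintegral_ofReal, kuv_m1, ENNReal.ofReal_one]
    · exact kuv_int1
    · refine (ae_restrict_iff' measurableSet_Ioi).2 (ae_of_all _ fun s hs => ?_)
      exact mul_nonneg (le_of_lt hs) (Real.exp_pos _).le
  · refine Measurable.aemeasurable ?_
    exact Measurable.ite (measurableSet_lt measurable_fst measurable_snd)
      (hgm.comp measurable_snd) measurable_const

theorem kuv_B : ∫ t in Set.Ioi (0:ℝ), ∫ y in Set.Ioi (0:ℝ),
    Real.exp (-((t + y) ^ 2) / 2) = 1 := by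
  have h1 : ∀ t : ℝ, ∫ y in Set.Ioi (0:ℝ), Real.exp (-((t + y) ^ 2) / 2) =
      (∫⁻ y in Set.Ioi (0:ℝ), ENNReal.ofReal (Real.exp (-((t + y) ^ 2) / 2))).toReal := by
    intro t
    rw [integral_eq_lintegral_of_nonneg_ae]
    · exact ae_of_all _ fun y => (Real.exp_pos _).le
    · exact Continuous.aestronglyMeasurable (by fun_prop)
  simp only [h1]
  have hm : Measurable (fun t : ℝ => ∫⁻ y in Set.Ioi (0:ℝ),
      ENNReal.ofReal (Real.exp (-((t + y) ^ 2) / 2))) :=
    Measurable.lintegral_prod_right'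
      (f := fun p : ℝ × ℝ => ENNReal.ofReal (Real.exp (-((p.1 + p.2) ^ 2) / 2))) (by fun_prop)
  rw [integral_toReal hm.aemeasurable, kuv_A, ENNReal.toReal_one]
  exact ae_lt_top hm (by rw [kuv_A]; exact ENNReal.one_ne_top)

theorem kuv_int (f : ℝ → ℝ) : ∫ x, f x ∂(gaussianReal 0 1) =
    (√(2 * Real.pi))⁻¹ * ∫ x, Real.exp (-(x ^ 2) / 2) * f x := by
  rw [integral_gaussianReal_eq_integral_smul one_ne_zero, ← integral_const_mul]
  refine integral_congr_ae (ae_of_all _ fun x => ?_)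
  simp only [gaussianPDFReal, smul_eq_mul, NNReal.coe_one, mul_one, sub_zero]
  ring

theorem kuv_abs : ∫ x, |x| ∂(gaussianReal 0 1) = 2 * (√(2 * Real.pi))⁻¹ := by
  rw [kuv_int]
  have h1 : ∀ x : ℝ, Real.exp (-(x ^ 2) / 2) * |x| =
      (fun t : ℝ => t * Real.exp (-(t ^ 2) / 2)) |x| := by
    intro x
    simp only [sq_abs]
    ring
  simp only [h1]
  rw [integral_comp_abs (f := fun t : ℝ => t * Real.exp (-(t ^ 2) / 2)), kuv_m1]
  ring

theorem kuv_exp : ∫ x, ∫ y, Real.exp (-|x * y|) ∂(gaussianReal 0 1) ∂(gaussianReal 0 1) =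
    4 * (√(2 * Real.pi))⁻¹ ^ 2 := by
  obtain ⟨c, hc⟩ : ∃ c : ℝ, c = (√(2 * Real.pi))⁻¹ := ⟨_, rfl⟩
  have hin : ∀ x : ℝ, ∫ y, Real.exp (-|x * y|) ∂(gaussianReal 0 1) =
      c * (2 * ∫ y in Set.Ioi (0:ℝ), Real.exp (-(y ^ 2) / 2) * Real.exp (-(|x| * y))) := by
    intro x
    rw [kuv_int, ← hc]
    have h1 : ∀ y : ℝ, Real.exp (-(y ^ 2) / 2) * Real.exp (-|x * y|) =
        (fun t : ℝ => Real.exp (-(t ^ 2) / 2) * Real.exp (-(|x| * t))) |y| := by
      intro y
      simp only [sq_abs, abs_mul]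
    simp only [h1]
    rw [integral_comp_abs (f := fun t : ℝ => Real.exp (-(t ^ 2) / 2) * Real.exp (-(|x| * t)))]
  rw [kuv_int, ← hc]
  simp only [hin]
  have h2 : ∀ x : ℝ, Real.exp (-(x ^ 2) / 2) *
      (c * (2 * ∫ y in Set.Ioi (0:ℝ), Real.exp (-(y ^ 2) / 2) * Real.exp (-(|x| * y)))) =
      (fun t : ℝ => (2 * c) * ∫ y in Set.Ioi (0:ℝ), Real.exp (-((t + y) ^ 2) / 2)) |x| := by
    intro x
    simp only
    have h3 : ∀ y : ℝ, Real.exp (-((|x| + y) ^ 2) / 2) =
        Real.exp (-(x ^ 2) / 2) * (Real.exp (-(y ^ 2) / 2) * Real.exp (-(|x| * y))) := by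
      intro y
      rw [← Real.exp_add, ← Real.exp_add]
      congr 1
      have := sq_abs x
      rw [← this]
      ring
    simp only [h3]
    rw [integral_const_mul]
    ring
  simp only [h2]
  rw [integral_comp_abs (f := fun t : ℝ => (2 * c) * ∫ y in Set.Ioi (0:ℝ),
    Real.exp (-((t + y) ^ 2) / 2)), integral_const_mul, kuv_B]
  ring

theorem kuv_intexp : Integrable (fun p : ℝ × ℝ => Real.exp (-|p.1 * p.2|))
    ((gaussianReal 0 1).prod (gaussianReal 0 1)) := by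
  refine Integrable.of_bound (Continuous.aestronglyMeasurable (by fun_prop)) 1
    (ae_of_all _ fun p => ?_)
  rw [Real.norm_of_nonneg (Real.exp_pos _).le]
  exact Real.exp_le_one_iff.2 (by linarith [abs_nonneg (p.1 * p.2)])

theorem kuv_intabs : Integrable (fun p : ℝ × ℝ => |p.1| * |p.2|)
    ((gaussianReal 0 1).prod (gaussianReal 0 1)) := by
  have h1 : Integrable (fun x : ℝ => |x|) (gaussianReal 0 1) := by
    have h2 : MemLp id 1 (gaussianReal 0 1) := by
      have := memLp_id_gaussianReal (μ := 0) (v := 1) 1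
      simpa using this
    have h3 : Integrable (fun x : ℝ => x) (gaussianReal 0 1) := memLp_one_iff_integrable.1 h2
    exact h3.abs
  exact h1.mul_prod h1

/-- `E K(UV) = 4/π - 1 ≥ 0.2622` for independent standard Gaussians -/
theorem KK_UV : Integrable (fun p : ℝ × ℝ => KK (p.1 * p.2))
      ((gaussianReal 0 1).prod (gaussianReal 0 1)) ∧
    (0.2622 : ℝ) ≤ ∫ p : ℝ × ℝ, KK (p.1 * p.2) ∂((gaussianReal 0 1).prod (gaussianReal 0 1)) := by
  have hK : (fun p : ℝ × ℝ => KK (p.1 * p.2)) =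
      fun p : ℝ × ℝ => (Real.exp (-|p.1 * p.2|) - 1) + |p.1| * |p.2| := by
    funext p
    unfold KK
    rw [abs_mul]
  rw [hK]
  have i1 : Integrable (fun p : ℝ × ℝ => Real.exp (-|p.1 * p.2|) - 1)
      ((gaussianReal 0 1).prod (gaussianReal 0 1)) := kuv_intexp.sub (integrable_const _)
  refine ⟨i1.add kuv_intabs, ?_⟩
  rw [integral_add i1 kuv_intabs, integral_sub kuv_intexp (integrable_const _),
    integral_prod _ kuv_intexp, kuv_exp,
    integral_prod_mul (fun x : ℝ => |x|) (fun x : ℝ => |x|), kuv_abs]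
  have h1 : ∫ _ : ℝ × ℝ, (1 : ℝ) ∂((gaussianReal 0 1).prod (gaussianReal 0 1)) = 1 := by
    simp
  rw [h1]
  have h2 : (√(2 * Real.pi))⁻¹ ^ 2 = (2 * Real.pi)⁻¹ := by
    rw [inv_pow, Real.sq_sqrt (by positivity)]
  have h3 : 4 * (√(2 * Real.pi))⁻¹ ^ 2 - 1 + 2 * (√(2 * Real.pi))⁻¹ * (2 * (√(2 * Real.pi))⁻¹) =
      8 * (√(2 * Real.pi))⁻¹ ^ 2 - 1 := by ring
  rw [h3, h2]
  have hpi := Real.pi_lt_d4
  have hpi0 := Real.pi_pos
  have h4 : 8 * (2 * Real.pi)⁻¹ = 4 / Real.pi := by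
    field_simp
    norm_num
  rw [h4]
  have h5 : (1.2622 : ℝ) ≤ 4 / Real.pi := by
    rw [le_div_iff₀ hpi0]
    nlinarith
  linarith

end J24723

namespace J24724

theorem pc_KK_nonneg (x : ℝ) : 0 ≤ KK x := by
  unfold KK; have := Real.add_one_le_exp (-|x|); linarith

theorem pc_KK_le (x : ℝ) : KK x ≤ |x| := by
  unfold KK; have := Real.exp_le_one_iff.mpr (neg_nonpos.mpr (abs_nonneg x)); linarith

theorem pc_KK_neg (x : ℝ) : KK (-x) = KK x := by unfold KK; rw [abs_neg]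

theorem pc_KK_cont : Continuous KK := by unfold KK; fun_prop

theorem pc_gg_mono {a b : ℝ} (ha : 0 ≤ a) (hab : a ≤ b) :
    Real.exp (-a) - 1 + a ≤ Real.exp (-b) - 1 + b := by
  have h1 : Real.exp (-b) = Real.exp (-a) * Real.exp (-(b - a)) := by
    rw [← Real.exp_add]; ring_nf
  have h2 : Real.exp (-a) ≤ 1 := Real.exp_le_one_iff.mpr (by linarith)
  have h3 : Real.exp (-(b - a)) ≤ 1 := Real.exp_le_one_iff.mpr (by linarith)
  have h4 := Real.add_one_le_exp (-(b - a))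
  have h5 := Real.exp_pos (-a)
  rw [h1]
  nlinarith [mul_nonneg (sub_nonneg.mpr h2) (sub_nonneg.mpr h3)]

theorem pc_KK_convex : ConvexOn ℝ Set.univ KK := by
  refine ⟨convex_univ, fun x _ y _ a b ha hb hab => ?_⟩
  simp only [smul_eq_mul]
  have h1 : |a * x + b * y| ≤ a * |x| + b * |y| := by
    calc _ ≤ |a * x| + |b * y| := abs_add_le _ _
      _ = _ := by rw [abs_mul, abs_mul, abs_of_nonneg ha, abs_of_nonneg hb]
  have h2 := pc_gg_mono (abs_nonneg _) h1
  have h3 := convexOn_exp.2 (Set.mem_univ (-|x|)) (Set.mem_univ (-|y|)) ha hb hab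
  simp only [smul_eq_mul] at h3
  have e : a * -|x| + b * -|y| = -(a * |x| + b * |y|) := by ring
  rw [e] at h3
  unfold KK
  have hb' : b = 1 - a := by linarith
  subst hb'
  linarith

theorem pc_KK_mid (x y : ℝ) : KK x ≤ (KK (x + y) + KK (x - y)) / 2 := by
  have h := pc_KK_convex.2 (Set.mem_univ (x + y)) (Set.mem_univ (x - y))
    (by norm_num : (0 : ℝ) ≤ 1 / 2) (by norm_num : (0 : ℝ) ≤ 1 / 2) (by norm_num)
  simp only [smul_eq_mul] at h
  have e : (1 / 2 : ℝ) * (x + y) + 1 / 2 * (x - y) = x := by ring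
  rw [e] at h
  linarith

theorem pc_scale_aux (s : ℝ) (hs0 : 0 ≤ s) (hs1 : s ≤ 1) (t : ℝ) (ht : 0 ≤ t) :
    s ^ 2 * (Real.exp (-t) - 1 + t) ≤ Real.exp (-(s * t)) - 1 + s * t := by
  set f : ℝ → ℝ := fun t => Real.exp (-(s * t)) - 1 + s * t - s ^ 2 * (Real.exp (-t) - 1 + t) with hf
  have hd : ∀ x : ℝ, HasDerivAt f (s * ((1 - Real.exp (-(s * x))) - s * (1 - Real.exp (-x)))) x := by
    intro x
    have h1 : HasDerivAt (fun y : ℝ => Real.exp (-(s * y))) (Real.exp (-(s * x)) * (-(s * 1))) x :=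
      (((hasDerivAt_id x).const_mul s).neg).exp
    have h2 : HasDerivAt (fun y : ℝ => Real.exp (-y)) (Real.exp (-x) * (-1)) x :=
      ((hasDerivAt_id x).neg).exp
    have h3 := ((h1.sub_const 1).add ((hasDerivAt_id x).const_mul s)).sub
      (((h2.sub_const 1).add (hasDerivAt_id x)).const_mul (s ^ 2))
    exact h3.congr_deriv (by ring)
  have hmono : MonotoneOn f (Set.Ici 0) := by
    apply monotoneOn_of_deriv_nonneg (convex_Ici 0)
    · exact fun y _ => (hd y).continuousAt.continuousWithinAt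
    · exact fun y _ => (hd y).differentiableAt.differentiableWithinAt
    · intro y hy
      rw [(hd y).deriv]
      apply mul_nonneg hs0
      have h3 := convexOn_exp.2 (Set.mem_univ (0:ℝ)) (Set.mem_univ (-y)) (sub_nonneg.2 hs1) hs0
        (by ring)
      simp only [smul_eq_mul, Real.exp_zero] at h3
      have e : (1 - s) * 0 + s * -y = -(s * y) := by ring
      rw [e] at h3
      linarith
  have h0 : f 0 = 0 := by simp [hf]
  have := hmono (Set.mem_Ici.mpr le_rfl) (Set.mem_Ici.mpr ht) ht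
  rw [h0] at this
  simp only [hf] at this
  linarith

theorem pc_scale (s : ℝ) (hs0 : 0 ≤ s) (hs1 : s ≤ 1) (y : ℝ) : s ^ 2 * KK y ≤ KK (s * y) := by
  unfold KK
  rw [abs_mul, abs_of_nonneg hs0]
  exact pc_scale_aux s hs0 hs1 _ (abs_nonneg y)

theorem pc_int_mul : Integrable (fun p : ℝ × ℝ => p.1 * p.2)
    ((gaussianReal 0 1).prod (gaussianReal 0 1)) := by
  have h : Integrable (fun x : ℝ => x) (gaussianReal 0 1) :=
    (memLp_id_gaussianReal' 1 (by norm_num)).integrable le_rfl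
  exact h.mul_prod h

theorem pc_symm (h : ℝ × ℝ → ℝ) :
    ∫ p : ℝ × ℝ, h (-p.1, p.2) ∂((gaussianReal 0 1).prod (gaussianReal 0 1)) =
      ∫ p, h p ∂((gaussianReal 0 1).prod (gaussianReal 0 1)) := by
  have h1 : (gaussianReal 0 1).map (fun x : ℝ => -x) = gaussianReal 0 1 := by
    rw [gaussianReal_map_neg, neg_zero]
  have h2 : ((gaussianReal 0 1).prod (gaussianReal 0 1)).map
      (Prod.map (fun x : ℝ => -x) (fun x : ℝ => x)) =
      (gaussianReal 0 1).prod (gaussianReal 0 1) := by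
    rw [← Measure.map_prod_map _ _ measurable_neg measurable_id', h1, Measure.map_id']
  have h3 : MeasurableEmbedding (Prod.map (fun x : ℝ => -x) (fun x : ℝ => x)) :=
    ((MeasurableEquiv.neg ℝ).prodCongr (MeasurableEquiv.refl ℝ)).measurableEmbedding
  conv_rhs => rw [← h2]
  rw [h3.integral_map]
  rfl

theorem pc_main (δ s : ℝ) (hs0 : 0 ≤ s) (hs1 : s ≤ 1)
    (hUV : Integrable (fun p : ℝ × ℝ => KK (p.1 * p.2))
      ((gaussianReal 0 1).prod (gaussianReal 0 1)) ∧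
    (0.2622 : ℝ) ≤ ∫ p : ℝ × ℝ, KK (p.1 * p.2) ∂((gaussianReal 0 1).prod (gaussianReal 0 1))) :
    0.2622 * s ^ 2 ≤ ∫ p : ℝ × ℝ, KK (δ + s * (p.1 * p.2))
      ∂((gaussianReal 0 1).prod (gaussianReal 0 1)) := by
  have hint : ∀ e c : ℝ, Integrable (fun p : ℝ × ℝ => KK (e + c * (p.1 * p.2)))
      ((gaussianReal 0 1).prod (gaussianReal 0 1)) := by
    intro e c
    have h1 : Integrable (fun p : ℝ × ℝ => e + c * (p.1 * p.2))
        ((gaussianReal 0 1).prod (gaussianReal 0 1)) :=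
      (integrable_const e).add (pc_int_mul.const_mul c)
    refine h1.mono (pc_KK_cont.comp_aestronglyMeasurable h1.1) (Filter.Eventually.of_forall fun p => ?_)
    rw [Real.norm_eq_abs, Real.norm_eq_abs, abs_of_nonneg (pc_KK_nonneg _)]
    exact pc_KK_le _
  have hsym : ∫ p : ℝ × ℝ, KK (δ + (-s) * (p.1 * p.2))
      ∂((gaussianReal 0 1).prod (gaussianReal 0 1)) = ∫ p : ℝ × ℝ, KK (δ + s * (p.1 * p.2))
      ∂((gaussianReal 0 1).prod (gaussianReal 0 1)) := by
    rw [← pc_symm (fun p => KK (δ + s * (p.1 * p.2)))]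
    congr 1
    funext p
    congr 1
    ring
  have h1 : ∫ p : ℝ × ℝ, KK (s * (p.1 * p.2)) ∂((gaussianReal 0 1).prod (gaussianReal 0 1)) ≤
      ∫ p : ℝ × ℝ, KK (δ + s * (p.1 * p.2)) ∂((gaussianReal 0 1).prod (gaussianReal 0 1)) := by
    calc ∫ p : ℝ × ℝ, KK (s * (p.1 * p.2)) ∂((gaussianReal 0 1).prod (gaussianReal 0 1))
        ≤ ∫ p : ℝ × ℝ, (KK (δ + s * (p.1 * p.2)) + KK (δ + (-s) * (p.1 * p.2))) / 2
          ∂((gaussianReal 0 1).prod (gaussianReal 0 1)) := by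
          apply integral_mono_of_nonneg (Filter.Eventually.of_forall fun t => pc_KK_nonneg _)
            (((hint δ s).add (hint δ (-s))).div_const 2) (Filter.Eventually.of_forall fun p => ?_)
          have h := pc_KK_mid (s * (p.1 * p.2)) δ
          have e1 : s * (p.1 * p.2) + δ = δ + s * (p.1 * p.2) := by ring
          have e2 : KK (s * (p.1 * p.2) - δ) = KK (δ + (-s) * (p.1 * p.2)) := by
            rw [← pc_KK_neg]; congr 1; ring
          rw [e1, e2] at h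
          exact h
      _ = (∫ p : ℝ × ℝ, KK (δ + s * (p.1 * p.2)) ∂((gaussianReal 0 1).prod (gaussianReal 0 1)) +
          ∫ p : ℝ × ℝ, KK (δ + (-s) * (p.1 * p.2)) ∂((gaussianReal 0 1).prod (gaussianReal 0 1))) / 2 := by
          rw [integral_div, integral_add (hint δ s) (hint δ (-s))]
      _ = _ := by rw [hsym]; ring
  have h2 : s ^ 2 * ∫ p : ℝ × ℝ, KK (p.1 * p.2) ∂((gaussianReal 0 1).prod (gaussianReal 0 1)) ≤
      ∫ p : ℝ × ℝ, KK (s * (p.1 * p.2)) ∂((gaussianReal 0 1).prod (gaussianReal 0 1)) := by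
    rw [← integral_const_mul]
    have h3 : Integrable (fun p : ℝ × ℝ => KK (s * (p.1 * p.2)))
        ((gaussianReal 0 1).prod (gaussianReal 0 1)) := by
      simpa using hint 0 s
    apply integral_mono (hUV.1.const_mul _) h3
    intro p
    exact pc_scale s hs0 hs1 _
  have h3 := mul_le_mul_of_nonneg_left hUV.2 (sq_nonneg s)
  linarith

theorem pair_cube {d : ℕ} {ι : Type*} (w : ι → Fin d → ℝ) (i j : ι)
    (hi : 0 < w i ⬝ᵥ w i) (hj : 0 < w j ⬝ᵥ w j)
    (hlaw : ∀ (a b : Fin d → ℝ), a ⬝ᵥ a = 1 → b ⬝ᵥ b = 1 →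
      (Measure.pi (fun _ : Fin d => gaussianReal 0 1)).map (fun y => (a ⬝ᵥ y, b ⬝ᵥ y)) =
      ((gaussianReal 0 1).prod (gaussianReal 0 1)).map (fun p : ℝ × ℝ =>
        (√((1 + a ⬝ᵥ b) / 2) * p.1 + √((1 - a ⬝ᵥ b) / 2) * p.2,
         √((1 + a ⬝ᵥ b) / 2) * p.1 - √((1 - a ⬝ᵥ b) / 2) * p.2)))
    (hUV : Integrable (fun p : ℝ × ℝ => KK (p.1 * p.2))
      ((gaussianReal 0 1).prod (gaussianReal 0 1)) ∧
    (0.2622 : ℝ) ≤ ∫ p : ℝ × ℝ, KK (p.1 * p.2) ∂((gaussianReal 0 1).prod (gaussianReal 0 1))) :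
    0.2622 * (1 - (w i ⬝ᵥ w j) ^ 2 / ((w i ⬝ᵥ w i) * (w j ⬝ᵥ w j))) ≤
      ∫ y, KK (tt w i y - tt w j y) ∂(Measure.pi (fun _ : Fin d => gaussianReal 0 1)) := by
  set ci := w i ⬝ᵥ w i with hci
  set cj := w j ⬝ᵥ w j with hcj
  have hsi : 0 < √ci := Real.sqrt_pos.2 hi
  have hsj : 0 < √cj := Real.sqrt_pos.2 hj
  have hsi2 : √ci ^ 2 = ci := Real.sq_sqrt hi.le
  have hsj2 : √cj ^ 2 = cj := Real.sq_sqrt hj.le
  set a : Fin d → ℝ := (√ci)⁻¹ • w i with ha
  set b : Fin d → ℝ := (√cj)⁻¹ • w j with hb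
  have haa : a ⬝ᵥ a = 1 := by
    rw [ha, smul_dotProduct, dotProduct_smul, smul_eq_mul, smul_eq_mul, ← hci]
    field_simp
    exact hsi2.symm
  have hbb : b ⬝ᵥ b = 1 := by
    rw [hb, smul_dotProduct, dotProduct_smul, smul_eq_mul, smul_eq_mul, ← hcj]
    field_simp
    exact hsj2.symm
  have hab : a ⬝ᵥ b = (w i ⬝ᵥ w j) / (√ci * √cj) := by
    rw [ha, hb, smul_dotProduct, dotProduct_smul, smul_eq_mul, smul_eq_mul]
    field_simp
  set ρ := a ⬝ᵥ b with hρ
  have hρ2 : ρ ^ 2 = (w i ⬝ᵥ w j) ^ 2 / (ci * cj) := by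
    rw [hab, div_pow, mul_pow, hsi2, hsj2]
  have hpos : ∀ c : Fin d → ℝ, 0 ≤ c ⬝ᵥ c := by
    intro c
    unfold dotProduct
    exact Finset.sum_nonneg fun i _ => mul_self_nonneg _
  have h1 : 0 ≤ 1 + ρ := by
    have := hpos (a + b)
    rw [add_dotProduct, dotProduct_add, dotProduct_add, haa, hbb, dotProduct_comm b a] at this
    linarith
  have h2 : 0 ≤ 1 - ρ := by
    have := hpos (a - b)
    rw [sub_dotProduct, dotProduct_sub, dotProduct_sub, haa, hbb, dotProduct_comm b a] at this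
    linarith
  set c := √((1 + ρ) / 2) with hc
  set e := √((1 - ρ) / 2) with he
  have hc2 : c ^ 2 = (1 + ρ) / 2 := Real.sq_sqrt (by linarith)
  have he2 : e ^ 2 = (1 - ρ) / 2 := Real.sq_sqrt (by linarith)
  have hc0 : 0 ≤ c := Real.sqrt_nonneg _
  have he0 : 0 ≤ e := Real.sqrt_nonneg _
  set s := 2 * (c * e) with hs
  have hs0 : 0 ≤ s := by positivity
  have hs2 : s ^ 2 = 1 - ρ ^ 2 := by
    rw [hs, mul_pow, mul_pow, hc2, he2]; ring
  have hs1 : s ≤ 1 := by
    have : s ^ 2 ≤ 1 := by rw [hs2]; linarith [sq_nonneg ρ]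
    nlinarith
  set δ := (1 / 2) * Real.log ci - (1 / 2) * Real.log cj with hδ
  set G : ℝ × ℝ → ℝ := fun q => KK (δ + (q.1 ^ 2 / 2 - q.2 ^ 2 / 2)) with hG
  have hGc : Continuous G := by
    have := pc_KK_cont
    simp only [hG]
    fun_prop
  have hkey : ∀ y : Fin d → ℝ, KK (tt w i y - tt w j y) = G (a ⬝ᵥ y, b ⬝ᵥ y) := by
    intro y
    simp only [hG]
    congr 1
    have e1 : a ⬝ᵥ y = (w i ⬝ᵥ y) / √ci := by
      rw [ha, smul_dotProduct, smul_eq_mul]; field_simp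
    have e2 : b ⬝ᵥ y = (w j ⬝ᵥ y) / √cj := by
      rw [hb, smul_dotProduct, smul_eq_mul]; field_simp
    rw [e1, e2, div_pow, div_pow, hsi2, hsj2, hδ]
    unfold tt
    rw [← hci, ← hcj]
    have e3 : (w i ⬝ᵥ y) ^ 2 / (2 * ci) = (w i ⬝ᵥ y) ^ 2 / ci / 2 := by
      rw [div_div, mul_comm 2 ci]
    have e4 : (w j ⬝ᵥ y) ^ 2 / (2 * cj) = (w j ⬝ᵥ y) ^ 2 / cj / 2 := by
      rw [div_div, mul_comm 2 cj]
    rw [e3, e4]
    ring
  have hm1 : Measurable (fun y : Fin d → ℝ => (a ⬝ᵥ y, b ⬝ᵥ y)) := by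
    unfold dotProduct
    fun_prop
  have hm2 : Measurable (fun p : ℝ × ℝ => (c * p.1 + e * p.2, c * p.1 - e * p.2)) := by fun_prop
  have hfin : ∫ y, KK (tt w i y - tt w j y) ∂(Measure.pi (fun _ : Fin d => gaussianReal 0 1)) =
      ∫ p : ℝ × ℝ, KK (δ + s * (p.1 * p.2)) ∂((gaussianReal 0 1).prod (gaussianReal 0 1)) := by
    calc ∫ y, KK (tt w i y - tt w j y) ∂(Measure.pi (fun _ : Fin d => gaussianReal 0 1))
        = ∫ y, G (a ⬝ᵥ y, b ⬝ᵥ y) ∂(Measure.pi (fun _ : Fin d => gaussianReal 0 1)) := by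
          congr 1; funext y; exact hkey y
      _ = ∫ q, G q ∂((Measure.pi (fun _ : Fin d => gaussianReal 0 1)).map
            (fun y => (a ⬝ᵥ y, b ⬝ᵥ y))) := by
          rw [integral_map hm1.aemeasurable hGc.aestronglyMeasurable]
      _ = ∫ q, G q ∂(((gaussianReal 0 1).prod (gaussianReal 0 1)).map
            (fun p : ℝ × ℝ => (c * p.1 + e * p.2, c * p.1 - e * p.2))) := by
          rw [hlaw a b haa hbb]
      _ = ∫ p : ℝ × ℝ, G (c * p.1 + e * p.2, c * p.1 - e * p.2)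
            ∂((gaussianReal 0 1).prod (gaussianReal 0 1)) := by
          rw [integral_map hm2.aemeasurable hGc.aestronglyMeasurable]
      _ = _ := by
          congr 1; funext p
          simp only [hG]
          congr 1
          rw [hs]
          ring
  rw [hfin, ← hρ2, ← hs2]
  exact pc_main δ s hs0 hs1 hUV

end J24724

end Pool.Agent.Helper7.Simplex.OT
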