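import Pool.Agent.Helper7.OT.Dual
import Pool.Agent.Helper7.OT.Prox
import Pool.Agent.Helper7.OT.Jac
import Pool.Agent.Helper7.OT.Expand
import Pool.Agent.Helper7.OT.Flux
import Pool.Agent.Helper7.OT.Lin
import Pool.Agent.Helper7.OT.Ball
import Pool.Agent.Helper7.OT.Lim
import Pool.Agent.Helper7.OT.UV
import Pool.Agent.Helper7.Simplex.Core

set_option linter.all false

open MeasureTheory ProbabilityTheory Matrix Filter Topology
open scoped ENNReal NNReal

namespace Pool.Agent.Helper7.Simplex.OT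

theorem fn_lip {V : Type*} [NormedAddCommGroup V] [InnerProductSpace ℝ V] (J : V → V)
    (hfn : ∀ z z', ‖J z - J z'‖ ^ 2 ≤ inner ℝ (J z - J z') (z - z')) :
    LipschitzWith 1 J ∧ LipschitzWith 1 (fun z => z - J z) := by
  constructor
  · refine LipschitzWith.of_dist_le_mul fun z z' => ?_
    rw [dist_eq_norm, dist_eq_norm, NNReal.coe_one, one_mul]
    have h1 := hfn z z'
    have h2 := real_inner_le_norm (J z - J z') (z - z')
    rcases eq_or_lt_of_le (norm_nonneg (J z - J z')) with h | h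
    · rw [← h]; exact norm_nonneg _
    · have h3 : ‖J z - J z'‖ * ‖J z - J z'‖ ≤ ‖J z - J z'‖ * ‖z - z'‖ := by nlinarith
      exact le_of_mul_le_mul_left h3 h
  · refine LipschitzWith.of_dist_le_mul fun z z' => ?_
    rw [dist_eq_norm, dist_eq_norm, NNReal.coe_one, one_mul]
    have h1 := hfn z z'
    have e : z - J z - (z' - J z') = (z - z') - (J z - J z') := by abel
    have h2 : ‖z - J z - (z' - J z')‖ ^ 2 ≤ ‖z - z'‖ ^ 2 := by
      rw [e, norm_sub_sq_real, real_inner_comm]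
      have : 0 ≤ ‖J z - J z'‖ ^ 2 := by positivity
      linarith
    exact le_of_sq_le_sq h2 (norm_nonneg _) |>.trans le_rfl

theorem parseval {d : ℕ} {ι : Type*} [Fintype ι] (w : ι → Fin d → ℝ)
    (hI : ∑ i, vecMulVec (w i) (w i) = 1) (x : Fin d → ℝ) :
    ∑ i, (w i ⬝ᵥ x) ^ 2 = x ⬝ᵥ x := by
  have h : x ⬝ᵥ ((∑ j, vecMulVec (w j) (w j)) *ᵥ x) = x ⬝ᵥ x := by
    rw [hI, Matrix.one_mulVec]
  rw [← h, Matrix.sum_mulVec, dotProduct_sum]
  refine Finset.sum_congr rfl fun j _ => ?_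
  rw [Matrix.vecMulVec_mulVec]
  simp only [dotProduct_smul, MulOpposite.smul_eq_mul_unop, MulOpposite.unop_op]
  rw [dotProduct_comm (w j) x, sq]

theorem cube_K {d : ℕ} {ι : Type*} [Fintype ι] (w : ι → Fin d → ℝ)
    (hI : ∑ i, vecMulVec (w i) (w i) = 1) :
    IsCompact {x : EuclideanSpace ℝ (Fin d) | ∀ i, |w i ⬝ᵥ WithLp.ofLp x| ≤ 1 / 2} ∧
      0 < volume {x : EuclideanSpace ℝ (Fin d) | ∀ i, |w i ⬝ᵥ WithLp.ofLp x| ≤ 1 / 2} := by
  have hcont : ∀ i, Continuous fun x : EuclideanSpace ℝ (Fin d) => |w i ⬝ᵥ WithLp.ofLp x| := by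
    intro i
    refine continuous_abs.comp ?_
    simp only [dotProduct]
    fun_prop
  constructor
  · refine Metric.isCompact_of_isClosed_isBounded ?_ ?_
    · rw [Set.setOf_forall]
      exact isClosed_iInter fun i => isClosed_le (hcont i) continuous_const
    · refine (Metric.isBounded_closedBall (x := (0 : EuclideanSpace ℝ (Fin d)))
        (r := √(Fintype.card ι * (1 / 4)))).subset ?_
      intro x hx
      rw [mem_closedBall_zero_iff]
      refine Real.le_sqrt_of_sq_le ?_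
      have h1 : ‖x‖ ^ 2 = ∑ i, (w i ⬝ᵥ WithLp.ofLp x) ^ 2 := by
        rw [parseval w hI, EuclideanSpace.norm_sq_eq]
        simp [dotProduct, sq]
      rw [h1, ← nsmul_eq_mul]
      refine (Finset.sum_le_card_nsmul Finset.univ _ (1 / 4) ?_).trans (le_of_eq rfl)
      intro i _
      have := hx i
      rw [abs_le] at this
      nlinarith
  · have hop : IsOpen {x : EuclideanSpace ℝ (Fin d) | ∀ i, |w i ⬝ᵥ WithLp.ofLp x| < 1 / 2} := by
      rw [Set.setOf_forall]
      exact isOpen_iInter_of_finite fun i => isOpen_lt (hcont i) continuous_const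
    refine lt_of_lt_of_le (hop.measure_pos volume ⟨0, ?_⟩) (measure_mono ?_)
    · intro i
      simp
    · intro x hx i
      exact (hx i).le

theorem gdE_pos {d : ℕ} (g : EuclideanSpace ℝ (Fin d)) : 0 < gdE g := by
  unfold gdE
  positivity

theorem gdE_cont {d : ℕ} : Continuous (gdE : EuclideanSpace ℝ (Fin d) → ℝ) := by
  unfold gdE
  fun_prop

theorem gdE_gdens {d : ℕ} (g : EuclideanSpace ℝ (Fin d)) : gdens g = gdE g := by
  unfold gdens gdE
  rw [finrank_euclideanSpace_fin]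

theorem ball_G {d : ℕ} (R : ℝ) (hR : 1 ≤ R) :
    0 < ∫ g in Metric.closedBall (0 : EuclideanSpace ℝ (Fin d)) R, gdE g ∧
    ∫⁻ g in Metric.closedBall (0 : EuclideanSpace ℝ (Fin d)) R,
      ENNReal.ofReal (gdE g / ∫ g in Metric.closedBall (0 : EuclideanSpace ℝ (Fin d)) R, gdE g)
        = 1 := by
  have hint : IntegrableOn (gdE : EuclideanSpace ℝ (Fin d) → ℝ)
      (Metric.closedBall (0 : EuclideanSpace ℝ (Fin d)) R) volume :=
    gdE_cont.continuousOn.integrableOn_compact (isCompact_closedBall _ _)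
  have hpos : 0 < ∫ g in Metric.closedBall (0 : EuclideanSpace ℝ (Fin d)) R, gdE g := by
    rw [setIntegral_pos_iff_support_of_nonneg_ae
      (Filter.Eventually.of_forall fun g => (gdE_pos g).le) hint]
    have hs : Function.support (gdE : EuclideanSpace ℝ (Fin d) → ℝ) = Set.univ := by
      ext g
      simp [(gdE_pos g).ne']
    rw [hs, Set.univ_inter]
    exact Metric.measure_closedBall_pos volume 0 (by linarith)
  refine ⟨hpos, ?_⟩
  rw [← ofReal_integral_eq_lintegral_ofReal (hint.div_const _)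
    (Filter.Eventually.of_forall fun g => div_nonneg (gdE_pos g).le hpos.le),
    integral_div, div_self hpos.ne', ENNReal.ofReal_one]

theorem ball_all {d : ℕ} {ι : Type*} [Fintype ι] (w : ι → Fin d → ℝ)
    (hI : ∑ i, vecMulVec (w i) (w i) = 1) (hc0 : ∀ i, 0 < w i ⬝ᵥ w i) (R : ℝ) (hR : 1 ≤ R) :
    (∫ g in Metric.closedBall (0 : EuclideanSpace ℝ (Fin d)) R, gdE g) *
        (Real.log (volume {x : EuclideanSpace ℝ (Fin d) |
          ∀ i, |w i ⬝ᵥ WithLp.ofLp x| ≤ 1 / 2}).toReal -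
          Real.log (∫ g in Metric.closedBall (0 : EuclideanSpace ℝ (Fin d)) R, gdE g) + d) +
      ∫ g in Metric.closedBall (0 : EuclideanSpace ℝ (Fin d)) R,
        (Real.log (gdE g) + LL w (WithLp.ofLp g)) * gdE g ≤ d := by
  obtain ⟨hKc, hKpos⟩ := cube_K w hI
  obtain ⟨hG0, hG1⟩ := ball_G (d := d) R hR
  set K : Set (EuclideanSpace ℝ (Fin d)) :=
    {x : EuclideanSpace ℝ (Fin d) | ∀ i, |w i ⬝ᵥ WithLp.ofLp x| ≤ 1 / 2} with hK
  set Ω : Set (EuclideanSpace ℝ (Fin d)) := Metric.closedBall (0 : EuclideanSpace ℝ (Fin d)) R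
    with hΩd
  set G : ℝ := ∫ g in Ω, gdE g with hG
  have hΩ : IsCompact Ω := isCompact_closedBall _ _
  have hΩn : Ω.Nonempty := ⟨0, Metric.mem_closedBall_self (by linarith)⟩
  have hKfin : volume K ≠ ⊤ := hKc.measure_lt_top.ne
  have hKv : 0 < (volume K).toReal := ENNReal.toReal_pos hKpos.ne' hKfin
  have hKn : K.Nonempty := nonempty_of_measure_ne_zero hKpos.ne'
  have hKm : MeasurableSet K := hKc.measurableSet
  set μ : Measure (EuclideanSpace ℝ (Fin d)) := (volume K)⁻¹ • volume.restrict K with hμd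
  set ρ : EuclideanSpace ℝ (Fin d) → ℝ≥0∞ :=
    Ω.indicator fun g => ENNReal.ofReal (gdE g / G) with hρd
  set p : Measure (EuclideanSpace ℝ (Fin d)) := volume.withDensity ρ with hpd
  have hρm : Measurable ρ :=
    (ENNReal.measurable_ofReal.comp (gdE_cont.measurable.div_const G)).indicator
      hΩ.measurableSet
  haveI hμp : IsProbabilityMeasure μ := by
    refine ⟨?_⟩
    rw [hμd, Measure.smul_apply, Measure.restrict_apply_univ, smul_eq_mul,
      ENNReal.inv_mul_cancel hKpos.ne' hKfin]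
  haveI hpp : IsProbabilityMeasure p := by
    refine ⟨?_⟩
    rw [hpd, withDensity_apply _ MeasurableSet.univ, Measure.restrict_univ, hρd,
      lintegral_indicator hΩ.measurableSet, hG1]
  have hμK : μ Kᶜ = 0 := by
    rw [hμd, Measure.smul_apply, Measure.restrict_apply hKm.compl, Set.compl_inter_self,
      measure_empty, smul_zero]
  have hpΩ : p Ωᶜ = 0 := by
    rw [hpd, withDensity_apply _ hΩ.measurableSet.compl, hρd, setLIntegral_indicator
      hΩ.measurableSet, Set.inter_compl_self, Measure.restrict_empty, lintegral_zero_measure]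
  have hμac : μ ≪ volume := by
    rw [hμd]
    exact (Measure.smul_absolutelyContinuous).trans Measure.absolutelyContinuous_restrict
  have hcb : ∀ (Ω : Set (EuclideanSpace ℝ (Fin d))), IsCompact Ω → Ω.Nonempty →
      ∀ (φ : EuclideanSpace ℝ (Fin d) → ℝ), Continuous φ →
      ∀ (C : ℝ≥0), (∀ g ∈ Ω, ‖g‖ ≤ C) →
      (∀ x, ∀ g ∈ Ω, inner ℝ x g - φ g ≤ conj Ω φ x) ∧
      (∀ x, ∃ g ∈ Ω, conj Ω φ x = inner ℝ x g - φ g) ∧
      ConvexOn ℝ Set.univ (conj Ω φ) ∧ LipschitzWith C (conj Ω φ) ∧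
      (∀ x v c, (∀ g ∈ Ω, inner ℝ v g ≤ c) → conj Ω φ (x + v) ≤ conj Ω φ x + c) :=
    fun Ω h1 h2 φ h3 C h4 => J24520.conj_basic Ω h1 h2 φ h3 C h4
  obtain ⟨φ, hφ, hφmin⟩ := J24522.dual_min Ω K hΩ hKc hΩn hKn hcb p μ hpΩ hμK
  obtain ⟨e1, e2, e3⟩ := J24525.dual_EL Ω K hΩ hKc hΩn hKn hcb p μ hpΩ hμK hμac φ hφ hφmin
  obtain ⟨Φ, T, hconv, ⟨C, hLip⟩, hinc, hT, hmap, hsub⟩ :=
    J24528.OT_exists Ω K hΩ hKc hΩn hKn hcb p μ hpΩ hμK hμac ⟨φ, hφ, e1, e2, e3⟩
  obtain ⟨J, q, hJ0, hJ, hfn, hq⟩ := J24530.prox_exists Φ hconv C hLip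
  obtain ⟨hJ1, hJ2⟩ := fn_lip J hfn
  have hjac := J24539.jac_eq
    (fun X C hX S hS hinj h => J24536.area_lip X C hX S hS hinj h)
    K hKm hKpos.ne' hKfin μ hμd ρ hρm p hpd Φ hconv C hLip T hT hmap hsub J hJ1 hJ2 hJ
  refine J24696.ball_ineq w hI hc0 K hK hKc hKv Ω hΩ G hG hG0 p μ hpd Φ hconv C hLip hinc T hT
    hmap ?_ ?_
  · filter_upwards [hsub, hjac] with x hx hjx
    obtain ⟨j1, j2, j3, j4, j5, j6, j7⟩ := hjx
    have hTΩ : T x ∈ Ω := by
      by_contra h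
      exact j6 (Set.indicator_of_notMem h _)
    have hρx : ρ (T x) = ENNReal.ofReal (gdE (T x) / G) := Set.indicator_of_mem hTΩ _
    have hρ0 : 0 < gdE (T x) / G := div_pos (gdE_pos _) hG0
    refine ⟨hTΩ, ?_⟩
    refine J24599.point w (fun t => ⟨(J7445.K_det_pos w hI t).1, k_ineq w hI t⟩)
      (fun a N h1 h2 H h3 => J24598.logdet_lin w a N h1 h2 H h3)
      (fun L h1 h2 h3 h4 h5 => J24597.lin_alg L h1 h2 h3 h4 h5)
      Φ J q (volume K).toReal (gdE (T x) / G) hKv hρ0 (T x) x ?_ ?_ j1 ?_ j4 j5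
    · intro L hL
      obtain ⟨-, -, k1, -, k2, k3⟩ := J24533.prox_deriv J q hfn hq (T x + x) L hL
      exact ⟨k1, k2, k3⟩
    · intro L M hL h1 h2 v
      exact J24540.expand Φ hconv C hLip J hJ0 hJ (T x) x hx j2 L M hL h1 h2 v
    · have h := congrArg ENNReal.toReal j3
      rw [hρx, ENNReal.toReal_mul, ENNReal.toReal_mul, ENNReal.toReal_ofReal hρ0.le,
        ENNReal.toReal_ofReal (abs_nonneg _), ENNReal.toReal_ofReal (abs_nonneg _)] at h
      exact h
  · intro e he h hh τ hτ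
    have := J24541.flux e he Φ hconv C hLip h hh τ hτ
    simp only [gdE_gdens] at this
    exact this

theorem BR {d : ℕ} {ι : Type*} [Fintype ι] (w : ι → Fin d → ℝ)
    (hI : ∑ i, vecMulVec (w i) (w i) = 1) (hc0 : ∀ i, 0 < w i ⬝ᵥ w i) :
    volume {x : Fin d → ℝ | ∀ i, |w i ⬝ᵥ x| ≤ 1 / 2} ≤
      ENNReal.ofReal (Real.exp (-((1 / 2) * ∑ i, (w i ⬝ᵥ w i) * Real.log (w i ⬝ᵥ w i)) -
      (1 / 2) * ∑ i, ∑ j, (w i ⬝ᵥ w j) ^ 2 *
        ∫ y, KK (tt w i y - tt w j y) ∂(Measure.pi (fun _ : Fin d => gaussianReal 0 1)))) := by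
  obtain ⟨hKc, hKpos⟩ := cube_K w hI
  have h := J24697.lim_ineq w hI hc0 _ (fun R hR => ball_all w hI hc0 R hR)
  have hKfin : volume {x : EuclideanSpace ℝ (Fin d) | ∀ i, |w i ⬝ᵥ WithLp.ofLp x| ≤ 1 / 2} ≠ ⊤ :=
    hKc.measure_lt_top.ne
  have hKv := ENNReal.toReal_pos hKpos.ne' hKfin
  have hvol : volume {x : Fin d → ℝ | ∀ i, |w i ⬝ᵥ x| ≤ 1 / 2} =
      volume {x : EuclideanSpace ℝ (Fin d) | ∀ i, |w i ⬝ᵥ WithLp.ofLp x| ≤ 1 / 2} := by
    have hm : MeasurableSet {x : Fin d → ℝ | ∀ i, |w i ⬝ᵥ x| ≤ 1 / 2} := by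
      rw [Set.setOf_forall]
      have hcont : ∀ i, Continuous fun x : Fin d → ℝ => |w i ⬝ᵥ x| := by
        intro i
        refine continuous_abs.comp ?_
        show Continuous fun x : Fin d → ℝ => ∑ j, w i j * x j
        fun_prop
      exact (isClosed_iInter fun i => isClosed_le (hcont i) continuous_const).measurableSet
    exact ((PiLp.volume_preserving_ofLp (Fin d)).measure_preimage hm.nullMeasurableSet).symm
  rw [hvol, ← ENNReal.ofReal_toReal hKfin]
  refine ENNReal.ofReal_le_ofReal ?_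
  rw [← Real.log_le_iff_le_exp hKv]
  exact h

end Pool.Agent.Helper7.Simplex.OT
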