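import Pool.Agent.Helper7.Simplex.Defs

open MeasureTheory Filter Topology Set Matrix
open scoped ENNReal NNReal

namespace Pool.Agent.Helper7.Simplex.OT

section

variable {V : Type*} [NormedAddCommGroup V] [InnerProductSpace ℝ V]

/-- Legendre transform over a compact set -/
noncomputable def conj (Ω : Set V) (φ : V → ℝ) (x : V) : ℝ :=
  sSup ((fun g => inner ℝ x g - φ g) '' Ω)

/-- standard Gaussian density on `V` -/
noncomputable def gdens (g : V) : ℝ :=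
  (2 * Real.pi) ^ (-(Module.finrank ℝ V : ℝ) / 2) * Real.exp (-‖g‖ ^ 2 / 2)

end

/-- logarithm of the weight of the `i`-th rod at the point `g` -/
noncomputable def tt {d : ℕ} {ι : Type*} (w : ι → Fin d → ℝ) (i : ι) (g : Fin d → ℝ) : ℝ :=
  (1 / 2) * Real.log (w i ⬝ᵥ w i) + (1 / 2) * Real.log (2 * Real.pi) +
    (w i ⬝ᵥ g) ^ 2 / (2 * (w i ⬝ᵥ w i))

noncomputable def LL {d : ℕ} {ι : Type*} [Fintype ι] (w : ι → Fin d → ℝ) (g : Fin d → ℝ) : ℝ :=
  ∑ i, (w i ⬝ᵥ w i) * tt w i g +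
    (1 / 2) * ∑ i, ∑ j, (w i ⬝ᵥ w j) ^ 2 * KK (tt w i g - tt w j g)

/-- standard Gaussian density on `EuclideanSpace` -/
noncomputable def gdE {d : ℕ} (g : EuclideanSpace ℝ (Fin d)) : ℝ :=
  (2 * Real.pi) ^ (-(d : ℝ) / 2) * Real.exp (-‖g‖ ^ 2 / 2)

end Pool.Agent.Helper7.Simplex.OT
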