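import Pool.Agent.Helper7.OT.Defs

set_option linter.all false

open MeasureTheory Filter Topology Set
open scoped ENNReal NNReal

namespace Pool.Agent.Helper7.Simplex.OT

namespace J24520

variable {V : Type*} [NormedAddCommGroup V] [InnerProductSpace ℝ V] [FiniteDimensional ℝ V]
  [MeasurableSpace V] [BorelSpace V]

omit [FiniteDimensional ℝ V] [MeasurableSpace V] [BorelSpace V] in
theorem conj_basic (Ω : Set V) (hΩ : IsCompact Ω) (hne : Ω.Nonempty) (φ : V → ℝ)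
    (hφ : Continuous φ) (C : ℝ≥0) (hC : ∀ g ∈ Ω, ‖g‖ ≤ C) :
    (∀ x, ∀ g ∈ Ω, inner ℝ x g - φ g ≤ conj Ω φ x) ∧
    (∀ x, ∃ g ∈ Ω, conj Ω φ x = inner ℝ x g - φ g) ∧
    ConvexOn ℝ Set.univ (conj Ω φ) ∧ LipschitzWith C (conj Ω φ) ∧
    (∀ x v c, (∀ g ∈ Ω, inner ℝ v g ≤ c) → conj Ω φ (x + v) ≤ conj Ω φ x + c) := by
  have hcomp : ∀ x : V, IsCompact ((fun g => inner ℝ x g - φ g) '' Ω) := by
    intro x
    refine hΩ.image ?_
    exact (continuous_const.inner continuous_id).sub hφ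
  have h1 : ∀ x, ∀ g ∈ Ω, inner ℝ x g - φ g ≤ conj Ω φ x := by
    intro x g hg
    exact le_csSup (hcomp x).bddAbove ⟨g, hg, rfl⟩
  have h2 : ∀ x, ∃ g ∈ Ω, conj Ω φ x = inner ℝ x g - φ g := by
    intro x
    obtain ⟨g, hg, h⟩ := (hcomp x).sSup_mem (hne.image _)
    exact ⟨g, hg, h.symm⟩
  have h5 : ∀ x v c, (∀ g ∈ Ω, inner ℝ v g ≤ c) → conj Ω φ (x + v) ≤ conj Ω φ x + c := by
    intro x v c hv
    obtain ⟨g, hg, h⟩ := h2 (x + v)
    rw [h, inner_add_left]
    linarith [h1 x g hg, hv g hg]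
  refine ⟨h1, h2, ⟨convex_univ, ?_⟩, ?_, h5⟩
  · intro x _ y _ a b ha hb hab
    obtain ⟨g, hg, h⟩ := h2 (a • x + b • y)
    rw [h, inner_add_left, real_inner_smul_left, real_inner_smul_left, smul_eq_mul, smul_eq_mul]
    have hx := mul_le_mul_of_nonneg_left (h1 x g hg) ha
    have hy := mul_le_mul_of_nonneg_left (h1 y g hg) hb
    have e : φ g = a * φ g + b * φ g := by rw [← add_mul, hab, one_mul]
    linarith
  · refine LipschitzWith.of_le_add_mul C fun x y => ?_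
    have h6 := h5 y (x - y) (C * dist x y) (by
      intro g hg
      have h7 := real_inner_le_norm (x - y) g
      have h8 : ‖x - y‖ * ‖g‖ ≤ ‖x - y‖ * C := mul_le_mul_of_nonneg_left (hC g hg) (norm_nonneg _)
      rw [dist_eq_norm]
      linarith)
    rwa [add_sub_cancel] at h6

end J24520

namespace J24522

variable {V : Type*} [NormedAddCommGroup V] [InnerProductSpace ℝ V] [FiniteDimensional ℝ V]
  [MeasurableSpace V] [BorelSpace V]

/-- existence of a minimiser of the Kantorovich dual functional -/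
theorem dual_min (Ω K : Set V) (hΩ : IsCompact Ω) (hK : IsCompact K) (hΩn : Ω.Nonempty)
    (hKn : K.Nonempty)
    (hb : ∀ (Ω : Set V), IsCompact Ω → Ω.Nonempty → ∀ (φ : V → ℝ), Continuous φ →
      ∀ (C : ℝ≥0), (∀ g ∈ Ω, ‖g‖ ≤ C) →
      (∀ x, ∀ g ∈ Ω, inner ℝ x g - φ g ≤ conj Ω φ x) ∧
      (∀ x, ∃ g ∈ Ω, conj Ω φ x = inner ℝ x g - φ g) ∧
      ConvexOn ℝ Set.univ (conj Ω φ) ∧ LipschitzWith C (conj Ω φ) ∧
      (∀ x v c, (∀ g ∈ Ω, inner ℝ v g ≤ c) → conj Ω φ (x + v) ≤ conj Ω φ x + c))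
    (p μ : Measure V) [IsProbabilityMeasure p] [IsProbabilityMeasure μ]
    (hp : p Ωᶜ = 0) (hμ : μ Kᶜ = 0) :
    ∃ φ : V → ℝ, Continuous φ ∧ ∀ ζ : V → ℝ, Continuous ζ →
      ∫ g, φ g ∂p + ∫ x, conj Ω φ x ∂μ ≤ ∫ g, ζ g ∂p + ∫ x, conj Ω ζ x ∂μ := by
  classical
  have hΩn' := hΩn
  obtain ⟨g0, hg0⟩ := hΩn
  have hbd : ∀ S : Set V, IsCompact S → ∃ C : ℝ≥0, ∀ g ∈ S, ‖g‖ ≤ C := by
    intro S hS
    obtain ⟨C, hC⟩ := hS.isBounded.exists_norm_le
    exact ⟨Real.toNNReal C, fun g hg => (hC g hg).trans (Real.le_coe_toNNReal C)⟩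
  obtain ⟨Q, hQ⟩ := hbd Ω hΩ
  obtain ⟨R, hR⟩ := hbd K hK
  have hpa : ∀ᵐ g ∂p, g ∈ Ω := by rw [ae_iff]; exact hp
  have hμa : ∀ᵐ x ∂μ, x ∈ K := by rw [ae_iff]; exact hμ
  have hcc : ∀ φ : V → ℝ, Continuous φ → Continuous (conj Ω φ) := fun φ hφ =>
    (hb Ω hΩ hΩn' φ hφ Q hQ).2.2.2.1.continuous
  have ip : ∀ φ : V → ℝ, Continuous φ → Integrable φ p := by
    intro φ hφ
    have h1 : IntegrableOn φ Ω p := hφ.continuousOn.integrableOn_compact hΩ
    rwa [IntegrableOn, Measure.restrict_eq_self_of_ae_mem hpa] at h1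
  have iμ : ∀ φ : V → ℝ, Continuous φ → Integrable φ μ := by
    intro φ hφ
    have h1 : IntegrableOn φ K μ := hφ.continuousOn.integrableOn_compact hK
    rwa [IntegrableOn, Measure.restrict_eq_self_of_ae_mem hμa] at h1
  let D : (V → ℝ) → ℝ := fun φ => ∫ g, φ g ∂p + ∫ x, conj Ω φ x ∂μ
  have hL1 : ∀ φ ψ : V → ℝ, Continuous φ → Continuous ψ → ∀ ε : ℝ,
      (∀ g ∈ Ω, |φ g - ψ g| ≤ ε) → D φ ≤ D ψ + 2 * ε := by
    intro φ ψ hφ hψ ε hε
    have h1 : ∫ g, φ g ∂p ≤ ∫ g, (ψ g + ε) ∂p := by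
      refine integral_mono_ae (ip φ hφ) (ip _ (hψ.add continuous_const)) ?_
      filter_upwards [hpa] with g hg
      have := (abs_le.1 (hε g hg)).2
      linarith
    have h2 : ∫ x, conj Ω φ x ∂μ ≤ ∫ x, (conj Ω ψ x + ε) ∂μ := by
      refine integral_mono (iμ _ (hcc φ hφ)) (iμ _ ((hcc ψ hψ).add continuous_const)) ?_
      intro x
      obtain ⟨g, hg, hgx⟩ := (hb Ω hΩ hΩn' φ hφ Q hQ).2.1 x
      have h3 := (hb Ω hΩ hΩn' ψ hψ Q hQ).1 x g hg
      have h4 := (abs_le.1 (hε g hg)).1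
      change conj Ω φ x ≤ conj Ω ψ x + ε
      rw [hgx]
      linarith
    rw [integral_add (ip ψ hψ) (integrable_const _)] at h1
    rw [integral_add (iμ _ (hcc ψ hψ)) (integrable_const _)] at h2
    simp only [integral_const, probReal_univ, one_smul] at h1 h2
    change ∫ g, φ g ∂p + ∫ x, conj Ω φ x ∂μ ≤ ∫ g, ψ g ∂p + ∫ x, conj Ω ψ x ∂μ + 2 * ε
    linarith
  have hC : ∀ (φ : V → ℝ) (c : ℝ), Continuous φ → D (fun g => φ g - c) = D φ := by
    intro φ c hφ
    have hφc : Continuous (fun g => φ g - c) := hφ.sub continuous_const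
    have e : ∀ x, conj Ω (fun g => φ g - c) x = conj Ω φ x + c := by
      intro x
      apply le_antisymm
      · obtain ⟨g, hg, hgx⟩ := (hb Ω hΩ hΩn' _ hφc Q hQ).2.1 x
        have h3 := (hb Ω hΩ hΩn' φ hφ Q hQ).1 x g hg
        rw [hgx]
        linarith
      · obtain ⟨g, hg, hgx⟩ := (hb Ω hΩ hΩn' φ hφ Q hQ).2.1 x
        have h3 := (hb Ω hΩ hΩn' _ hφc Q hQ).1 x g hg
        rw [hgx]
        linarith
    change ∫ g, (φ g - c) ∂p + ∫ x, conj Ω (fun g => φ g - c) x ∂μ =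
      ∫ g, φ g ∂p + ∫ x, conj Ω φ x ∂μ
    simp only [e]
    rw [integral_sub (ip φ hφ) (integrable_const _),
      integral_add (iμ _ (hcc φ hφ)) (integrable_const _)]
    simp only [integral_const, probReal_univ, one_smul]
    ring
  have hB : ∀ ζ : V → ℝ, Continuous ζ → LipschitzWith R (conj K (conj Ω ζ)) ∧
      D (conj K (conj Ω ζ)) ≤ D ζ := by
    intro ζ hζ
    have hK4 := hb K hK hKn (conj Ω ζ) (hcc ζ hζ) R hR
    have hc' : Continuous (conj K (conj Ω ζ)) := hK4.2.2.2.1.continuous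
    refine ⟨hK4.2.2.2.1, ?_⟩
    have h1 : ∫ g, conj K (conj Ω ζ) g ∂p ≤ ∫ g, ζ g ∂p := by
      refine integral_mono_ae (ip _ hc') (ip _ hζ) ?_
      filter_upwards [hpa] with g hg
      obtain ⟨x, hx, hgx⟩ := hK4.2.1 g
      have h3 := (hb Ω hΩ hΩn' ζ hζ Q hQ).1 x g hg
      rw [hgx]
      rw [real_inner_comm] at h3
      linarith
    have h2 : ∫ x, conj Ω (conj K (conj Ω ζ)) x ∂μ ≤ ∫ x, conj Ω ζ x ∂μ := by
      refine integral_mono_ae (iμ _ (hcc _ hc')) (iμ _ (hcc _ hζ)) ?_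
      filter_upwards [hμa] with x hx
      obtain ⟨g, hg, hgx⟩ := (hb Ω hΩ hΩn' _ hc' Q hQ).2.1 x
      have h3 := hK4.1 g x hx
      rw [hgx]
      rw [real_inner_comm] at h3
      linarith
    exact add_le_add h1 h2
  have hcs : CompactSpace Ω := isCompact_iff_compactSpace.1 hΩ
  choose T hT using fun f : BoundedContinuousFunction Ω ℝ =>
    ContinuousMap.exists_restrict_eq hΩ.isClosed f.toContinuousMap
  have hT' : ∀ (f : BoundedContinuousFunction Ω ℝ) (g : V) (hg : g ∈ Ω), T f g = f ⟨g, hg⟩ := by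
    intro f g hg
    exact congrArg (fun h : C(Ω, ℝ) => h ⟨g, hg⟩) (hT f)
  let A : Set (BoundedContinuousFunction Ω ℝ) :=
    {f | f ⟨g0, hg0⟩ = 0} ∩ ⋂ x : Ω, ⋂ y : Ω, {f | dist (f x) (f y) ≤ R * dist x y}
  have hAm : ∀ f : BoundedContinuousFunction Ω ℝ, f ∈ A ↔ f ⟨g0, hg0⟩ = 0 ∧
      ∀ x y : Ω, dist (f x) (f y) ≤ R * dist x y := by
    intro f
    simp only [A, mem_inter_iff, mem_iInter]
    rfl
  have hev : ∀ x : Ω, Continuous (fun f : BoundedContinuousFunction Ω ℝ => f x) := fun x =>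
    (BoundedContinuousFunction.lipschitz_eval_const x).continuous
  have hAcl : IsClosed A := by
    refine IsClosed.inter (isClosed_eq (hev _) continuous_const) ?_
    exact isClosed_iInter fun x => isClosed_iInter fun y =>
      isClosed_le ((hev x).dist (hev y)) continuous_const
  have hAc : IsCompact A := by
    refine BoundedContinuousFunction.arzela_ascoli₂ (Icc (-((R : ℝ) * (2 * Q))) (R * (2 * Q)))
      isCompact_Icc A hAcl ?_ ?_
    · intro f x hf
      obtain ⟨h1, h2⟩ := (hAm f).1 hf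
      have h3 := h2 x ⟨g0, hg0⟩
      rw [h1, Real.dist_eq, sub_zero] at h3
      have h4 : dist x (⟨g0, hg0⟩ : Ω) ≤ 2 * Q := by
        rw [Subtype.dist_eq, dist_eq_norm]
        refine (norm_sub_le _ _).trans ?_
        have := hQ x.1 x.2
        have := hQ g0 hg0
        linarith
      have h5 : |f x| ≤ R * (2 * Q) := h3.trans (mul_le_mul_of_nonneg_left h4 R.2)
      exact abs_le.1 h5
    · exact (LipschitzWith.uniformEquicontinuous _ R fun f =>
        LipschitzWith.of_dist_le_mul ((hAm f.1).1 f.2).2).equicontinuous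
  have hAn : A.Nonempty := ⟨0, (hAm 0).2 ⟨rfl, fun x y => by simpa using by positivity⟩⟩
  have hDc : Continuous (fun f : BoundedContinuousFunction Ω ℝ => D (T f)) := by
    refine LipschitzWith.continuous (K := 2) (LipschitzWith.of_dist_le_mul fun f f' => ?_)
    have hd : ∀ (f f' : BoundedContinuousFunction Ω ℝ) (g : V), g ∈ Ω →
        |T f g - T f' g| ≤ dist f f' := by
      intro f f' g hg
      rw [hT' f g hg, hT' f' g hg, ← Real.dist_eq]
      exact BoundedContinuousFunction.dist_coe_le_dist _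
    have h1 := hL1 (T f) (T f') (T f).continuous (T f').continuous _ (hd f f')
    have h2 := hL1 (T f') (T f) (T f').continuous (T f).continuous _ (hd f' f)
    rw [dist_comm f' f] at h2
    rw [Real.dist_eq, abs_le]
    change -(2 * dist f f') ≤ _ ∧ _ ≤ 2 * dist f f'
    constructor <;> linarith
  obtain ⟨f0, hf0, hmin⟩ := hAc.exists_isMinOn hAn hDc.continuousOn
  refine ⟨T f0, (T f0).continuous, fun ζ hζ => ?_⟩
  change D (T f0) ≤ D ζ
  obtain ⟨hlip, hle⟩ := hB ζ hζ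
  set ζ' := conj K (conj Ω ζ) with hζ'
  have hc' : Continuous ζ' := hlip.continuous
  have hc2 : Continuous (fun g => ζ' g - ζ' g0) := hc'.sub continuous_const
  let f2 : BoundedContinuousFunction Ω ℝ := BoundedContinuousFunction.mkOfCompact
    ⟨fun g : Ω => ζ' g - ζ' g0, hc2.comp continuous_subtype_val⟩
  have hf2v : ∀ g : Ω, f2 g = ζ' g - ζ' g0 := fun g => rfl
  have hf2 : f2 ∈ A := by
    rw [hAm]
    refine ⟨by rw [hf2v]; exact sub_self _, fun x y => ?_⟩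
    rw [hf2v, hf2v, Subtype.dist_eq, dist_sub_right]
    exact hlip.dist_le_mul x.1 y.1
  have h1 : D (T f0) ≤ D (T f2) := hmin hf2
  have h2 : D (T f2) ≤ D (fun g => ζ' g - ζ' g0) + 2 * 0 := by
    refine hL1 _ _ (T f2).continuous hc2 0 fun g hg => ?_
    rw [hT' f2 g hg, hf2v]
    simp
  rw [hC ζ' _ hc'] at h2
  linarith

end J24522

namespace J24525

variable {V : Type*} [NormedAddCommGroup V] [InnerProductSpace ℝ V] [FiniteDimensional ℝ V]
  [MeasurableSpace V] [BorelSpace V]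

theorem EL_integ (ν : Measure V) [IsProbabilityMeasure ν] (A : Set V) (hA : IsCompact A)
    (hν : ν Aᶜ = 0) (h : V → ℝ) (hc : Continuous h) : Integrable h ν := by
  have h1 : ∀ᵐ x ∂ν, x ∈ A := hν
  have h2 : ν.restrict A = ν := Measure.restrict_eq_self_of_ae_mem h1
  have h3 : IntegrableOn h A ν := hc.continuousOn.integrableOn_compact hA
  unfold IntegrableOn at h3
  rwa [h2] at h3

omit [MeasurableSpace V] [BorelSpace V] in
theorem EL_grad (f : V → ℝ) (x g : V) (hd : DifferentiableAt ℝ f x)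
    (h : ∀ x', f x + inner ℝ (x' - x) g ≤ f x') : gradient f x = g := by
  have h1 : HasFDerivAt f (InnerProductSpace.toDual ℝ V (gradient f x)) x := hd.hasGradientAt.hasFDerivAt
  have h2 : HasFDerivAt (fun x' : V => (InnerProductSpace.toDual ℝ V g : V →L[ℝ] ℝ) x')
      (InnerProductSpace.toDual ℝ V g : V →L[ℝ] ℝ) x :=
    (InnerProductSpace.toDual ℝ V g : V →L[ℝ] ℝ).hasFDerivAt
  have h3 := h1.sub h2
  have h4 : IsLocalMin (fun x' => f x' - (InnerProductSpace.toDual ℝ V g : V →L[ℝ] ℝ) x') x := by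
    refine Eventually.of_forall fun x' => ?_
    have h5 := h x'
    rw [inner_sub_left, real_inner_comm, real_inner_comm g x] at h5
    show f x - (InnerProductSpace.toDual ℝ V g : V →L[ℝ] ℝ) x ≤
      f x' - (InnerProductSpace.toDual ℝ V g : V →L[ℝ] ℝ) x'
    rw [InnerProductSpace.toDual_apply_apply, InnerProductSpace.toDual_apply_apply]
    linarith
  have h6 : (InnerProductSpace.toDual ℝ V (gradient f x) : V →L[ℝ] ℝ) -
      (InnerProductSpace.toDual ℝ V g : V →L[ℝ] ℝ) = 0 := h4.hasFDerivAt_eq_zero h3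
  exact (InnerProductSpace.toDual ℝ V).injective (sub_eq_zero.1 h6)

/-- first order condition (Gangbo): the gradient of the optimal potential transports `μ` to `p` -/
theorem dual_EL (Ω K : Set V) (hΩ : IsCompact Ω) (hK : IsCompact K) (hΩn : Ω.Nonempty)
    (hKn : K.Nonempty)
    (hb : ∀ (Ω : Set V), IsCompact Ω → Ω.Nonempty → ∀ (φ : V → ℝ), Continuous φ →
      ∀ (C : ℝ≥0), (∀ g ∈ Ω, ‖g‖ ≤ C) →
      (∀ x, ∀ g ∈ Ω, inner ℝ x g - φ g ≤ conj Ω φ x) ∧
      (∀ x, ∃ g ∈ Ω, conj Ω φ x = inner ℝ x g - φ g) ∧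
      ConvexOn ℝ Set.univ (conj Ω φ) ∧ LipschitzWith C (conj Ω φ) ∧
      (∀ x v c, (∀ g ∈ Ω, inner ℝ v g ≤ c) → conj Ω φ (x + v) ≤ conj Ω φ x + c))
    (p μ : Measure V) [IsProbabilityMeasure p] [IsProbabilityMeasure μ]
    (hp : p Ωᶜ = 0) (hμ : μ Kᶜ = 0) (hac : μ ≪ volume)
    (φ : V → ℝ) (hφ : Continuous φ)
    (hmin : ∀ ζ : V → ℝ, Continuous ζ →
      ∫ g, φ g ∂p + ∫ x, conj Ω φ x ∂μ ≤ ∫ g, ζ g ∂p + ∫ x, conj Ω ζ x ∂μ) :
    Measurable (gradient (conj Ω φ)) ∧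
    (∀ᵐ x ∂μ, ∀ x', conj Ω φ x + inner ℝ (gradient (conj Ω φ) x) (x' - x) ≤ conj Ω φ x') ∧
    ∀ ζ : V → ℝ, Continuous ζ → (∃ B : ℝ, ∀ x, |ζ x| ≤ B) →
      ∫ g, ζ g ∂p = ∫ x, ζ (gradient (conj Ω φ) x) ∂μ := by
  classical
  obtain ⟨R, hR⟩ := hΩ.isBounded.exists_norm_le
  have hC : ∀ g ∈ Ω, ‖g‖ ≤ (R.toNNReal : ℝ) := fun g hg => (hR g hg).trans (Real.le_coe_toNNReal R)
  have hle : ∀ ψ : V → ℝ, Continuous ψ → ∀ x, ∀ g ∈ Ω, inner ℝ x g - ψ g ≤ conj Ω ψ x :=
    fun ψ hψ => (hb Ω hΩ hΩn ψ hψ _ hC).1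
  have hat : ∀ ψ : V → ℝ, Continuous ψ → ∀ x, ∃ g ∈ Ω, conj Ω ψ x = inner ℝ x g - ψ g :=
    fun ψ hψ => (hb Ω hΩ hΩn ψ hψ _ hC).2.1
  have hlip : ∀ ψ : V → ℝ, Continuous ψ → LipschitzWith R.toNNReal (conj Ω ψ) :=
    fun ψ hψ => (hb Ω hΩ hΩn ψ hψ _ hC).2.2.2.1
  have hdiff : ∀ᵐ x ∂μ, DifferentiableAt ℝ (conj Ω φ) x :=
    hac.ae_le ((hlip φ hφ).ae_differentiableAt (μ := volume))
  have hgrad : ∀ x, DifferentiableAt ℝ (conj Ω φ) x → ∀ g ∈ Ω, conj Ω φ x = inner ℝ x g - φ g →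
      gradient (conj Ω φ) x = g := by
    intro x hx g hg hgx
    refine EL_grad _ x g hx fun x' => ?_
    have := hle φ hφ x' g hg
    rw [hgx, inner_sub_left]
    linarith
  refine ⟨?_, ?_, ?_⟩
  · have h1 : Measurable (fderiv ℝ (conj Ω φ)) := measurable_fderiv ℝ _
    have h2 : Continuous (InnerProductSpace.toDual ℝ V).symm := (InnerProductSpace.toDual ℝ V).symm.continuous
    exact h2.measurable.comp h1
  · filter_upwards [hdiff] with x hx x'
    obtain ⟨g, hg, hgx⟩ := hat φ hφ x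
    rw [hgrad x hx g hg hgx, hgx]
    have := hle φ hφ x' g hg
    rw [inner_sub_right, real_inner_comm x' g, real_inner_comm x g]
    linarith
  · have main : ∀ ζ : V → ℝ, Continuous ζ → (∃ B : ℝ, ∀ x, |ζ x| ≤ B) →
        ∫ x, ζ (gradient (conj Ω φ) x) ∂μ ≤ ∫ g, ζ g ∂p := by
      rintro ζ hζ ⟨B, hB⟩
      have hs : ∀ n : ℕ, (0 : ℝ) < 1 / ((n : ℝ) + 1) := fun n => by positivity
      have hcs : ∀ n : ℕ, Continuous (fun g => φ g + 1 / ((n : ℝ) + 1) * ζ g) := fun n => by fun_prop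
      let q : ℕ → V → ℝ := fun n x => (conj Ω (fun g => φ g + 1 / ((n : ℝ) + 1) * ζ g) x - conj Ω φ x) / (1 / ((n : ℝ) + 1))
      have hqc : ∀ n, Continuous (q n) := fun n =>
        (((hlip _ (hcs n)).continuous).sub (hlip φ hφ).continuous).div_const _
      -- upper and lower bounds
      have hup : ∀ (n : ℕ) x g, g ∈ Ω → conj Ω (fun g => φ g + 1 / ((n : ℝ) + 1) * ζ g) x
          = inner ℝ x g - (φ g + 1 / ((n : ℝ) + 1) * ζ g) → q n x ≤ - ζ g := by
        intro n x g hg hgx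
        show (conj Ω (fun g => φ g + 1 / ((n : ℝ) + 1) * ζ g) x - conj Ω φ x) / (1 / ((n : ℝ) + 1)) ≤ _
        rw [div_le_iff₀ (hs n), hgx]
        have := hle φ hφ x g hg
        linarith
      have hlow : ∀ (n : ℕ) x g, g ∈ Ω → conj Ω φ x = inner ℝ x g - φ g → - ζ g ≤ q n x := by
        intro n x g hg hgx
        show _ ≤ (conj Ω (fun g => φ g + 1 / ((n : ℝ) + 1) * ζ g) x - conj Ω φ x) / (1 / ((n : ℝ) + 1))
        rw [le_div_iff₀ (hs n), hgx]
        have := hle _ (hcs n) x g hg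
        linarith
      have hbd : ∀ (n : ℕ) x, ‖q n x‖ ≤ B := by
        intro n x
        obtain ⟨g, hg, hgx⟩ := hat φ hφ x
        obtain ⟨g', hg', hgx'⟩ := hat _ (hcs n) x
        have h1 := hlow n x g hg hgx
        have h2 := hup n x g' hg' hgx'
        have h3 := abs_le.1 (hB g)
        have h4 := abs_le.1 (hB g')
        rw [Real.norm_eq_abs, abs_le]
        constructor <;> linarith
      have hlim : ∀ᵐ x ∂μ, Tendsto (fun n => q n x) atTop (𝓝 (- ζ (gradient (conj Ω φ) x))) := by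
        filter_upwards [hdiff] with x hx
        obtain ⟨g, hg, hgx⟩ := hat φ hφ x
        choose gs hgs hgsx using fun n : ℕ => hat _ (hcs n) x
        rw [hgrad x hx g hg hgx]
        have hs0 : Tendsto (fun n : ℕ => 1 / ((n : ℝ) + 1)) atTop (𝓝 0) :=
          tendsto_one_div_add_atTop_nhds_zero_nat
        have hψ : Tendsto (fun n => inner ℝ x (gs n) - φ (gs n)) atTop (𝓝 (conj Ω φ x)) := by
          have hlo : Tendsto (fun n : ℕ => conj Ω φ x - 2 * B * (1 / ((n : ℝ) + 1))) atTop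
              (𝓝 (conj Ω φ x - 2 * B * 0)) := tendsto_const_nhds.sub (hs0.const_mul _)
          rw [mul_zero, sub_zero] at hlo
          refine tendsto_of_tendsto_of_tendsto_of_le_of_le hlo tendsto_const_nhds (fun n => ?_) (fun n => ?_)
          · have h1 := hgsx n
            have h2 := hle _ (hcs n) x g hg
            have h3 := mul_le_mul_of_nonneg_left (abs_le.1 (hB g)).2 (hs n).le
            have h4 := mul_le_mul_of_nonneg_left (abs_le.1 (hB (gs n))).1 (hs n).le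
            show conj Ω φ x - 2 * B * (1 / ((n : ℝ) + 1)) ≤ inner ℝ x (gs n) - φ (gs n)
            have h5 : inner ℝ x g - (φ g + 1 / ((n : ℝ) + 1) * ζ g) ≤
              inner ℝ x (gs n) - (φ (gs n) + 1 / ((n : ℝ) + 1) * ζ (gs n)) := by
              rw [← h1]; exact h2
            rw [hgx]
            linarith
          · exact hle φ hφ x (gs n) (hgs n)
        have hgs0 : Tendsto gs atTop (𝓝 g) := by
          refine hΩ.tendsto_nhds_of_unique_mapClusterPt (Eventually.of_forall hgs) ?_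
          intro g' hg' hcl
          have hcont : ContinuousAt (fun g => inner ℝ x g - φ g) g' := by fun_prop
          have h1 : MapClusterPt (inner ℝ x g' - φ g') atTop ((fun g => inner ℝ x g - φ g) ∘ gs) :=
            hcl.continuousAt_comp hcont
          have h2 : inner ℝ x g' - φ g' = conj Ω φ x := by
            refine eq_of_nhds_neBot ?_
            have h3 : (𝓝 (inner ℝ x g' - φ g') ⊓ map ((fun g => inner ℝ x g - φ g) ∘ gs) atTop).NeBot := h1
            exact h3.mono (inf_le_inf_left _ hψ)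
          rw [← hgrad x hx g hg hgx, hgrad x hx g' hg' h2.symm]
        have hζg : Tendsto (fun n => - ζ (gs n)) atTop (𝓝 (- ζ g)) :=
          ((hζ.tendsto g).comp hgs0).neg
        exact tendsto_of_tendsto_of_tendsto_of_le_of_le tendsto_const_nhds hζg
          (fun n => hlow n x g hg hgx) (fun n => hup n x (gs n) (hgs n) (hgsx n))
      have hDCT : Tendsto (fun n => ∫ x, q n x ∂μ) atTop (𝓝 (∫ x, - ζ (gradient (conj Ω φ) x) ∂μ)) :=
        tendsto_integral_of_dominated_convergence (fun _ => B)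
          (fun n => (hqc n).aestronglyMeasurable) (integrable_const B)
          (fun n => Eventually.of_forall fun x => hbd n x) hlim
      have hge : ∀ n, - ∫ g, ζ g ∂p ≤ ∫ x, q n x ∂μ := by
        intro n
        have h1 := hmin _ (hcs n)
        have i1 : Integrable φ p := EL_integ p Ω hΩ hp φ hφ
        have i2 : Integrable (fun g => 1 / ((n : ℝ) + 1) * ζ g) p :=
          EL_integ p Ω hΩ hp _ (by fun_prop)
        have i3 : Integrable (conj Ω φ) μ := EL_integ μ K hK hμ _ (hlip φ hφ).continuous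
        have i4 : Integrable (conj Ω (fun g => φ g + 1 / ((n : ℝ) + 1) * ζ g)) μ :=
          EL_integ μ K hK hμ _ (hlip _ (hcs n)).continuous
        rw [integral_add i1 i2, integral_const_mul] at h1
        show _ ≤ ∫ x, (conj Ω (fun g => φ g + 1 / ((n : ℝ) + 1) * ζ g) x - conj Ω φ x) / (1 / ((n : ℝ) + 1)) ∂μ
        rw [integral_div, integral_sub i4 i3, le_div_iff₀ (hs n)]
        linarith
      have h2 : - ∫ g, ζ g ∂p ≤ ∫ x, - ζ (gradient (conj Ω φ) x) ∂μ := ge_of_tendsto' hDCT hge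
      rw [integral_neg] at h2
      linarith
    intro ζ hζ hB
    obtain ⟨B, hB⟩ := hB
    have h1 := main ζ hζ ⟨B, hB⟩
    have h2 := main (fun x => - ζ x) hζ.neg ⟨B, fun x => by rw [abs_neg]; exact hB x⟩
    rw [integral_neg, integral_neg] at h2
    linarith

end J24525

namespace J24528

variable {V : Type*} [NormedAddCommGroup V] [InnerProductSpace ℝ V] [FiniteDimensional ℝ V]
  [MeasurableSpace V] [BorelSpace V]

/-- existence of the optimal transport with convex potential `Φ` -/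
theorem OT_exists (Ω K : Set V) (hΩ : IsCompact Ω) (hK : IsCompact K) (hΩn : Ω.Nonempty)
    (hKn : K.Nonempty)
    (hb : ∀ (Ω : Set V), IsCompact Ω → Ω.Nonempty → ∀ (φ : V → ℝ), Continuous φ →
      ∀ (C : ℝ≥0), (∀ g ∈ Ω, ‖g‖ ≤ C) →
      (∀ x, ∀ g ∈ Ω, inner ℝ x g - φ g ≤ conj Ω φ x) ∧
      (∀ x, ∃ g ∈ Ω, conj Ω φ x = inner ℝ x g - φ g) ∧
      ConvexOn ℝ Set.univ (conj Ω φ) ∧ LipschitzWith C (conj Ω φ) ∧
      (∀ x v c, (∀ g ∈ Ω, inner ℝ v g ≤ c) → conj Ω φ (x + v) ≤ conj Ω φ x + c))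
    (p μ : Measure V) [IsProbabilityMeasure p] [IsProbabilityMeasure μ]
    (hp : p Ωᶜ = 0) (hμ : μ Kᶜ = 0) (hac : μ ≪ volume)
    (hex : ∃ φ : V → ℝ, Continuous φ ∧ Measurable (gradient (conj Ω φ)) ∧
      (∀ᵐ x ∂μ, ∀ x', conj Ω φ x + inner ℝ (gradient (conj Ω φ) x) (x' - x) ≤ conj Ω φ x') ∧
      ∀ ζ : V → ℝ, Continuous ζ → (∃ B : ℝ, ∀ x, |ζ x| ≤ B) →
        ∫ g, ζ g ∂p = ∫ x, ζ (gradient (conj Ω φ) x) ∂μ) :
    ∃ (Φ : V → ℝ) (T : V → V), ConvexOn ℝ Set.univ Φ ∧ (∃ C : ℝ≥0, LipschitzWith C Φ) ∧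
      (∀ g v c, (∀ x ∈ K, inner ℝ v x ≤ c) → Φ (g + v) ≤ Φ g + c) ∧
      Measurable T ∧ μ.map T = p ∧
      ∀ᵐ x ∂μ, ∀ g', Φ (T x) + inner ℝ x (g' - T x) ≤ Φ g' := by
  obtain ⟨φ, hφ, hTm, hae, hint⟩ := hex
  have hbdd : ∀ S : Set V, IsCompact S → ∃ C : ℝ≥0, ∀ g ∈ S, ‖g‖ ≤ C := by
    intro S hS
    obtain ⟨C, hC⟩ := hS.isBounded.exists_norm_le
    exact ⟨Real.toNNReal C, fun g hg => (hC g hg).trans (Real.le_coe_toNNReal C)⟩
  obtain ⟨C, hC⟩ := hbdd Ω hΩ
  obtain ⟨C', hC'⟩ := hbdd K hK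
  have h1 := hb Ω hΩ hΩn φ hφ C hC
  have hcont : Continuous (conj Ω φ) := h1.2.2.2.1.continuous
  obtain ⟨k1, k2, k3, k4, k5⟩ := hb K hK hKn (conj Ω φ) hcont C' hC'
  refine ⟨conj K (conj Ω φ), gradient (conj Ω φ), k3, ⟨C', k4⟩, k5, hTm, ?_, ?_⟩
  · haveI : IsProbabilityMeasure (μ.map (gradient (conj Ω φ))) :=
      Measure.isProbabilityMeasure_map hTm.aemeasurable
    refine ext_of_forall_integral_eq_of_IsFiniteMeasure fun ζ => ?_
    rw [integral_map hTm.aemeasurable ζ.continuous.aestronglyMeasurable]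
    exact (hint ζ ζ.continuous ⟨‖ζ‖, fun x => ζ.norm_coe_le_norm x⟩).symm
  · have hK' : ∀ᵐ x ∂μ, x ∈ K := by
      rw [ae_iff]
      exact hμ
    filter_upwards [hae, hK'] with x hx hxK g'
    obtain ⟨x', hx', heq⟩ := k2 (gradient (conj Ω φ) x)
    have h2 := hx x'
    have h3 := k1 g' x hxK
    rw [inner_sub_right] at h2
    rw [heq, inner_sub_right, real_inner_comm (gradient (conj Ω φ) x) x, real_inner_comm g' x]
    linarith

end J24528

end Pool.Agent.Helper7.Simplex.OT
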