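import Pool.Agent.Helper7.OT.Fin
import Pool.Agent.Helper7.Cube.Ext
import Pool.Agent.Helper7.Cube.Geo

set_option linter.all false

open MeasureTheory ProbabilityTheory Matrix
open scoped ENNReal

namespace Pool.Agent.Helper7.Simplex.OT

namespace J31279

theorem iso_finite {d m : ℕ} (w : Fin m → Fin d → ℝ) (h : ∑ i, vecMulVec (w i) (w i) = 1) :
    volume {x : Fin d → ℝ | ∀ i, |w i ⬝ᵥ x| ≤ 1 / 2} < ⊤ := by
  have key : ∀ x : Fin d → ℝ, x ⬝ᵥ x = ∑ i, (w i ⬝ᵥ x) ^ 2 := by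
    intro x
    have h1 : x ⬝ᵥ ((∑ i, vecMulVec (w i) (w i)) *ᵥ x) = x ⬝ᵥ x := by rw [h, one_mulVec]
    rw [← h1, Matrix.sum_mulVec, dotProduct_sum]
    refine Finset.sum_congr rfl fun i _ => ?_
    rw [vecMulVec_mulVec, dotProduct_smul, dotProduct_comm x (w i)]
    simp [pow_two]
  have hsub : {x : Fin d → ℝ | ∀ i, |w i ⬝ᵥ x| ≤ 1 / 2} ⊆ Metric.closedBall 0 ((m : ℝ) + 1) := by
    intro x hx
    rw [mem_closedBall_zero_iff, pi_norm_le_iff_of_nonneg (by positivity)]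
    intro j
    have h2 : (x j) ^ 2 ≤ x ⬝ᵥ x := by
      rw [dotProduct]
      have := Finset.single_le_sum (f := fun j => x j * x j) (fun i _ => mul_self_nonneg (x i))
        (Finset.mem_univ j)
      simpa [pow_two] using this
    have h3 : ∑ i, (w i ⬝ᵥ x) ^ 2 ≤ ∑ i : Fin m, (1 : ℝ) := by
      refine Finset.sum_le_sum fun i _ => ?_
      have := hx i
      have h4 := abs_le.1 this
      nlinarith [h4.1, h4.2]
    rw [Finset.sum_const, Finset.card_univ, Fintype.card_fin, nsmul_eq_mul, mul_one] at h3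
    have h5 : (x j) ^ 2 ≤ m := h2.trans ((key x).trans_le h3)
    rw [Real.norm_eq_abs]
    apply abs_le_of_sq_le_sq _ (by positivity)
    nlinarith [h5, (Nat.cast_nonneg m : (0 : ℝ) ≤ m)]
  exact (measure_mono hsub).trans_lt measure_closedBall_lt_top

theorem vol_transfer {d m : ℕ} (S : Matrix (Fin d) (Fin d) ℝ) (hS : S.det ≠ 0)
    (w v : Fin m → Fin d → ℝ) (h : ∀ i, S *ᵥ w i = v i) :
    volume {x : Fin d → ℝ | ∀ i, |v i ⬝ᵥ x| ≤ 1 / 2} =
      ENNReal.ofReal (|S.det|⁻¹) * volume {x : Fin d → ℝ | ∀ i, |w i ⬝ᵥ x| ≤ 1 / 2} := by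
  have hd : LinearMap.det (Matrix.toLin' Sᵀ) ≠ 0 := by
    rw [LinearMap.det_toLin', Matrix.det_transpose]; exact hS
  have := Measure.addHaar_preimage_linearMap (volume : Measure (Fin d → ℝ)) hd
    {x : Fin d → ℝ | ∀ i, |w i ⬝ᵥ x| ≤ 1 / 2}
  rw [LinearMap.det_toLin', Matrix.det_transpose, abs_inv] at this
  rw [← this]
  congr 1
  ext x
  simp only [Set.mem_setOf_eq, Set.mem_preimage, Matrix.toLin'_apply]
  refine forall_congr' fun i => ?_
  have : v i ⬝ᵥ x = w i ⬝ᵥ (Sᵀ *ᵥ x) := by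
    rw [← h i, Matrix.mulVec_transpose, dotProduct_comm (w i), ← dotProduct_mulVec,
      dotProduct_comm]
  rw [this]

theorem core {d : ℕ} {ι : Type*} [Fintype ι] (u : ι → Fin d → ℝ) (b : ℕ) (hb : 2 ≤ b)
    (hN : Fintype.card ι ≤ b * d)
    (hdet : 0 < (∑ i, vecMulVec (u i) (u i)).det)
    (hfac : ∀ (m : ℕ) (w : Fin m → Fin d → ℝ), 0 < (∑ i, vecMulVec (w i) (w i)).det →
      ∃ (S : Matrix (Fin d) (Fin d) ℝ) (w' : Fin m → Fin d → ℝ), S.det ≠ 0 ∧
      |S.det| = √((∑ i, vecMulVec (w i) (w i)).det) ∧ (∀ i, S *ᵥ w' i = w i) ∧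
      ∑ i, vecMulVec (w' i) (w' i) = 1 ∧
      ∀ i, w' i ⬝ᵥ w' i = w i ⬝ᵥ ((∑ j, vecMulVec (w j) (w j))⁻¹ *ᵥ w i))
    (hext : ∀ (A : ℝ), Real.exp A = (b : ℝ) / ((b : ℝ) - 1) →
      ∀ (Vol : Set ι → ℝ), 0 < Vol Set.univ →
      (∀ (m m' : ℕ) (f : Fin m → ι) (f' : Fin m' → ι), Set.range f' ⊆ Set.range f →
      0 < (∑ j, vecMulVec (u (f' j)) (u (f' j))).det → Vol (Set.range f) ≤ Vol (Set.range f')) →
      ∃ (m : ℕ) (f : Fin m → ι), 0 < (∑ j, vecMulVec (u (f j)) (u (f j))).det ∧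
      Vol Set.univ * (∑ i, vecMulVec (u i) (u i)).det * Real.exp (-(Fintype.card ι * A)) ≤
        Vol (Set.range f) * (∑ j, vecMulVec (u (f j)) (u (f j))).det * Real.exp (-(m * A)) ∧
      ∀ j, 1 / (b : ℝ) ≤ u (f j) ⬝ᵥ ((∑ j, vecMulVec (u (f j)) (u (f j)))⁻¹ *ᵥ u (f j)) ∧
        u (f j) ⬝ᵥ ((∑ j, vecMulVec (u (f j)) (u (f j)))⁻¹ *ᵥ u (f j)) ≤ 1 / ((b : ℝ) - 1))
    (hiso : ∀ (m : ℕ) (w : Fin m → Fin d → ℝ), ∑ i, vecMulVec (w i) (w i) = 1 →
      (∀ i, 1 / (b : ℝ) ≤ w i ⬝ᵥ w i) → (∀ i, w i ⬝ᵥ w i ≤ 1 / ((b : ℝ) - 1)) →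
      volume {x : Fin d → ℝ | ∀ i, |w i ⬝ᵥ x| ≤ 1 / 2} ≤
        ENNReal.ofReal (Real.exp ((m * Ab b + d * Bb b) / 2))) :
    volume {x : Fin d → ℝ | ∀ i, |u i ⬝ᵥ x| ≤ 1 / 2} *
      ENNReal.ofReal (√((∑ i, vecMulVec (u i) (u i)).det)) ≤
      ENNReal.ofReal (Real.exp ((Fintype.card ι * Ab b + d * Bb b) / 2)) := by
  set C : Set ι → Set (Fin d → ℝ) := fun s => {x | ∀ i ∈ s, |u i ⬝ᵥ x| ≤ 1 / 2} with hC
  have hCr : ∀ (m : ℕ) (f : Fin m → ι), C (Set.range f) = {x | ∀ j, |u (f j) ⬝ᵥ x| ≤ 1 / 2} := by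
    intro m f
    ext x
    simp [hC]
  have hfin : ∀ (m : ℕ) (f : Fin m → ι), 0 < (∑ j, vecMulVec (u (f j)) (u (f j))).det →
      volume (C (Set.range f)) < ⊤ := by
    intro m f hf
    obtain ⟨S, w', hS0, hS, hSw, hw, -⟩ := hfac m (fun j => u (f j)) hf
    rw [hCr, vol_transfer S hS0 w' (fun j => u (f j)) hSw]
    exact ENNReal.mul_lt_top ENNReal.ofReal_lt_top (iso_finite w' hw)
  have hCu : C Set.univ = {x | ∀ i, |u i ⬝ᵥ x| ≤ 1 / 2} := by
    ext x; simp [hC]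
  have hufin : volume (C Set.univ) < ⊤ := by
    have e := (Fintype.equivFin ι).symm
    have h1 := hfin _ e (by
      rw [e.sum_comp (fun i => vecMulVec (u i) (u i))]
      exact hdet)
    rwa [e.surjective.range_eq] at h1
  have hupos : 0 < volume (C Set.univ) := by
    have hopen : IsOpen {x : Fin d → ℝ | ∀ i, |u i ⬝ᵥ x| < 1 / 2} := by
      have : {x : Fin d → ℝ | ∀ i, |u i ⬝ᵥ x| < 1 / 2} = ⋂ i, {x | |u i ⬝ᵥ x| < 1 / 2} := by
        ext x; simp
      rw [this]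
      refine isOpen_iInter_of_finite fun i => ?_
      refine isOpen_lt ?_ continuous_const
      exact (Continuous.dotProduct continuous_const continuous_id).abs
    have hne : ({x : Fin d → ℝ | ∀ i, |u i ⬝ᵥ x| < 1 / 2}).Nonempty := ⟨0, by intro i; simp⟩
    refine (hopen.measure_pos volume hne).trans_le (measure_mono ?_)
    intro x hx i _
    exact (hx i).le
  have hAb : Real.exp (Ab b) = (b : ℝ) / ((b : ℝ) - 1) := by
    have h6 : (2 : ℝ) ≤ b := by exact_mod_cast hb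
    rw [Ab, Real.exp_log]
    exact div_pos (by linarith) (by linarith)
  obtain ⟨m, f, hf, hle, hlev⟩ := hext (Ab b) hAb (fun s => (volume (C s)).toReal ^ 2)
    (pow_pos (ENNReal.toReal_pos hupos.ne' hufin.ne) 2)
    (by
      intro m m' f f' hsub hf'
      have h1 : volume (C (Set.range f)) ≤ volume (C (Set.range f')) := by
        apply measure_mono
        intro x hx i hi
        exact hx i (hsub hi)
      have h2 := ENNReal.toReal_mono (hfin m' f' hf').ne h1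
      exact pow_le_pow_left₀ ENNReal.toReal_nonneg h2 2)
  obtain ⟨S, w', hS0, hS, hSw, hw, hwl⟩ := hfac m (fun j => u (f j)) hf
  have hv := hiso m w' hw (fun i => by rw [hwl i]; exact (hlev i).1)
    (fun i => by rw [hwl i]; exact (hlev i).2)
  have hvt := vol_transfer S hS0 w' (fun j => u (f j)) hSw
  rw [← hCr] at hvt
  set V := volume {x : Fin d → ℝ | ∀ i, |w' i ⬝ᵥ x| ≤ 1 / 2} with hV
  set D := (∑ j, vecMulVec (u (f j)) (u (f j))).det with hD
  have hvt' : (volume (C (Set.range f))).toReal = |S.det|⁻¹ * V.toReal := by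
    rw [hvt, ENNReal.toReal_mul, ENNReal.toReal_ofReal (by positivity)]
  have hVr : V.toReal ≤ Real.exp ((m * Ab b + d * Bb b) / 2) := by
    have := ENNReal.toReal_mono ENNReal.ofReal_ne_top hv
    rwa [ENNReal.toReal_ofReal (Real.exp_pos _).le] at this
  have hVD : (volume (C (Set.range f))).toReal ^ 2 * D = V.toReal ^ 2 := by
    have h1 : |S.det| ^ 2 = D := by
      rw [hS, Real.sq_sqrt hf.le]
    have h2 : |S.det| ≠ 0 := by simpa using hS0
    rw [hvt', ← h1]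
    field_simp

  rw [hVD] at hle
  have hV2 : V.toReal ^ 2 ≤ Real.exp (m * Ab b + d * Bb b) := by
    have h1 := pow_le_pow_left₀ ENNReal.toReal_nonneg hVr 2
    refine h1.trans_eq ?_
    rw [← Real.exp_nat_mul]
    congr 1
    push_cast
    ring
  have h3 : (volume (C Set.univ)).toReal ^ 2 * (∑ i, vecMulVec (u i) (u i)).det ≤
      Real.exp (Fintype.card ι * Ab b + d * Bb b) := by
    have h4 : (volume (C Set.univ)).toReal ^ 2 * (∑ i, vecMulVec (u i) (u i)).det *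
        Real.exp (-(Fintype.card ι * Ab b)) ≤ Real.exp (d * Bb b) := by
      refine hle.trans ?_
      calc V.toReal ^ 2 * Real.exp (-(m * Ab b)) ≤
          Real.exp (m * Ab b + d * Bb b) * Real.exp (-(m * Ab b)) :=
            mul_le_mul_of_nonneg_right hV2 (Real.exp_pos _).le
        _ = Real.exp (d * Bb b) := by
            rw [← Real.exp_add]; congr 1; ring
    have h5 := mul_le_mul_of_nonneg_right h4 (Real.exp_pos (Fintype.card ι * Ab b)).le
    rw [mul_assoc, ← Real.exp_add, ← Real.exp_add, neg_add_cancel, Real.exp_zero, mul_one] at h5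
    rwa [add_comm] at h5
  rw [← hCu]
  rw [← ENNReal.ofReal_toReal hufin.ne, ← ENNReal.ofReal_mul ENNReal.toReal_nonneg]
  apply ENNReal.ofReal_le_ofReal
  have h6 := Real.sqrt_le_sqrt h3
  rw [Real.sqrt_mul (by positivity), Real.sqrt_sq ENNReal.toReal_nonneg] at h6
  refine h6.trans_eq ?_
  rw [Real.sqrt_eq_iff_mul_self_eq_of_pos (Real.exp_pos _), ← Real.exp_add]
  congr 1
  ring

end J31279

end Pool.Agent.Helper7.Simplex.OT
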