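import Pool.Agent.Helper7.OT.Core
import Pool.Agent.Helper7.Simplex.Scal
import Pool.Agent.Helper7.Simplex.Frame
import Pool.Agent.Helper7.Simplex.Pair

set_option linter.all false

open MeasureTheory ProbabilityTheory Matrix Filter Topology
open scoped ENNReal NNReal

namespace Pool.Agent.Helper7.Simplex.OT

section aux
variable {d : ℕ} {ι : Type*} [Fintype ι]

theorem aux_trace (w : ι → Fin d → ℝ) (hI : ∑ i, vecMulVec (w i) (w i) = 1) :
    ∑ i, w i ⬝ᵥ w i = d := by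
  have h := congrArg Matrix.trace hI
  rw [Matrix.trace_sum, Matrix.trace_one, Fintype.card_fin] at h
  rw [← h]
  exact Finset.sum_congr rfl fun i _ => (Matrix.trace_vecMulVec _ _).symm

theorem aux_row (w : ι → Fin d → ℝ) (hI : ∑ i, vecMulVec (w i) (w i) = 1) (i : ι) :
    ∑ j, (w i ⬝ᵥ w j) ^ 2 = w i ⬝ᵥ w i := by
  have h : w i ⬝ᵥ ((∑ j, vecMulVec (w j) (w j)) *ᵥ w i) = w i ⬝ᵥ w i := by
    rw [hI, Matrix.one_mulVec]
  rw [← h, Matrix.sum_mulVec, dotProduct_sum]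
  refine Finset.sum_congr rfl fun j _ => ?_
  rw [Matrix.vecMulVec_mulVec]
  simp only [dotProduct_smul, MulOpposite.smul_eq_mul_unop, MulOpposite.unop_op]
  rw [dotProduct_comm (w j) (w i), sq]

theorem aux_cs (w : ι → Fin d → ℝ) (i j : ι) :
    (w i ⬝ᵥ w j) ^ 2 ≤ (w i ⬝ᵥ w i) * (w j ⬝ᵥ w j) := by
  have h := Finset.sum_mul_sq_le_sq_mul_sq Finset.univ (w i) (w j)
  simpa only [dotProduct, sq] using h

end aux

/-- the averaged row inequality -/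
theorem demand_of_row {d : ℕ} {ι : Type*} [Fintype ι] (w : ι → Fin d → ℝ) (lam : ℝ)
    (hI : ∑ i, vecMulVec (w i) (w i) = 1) (hcpos : ∀ i, 0 < w i ⬝ᵥ w i) (f : ι → ℝ)
    (hrow : ∀ (p : ι → ℝ), (∀ i, 0 ≤ p i) → (∀ i, p i ≤ 1) → ∑ i, (w i ⬝ᵥ w i) * p i = 1 →
      ∑ i, p i * f i ≤ lam * ∑ i, (w i ⬝ᵥ w i) * p i * (1 - p i)) :
    ∑ i, f i ≤ lam * ∑ i, ∑ j, (w i ⬝ᵥ w j) ^ 2 *
        (1 - (w i ⬝ᵥ w j) ^ 2 / ((w i ⬝ᵥ w i) * (w j ⬝ᵥ w j))) := by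
  classical
  set c : ι → ℝ := fun i => w i ⬝ᵥ w i with hcdef
  set p : ι → ι → ℝ := fun i j => (w i ⬝ᵥ w j) ^ 2 / (c i * c j) with hpdef
  have hcp : ∀ i, 0 < c i := hcpos
  have hp0 : ∀ i j, 0 ≤ p i j := fun i j =>
    div_nonneg (sq_nonneg _) (mul_pos (hcp i) (hcp j)).le
  have hp1 : ∀ i j, p i j ≤ 1 := fun i j => by
    rw [hpdef]
    simp only
    rw [div_le_one (mul_pos (hcp i) (hcp j))]
    exact aux_cs w i j
  have hcc : ∀ i j, c i * (c j * p i j) = (w i ⬝ᵥ w j) ^ 2 := fun i j => by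
    rw [hpdef]
    have h1 := (hcp i).ne'
    have h2 := (hcp j).ne'
    field_simp
  have hsum : ∀ i, ∑ j, c j * p i j = 1 := fun i => by
    have h1 : c i * ∑ j, c j * p i j = c i * 1 := by
      rw [Finset.mul_sum, Finset.sum_congr rfl (fun j _ => hcc i j), mul_one]
      exact aux_row w hI i
    exact mul_left_cancel₀ (hcp i).ne' h1
  have hsymm : ∀ i j, p i j = p j i := fun i j => by
    simp only [hpdef]
    rw [dotProduct_comm (w i) (w j), mul_comm (c i) (c j)]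
  have hr : ∀ i, ∑ j, p i j * f j ≤ lam * ∑ j, c j * p i j * (1 - p i j) := fun i =>
    hrow (p i) (hp0 i) (hp1 i) (hsum i)
  have hL : ∑ i, c i * ∑ j, p i j * f j = ∑ j, f j := by
    simp only [Finset.mul_sum]
    rw [Finset.sum_comm]
    refine Finset.sum_congr rfl (fun j _ => ?_)
    have e : ∑ i, c i * (p i j * f j) = (∑ i, c i * p j i) * f j := by
      rw [Finset.sum_mul]
      refine Finset.sum_congr rfl (fun i _ => ?_)
      rw [hsymm i j]; ring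
    rw [e, hsum j, one_mul]
  have hR : ∑ i, c i * (lam * ∑ j, c j * p i j * (1 - p i j)) =
      lam * ∑ i, ∑ j, (w i ⬝ᵥ w j) ^ 2 * (1 - p i j) := by
    rw [Finset.mul_sum]
    refine Finset.sum_congr rfl (fun i _ => ?_)
    have e : ∑ j, (w i ⬝ᵥ w j) ^ 2 * (1 - p i j) = c i * ∑ j, c j * p i j * (1 - p i j) := by
      rw [Finset.mul_sum]
      refine Finset.sum_congr rfl (fun j _ => ?_)
      rw [← hcc i j]; ring
    rw [e]; ring
  have hfin : ∑ i, c i * ∑ j, p i j * f j ≤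
      ∑ i, c i * (lam * ∑ j, c j * p i j * (1 - p i j)) :=
    Finset.sum_le_sum (fun i _ => mul_le_mul_of_nonneg_left (hr i) (hcp i).le)
  rw [hL, hR] at hfin
  exact hfin

/-- the row inequality, `b ≥ 3` -/
theorem row3 {ι : Type} [Fintype ι] (b : ℕ) (hb : 3 ≤ b) (c : ι → ℝ)
    (hc : ∀ i, 1 / (b : ℝ) ≤ c i) (hc' : ∀ i, c i ≤ 1 / ((b : ℝ) - 1)) (p : ι → ℝ)
    (hp0 : ∀ i, 0 ≤ p i) (hp1 : ∀ i, p i ≤ 1) (hp : ∑ i, c i * p i = 1) :
    ∑ i, p i * (-(c i * Real.log (c i)) - Ab b - Bb b * c i) ≤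
      0.2622 * ∑ i, c i * p i * (1 - p i) := by
  obtain ⟨a, ha0, ha1, haA, hset⟩ := J7616.D_set b hb
  have hb0 : (0 : ℝ) < b := by
    have : 0 < b := by omega
    exact_mod_cast this
  have hcpos : ∀ i, 0 < c i := fun i => lt_of_lt_of_le (by positivity) (hc i)
  have h1 := J7617.D_bern (Ab b) a c (fun i => -(c i * Real.log (c i)) - Ab b - Bb b * c i)
    (fun Y => hset Y c (fun i _ => hc i) (fun i _ => hc' i)) p hp0 hp1 hp
  have h2 : (1 / (b : ℝ)) * ∑ j, c j * p j * (1 - p j) ≤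
      ∑ j, (c j) ^ 2 * p j * (1 - p j) := by
    rw [Finset.mul_sum]
    refine Finset.sum_le_sum fun j _ => ?_
    have h3 : 0 ≤ c j * (p j * (1 - p j)) :=
      mul_nonneg (hcpos j).le (mul_nonneg (hp0 j) (sub_nonneg.2 (hp1 j)))
    have h4 := mul_le_mul_of_nonneg_right (hc j) h3
    calc 1 / (b : ℝ) * (c j * p j * (1 - p j)) = 1 / (b : ℝ) * (c j * (p j * (1 - p j))) := by ring
      _ ≤ c j * (c j * (p j * (1 - p j))) := h4
      _ = _ := by ring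
  have h5 : 0 ≤ ∑ j, c j * p j * (1 - p j) :=
    Finset.sum_nonneg fun j _ => mul_nonneg (mul_nonneg (hcpos j).le (hp0 j))
      (sub_nonneg.2 (hp1 j))
  have h6 := mul_le_mul_of_nonneg_left h2 ha0
  have h7 := mul_le_mul_of_nonneg_right haA h5
  have h8 : (Ab b - a / b) * ∑ j, c j * p j * (1 - p j) =
      Ab b * ∑ j, c j * p j * (1 - p j) -
        a * (1 / (b : ℝ) * ∑ j, c j * p j * (1 - p j)) := by ring
  linarith

theorem iso3 {d m : ℕ} (w : Fin m → Fin d → ℝ)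
    (hI : ∑ i, vecMulVec (w i) (w i) = 1) (b : ℕ) (hb : 3 ≤ b)
    (hc : ∀ i, 1 / (b : ℝ) ≤ w i ⬝ᵥ w i) (hc' : ∀ i, w i ⬝ᵥ w i ≤ 1 / ((b : ℝ) - 1)) :
    volume {x : Fin d → ℝ | ∀ i, |w i ⬝ᵥ x| ≤ 1 / 2} ≤
      ENNReal.ofReal (Real.exp ((m * Ab b + d * Bb b) / 2)) := by
  have hb0 : (0 : ℝ) < b := by
    have : 0 < b := by omega
    exact_mod_cast this
  have hc0 : ∀ i, 0 < w i ⬝ᵥ w i := fun i => lt_of_lt_of_le (by positivity) (hc i)
  refine (BR w hI hc0).trans (ENNReal.ofReal_le_ofReal (Real.exp_le_exp.mpr ?_))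
  have hd := demand_of_row w 0.2622 hI hc0
    (fun i => -((w i ⬝ᵥ w i) * Real.log (w i ⬝ᵥ w i)) - Ab b - Bb b * (w i ⬝ᵥ w i))
    (fun p h1 h2 h3 => row3 b hb (fun i => w i ⬝ᵥ w i) hc hc' p h1 h2 h3)
  have hs : 0.2622 * ∑ i, ∑ j, (w i ⬝ᵥ w j) ^ 2 *
        (1 - (w i ⬝ᵥ w j) ^ 2 / ((w i ⬝ᵥ w i) * (w j ⬝ᵥ w j))) ≤
      ∑ i, ∑ j, (w i ⬝ᵥ w j) ^ 2 *
        ∫ y, KK (tt w i y - tt w j y) ∂(Measure.pi (fun _ : Fin d => gaussianReal 0 1)) := by
    rw [Finset.mul_sum]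
    refine Finset.sum_le_sum fun i _ => ?_
    rw [Finset.mul_sum]
    refine Finset.sum_le_sum fun j _ => ?_
    have h := J24724.pair_cube w i j (hc0 i) (hc0 j)
      (fun a b ha hb => J7436.P_law a b ha hb) J24723.KK_UV
    have h2 := mul_le_mul_of_nonneg_left h (sq_nonneg (w i ⬝ᵥ w j))
    linarith
  have he : ∑ i, (-((w i ⬝ᵥ w i) * Real.log (w i ⬝ᵥ w i)) - Ab b - Bb b * (w i ⬝ᵥ w i)) =
      -∑ i, ((w i ⬝ᵥ w i) * Real.log (w i ⬝ᵥ w i)) - m * Ab b - d * Bb b := by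
    rw [Finset.sum_sub_distrib, Finset.sum_sub_distrib, Finset.sum_neg_distrib,
      ← Finset.mul_sum, aux_trace w hI]
    simp
    ring
  rw [he] at hd
  linarith

end Pool.Agent.Helper7.Simplex.OT
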