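import Pool.Agent.Helper7.OT.Two

set_option linter.all false

open MeasureTheory ProbabilityTheory Matrix Filter Topology
open scoped ENNReal NNReal

namespace Pool.Agent.Helper7.Simplex.OT

theorem iso2 {d m : ℕ} (w : Fin m → Fin d → ℝ)
    (hI : ∑ i, vecMulVec (w i) (w i) = 1) (hc : ∀ i, 1 / ((2 : ℕ) : ℝ) ≤ w i ⬝ᵥ w i) :
    volume {x : Fin d → ℝ | ∀ i, |w i ⬝ᵥ x| ≤ 1 / 2} ≤
      ENNReal.ofReal (Real.exp ((m * Ab 2 + d * Bb 2) / 2)) := by
  obtain ⟨r, v, hm, hv, hG, hO⟩ := J26900.naimark w hI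
  refine (iso2_aux hm w v hI hv hG hO (J26901.section_fourier hm w v hI hv hG hO) (fun i => ?_)).trans
    (le_of_eq ?_)
  · have := hc i
    push_cast at this
    exact this
  · congr 1
    have hA : Ab 2 = Real.log 2 := by
      unfold Ab; norm_num
    have hB : Bb 2 = -Real.log 2 := by
      unfold Bb; norm_num
    have hmr : (m : ℝ) = d + r := by rw [← hm]; push_cast; ring
    have e : ((m : ℝ) * Real.log 2 + d * -Real.log 2) / 2 = (r : ℝ) * (Real.log 2 / 2) := by
      rw [hmr]; ring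
    have h2 : Real.exp (Real.log 2 / 2) = √2 := by
      rw [← Real.log_sqrt (by norm_num : (0:ℝ) ≤ 2), Real.exp_log (by positivity)]
    rw [hA, hB, e, Real.exp_nat_mul, h2]

end Pool.Agent.Helper7.Simplex.OT
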