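import Pool.Agent.Helper7.OT.Defs

set_option linter.all false

open MeasureTheory ProbabilityTheory Matrix Filter Topology
open scoped ENNReal NNReal

namespace Pool.Agent.Helper7.Simplex.OT

namespace J26884

open FourierTransform in
theorem sinc_fourier_aux1 (t : ℝ) :
    𝓕 (fun x : ℝ => ((max 0 (1 - |x|) : ℝ) : ℂ)) t = ((Real.sinc (Real.pi * t) ^ 2 : ℝ) : ℂ) := by
  set a : ℂ := -(2 * Real.pi * t * Complex.I) with ha
  have h1 : 𝓕 (fun x : ℝ => ((max 0 (1 - |x|) : ℝ) : ℂ)) t =
      ∫ x : ℝ, ((max 0 (1 - |x|) : ℝ) : ℂ) * Complex.exp (a * x) := by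
    rw [Real.fourier_real_eq_integral_exp_smul]
    congr 1
    funext x
    rw [smul_eq_mul, mul_comm]
    congr 2
    rw [ha]; push_cast; ring
  have hsupp : ∀ x : ℝ, x ∉ Set.Ioc (-1 : ℝ) 1 →
      ((max 0 (1 - |x|) : ℝ) : ℂ) * Complex.exp (a * x) = 0 := by
    intro x hx
    have h2 : max 0 (1 - |x|) = 0 := by
      apply max_eq_left
      by_contra hcon
      push Not at hcon
      have h3 : |x| < 1 := by linarith
      rw [abs_lt] at h3
      exact hx ⟨h3.1, h3.2.le⟩
    rw [h2]; simp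
  have h2 : ∫ x : ℝ, ((max 0 (1 - |x|) : ℝ) : ℂ) * Complex.exp (a * x) =
      ∫ x in (-1 : ℝ)..1, ((max 0 (1 - |x|) : ℝ) : ℂ) * Complex.exp (a * x) := by
    rw [intervalIntegral.integral_of_le (by norm_num)]
    exact (setIntegral_eq_integral_of_forall_compl_eq_zero hsupp).symm
  have hcont : Continuous (fun x : ℝ => ((max 0 (1 - |x|) : ℝ) : ℂ) * Complex.exp (a * x)) := by
    fun_prop
  have h3 : ∫ x in (-1 : ℝ)..1, ((max 0 (1 - |x|) : ℝ) : ℂ) * Complex.exp (a * x) =
      (∫ x in (-1 : ℝ)..0, (1 + (x : ℂ)) * Complex.exp (a * x)) +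
        ∫ x in (0 : ℝ)..1, (1 - (x : ℂ)) * Complex.exp (a * x) := by
    rw [← intervalIntegral.integral_add_adjacent_intervals (b := 0)
      (hcont.intervalIntegrable _ _) (hcont.intervalIntegrable _ _)]
    congr 1
    · apply intervalIntegral.integral_congr
      intro x hx
      rw [Set.uIcc_of_le (by norm_num)] at hx
      simp only
      rw [abs_of_nonpos hx.2, max_eq_right (by linarith [hx.1])]
      push_cast; ring
    · apply intervalIntegral.integral_congr
      intro x hx
      rw [Set.uIcc_of_le (by norm_num)] at hx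
      simp only
      rw [abs_of_nonneg hx.1, max_eq_right (by linarith [hx.2])]
      push_cast; ring
  rw [h1, h2, h3]
  by_cases ht : t = 0
  · have ha0 : a = 0 := by rw [ha, ht]; simp
    rw [ha0, ht]
    simp only [zero_mul, Complex.exp_zero, mul_one, mul_zero, Real.sinc_zero, one_pow]
    have e1 : ∫ x in (-1 : ℝ)..0, (1 + (x : ℂ)) = 1 / 2 := by
      have : ∀ x : ℝ, HasDerivAt (fun x : ℝ => (x : ℂ) + (x : ℂ) ^ 2 / 2) (1 + (x : ℂ)) x := by
        intro x
        have hx : HasDerivAt (fun x : ℝ => (x : ℂ)) 1 x := Complex.ofRealCLM.hasDerivAt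
        have h4 := hx.add ((hx.pow 2).div_const 2)
        have h5 : (1 : ℂ) + (x : ℂ) = 1 + ((2 : ℕ) : ℂ) * (x : ℂ) ^ (2 - 1) * 1 / 2 := by
          norm_num
        rw [h5]
        exact h4
      rw [intervalIntegral.integral_eq_sub_of_hasDerivAt (fun x _ => this x)
        (Continuous.intervalIntegrable (by fun_prop) _ _)]
      push_cast; norm_num
    have e2 : ∫ x in (0 : ℝ)..1, (1 - (x : ℂ)) = 1 / 2 := by
      have : ∀ x : ℝ, HasDerivAt (fun x : ℝ => (x : ℂ) - (x : ℂ) ^ 2 / 2) (1 - (x : ℂ)) x := by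
        intro x
        have hx : HasDerivAt (fun x : ℝ => (x : ℂ)) 1 x := Complex.ofRealCLM.hasDerivAt
        have h4 := hx.sub ((hx.pow 2).div_const 2)
        have h5 : (1 : ℂ) - (x : ℂ) = 1 - ((2 : ℕ) : ℂ) * (x : ℂ) ^ (2 - 1) * 1 / 2 := by
          norm_num
        rw [h5]
        exact h4
      rw [intervalIntegral.integral_eq_sub_of_hasDerivAt (fun x _ => this x)
        (Continuous.intervalIntegrable (by fun_prop) _ _)]
      push_cast; norm_num
    rw [e1, e2]
    norm_num
  · have hpi : (Real.pi : ℂ) ≠ 0 := by exact_mod_cast Real.pi_ne_zero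
    have htc : (t : ℂ) ≠ 0 := by exact_mod_cast ht
    have ha0 : a ≠ 0 := by
      rw [ha]
      simp [hpi, htc, Complex.I_ne_zero]
    have hexp : ∀ x : ℝ, HasDerivAt (fun x : ℝ => Complex.exp (a * x))
        (Complex.exp (a * x) * a) x := by
      intro x
      have hx : HasDerivAt (fun x : ℝ => (x : ℂ)) 1 x := Complex.ofRealCLM.hasDerivAt
      have := (hx.const_mul a).cexp
      rw [mul_one] at this
      exact this
    have e1 : ∫ x in (-1 : ℝ)..0, (1 + (x : ℂ)) * Complex.exp (a * x) =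
        1 / a - 1 / a ^ 2 + Complex.exp (-a) / a ^ 2 := by
      have : ∀ x : ℝ, HasDerivAt (fun x : ℝ => (1 + (x : ℂ)) * Complex.exp (a * x) * (1 / a) -
          Complex.exp (a * x) * (1 / a ^ 2)) ((1 + (x : ℂ)) * Complex.exp (a * x)) x := by
        intro x
        have hx : HasDerivAt (fun x : ℝ => (x : ℂ)) 1 x := Complex.ofRealCLM.hasDerivAt
        have h4 := ((((hx.const_add 1).mul (hexp x)).mul_const (1 / a)).sub
          ((hexp x).mul_const (1 / a ^ 2)))
        have h5 : (1 + (x : ℂ)) * Complex.exp (a * x) =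
            (1 * Complex.exp (a * x) + (1 + (x : ℂ)) * (Complex.exp (a * x) * a)) * (1 / a) -
            Complex.exp (a * x) * a * (1 / a ^ 2) := by
          field_simp
          ring
        rw [h5]
        exact h4
      rw [intervalIntegral.integral_eq_sub_of_hasDerivAt (fun x _ => this x)
        (Continuous.intervalIntegrable (by fun_prop) _ _)]
      have h6 : a * ((-1 : ℝ) : ℂ) = -a := by push_cast; ring
      have h7 : a * ((0 : ℝ) : ℂ) = 0 := by push_cast; ring
      rw [h6, h7, Complex.exp_zero]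
      push_cast
      ring
    have e2 : ∫ x in (0 : ℝ)..1, (1 - (x : ℂ)) * Complex.exp (a * x) =
        Complex.exp a / a ^ 2 - 1 / a - 1 / a ^ 2 := by
      have : ∀ x : ℝ, HasDerivAt (fun x : ℝ => (1 - (x : ℂ)) * Complex.exp (a * x) * (1 / a) +
          Complex.exp (a * x) * (1 / a ^ 2)) ((1 - (x : ℂ)) * Complex.exp (a * x)) x := by
        intro x
        have hx : HasDerivAt (fun x : ℝ => (x : ℂ)) 1 x := Complex.ofRealCLM.hasDerivAt
        have h4 := ((((hx.const_sub 1).mul (hexp x)).mul_const (1 / a)).add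
          ((hexp x).mul_const (1 / a ^ 2)))
        have h5 : (1 - (x : ℂ)) * Complex.exp (a * x) =
            (-1 * Complex.exp (a * x) + (1 - (x : ℂ)) * (Complex.exp (a * x) * a)) * (1 / a) +
            Complex.exp (a * x) * a * (1 / a ^ 2) := by
          field_simp
          ring
        rw [h5]
        exact h4
      rw [intervalIntegral.integral_eq_sub_of_hasDerivAt (fun x _ => this x)
        (Continuous.intervalIntegrable (by fun_prop) _ _)]
      have h6 : a * ((1 : ℝ) : ℂ) = a := by push_cast; ring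
      have h7 : a * ((0 : ℝ) : ℂ) = 0 := by push_cast; ring
      rw [h6, h7, Complex.exp_zero]
      push_cast
      ring
    rw [e1, e2, Real.sinc_of_ne_zero (mul_ne_zero Real.pi_ne_zero ht)]
    have hcos : Complex.exp a + Complex.exp (-a) = 2 * Complex.cos (2 * (Real.pi * t)) := by
      rw [Complex.cos, ha]
      have : -(2 * (Real.pi * t)) * Complex.I = -(2 * Real.pi * t * Complex.I) := by ring
      rw [this]
      have h8 : 2 * ((Real.pi : ℂ) * t) * Complex.I = - -(2 * Real.pi * t * Complex.I) := by ring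
      rw [h8]
      ring
    have hcos2 : Complex.cos (2 * (Real.pi * t)) = 1 - 2 * Complex.sin (Real.pi * t) ^ 2 := by
      rw [Complex.cos_two_mul]
      have := Complex.sin_sq_add_cos_sq ((Real.pi : ℂ) * t)
      linear_combination 2 * this
    have ha2 : a ^ 2 = -(4 * (Real.pi * t) ^ 2) := by
      rw [ha]
      have := Complex.I_sq
      linear_combination (4 * (Real.pi : ℂ) ^ 2 * (t : ℂ) ^ 2) * this
    have h9 : 1 / a - 1 / a ^ 2 + Complex.exp (-a) / a ^ 2 +
        (Complex.exp a / a ^ 2 - 1 / a - 1 / a ^ 2) =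
        (Complex.exp a + Complex.exp (-a) - 2) / a ^ 2 := by ring
    rw [h9, hcos, hcos2, ha2]
    push_cast
    field_simp
    ring

theorem sinc_fourier_int : Integrable (fun t : ℝ => Real.sinc (Real.pi * t) ^ 2) := by
  have hcont : Continuous (fun t : ℝ => Real.sinc (Real.pi * t) ^ 2) := by
    have := Real.continuous_sinc
    fun_prop
  have hdom : Integrable (fun t : ℝ => 2 * (1 + t ^ 2)⁻¹) := integrable_inv_one_add_sq.const_mul 2
  refine hdom.mono' hcont.aestronglyMeasurable (Filter.Eventually.of_forall fun t => ?_)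
  rw [Real.norm_eq_abs, abs_of_nonneg (sq_nonneg _)]
  have h1 : Real.sinc (Real.pi * t) ^ 2 ≤ 1 := by
    have := Real.abs_sinc_le_one (Real.pi * t)
    rw [← sq_abs]
    nlinarith [abs_nonneg (Real.sinc (Real.pi * t))]
  have h2 : Real.sinc (Real.pi * t) ^ 2 * t ^ 2 ≤ 1 := by
    by_cases ht : t = 0
    · rw [ht]; norm_num
    · rw [Real.sinc_of_ne_zero (mul_ne_zero Real.pi_ne_zero ht)]
      have h3 : (Real.sin (Real.pi * t) / (Real.pi * t)) ^ 2 * t ^ 2 =
          Real.sin (Real.pi * t) ^ 2 / Real.pi ^ 2 := by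
        have := Real.pi_ne_zero
        field_simp
      rw [h3, div_le_one (by positivity)]
      have h4 := Real.sin_sq_le_one (Real.pi * t)
      have h5 := Real.pi_gt_three
      nlinarith
  rw [← div_eq_mul_inv, le_div_iff₀ (by positivity)]
  nlinarith

open FourierTransform in
/-- the Fourier transform of `sinc²` is the triangle function -/
theorem sinc_fourier (x : ℝ) : Integrable (fun t : ℝ => Real.sinc (Real.pi * t) ^ 2) ∧
    ∫ t : ℝ, Real.sinc (Real.pi * t) ^ 2 * Real.cos (2 * Real.pi * x * t) = max 0 (1 - |x|) := by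
  refine ⟨sinc_fourier_int, ?_⟩
  have hc : Continuous (fun x : ℝ => ((max 0 (1 - |x|) : ℝ) : ℂ)) := by fun_prop
  have hcs : HasCompactSupport (fun x : ℝ => ((max 0 (1 - |x|) : ℝ) : ℂ)) := by
    apply HasCompactSupport.of_support_subset_isCompact (K := Set.Icc (-1 : ℝ) 1) isCompact_Icc
    intro y hy
    by_contra hcon
    apply hy
    have h2 : max 0 (1 - |y|) = 0 := by
      apply max_eq_left
      by_contra hcon2
      push Not at hcon2
      have h3 : |y| < 1 := by linarith
      rw [abs_lt] at h3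
      exact hcon ⟨h3.1.le, h3.2.le⟩
    simp only
    rw [h2]; simp
  have hi : Integrable (fun x : ℝ => ((max 0 (1 - |x|) : ℝ) : ℂ)) :=
    hc.integrable_of_hasCompactSupport hcs
  have hF : 𝓕 (fun x : ℝ => ((max 0 (1 - |x|) : ℝ) : ℂ)) =
      fun t => ((Real.sinc (Real.pi * t) ^ 2 : ℝ) : ℂ) := by
    funext t; exact sinc_fourier_aux1 t
  have hFi : Integrable (𝓕 (fun x : ℝ => ((max 0 (1 - |x|) : ℝ) : ℂ))) := by
    rw [hF]
    exact sinc_fourier_int.ofReal
  have hinv := hc.fourierInv_fourier_eq hi hFi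
  have hx := congrFun hinv x
  rw [hF, Real.fourierInv_eq'] at hx
  have hre := congrArg Complex.re hx
  rw [Complex.ofReal_re] at hre
  rw [← hre]
  have hInt : Integrable (fun v : ℝ => Complex.exp (((2 * Real.pi * inner ℝ v x : ℝ) : ℂ) * Complex.I) •
      ((Real.sinc (Real.pi * v) ^ 2 : ℝ) : ℂ)) := by
    have h0 : Continuous (fun v : ℝ => Complex.exp (((2 * Real.pi * inner ℝ v x : ℝ) : ℂ) *
      Complex.I)) := by fun_prop
    refine (sinc_fourier_int.ofReal (𝕜 := ℂ)).bdd_smul 1 h0.aestronglyMeasurable ?_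
    refine Filter.Eventually.of_forall fun v => ?_
    rw [Complex.norm_exp_ofReal_mul_I]
  have h4 := (Complex.reCLM.integral_comp_comm hInt)
  have h5 : (∫ v : ℝ, Complex.exp (((2 * Real.pi * inner ℝ v x : ℝ) : ℂ) * Complex.I) •
      ((Real.sinc (Real.pi * v) ^ 2 : ℝ) : ℂ)).re = ∫ v : ℝ, Complex.reCLM (Complex.exp
        (((2 * Real.pi * inner ℝ v x : ℝ) : ℂ) * Complex.I) •
      ((Real.sinc (Real.pi * v) ^ 2 : ℝ) : ℂ)) := h4.symm
  refine Eq.trans ?_ h5.symm
  congr 1
  funext v
  rw [Complex.reCLM_apply, smul_eq_mul, Complex.re_mul_ofReal, Complex.exp_ofReal_mul_I_re]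
  have h6 : (inner ℝ v x : ℝ) = x * v := by
    simp
  rw [h6, mul_comm]
  congr 2
  ring

end J26884

namespace J26889

theorem sinc_moments_swap
    (hF : ∀ x : ℝ, Integrable (fun t : ℝ => Real.sinc (Real.pi * t) ^ 2) ∧
      ∫ t : ℝ, Real.sinc (Real.pi * t) ^ 2 * Real.cos (2 * Real.pi * x * t) = max 0 (1 - |x|))
    (w : ℝ → ℝ) (hw : Continuous w) (a b : ℝ) (hab : a ≤ b) :
    ∫ t : ℝ, Real.sinc (Real.pi * t) ^ 2 * (∫ x in a..b, w x * Real.cos (2 * Real.pi * x * t)) =
      ∫ x in a..b, w x * max 0 (1 - |x|) := by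
  simp only [intervalIntegral.integral_of_le hab, ← integral_const_mul]
  have hS : Integrable (fun t : ℝ => Real.sinc (Real.pi * t) ^ 2) := (hF 0).1
  have hwI : Integrable w (volume.restrict (Set.Ioc a b)) :=
    (hw.integrableOn_Icc (a := a) (b := b)).mono_set Set.Ioc_subset_Icc_self
  have hprod := hS.mul_prod hwI
  have hcont : Continuous (fun z : ℝ × ℝ =>
      Real.sinc (Real.pi * z.1) ^ 2 * (w z.2 * Real.cos (2 * Real.pi * z.2 * z.1))) := by
    have h1 : Continuous (fun z : ℝ × ℝ => Real.sinc (Real.pi * z.1)) :=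
      Real.continuous_sinc.comp (continuous_const.mul continuous_fst)
    exact (h1.pow 2).mul ((hw.comp continuous_snd).mul (by fun_prop))
  have hint : Integrable (Function.uncurry (fun t x : ℝ =>
      Real.sinc (Real.pi * t) ^ 2 * (w x * Real.cos (2 * Real.pi * x * t))))
      (volume.prod (volume.restrict (Set.Ioc a b))) := by
    refine hprod.mono (hcont.aestronglyMeasurable) (Filter.Eventually.of_forall ?_)
    rintro ⟨t, x⟩
    simp only [Function.uncurry_apply_pair, norm_mul]
    have : ‖Real.cos (2 * Real.pi * x * t)‖ ≤ 1 := Real.abs_cos_le_one _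
    calc ‖Real.sinc (Real.pi * t) ^ 2‖ * (‖w x‖ * ‖Real.cos (2 * Real.pi * x * t)‖)
        ≤ ‖Real.sinc (Real.pi * t) ^ 2‖ * (‖w x‖ * 1) := by gcongr
      _ = ‖Real.sinc (Real.pi * t) ^ 2‖ * ‖w x‖ := by rw [mul_one]
  rw [integral_integral_swap hint]
  refine integral_congr_ae (Filter.Eventually.of_forall fun x => ?_)
  simp only
  rw [← (hF x).2, ← integral_const_mul]
  refine integral_congr_ae (Filter.Eventually.of_forall fun t => ?_)
  simp only
  ring

theorem sinc_moments_one (t : ℝ) :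
    ∫ x in (-(1/2) : ℝ)..(1/2), (1:ℝ) * Real.cos (2 * Real.pi * x * t) =
      Real.sinc (Real.pi * t) := by
  by_cases ht : t = 0
  · subst ht
    simp
    norm_num
  · have hpt : Real.pi * t ≠ 0 := mul_ne_zero Real.pi_ne_zero ht
    rw [Real.sinc_of_ne_zero hpt]
    have hd : ∀ x ∈ Set.uIcc (-(1/2) : ℝ) (1/2),
        HasDerivAt (fun x => Real.sin (2 * Real.pi * x * t) / (2 * Real.pi * t))
          (1 * Real.cos (2 * Real.pi * x * t)) x := by
      intro x _
      have h1 : HasDerivAt (fun x : ℝ => 2 * Real.pi * x * t) (2 * Real.pi * t) x := by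
        have := ((hasDerivAt_id x).const_mul (2 * Real.pi)).mul_const t
        simpa using this
      have h2 := (h1.sin).div_const (2 * Real.pi * t)
      refine h2.congr_deriv ?_
      have hne : 2 * Real.pi * t ≠ 0 := by
        rw [mul_assoc]; exact mul_ne_zero two_ne_zero hpt
      rw [one_mul, mul_div_assoc, div_self hne, mul_one]
    rw [intervalIntegral.integral_eq_sub_of_hasDerivAt hd
      (Continuous.intervalIntegrable (by fun_prop) _ _)]
    have e1 : 2 * Real.pi * (1 / 2) * t = Real.pi * t := by ring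
    have e2 : 2 * Real.pi * (-(1 / 2)) * t = -(Real.pi * t) := by ring
    rw [e1, e2, Real.sin_neg]
    field_simp
    ring

theorem sinc_moments_two (t : ℝ) :
    ∫ x in (-1 : ℝ)..1, (1 - |x|) * Real.cos (2 * Real.pi * x * t) =
      Real.sinc (Real.pi * t) ^ 2 := by
  have hci : ∀ a b : ℝ, IntervalIntegrable
      (fun x => (1 - |x|) * Real.cos (2 * Real.pi * x * t)) volume a b :=
    fun a b => Continuous.intervalIntegrable (by fun_prop) _ _
  have hsplit := intervalIntegral.integral_add_adjacent_intervals (hci (-1) 0) (hci 0 1)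
  have hpos : ∫ x in (0 : ℝ)..1, (1 - |x|) * Real.cos (2 * Real.pi * x * t) =
      ∫ x in (0 : ℝ)..1, (1 - x) * Real.cos (2 * Real.pi * x * t) := by
    refine intervalIntegral.integral_congr fun x hx => ?_
    rw [Set.uIcc_of_le zero_le_one] at hx
    simp only [abs_of_nonneg hx.1]
  have hneg : ∫ x in (-1 : ℝ)..0, (1 - |x|) * Real.cos (2 * Real.pi * x * t) =
      ∫ x in (0 : ℝ)..1, (1 - x) * Real.cos (2 * Real.pi * x * t) := by
    rw [← hpos]
    have := intervalIntegral.integral_comp_neg (a := (0:ℝ)) (b := 1)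
      (fun x => (1 - |x|) * Real.cos (2 * Real.pi * x * t))
    rw [neg_zero] at this
    rw [← this]
    refine intervalIntegral.integral_congr fun x _ => ?_
    simp only [abs_neg]
    congr 1
    rw [← Real.cos_neg]
    congr 1
    ring
  rw [← hsplit, hpos, hneg]
  by_cases ht : t = 0
  · subst ht
    simp only [mul_zero, Real.cos_zero, mul_one, Real.sinc_zero, one_pow]
    rw [intervalIntegral.integral_sub intervalIntegrable_const
      (Continuous.intervalIntegrable continuous_id' _ _)]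
    simp
    norm_num
  · have hpt : Real.pi * t ≠ 0 := mul_ne_zero Real.pi_ne_zero ht
    rw [Real.sinc_of_ne_zero hpt]
    set c : ℝ := 2 * Real.pi * t with hc
    have hc0 : c ≠ 0 := by
      rw [hc, mul_assoc]
      exact mul_ne_zero two_ne_zero hpt
    have hd : ∀ x ∈ Set.uIcc (0 : ℝ) 1,
        HasDerivAt (fun x => (1 - x) * Real.sin (c * x) / c - Real.cos (c * x) / c ^ 2)
          ((1 - x) * Real.cos (2 * Real.pi * x * t)) x := by
      intro x _
      have h1 : HasDerivAt (fun x : ℝ => c * x) c x := by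
        simpa using (hasDerivAt_id x).const_mul c
      have h0 : HasDerivAt (fun x : ℝ => 1 - x) (-1) x := by
        simpa using (hasDerivAt_id x).const_sub 1
      have h2 := ((h0.mul h1.sin).div_const c).sub ((h1.cos).div_const (c ^ 2))
      refine h2.congr_deriv ?_
      have e : 2 * Real.pi * x * t = c * x := by rw [hc]; ring
      rw [e]
      field_simp
      ring
    rw [intervalIntegral.integral_eq_sub_of_hasDerivAt hd
      (Continuous.intervalIntegrable (by fun_prop) _ _)]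
    have e3 : c * 1 = 2 * (Real.pi * t) := by rw [hc]; ring
    have e4 : c = 2 * (Real.pi * t) := by rw [hc]; ring
    rw [e3, Real.cos_two_mul, Real.cos_sq', mul_zero, Real.cos_zero, Real.sin_zero, e4]
    field_simp
    ring

theorem sinc_moments
    (hF : ∀ x : ℝ, Integrable (fun t : ℝ => Real.sinc (Real.pi * t) ^ 2) ∧
      ∫ t : ℝ, Real.sinc (Real.pi * t) ^ 2 * Real.cos (2 * Real.pi * x * t) = max 0 (1 - |x|)) :
    (∫ t : ℝ, Real.sinc (Real.pi * t) ^ 2 = 1) ∧ (∫ t : ℝ, Real.sinc (Real.pi * t) ^ 3 = 3 / 4) ∧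
      (∫ t : ℝ, Real.sinc (Real.pi * t) ^ 4 = 2 / 3) := by
  have hint1 : ∫ x in (-(1/2) : ℝ)..(1/2), (1:ℝ) * max 0 (1 - |x|) = 3 / 4 := by
    have hci : ∀ a b : ℝ, IntervalIntegrable (fun x : ℝ => (1:ℝ) * max 0 (1 - |x|)) volume a b :=
      fun a b => Continuous.intervalIntegrable (by fun_prop) _ _
    rw [← intervalIntegral.integral_add_adjacent_intervals (hci (-(1/2)) 0) (hci 0 (1/2))]
    have h1 : ∫ x in (-(1/2) : ℝ)..0, (1:ℝ) * max 0 (1 - |x|) = ∫ x in (-(1/2) : ℝ)..0, (1 + x) := by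
      refine intervalIntegral.integral_congr fun x hx => ?_
      rw [Set.uIcc_of_le (by norm_num)] at hx
      simp only [one_mul]
      rw [abs_of_nonpos hx.2, max_eq_right (by linarith [hx.1])]
      ring
    have h2 : ∫ x in (0:ℝ)..(1/2), (1:ℝ) * max 0 (1 - |x|) = ∫ x in (0:ℝ)..(1/2), (1 - x) := by
      refine intervalIntegral.integral_congr fun x hx => ?_
      rw [Set.uIcc_of_le (by norm_num)] at hx
      simp only [one_mul]
      rw [abs_of_nonneg hx.1, max_eq_right (by linarith [hx.2])]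
    rw [h1, h2, intervalIntegral.integral_add intervalIntegrable_const
      (Continuous.intervalIntegrable continuous_id' _ _),
      intervalIntegral.integral_sub intervalIntegrable_const
      (Continuous.intervalIntegrable continuous_id' _ _)]
    simp
    norm_num
  have hint2 : ∫ x in (-1 : ℝ)..1, (1 - |x|) * max 0 (1 - |x|) = 2 / 3 := by
    have hci : ∀ a b : ℝ, IntervalIntegrable (fun x : ℝ => (1 - |x|) * max 0 (1 - |x|))
        volume a b :=
      fun a b => Continuous.intervalIntegrable (by fun_prop) _ _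
    rw [← intervalIntegral.integral_add_adjacent_intervals (hci (-1) 0) (hci 0 1)]
    have h1 : ∫ x in (-1 : ℝ)..0, (1 - |x|) * max 0 (1 - |x|) = 1 / 3 := by
      have : ∫ x in (-1 : ℝ)..0, (1 - |x|) * max 0 (1 - |x|) = ∫ x in (-1 : ℝ)..0, (x + 1) ^ 2 := by
        refine intervalIntegral.integral_congr fun x hx => ?_
        rw [Set.uIcc_of_le (by norm_num)] at hx
        show (1 - |x|) * max 0 (1 - |x|) = _
        rw [abs_of_nonpos hx.2, max_eq_right (by linarith [hx.1])]
        ring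
      rw [this, intervalIntegral.integral_comp_add_right (fun x => x ^ 2) 1, integral_pow]
      norm_num
    have h2 : ∫ x in (0:ℝ)..1, (1 - |x|) * max 0 (1 - |x|) = 1 / 3 := by
      have : ∫ x in (0:ℝ)..1, (1 - |x|) * max 0 (1 - |x|) = ∫ x in (0 : ℝ)..1, (1 - x) ^ 2 := by
        refine intervalIntegral.integral_congr fun x hx => ?_
        rw [Set.uIcc_of_le (by norm_num)] at hx
        show (1 - |x|) * max 0 (1 - |x|) = _
        rw [abs_of_nonneg hx.1, max_eq_right (by linarith [hx.2])]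
        ring
      rw [this, intervalIntegral.integral_comp_sub_left (fun x => x ^ 2) 1, integral_pow]
      norm_num
    rw [h1, h2]
    norm_num
  refine ⟨?_, ?_, ?_⟩
  · have := (hF 0).2
    simpa using this
  · rw [← hint1, ← sinc_moments_swap hF (fun _ => 1) continuous_const (-(1/2)) (1/2) (by norm_num)]
    refine integral_congr_ae (Filter.Eventually.of_forall fun t => ?_)
    simp only
    rw [sinc_moments_one]
    ring
  · rw [← hint2, ← sinc_moments_swap hF (fun x => 1 - |x|) (by fun_prop) (-1) 1 (by norm_num)]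
    refine integral_congr_ae (Filter.Eventually.of_forall fun t => ?_)
    simp only
    rw [sinc_moments_two]
    ring

end J26889

namespace J26891

theorem st_sin (u : ℝ) (h0 : 0 ≤ u) (h1 : u ≤ 1) : Real.sin (Real.pi * u) ≤ 4 * u * (1 - u) := by
  have key : ∀ v : ℝ, 0 ≤ v → v ≤ 1 / 2 → 2 * v ^ 2 ≤ Real.sin (Real.pi * v / 2) ^ 2 := by
    intro v hv0 hv1
    have hc := strictConcaveOn_sin_Icc.concaveOn
    have h2 := hc.2 (show (0 : ℝ) ∈ Set.Icc 0 Real.pi from ⟨le_rfl, Real.pi_pos.le⟩)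
      (show Real.pi / 4 ∈ Set.Icc 0 Real.pi from ⟨by positivity, by linarith [Real.pi_pos]⟩)
      (show 0 ≤ 1 - 2 * v by linarith) (show 0 ≤ 2 * v by linarith) (by ring)
    simp only [smul_eq_mul, Real.sin_zero, mul_zero, zero_add, Real.sin_pi_div_four] at h2
    have e : 2 * v * (Real.pi / 4) = Real.pi * v / 2 := by ring
    rw [e] at h2
    have h3 : √2 * v ≤ Real.sin (Real.pi * v / 2) := by linarith
    have h4 : (√2 * v) ^ 2 ≤ (Real.sin (Real.pi * v / 2)) ^ 2 :=
      pow_le_pow_left₀ (by positivity) h3 2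
    rwa [mul_pow, Real.sq_sqrt (by norm_num)] at h4
  have key2 : ∀ v : ℝ, |v| ≤ 1 / 2 → 2 * v ^ 2 ≤ Real.sin (Real.pi * v / 2) ^ 2 := by
    intro v hv
    rcases le_total 0 v with h | h
    · exact key v h ((le_abs_self v).trans hv)
    · have := key (-v) (by linarith) ((neg_le_abs v).trans hv)
      have e : Real.pi * (-v) / 2 = -(Real.pi * v / 2) := by ring
      rw [e, Real.sin_neg, neg_sq, neg_sq] at this
      exact this
  have h2 := key2 (u - 1 / 2) (by rw [abs_le]; constructor <;> linarith)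
  have e1 : Real.sin (Real.pi * u) = Real.cos (Real.pi * (u - 1 / 2)) := by
    rw [← Real.cos_sub_pi_div_two]
    congr 1
    ring
  have e3 := Real.cos_two_mul (Real.pi * (u - 1 / 2) / 2)
  have e4 : 2 * (Real.pi * (u - 1 / 2) / 2) = Real.pi * (u - 1 / 2) := by ring
  rw [e4] at e3
  have e5 := Real.sin_sq_add_cos_sq (Real.pi * (u - 1 / 2) / 2)
  rw [e1, e3]
  nlinarith

theorem st_A : ∫ t in (1 : ℝ)..2, (3 - t - 2 / t) ^ 3 = 183 / 4 - 66 * Real.log 2 := by
  have hd : ∀ t ∈ Set.uIcc (1 : ℝ) 2, HasDerivAt (fun t : ℝ => -(3 - t) ^ 4 / 4 - 66 * Real.log t +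
      36 * t - 3 * t ^ 2 - 36 * t⁻¹ + 4 * (t⁻¹) ^ 2) ((3 - t - 2 / t) ^ 3) t := by
    intro t ht
    rw [Set.uIcc_of_le (by norm_num)] at ht
    have ht0 : t ≠ 0 := by
      have := ht.1
      intro h
      linarith
    have d1 : HasDerivAt (fun t : ℝ => (3 - t) ^ 4) (4 * (3 - t) ^ 3 * (-1)) t := by
      exact (((hasDerivAt_id' t).const_sub 3).fun_pow 4).congr_deriv (by norm_num)
    have d2 := Real.hasDerivAt_log ht0
    have d3 : HasDerivAt (fun t : ℝ => t) 1 t := hasDerivAt_id t
    have d4 : HasDerivAt (fun t : ℝ => t ^ 2) (2 * t) t := by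
      exact ((hasDerivAt_id' t).fun_pow 2).congr_deriv (by norm_num)
    have d5 : HasDerivAt (fun t : ℝ => t⁻¹) (-(t ^ 2)⁻¹) t := hasDerivAt_inv ht0
    have d6 : HasDerivAt (fun t : ℝ => (t⁻¹) ^ 2) (2 * t⁻¹ * (-(t ^ 2)⁻¹)) t := by
      exact (d5.fun_pow 2).congr_deriv (by norm_num)
    have d7 := (((((d1.neg.div_const 4).sub (d2.const_mul 66)).add (d3.const_mul 36)).sub
      (d4.const_mul 3)).sub (d5.const_mul 36)).add (d6.const_mul 4)
    refine HasDerivAt.congr_deriv d7 ?_
    field_simp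
    ring
  rw [intervalIntegral.integral_eq_sub_of_hasDerivAt hd]
  · norm_num
    ring
  · apply ContinuousOn.intervalIntegrable
    intro t ht
    rw [Set.uIcc_of_le (by norm_num)] at ht
    have ht0 : t ≠ 0 := by
      have := ht.1
      intro h
      linarith
    apply ContinuousAt.continuousWithinAt
    exact ((continuousAt_const.sub continuousAt_id).sub
      (continuousAt_const.div continuousAt_id ht0)).pow 3

theorem st_B : ∫ t in Set.Ioi (3 : ℝ), t ^ (-3 : ℝ) = 1 / 18 := by
  rw [integral_Ioi_rpow_of_lt (by norm_num) (by norm_num)]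
  norm_num

theorem st_pos (t : ℝ) (ht : 0 < t) :
    Real.sinc (Real.pi * t) = Real.sin (Real.pi * t) / (Real.pi * t) :=
  Real.sinc_of_ne_zero (by positivity)

theorem st_zero (s : ℝ) (hs : 0 ≤ s) : |s| ^ 3 - s ^ 3 = 0 := by
  rw [abs_of_nonneg hs, sub_self]

theorem st_two (s : ℝ) : |s| ^ 3 - s ^ 3 ≤ 2 * |s| ^ 3 := by
  have := neg_abs_le (s ^ 3)
  rw [abs_pow] at this
  linarith

/-- majorant on `(1, 2]` -/
noncomputable def stg1 (t : ℝ) : ℝ := 128 / Real.pi ^ 3 * (3 - t - 2 / t) ^ 3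
/-- majorant on `(3, ∞)` -/
noncomputable def stg2 (t : ℝ) : ℝ := 2 / Real.pi ^ 3 * t ^ (-3 : ℝ)

theorem st_pt (t : ℝ) (ht : 0 < t) :
    |Real.sinc (Real.pi * t)| ^ 3 - Real.sinc (Real.pi * t) ^ 3 ≤
      (Set.Ioc (1 : ℝ) 2).indicator stg1 t + (Set.Ioi (3 : ℝ)).indicator stg2 t := by
  have hp := Real.pi_pos
  have hs := st_pos t ht
  rcases le_or_gt t 1 with h1 | h1
  · rw [Set.indicator_of_notMem (by intro h; exact absurd h.1 (not_lt.2 h1)),
      Set.indicator_of_notMem (by intro h; have := Set.mem_Ioi.1 h; linarith),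
      st_zero, add_zero]
    rw [hs]
    refine div_nonneg (Real.sin_nonneg_of_nonneg_of_le_pi (by positivity) ?_) (by positivity)
    nlinarith
  · rcases le_or_gt t 2 with h2 | h2
    · rw [Set.indicator_of_mem (show t ∈ Set.Ioc (1 : ℝ) 2 from ⟨h1, h2⟩),
        Set.indicator_of_notMem (by intro h; have := Set.mem_Ioi.1 h; linarith), add_zero]
      refine (st_two _).trans ?_
      have e1 : Real.sin (Real.pi * t) = - Real.sin (Real.pi * (t - 1)) := by
        rw [← Real.sin_add_pi]
        congr 1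
        ring
      have h3 := st_sin (t - 1) (by linarith) (by linarith)
      have h4 : 0 ≤ Real.sin (Real.pi * (t - 1)) := by
        refine Real.sin_nonneg_of_nonneg_of_le_pi (mul_nonneg hp.le (by linarith)) ?_
        nlinarith
      have h5 : |Real.sinc (Real.pi * t)| = Real.sin (Real.pi * (t - 1)) / (Real.pi * t) := by
        rw [hs, e1, abs_div, abs_neg, abs_of_nonneg h4, abs_of_pos (by positivity)]
      have h6 : |Real.sinc (Real.pi * t)| ≤ 4 / Real.pi * (3 - t - 2 / t) := by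
        rw [h5, div_le_iff₀ (by positivity)]
        refine h3.trans (le_of_eq ?_)
        field_simp
        ring
      have h7 : |Real.sinc (Real.pi * t)| ^ 3 ≤ (4 / Real.pi * (3 - t - 2 / t)) ^ 3 :=
        pow_le_pow_left₀ (abs_nonneg _) h6 3
      rw [stg1]
      calc 2 * |Real.sinc (Real.pi * t)| ^ 3 ≤ 2 * (4 / Real.pi * (3 - t - 2 / t)) ^ 3 := by
            linarith
        _ = 128 / Real.pi ^ 3 * (3 - t - 2 / t) ^ 3 := by
            rw [mul_pow, div_pow]
            ring
    · rcases le_or_gt t 3 with h3 | h3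
      · rw [Set.indicator_of_notMem (by intro h; exact absurd h.2 (not_le.2 h2)),
          Set.indicator_of_notMem (by intro h; have := Set.mem_Ioi.1 h; linarith),
          st_zero, add_zero]
        rw [hs]
        refine div_nonneg ?_ (by positivity)
        have e1 : Real.sin (Real.pi * t) = Real.sin (Real.pi * (t - 2)) := by
          rw [← Real.sin_add_two_pi (Real.pi * (t - 2))]
          congr 1
          ring
        rw [e1]
        refine Real.sin_nonneg_of_nonneg_of_le_pi (mul_nonneg hp.le (by linarith)) ?_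
        nlinarith
      · rw [Set.indicator_of_notMem (by intro h; exact absurd h.2 (not_le.2 h2)),
          Set.indicator_of_mem (show t ∈ Set.Ioi (3 : ℝ) from h3), zero_add]
        refine (st_two _).trans ?_
        have h5 : |Real.sinc (Real.pi * t)| ≤ 1 / (Real.pi * t) := by
          rw [hs, abs_div, abs_of_pos (show 0 < Real.pi * t by positivity)]
          exact div_le_div_of_nonneg_right (Real.abs_sin_le_one _) (by positivity)
        have h7 : |Real.sinc (Real.pi * t)| ^ 3 ≤ (1 / (Real.pi * t)) ^ 3 :=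
          pow_le_pow_left₀ (abs_nonneg _) h5 3
        rw [stg2]
        have h8 : t ^ (-3 : ℝ) = (t ^ 3)⁻¹ := by
          rw [Real.rpow_neg ht.le]
          norm_num
        rw [h8]
        calc 2 * |Real.sinc (Real.pi * t)| ^ 3 ≤ 2 * (1 / (Real.pi * t)) ^ 3 := by linarith
          _ = 2 / Real.pi ^ 3 * (t ^ 3)⁻¹ := by
            rw [div_pow, mul_pow]
            field_simp

theorem st_int : Integrable ((Set.Ioc (1 : ℝ) 2).indicator stg1) ∧
    Integrable ((Set.Ioi (3 : ℝ)).indicator stg2) := by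
  constructor
  · rw [integrable_indicator_iff measurableSet_Ioc]
    have : ContinuousOn stg1 (Set.Icc 1 2) := by
      intro t ht
      have ht0 : t ≠ 0 := by
        have := ht.1
        intro h
        linarith
      apply ContinuousAt.continuousWithinAt
      exact continuousAt_const.mul (((continuousAt_const.sub continuousAt_id).sub
        (continuousAt_const.div continuousAt_id ht0)).pow 3)
    exact (this.integrableOn_compact isCompact_Icc).mono_set Set.Ioc_subset_Icc_self
  · rw [integrable_indicator_iff measurableSet_Ioi]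
    exact (integrableOn_Ioi_rpow_of_lt (by norm_num) (by norm_num)).const_mul _

theorem st_val : ∫ t in Set.Ioi (0 : ℝ), ((Set.Ioc (1 : ℝ) 2).indicator stg1 t +
    (Set.Ioi (3 : ℝ)).indicator stg2 t) ≤ 0.0144 := by
  have hp := Real.pi_pos
  rw [integral_add st_int.1.restrict st_int.2.restrict, setIntegral_indicator measurableSet_Ioc,
    setIntegral_indicator measurableSet_Ioi]
  have e1 : Set.Ioi (0 : ℝ) ∩ Set.Ioc 1 2 = Set.Ioc 1 2 := by
    apply Set.inter_eq_right.2
    intro t ht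
    have := ht.1
    exact lt_trans zero_lt_one this
  have e2 : Set.Ioi (0 : ℝ) ∩ Set.Ioi 3 = Set.Ioi 3 := by
    apply Set.inter_eq_right.2
    intro t ht
    have := Set.mem_Ioi.1 ht
    exact lt_trans (by norm_num) this
  rw [e1, e2, ← intervalIntegral.integral_of_le (by norm_num)]
  have e3 : ∫ t in (1 : ℝ)..2, stg1 t = 128 / Real.pi ^ 3 * (183 / 4 - 66 * Real.log 2) := by
    rw [← st_A, ← intervalIntegral.integral_const_mul]
    rfl
  have e4 : ∫ t in Set.Ioi (3 : ℝ), stg2 t = 2 / Real.pi ^ 3 * (1 / 18) := by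
    rw [← st_B, ← integral_const_mul]
    rfl
  rw [e3, e4]
  have h31 : (31 : ℝ) ≤ Real.pi ^ 3 := by
    have := Real.pi_gt_d4
    calc (31 : ℝ) ≤ 3.1415 ^ 3 := by norm_num
      _ ≤ Real.pi ^ 3 := pow_le_pow_left₀ (by norm_num) this.le 3
  have hl := Real.log_two_gt_d9
  have e5 : 128 / Real.pi ^ 3 * (183 / 4 - 66 * Real.log 2) + 2 / Real.pi ^ 3 * (1 / 18) =
      (128 * (183 / 4 - 66 * Real.log 2) + 1 / 9) / Real.pi ^ 3 := by
    field_simp
    ring
  rw [e5, div_le_iff₀ (by positivity)]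
  nlinarith

theorem sinc_three (h2 : Integrable (fun t : ℝ => Real.sinc (Real.pi * t) ^ 2))
    (h3 : ∫ t : ℝ, Real.sinc (Real.pi * t) ^ 3 = 3 / 4) :
    ∫ t : ℝ, |Real.sinc (Real.pi * t)| ^ 3 ≤ 0.7788 := by
  have hcont : Continuous (fun t : ℝ => Real.sinc (Real.pi * t)) :=
    Real.continuous_sinc.comp (continuous_const.mul continuous_id)
  have hle1 : ∀ t : ℝ, |Real.sinc (Real.pi * t)| ≤ 1 := fun t =>
    abs_le.2 ⟨Real.neg_one_le_sinc _, Real.sinc_le_one _⟩
  have hpw : ∀ t : ℝ, |Real.sinc (Real.pi * t)| ^ 3 ≤ Real.sinc (Real.pi * t) ^ 2 := by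
    intro t
    rw [← sq_abs (Real.sinc (Real.pi * t)), pow_succ]
    exact mul_le_of_le_one_right (sq_nonneg _) (hle1 t)
  have i1 : Integrable (fun t : ℝ => |Real.sinc (Real.pi * t)| ^ 3) := by
    refine h2.mono' ((hcont.abs.pow 3).aestronglyMeasurable) (Filter.Eventually.of_forall ?_)
    intro t
    rw [Real.norm_eq_abs, abs_of_nonneg (by positivity)]
    exact hpw t
  have i2 : Integrable (fun t : ℝ => Real.sinc (Real.pi * t) ^ 3) := by
    refine h2.mono' ((hcont.pow 3).aestronglyMeasurable) (Filter.Eventually.of_forall ?_)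
    intro t
    rw [Real.norm_eq_abs, abs_pow]
    exact hpw t
  have e1 : ∫ t : ℝ, |Real.sinc (Real.pi * t)| ^ 3 = 3 / 4 +
      ∫ t : ℝ, (|Real.sinc (Real.pi * t)| ^ 3 - Real.sinc (Real.pi * t) ^ 3) := by
    rw [integral_sub i1 i2, h3]
    ring
  have e2 : ∫ t : ℝ, (|Real.sinc (Real.pi * t)| ^ 3 - Real.sinc (Real.pi * t) ^ 3) =
      2 * ∫ t in Set.Ioi (0 : ℝ), (|Real.sinc (Real.pi * t)| ^ 3 - Real.sinc (Real.pi * t) ^ 3) := by
    rw [← integral_comp_abs (f := fun t : ℝ =>
      |Real.sinc (Real.pi * t)| ^ 3 - Real.sinc (Real.pi * t) ^ 3)]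
    refine integral_congr_ae (Filter.Eventually.of_forall (fun t => ?_))
    show |Real.sinc (Real.pi * t)| ^ 3 - Real.sinc (Real.pi * t) ^ 3 =
      |Real.sinc (Real.pi * |t|)| ^ 3 - Real.sinc (Real.pi * |t|) ^ 3
    have h : Real.sinc (Real.pi * |t|) = Real.sinc (Real.pi * t) := by
      rcases abs_cases t with ⟨h, -⟩ | ⟨h, -⟩
      · rw [h]
      · rw [h, mul_neg, Real.sinc_neg]
    rw [h]
  have e3 : ∫ t in Set.Ioi (0 : ℝ), (|Real.sinc (Real.pi * t)| ^ 3 - Real.sinc (Real.pi * t) ^ 3) ≤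
      ∫ t in Set.Ioi (0 : ℝ), ((Set.Ioc (1 : ℝ) 2).indicator stg1 t +
        (Set.Ioi (3 : ℝ)).indicator stg2 t) := by
    refine setIntegral_mono_on (i1.sub i2).integrableOn
      (st_int.1.add st_int.2).integrableOn measurableSet_Ioi ?_
    intro t ht
    exact st_pt t ht
  have e4 := st_val
  rw [e1, e2]
  have : (0.7788 : ℝ) = 3 / 4 + 2 * 0.0144 := by norm_num
  rw [this]
  linarith

end J26891

namespace J26894

theorem ball_two_three (h2 : Integrable (fun t : ℝ => Real.sinc (Real.pi * t) ^ 2))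
    (hI2 : ∫ t : ℝ, Real.sinc (Real.pi * t) ^ 2 = 1)
    (hI3 : ∫ t : ℝ, |Real.sinc (Real.pi * t)| ^ 3 ≤ 0.7788) (s : ℝ) (hs2 : 2 ≤ s) (hs3 : s ≤ 3) :
    ∫ t : ℝ, |Real.sinc (Real.pi * t)| ^ s ≤ √(2 / s) := by
  obtain ⟨θ, hθ⟩ : ∃ θ : ℝ, s = 2 + θ := ⟨s - 2, by ring⟩
  have hθ0 : 0 ≤ θ := by linarith
  have hθ1 : θ ≤ 1 := by linarith
  have hc : (0 : ℝ) < 0.7788 := by norm_num
  have hcont : Continuous (fun t : ℝ => |Real.sinc (Real.pi * t)|) :=
    (Real.continuous_sinc.comp (continuous_const.mul continuous_id)).abs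
  have hle : ∀ t : ℝ, |Real.sinc (Real.pi * t)| ≤ 1 := fun t => Real.abs_sinc_le_one _
  have h2' : Integrable (fun t : ℝ => |Real.sinc (Real.pi * t)| ^ 2) := by
    simpa only [sq_abs] using h2
  have h3 : Integrable (fun t : ℝ => |Real.sinc (Real.pi * t)| ^ 3) := by
    refine Integrable.mono' h2' (hcont.pow 3).aestronglyMeasurable (Eventually.of_forall fun t => ?_)
    rw [Real.norm_eq_abs, abs_of_nonneg (by positivity)]
    exact pow_le_pow_of_le_one (abs_nonneg _) (hle t) (by norm_num)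
  have hI2' : ∫ t : ℝ, |Real.sinc (Real.pi * t)| ^ 2 = 1 := by
    simpa only [sq_abs] using hI2
  have hpt : ∀ t : ℝ, |Real.sinc (Real.pi * t)| ^ s ≤ (0.7788 : ℝ) ^ θ *
      ((1 - θ) * |Real.sinc (Real.pi * t)| ^ 2 + θ / 0.7788 * |Real.sinc (Real.pi * t)| ^ 3) := by
    intro t
    have hg0 : 0 ≤ |Real.sinc (Real.pi * t)| := abs_nonneg _
    generalize |Real.sinc (Real.pi * t)| = g at hg0
    rw [hθ, Real.rpow_add_of_nonneg hg0 (by norm_num) hθ0, Real.rpow_two]
    have e1 : g ^ θ = (0.7788 : ℝ) ^ θ * (g / 0.7788) ^ θ := by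
      rw [← Real.mul_rpow hc.le (by positivity)]
      congr 1
      field_simp
    have e2 : (g / 0.7788) ^ θ ≤ 1 + θ * (g / 0.7788 - 1) := by
      have := rpow_one_add_le_one_add_mul_self (s := g / 0.7788 - 1) (p := θ)
        (by have : 0 ≤ g / 0.7788 := by positivity
            linarith) hθ0 hθ1
      rw [add_sub_cancel] at this
      exact this
    rw [e1]
    have hcθ : 0 < (0.7788 : ℝ) ^ θ := Real.rpow_pos_of_pos hc _
    calc g ^ 2 * ((0.7788 : ℝ) ^ θ * (g / 0.7788) ^ θ)
        = (0.7788 : ℝ) ^ θ * (g ^ 2 * (g / 0.7788) ^ θ) := by ring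
      _ ≤ (0.7788 : ℝ) ^ θ * (g ^ 2 * (1 + θ * (g / 0.7788 - 1))) :=
          mul_le_mul_of_nonneg_left (mul_le_mul_of_nonneg_left e2 (by positivity)) hcθ.le
      _ = _ := by ring
  have hint : ∫ t : ℝ, |Real.sinc (Real.pi * t)| ^ s ≤ (0.7788 : ℝ) ^ θ := by
    have hri : Integrable (fun t : ℝ => (0.7788 : ℝ) ^ θ *
        ((1 - θ) * |Real.sinc (Real.pi * t)| ^ 2 + θ / 0.7788 * |Real.sinc (Real.pi * t)| ^ 3)) :=
      ((h2'.const_mul _).add (h3.const_mul _)).const_mul _
    refine (integral_mono_of_nonneg (Eventually.of_forall fun t => by positivity) hri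
      (Eventually.of_forall hpt)).trans ?_
    rw [integral_const_mul, integral_add (h2'.const_mul _) (h3.const_mul _), integral_const_mul,
      integral_const_mul, hI2']
    have hcθ : 0 < (0.7788 : ℝ) ^ θ := Real.rpow_pos_of_pos hc _
    have h4 : (1 - θ) * 1 + θ / 0.7788 * ∫ t : ℝ, |Real.sinc (Real.pi * t)| ^ 3 ≤ 1 := by
      have h5 : θ / 0.7788 * ∫ t : ℝ, |Real.sinc (Real.pi * t)| ^ 3 ≤ θ / 0.7788 * 0.7788 :=
        mul_le_mul_of_nonneg_left hI3 (by positivity)
      have h6 : θ / 0.7788 * 0.7788 = θ := by field_simp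
      linarith
    calc _ ≤ (0.7788 : ℝ) ^ θ * 1 := mul_le_mul_of_nonneg_left h4 hcθ.le
      _ = _ := mul_one _
  refine hint.trans ?_
  have hlogc : Real.log 0.7788 ≤ -(1 / 4) := by
    rw [Real.log_le_iff_le_exp hc]
    have e1 : Real.exp (1 / 4) ≤ 1 / 0.7788 := by
      have e2 : Real.exp (1 / 4) ^ 4 ≤ (1 / 0.7788 : ℝ) ^ 4 := by
        rw [← Real.exp_nat_mul]
        have e3 : ((4 : ℕ) : ℝ) * (1 / 4) = 1 := by norm_num
        rw [e3]
        refine Real.exp_one_lt_d9.le.trans ?_
        norm_num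
      exact le_of_pow_le_pow_left₀ (by norm_num) (by norm_num) e2
    rw [Real.exp_neg]
    rw [le_inv_comm₀ hc (Real.exp_pos _)]
    refine e1.trans (le_of_eq ?_)
    norm_num
  have hs0 : 0 < s := by linarith
  rw [Real.sqrt_eq_rpow, Real.rpow_def_of_pos hc, Real.rpow_def_of_pos (by positivity)]
  apply Real.exp_le_exp.2
  have h7 : Real.log (2 / s) = -Real.log (1 + θ / 2) := by
    rw [← Real.log_inv]
    congr 1
    rw [hθ]
    field_simp
  rw [h7]
  have h8 : Real.log (1 + θ / 2) ≤ θ / 2 := by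
    have := Real.log_le_sub_one_of_pos (show 0 < 1 + θ / 2 by positivity)
    linarith
  have h9 : Real.log 0.7788 * θ ≤ -(1 / 4) * θ := mul_le_mul_of_nonneg_right hlogc hθ0
  linarith

end J26894

namespace J26895

theorem ball_three_four (h2 : Integrable (fun t : ℝ => Real.sinc (Real.pi * t) ^ 2))
    (hI2 : ∫ t : ℝ, Real.sinc (Real.pi * t) ^ 2 = 1)
    (hI4 : ∫ t : ℝ, Real.sinc (Real.pi * t) ^ 4 = 2 / 3) (s : ℝ) (hs3 : 3 ≤ s) (hs4 : s ≤ 4) :
    ∫ t : ℝ, |Real.sinc (Real.pi * t)| ^ s ≤ √(2 / s) := by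
  obtain ⟨θ, hθ⟩ : ∃ θ : ℝ, θ = (s - 2) / 2 := ⟨_, rfl⟩
  have hsθ : s = 2 + 2 * θ := by rw [hθ]; ring
  have hθ1 : 1 / 2 ≤ θ := by rw [hθ]; linarith
  have hθ2 : θ ≤ 1 := by rw [hθ]; linarith
  have h4 : Integrable (fun t : ℝ => Real.sinc (Real.pi * t) ^ 4) := by
    by_contra hcon
    rw [integral_undef hcon] at hI4
    norm_num at hI4
  -- pointwise bound
  have hpt : ∀ t : ℝ, |Real.sinc (Real.pi * t)| ^ s ≤ (2 / 3 : ℝ) ^ θ *
      ((1 - θ) * Real.sinc (Real.pi * t) ^ 2 + θ * ((3 / 2) * Real.sinc (Real.pi * t) ^ 4)) := by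
    intro t
    set x : ℝ := |Real.sinc (Real.pi * t)| with hx
    have hx0 : 0 ≤ x := abs_nonneg _
    have e2 : Real.sinc (Real.pi * t) ^ 2 = x ^ 2 := by rw [hx, sq_abs]
    have e4 : Real.sinc (Real.pi * t) ^ 4 = x ^ 4 := by
      rw [show (4 : ℕ) = 2 * 2 from rfl, pow_mul, pow_mul, e2]
    rw [e2, e4]
    have h5 := Real.geom_mean_le_arith_mean2_weighted (w₁ := 1 - θ) (w₂ := θ)
      (p₁ := x ^ 2) (p₂ := (3 / 2) * x ^ 4) (by linarith) (by linarith) (by positivity)
      (by positivity) (by ring)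
    have h6 : (x ^ 2) ^ (1 - θ) * ((3 / 2) * x ^ 4) ^ θ = (3 / 2 : ℝ) ^ θ * x ^ s := by
      rw [Real.mul_rpow (by norm_num) (by positivity)]
      rw [← Real.rpow_natCast x 2, ← Real.rpow_natCast x 4, ← Real.rpow_mul hx0,
        ← Real.rpow_mul hx0]
      have h7 : x ^ s = x ^ (((2 : ℕ) : ℝ) * (1 - θ)) * x ^ (((4 : ℕ) : ℝ) * θ) := by
        rw [← Real.rpow_add' hx0]
        · congr 1
          push_cast
          linarith
        · push_cast
          intro h8
          linarith
      rw [h7]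
      ring
    rw [h6] at h5
    have h9 : (2 / 3 : ℝ) ^ θ * ((3 / 2 : ℝ) ^ θ * x ^ s) = x ^ s := by
      rw [← mul_assoc, ← Real.mul_rpow (by norm_num) (by norm_num)]
      norm_num
    calc x ^ s = (2 / 3 : ℝ) ^ θ * ((3 / 2 : ℝ) ^ θ * x ^ s) := h9.symm
      _ ≤ _ := mul_le_mul_of_nonneg_left h5 (by positivity)
  have hint : Integrable (fun t : ℝ => (2 / 3 : ℝ) ^ θ *
      ((1 - θ) * Real.sinc (Real.pi * t) ^ 2 +
        θ * ((3 / 2) * Real.sinc (Real.pi * t) ^ 4))) :=
    ((h2.const_mul _).add ((h4.const_mul _).const_mul _)).const_mul _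
  have h10 : ∫ t : ℝ, |Real.sinc (Real.pi * t)| ^ s ≤ (2 / 3 : ℝ) ^ θ := by
    refine (integral_mono_of_nonneg (Filter.Eventually.of_forall fun t => ?_) hint
      (Filter.Eventually.of_forall hpt)).trans ?_
    · exact Real.rpow_nonneg (abs_nonneg _) _
    · rw [integral_const_mul, integral_add (h2.const_mul _) ((h4.const_mul _).const_mul _),
        integral_const_mul, integral_const_mul, integral_const_mul, hI2, hI4]
      refine le_of_eq ?_
      ring
  refine h10.trans ?_
  -- numerical inequality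
  have hlog : (1 : ℝ) / 3 ≤ Real.log (3 / 2) := by
    have := Real.one_sub_inv_le_log_of_pos (show (0 : ℝ) < 3 / 2 by norm_num)
    norm_num at this ⊢
    exact this
  have h11 : Real.log (1 + θ) ≤ 2 * θ * Real.log (3 / 2) := by
    have h12 : Real.log (1 + θ) = Real.log (3 / 2) + Real.log ((1 + θ) / (3 / 2)) := by
      rw [← Real.log_mul (by norm_num) (by positivity)]
      congr 1
      ring
    have h13 := Real.log_le_sub_one_of_pos (show (0 : ℝ) < (1 + θ) / (3 / 2) by positivity)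
    rw [h12]
    nlinarith
  apply Real.le_sqrt_of_sq_le
  rw [← Real.rpow_natCast, ← Real.rpow_mul (by norm_num)]
  have h14 : (0 : ℝ) < 2 / s := by positivity
  rw [← Real.log_le_log_iff (by positivity) h14, Real.log_rpow (by norm_num)]
  have h15 : (2 : ℝ) / s = (1 + θ)⁻¹ := by
    rw [hsθ]; field_simp
  rw [h15, Real.log_inv]
  have h16 : Real.log (2 / 3) = - Real.log (3 / 2) := by
    rw [← Real.log_inv]; norm_num
  rw [h16]
  push_cast
  linarith

end J26895

namespace J26896

theorem bgf_k_nonneg {x : ℝ} (h0 : 0 ≤ x) (h1 : x ≤ Real.pi) :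
    0 ≤ Real.sin x - x * Real.cos x := by
  have hmono : MonotoneOn (fun x : ℝ => Real.sin x - x * Real.cos x) (Set.Icc 0 Real.pi) := by
    apply monotoneOn_of_deriv_nonneg (convex_Icc _ _)
    · fun_prop
    · fun_prop
    · intro y hy
      rw [interior_Icc] at hy
      have : HasDerivAt (fun x : ℝ => Real.sin x - x * Real.cos x)
          (Real.cos y - (1 * Real.cos y + y * (-Real.sin y))) y :=
        (Real.hasDerivAt_sin y).sub ((hasDerivAt_id y).mul (Real.hasDerivAt_cos y))
      rw [this.deriv]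
      have := Real.sin_nonneg_of_mem_Icc ⟨hy.1.le, hy.2.le⟩
      nlinarith [mul_nonneg hy.1.le this]
  have := hmono ⟨le_refl _, Real.pi_pos.le⟩ ⟨h0, h1⟩ h0
  simpa using this

theorem bgf_h_nonneg {x : ℝ} (h0 : 0 ≤ x) (h1 : x ≤ Real.pi) :
    0 ≤ Real.sin x * (1 - x ^ 2 / 3) - x * Real.cos x := by
  have hmono : MonotoneOn (fun x : ℝ => Real.sin x * (1 - x ^ 2 / 3) - x * Real.cos x)
      (Set.Icc 0 Real.pi) := by
    apply monotoneOn_of_deriv_nonneg (convex_Icc _ _)
    · fun_prop
    · fun_prop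
    · intro y hy
      rw [interior_Icc] at hy
      have h2 : HasDerivAt (fun x : ℝ => 1 - x ^ 2 / 3) (0 - (2 * y ^ (2 - 1)) / 3) y := by
        have := ((hasDerivAt_pow 2 y).div_const 3)
        exact_mod_cast (hasDerivAt_const y (1 : ℝ)).sub this
      have : HasDerivAt (fun x : ℝ => Real.sin x * (1 - x ^ 2 / 3) - x * Real.cos x)
          (Real.cos y * (1 - y ^ 2 / 3) + Real.sin y * (0 - (2 * y ^ (2 - 1)) / 3)
            - (1 * Real.cos y + y * (-Real.sin y))) y :=
        ((Real.hasDerivAt_sin y).mul h2).sub ((hasDerivAt_id y).mul (Real.hasDerivAt_cos y))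
      rw [this.deriv]
      have hk := bgf_k_nonneg hy.1.le hy.2.le
      have := mul_nonneg hy.1.le hk
      norm_num
      nlinarith [this]
  have := hmono ⟨le_refl _, Real.pi_pos.le⟩ ⟨h0, h1⟩ h0
  simpa using this

theorem bgf_sinc_le {x : ℝ} (h0 : 0 ≤ x) (h1 : x ≤ Real.pi) :
    Real.sinc x ≤ Real.exp (-(x ^ 2 / 6)) := by
  have hanti : AntitoneOn (fun x : ℝ => Real.exp (x ^ 2 / 6) * Real.sinc x)
      (Set.Icc 0 Real.pi) := by
    apply antitoneOn_of_deriv_nonpos (convex_Icc _ _)
    · have := Real.continuous_sinc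
      fun_prop
    · intro y hy
      rw [interior_Icc] at hy
      have hd : DifferentiableAt ℝ (fun x : ℝ => Real.exp (x ^ 2 / 6) * (Real.sin x / x)) y := by
        have := hy.1.ne'
        fun_prop (disch := assumption)
      refine (hd.congr_of_eventuallyEq ?_).differentiableWithinAt
      filter_upwards [eventually_ne_nhds hy.1.ne'] with z hz
      rw [Real.sinc_of_ne_zero hz]
    · intro y hy
      rw [interior_Icc] at hy
      have he : (fun x : ℝ => Real.exp (x ^ 2 / 6) * Real.sinc x) =ᶠ[𝓝 y]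
          (fun x : ℝ => Real.exp (x ^ 2 / 6) * (Real.sin x / x)) := by
        filter_upwards [eventually_ne_nhds hy.1.ne'] with z hz
        rw [Real.sinc_of_ne_zero hz]
      rw [he.deriv_eq]
      have h2 : HasDerivAt (fun x : ℝ => Real.exp (x ^ 2 / 6))
          (Real.exp (y ^ 2 / 6) * ((2 * y ^ (2 - 1)) / 6)) y := by
        have := ((hasDerivAt_pow 2 y).div_const 6)
        exact_mod_cast this.exp
      have h3 : HasDerivAt (fun x : ℝ => Real.sin x / x)
          ((Real.cos y * y - Real.sin y * 1) / y ^ 2) y :=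
        (Real.hasDerivAt_sin y).div (hasDerivAt_id y) hy.1.ne'
      have h4 : HasDerivAt (fun x : ℝ => Real.exp (x ^ 2 / 6) * (Real.sin x / x))
          (Real.exp (y ^ 2 / 6) * (2 * y ^ (2 - 1) / 6) * (Real.sin y / y)
          + Real.exp (y ^ 2 / 6) * ((Real.cos y * y - Real.sin y * 1) / y ^ 2)) y := h2.mul h3
      rw [h4.deriv]
      have hh := bgf_h_nonneg hy.1.le hy.2.le
      have hy0 := hy.1
      have : Real.exp (y ^ 2 / 6) * (2 * y ^ (2 - 1) / 6) * (Real.sin y / y)
          + Real.exp (y ^ 2 / 6) * ((Real.cos y * y - Real.sin y * 1) / y ^ 2)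
          = - (Real.exp (y ^ 2 / 6) / y ^ 2 *
            (Real.sin y * (1 - y ^ 2 / 3) - y * Real.cos y)) := by
        field_simp
        ring
      rw [this]
      have : 0 ≤ Real.exp (y ^ 2 / 6) / y ^ 2 *
            (Real.sin y * (1 - y ^ 2 / 3) - y * Real.cos y) := mul_nonneg (by positivity) hh
      linarith
  have h := hanti ⟨le_refl _, Real.pi_pos.le⟩ ⟨h0, h1⟩ h0
  simp only [Real.sinc_zero] at h
  norm_num at h
  rw [Real.exp_neg]
  rw [← one_div, le_div_iff₀ (Real.exp_pos _), mul_comm]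
  exact h

theorem ball_ge_four (h2 : Integrable (fun t : ℝ => Real.sinc (Real.pi * t) ^ 2))
    (s : ℝ) (hs4 : 4 ≤ s) :
    ∫ t : ℝ, |Real.sinc (Real.pi * t)| ^ s ≤ √(2 / s) := by
  have hpi := Real.pi_pos
  have hs0 : 0 < s := by linarith
  -- integrability
  have hmeas : Continuous (fun t : ℝ => |Real.sinc (Real.pi * t)| ^ s) := by
    have h1 : Continuous (fun t : ℝ => |Real.sinc (Real.pi * t)|) := by
      have := Real.continuous_sinc
      fun_prop
    exact h1.rpow_const (fun _ => Or.inr hs0.le)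
  have hint : Integrable (fun t : ℝ => |Real.sinc (Real.pi * t)| ^ s) := by
    refine h2.mono hmeas.aestronglyMeasurable (Filter.Eventually.of_forall fun t => ?_)
    have ha := abs_nonneg (Real.sinc (Real.pi * t))
    have hb : |Real.sinc (Real.pi * t)| ≤ 1 := Real.abs_sinc_le_one _
    rw [Real.norm_of_nonneg (Real.rpow_nonneg ha s), Real.norm_of_nonneg (sq_nonneg _),
      ← sq_abs, ← Real.rpow_natCast]
    rcases ha.eq_or_lt with h0 | h0
    · rw [← h0, Real.zero_rpow hs0.ne', Real.zero_rpow (by norm_num)]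
    · exact Real.rpow_le_rpow_of_exponent_ge h0 hb (by push_cast; linarith)
  -- symmetry
  have hsym : ∫ t : ℝ, |Real.sinc (Real.pi * t)| ^ s
      = 2 * ∫ t in Set.Ioi (0 : ℝ), |Real.sinc (Real.pi * t)| ^ s := by
    rw [← integral_comp_abs (f := fun t : ℝ => |Real.sinc (Real.pi * t)| ^ s)]
    congr 1
    ext t
    rcases abs_choice t with h | h
    · rw [h]
    · rw [h, mul_neg, Real.sinc_neg]
  have hsplit : ∫ t in Set.Ioi (0 : ℝ), |Real.sinc (Real.pi * t)| ^ s
      = (∫ t in Set.Ioc (0 : ℝ) 1, |Real.sinc (Real.pi * t)| ^ s)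
        + ∫ t in Set.Ioi (1 : ℝ), |Real.sinc (Real.pi * t)| ^ s := by
    rw [← setIntegral_union (Set.Ioc_disjoint_Ioi le_rfl) measurableSet_Ioi
      hint.integrableOn hint.integrableOn, Set.Ioc_union_Ioi_eq_Ioi zero_le_one]
  have hb0 : 0 < s * Real.pi ^ 2 / 6 := by positivity
  have hA : ∫ t in Set.Ioc (0 : ℝ) 1, |Real.sinc (Real.pi * t)| ^ s
      ≤ √(Real.pi / (s * Real.pi ^ 2 / 6)) / 2 := by
    rw [← integral_gaussian_Ioi]
    have hg : Integrable (fun t : ℝ => Real.exp (-(s * Real.pi ^ 2 / 6) * t ^ 2)) :=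
      integrable_exp_neg_mul_sq hb0
    calc ∫ t in Set.Ioc (0 : ℝ) 1, |Real.sinc (Real.pi * t)| ^ s
        ≤ ∫ t in Set.Ioc (0 : ℝ) 1, Real.exp (-(s * Real.pi ^ 2 / 6) * t ^ 2) := by
          refine setIntegral_mono_on hint.integrableOn hg.integrableOn measurableSet_Ioc ?_
          intro t ht
          have h1 : 0 ≤ Real.pi * t := mul_nonneg hpi.le ht.1.le
          have h3 : Real.pi * t ≤ Real.pi := by nlinarith [ht.2]
          have h4 : 0 ≤ Real.sinc (Real.pi * t) := by
            rw [Real.sinc_of_ne_zero (mul_pos hpi ht.1).ne']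
            exact div_nonneg (Real.sin_nonneg_of_mem_Icc ⟨h1, h3⟩) h1
          rw [abs_of_nonneg h4]
          calc Real.sinc (Real.pi * t) ^ s ≤ Real.exp (-((Real.pi * t) ^ 2 / 6)) ^ s :=
                Real.rpow_le_rpow h4 (bgf_sinc_le h1 h3) hs0.le
            _ = Real.exp (-(s * Real.pi ^ 2 / 6) * t ^ 2) := by
                rw [← Real.exp_mul]; congr 1; ring
      _ ≤ ∫ t in Set.Ioi (0 : ℝ), Real.exp (-(s * Real.pi ^ 2 / 6) * t ^ 2) := by
          refine setIntegral_mono_set hg.integrableOn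
            (Filter.Eventually.of_forall fun t => (Real.exp_pos _).le) ?_
          exact (Filter.Eventually.of_forall fun t ht => ht.1)
  have hB : ∫ t in Set.Ioi (1 : ℝ), |Real.sinc (Real.pi * t)| ^ s
      ≤ Real.pi ^ (-s) / (s - 1) := by
    have hI : IntegrableOn (fun t : ℝ => Real.pi ^ (-s) * t ^ (-s)) (Set.Ioi 1) :=
      (integrableOn_Ioi_rpow_of_lt (by linarith) zero_lt_one).const_mul _
    calc ∫ t in Set.Ioi (1 : ℝ), |Real.sinc (Real.pi * t)| ^ s
        ≤ ∫ t in Set.Ioi (1 : ℝ), Real.pi ^ (-s) * t ^ (-s) := by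
          refine setIntegral_mono_on hint.integrableOn hI measurableSet_Ioi ?_
          intro t ht
          have ht1 : (1 : ℝ) < t := ht
          have ht0 : 0 < t := by linarith
          have h1 : 0 < Real.pi * t := mul_pos hpi ht0
          rw [← Real.mul_rpow hpi.le ht0.le, Real.rpow_neg h1.le, ← Real.inv_rpow h1.le]
          refine Real.rpow_le_rpow (abs_nonneg _) ?_ hs0.le
          rw [Real.sinc_of_ne_zero h1.ne', abs_div, abs_of_pos h1, inv_eq_one_div]
          exact div_le_div_of_nonneg_right (Real.abs_sin_le_one _) h1.le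
      _ = Real.pi ^ (-s) / (s - 1) := by
          rw [integral_const_mul, integral_Ioi_rpow_of_lt (by linarith) zero_lt_one,
            Real.one_rpow, div_eq_mul_one_div (Real.pi ^ (-s)) (s - 1)]
          congr 1
          rw [div_eq_div_iff (by linarith) (by linarith)]
          ring
  rw [hsym, hsplit]
  have hC : 2 * (√(Real.pi / (s * Real.pi ^ 2 / 6)) / 2 + Real.pi ^ (-s) / (s - 1))
      ≤ √(2 / s) := by
    have e1 : Real.pi / (s * Real.pi ^ 2 / 6) = (6 / Real.pi) / s := by
      field_simp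
    rw [e1, Real.sqrt_div (x := 6 / Real.pi) (by positivity) s,
      Real.sqrt_div (x := (2 : ℝ)) (by norm_num) s]
    have hss : 0 < √s := Real.sqrt_pos.mpr hs0
    have hs2 : 2 ≤ √s := by
      rw [show (2 : ℝ) = √4 by rw [show (4 : ℝ) = 2 ^ 2 by norm_num, Real.sqrt_sq (by norm_num)]]
      exact Real.sqrt_le_sqrt hs4
    have hsq : √s * √s = s := Real.mul_self_sqrt hs0.le
    have hp : Real.pi ^ (-s) ≤ 0.0103 := by
      calc Real.pi ^ (-s) ≤ Real.pi ^ (-(4 : ℝ)) :=
            Real.rpow_le_rpow_of_exponent_le (by linarith [Real.pi_gt_three]) (by linarith)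
        _ = (Real.pi ^ 4)⁻¹ := by
            rw [Real.rpow_neg hpi.le]; norm_cast
        _ ≤ ((3.14 : ℝ) ^ 4)⁻¹ := by
            apply inv_anti₀ (by norm_num)
            exact pow_le_pow_left₀ (by norm_num) Real.pi_gt_d2.le 4
        _ ≤ 0.0103 := by norm_num
    have h6 : √(6 / Real.pi) ≤ 1.383 := by
      rw [Real.sqrt_le_left (by norm_num), div_le_iff₀ hpi]
      nlinarith [Real.pi_gt_d2]
    have h2' : 1.414 ≤ √2 := by
      apply Real.le_sqrt_of_sq_le
      norm_num
    rw [le_div_iff₀ hss]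
    have hm : (0 : ℝ) ≤ Real.pi ^ (-s) := Real.rpow_nonneg hpi.le _
    have h7 : 2 * (Real.pi ^ (-s) / (s - 1)) * √s ≤ 0.0138 := by
      have : √s / (s - 1) ≤ 2 / 3 := by
        rw [div_le_div_iff₀ (by linarith) (by norm_num)]
        nlinarith
      calc 2 * (Real.pi ^ (-s) / (s - 1)) * √s = 2 * Real.pi ^ (-s) * (√s / (s - 1)) := by ring
        _ ≤ 2 * 0.0103 * (2 / 3) := by
            apply mul_le_mul (by linarith) this
              (div_nonneg hss.le (by linarith)) (by norm_num)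
        _ ≤ 0.0138 := by norm_num
    calc 2 * (√(6 / Real.pi) / √s / 2 + Real.pi ^ (-s) / (s - 1)) * √s
        = √(6 / Real.pi) * (√s / √s) + 2 * (Real.pi ^ (-s) / (s - 1)) * √s := by ring
      _ = √(6 / Real.pi) + 2 * (Real.pi ^ (-s) / (s - 1)) * √s := by
          rw [div_self hss.ne', mul_one]
      _ ≤ √2 := by linarith
  linarith

end J26896

end Pool.Agent.Helper7.Simplex.OT
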