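import Pool.Agent.Helper7.OT.Sinc
import Pool.Agent.Helper7.OT.BL
import Pool.Agent.Helper7.OT.Compl
import Pool.Agent.Helper7.Simplex.Core
import Pool.Agent.Helper7.Cube.Trans

set_option linter.all false

open MeasureTheory ProbabilityTheory Matrix Filter Topology
open scoped ENNReal NNReal

namespace Pool.Agent.Helper7.Simplex.OT

theorem sinc_two_int : Integrable (fun t : ℝ => Real.sinc (Real.pi * t) ^ 2) :=
  (J26884.sinc_fourier 0).1

theorem sinc_int (s : ℝ) (hs : 2 ≤ s) :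
    Integrable (fun t : ℝ => |Real.sinc (Real.pi * t)| ^ s) := by
  refine sinc_two_int.mono' ?_ ?_
  · refine Measurable.aestronglyMeasurable ?_
    have : Continuous fun t : ℝ => Real.sinc (Real.pi * t) :=
      Real.continuous_sinc.comp (continuous_const.mul continuous_id)
    exact this.abs.measurable.pow_const s
  · refine Filter.Eventually.of_forall fun t => ?_
    have h0 := abs_nonneg (Real.sinc (Real.pi * t))
    have h1 : |Real.sinc (Real.pi * t)| ≤ 1 := Real.abs_sinc_le_one _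
    rw [Real.norm_eq_abs, abs_of_nonneg (Real.rpow_nonneg h0 s), ← sq_abs]
    calc |Real.sinc (Real.pi * t)| ^ s ≤ |Real.sinc (Real.pi * t)| ^ (2 : ℝ) := by
          rcases eq_or_lt_of_le h0 with h | h
          · rw [← h, Real.zero_rpow (by linarith), Real.zero_rpow (by norm_num)]
          · exact Real.rpow_le_rpow_of_exponent_ge h h1 hs
      _ = |Real.sinc (Real.pi * t)| ^ 2 := by norm_cast

theorem sinc_ball (s : ℝ) (hs : 2 ≤ s) :
    Integrable (fun t : ℝ => |Real.sinc (Real.pi * t)| ^ s) ∧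
      ∫ t : ℝ, |Real.sinc (Real.pi * t)| ^ s ≤ √(2 / s) := by
  refine ⟨sinc_int s hs, ?_⟩
  obtain ⟨m2, m3, m4⟩ := J26889.sinc_moments (fun x => J26884.sinc_fourier x)
  have m3' := J26891.sinc_three sinc_two_int m3
  rcases le_total s 3 with h | h
  · exact J26894.ball_two_three sinc_two_int m2 m3' s hs h
  · rcases le_total s 4 with h' | h'
    · exact J26895.ball_three_four sinc_two_int m2 m4 s h h'
    · exact J26896.ball_ge_four sinc_two_int s h'

theorem hdet_all {d : ℕ} {ι : Type*} [Fintype ι] (w : ι → Fin d → ℝ)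
    (hI : ∑ i, vecMulVec (w i) (w i) = 1) (a : ι → ℝ) (ha : ∀ i, 0 < a i) :
    0 < (∑ i, a i • vecMulVec (w i) (w i)).det ∧
      ∏ i, a i ^ (w i ⬝ᵥ w i) ≤ (∑ i, a i • vecMulVec (w i) (w i)).det := by
  have h1 := J7445.K_det_pos w hI (fun i => Real.log (a i))
  have h2 := k_ineq w hI (fun i => Real.log (a i))
  simp only [Real.exp_log (ha _)] at h1 h2
  refine ⟨h1.2, ?_⟩
  have hK : 0 ≤ (1 / 2 : ℝ) * ∑ i, ∑ j, (w i ⬝ᵥ w j) ^ 2 * KK (Real.log (a i) - Real.log (a j)) := by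
    refine mul_nonneg (by norm_num) (Finset.sum_nonneg fun i _ => Finset.sum_nonneg fun j _ =>
      mul_nonneg (sq_nonneg _) ?_)
    unfold KK
    have := Real.add_one_le_exp (-|Real.log (a i) - Real.log (a j)|)
    linarith
  have h3 : Real.log (∏ i, a i ^ (w i ⬝ᵥ w i)) = ∑ i, (w i ⬝ᵥ w i) * Real.log (a i) := by
    rw [Real.log_prod (fun i _ => (Real.rpow_pos_of_pos (ha i) _).ne')]
    exact Finset.sum_congr rfl fun i _ => Real.log_rpow (ha i) _
  rw [← Real.log_le_log_iff (Finset.prod_pos fun i _ => Real.rpow_pos_of_pos (ha i) _) h1.2, h3]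
  linarith

theorem BL_all {r : ℕ} {ι : Type} [Fintype ι] (w : ι → Fin r → ℝ)
    (hI : ∑ i, vecMulVec (w i) (w i) = 1) (hc0 : ∀ i, 0 < w i ⬝ᵥ w i)
    (f : ι → ℝ → ℝ) (hf : ∀ i, Continuous (f i)) (hpos : ∀ i t, 0 ≤ f i t)
    (hint : ∀ i, Integrable (f i)) :
    ∫⁻ x : Fin r → ℝ, ENNReal.ofReal (∏ i, (f i ((w i ⬝ᵥ x) / √(w i ⬝ᵥ w i))) ^ (w i ⬝ᵥ w i)) ≤
      ENNReal.ofReal (∏ i, (∫ t, f i t) ^ (w i ⬝ᵥ w i)) := by
  have hQ : ∃ Q : ℝ → ℝ, ∀ s : ℝ, -(1 / 2) < s → s < 1 / 2 → HasDerivAt Q (gpdf (Q s))⁻¹ s := by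
    obtain ⟨Q, hQ⟩ := Cube.J20596.quantile g_basic
    exact ⟨Q, fun s h1 h2 => (hQ s h1 h2).2⟩
  exact J26899.BL_nonneg w hc0 (fun f h1 h2 h3 => J26898.BL_pos w hI hc0
    (fun a ha => hdet_all w hI a ha)
    (fun φ φ' y h => Cube.J20598.T_fderiv_loc w φ φ' y h)
    (fun f h1 h2 h3 => J26897.transport_one hQ f h1 h2 h3) f h1 h2 h3) f hf hpos hint

/-- Ball's bound: frames of long vectors -/
theorem iso2_aux {d r m : ℕ} (hm : d + r = m) (w : Fin m → Fin d → ℝ)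
    (v : Fin m → Fin r → ℝ) (hI : ∑ i, vecMulVec (w i) (w i) = 1)
    (hv : ∑ i, vecMulVec (v i) (v i) = 1)
    (hG : ∀ i j, w i ⬝ᵥ w j + v i ⬝ᵥ v j = if i = j then 1 else 0)
    (hO : ∀ a b, ∑ i, w i a * v i b = 0)
    (hsec : volume {x : Fin d → ℝ | ∀ i, |w i ⬝ᵥ x| < 1 / 2} ≤
      ∫⁻ s : Fin r → ℝ, ENNReal.ofReal (∏ i, |Real.sinc (Real.pi * (v i ⬝ᵥ s))|))
    (hc : ∀ i, 1 / 2 ≤ w i ⬝ᵥ w i) :
    volume {x : Fin d → ℝ | ∀ i, |w i ⬝ᵥ x| ≤ 1 / 2} ≤ ENNReal.ofReal (√2 ^ r) := by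
  have hw : ∀ i, w i ≠ 0 := by
    intro i h0
    have := hc i
    rw [h0] at this
    simp at this
    linarith
  refine (Cube.J20601.KB_boundary w hw).trans (hsec.trans ?_)
  refine J26902.ball_bound v hv (fun i => ?_) sinc_ball (fun w hI hc0 f h1 h2 h3 =>
    BL_all w hI hc0 f h1 h2 h3)
  have := hG i i
  rw [if_pos rfl] at this
  linarith [hc i]

end Pool.Agent.Helper7.Simplex.OT
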